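import Mathlib

/-! Abstract fixed point theorem: `w = L w + B(w,w) + f` with `‖L^m‖ ≤ Γ 2^{-m}` and small `f`. -/

open Set Filter Topology

namespace H754R3.NSD

variable {X : Type*} [NormedAddCommGroup X] [NormedSpace ℝ X] [CompleteSpace X]

lemma neumann_exists (L : X →L[ℝ] X) {Γ : ℝ} (hΓ : 0 ≤ Γ)
    (hL : ∀ (m : ℕ) (x : X), ‖(L ^ m) x‖ ≤ Γ * (1 / 2) ^ m * ‖x‖) :
    ∃ N : X →L[ℝ] X, (∀ x, ‖N x‖ ≤ 2 * Γ * ‖x‖) ∧ (∀ x, N x = L (N x) + x) ∧
      ∀ (S : Submodule ℝ X), IsClosed (S : Set X) → (∀ x ∈ S, L x ∈ S) → ∀ x ∈ S, N x ∈ S := by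
  have hop : ∀ m : ℕ, ‖L ^ m‖ ≤ Γ * (1 / 2) ^ m := fun m =>
    ContinuousLinearMap.opNorm_le_bound _ (by positivity) (hL m)
  have hgeo : Summable (fun m : ℕ => Γ * (1 / 2 : ℝ) ^ m) :=
    (summable_geometric_of_lt_one (by norm_num) (by norm_num)).mul_left Γ
  have hs : Summable (fun m : ℕ => ‖L ^ m‖) :=
    Summable.of_nonneg_of_le (fun m => norm_nonneg _) hop hgeo
  have hs' : Summable (fun m : ℕ => L ^ m) := hs.of_norm
  refine ⟨∑' m, L ^ m, ?_, ?_, ?_⟩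
  · intro x
    have h1 : ‖∑' m, L ^ m‖ ≤ 2 * Γ := by
      refine (norm_tsum_le_tsum_norm hs).trans ?_
      refine (hs.tsum_le_tsum hop hgeo).trans ?_
      rw [tsum_mul_left, tsum_geometric_two]
      linarith
    exact (ContinuousLinearMap.le_opNorm _ _).trans (mul_le_mul_of_nonneg_right h1 (norm_nonneg _))
  · intro x
    have hx : ∀ y : X, HasSum (fun m => (L ^ m) y) ((∑' m, L ^ m) y) := fun y =>
      (ContinuousLinearMap.hasSum ((ContinuousLinearMap.apply ℝ X) y) hs'.hasSum)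
    have h1 : HasSum (fun m => (L ^ (m + 1)) x) (L ((∑' m, L ^ m) x)) := by
      have := ContinuousLinearMap.hasSum L (hx x)
      refine this.congr_fun ?_ |> fun h => h
      intro m
      show (L ^ (m + 1)) x = L ((L ^ m) x)
      rw [pow_succ']
      rfl
    have h2 := (hasSum_nat_add_iff' 1).mpr (hx x)
    simp only [Finset.sum_range_one, pow_zero] at h2
    have h3 := h2.unique h1
    have h4 : (∑' m, L ^ m) x = L ((∑' m, L ^ m) x) + (1 : X →L[ℝ] X) x := by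
      rw [← h3]; abel
    simpa using h4
  · intro S hS hLS x hx
    have hmem : ∀ m : ℕ, (L ^ m) x ∈ S := by
      intro m
      induction m with
      | zero => simpa using hx
      | succ m ih => rw [pow_succ']; exact hLS _ ih
    have hsum : HasSum (fun m => (L ^ m) x) ((∑' m, L ^ m) x) :=
      (ContinuousLinearMap.hasSum ((ContinuousLinearMap.apply ℝ X) x) hs'.hasSum)
    exact hS.mem_of_tendsto hsum (Filter.Eventually.of_forall fun s => S.sum_mem fun i _ => hmem i)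

/-- The fixed point theorem. -/
theorem fixed_exists (L : X →L[ℝ] X) (B : X →L[ℝ] X →L[ℝ] X) {Γ β : ℝ} (hΓ : 1 ≤ Γ) (hβ : 0 < β)
    (hL : ∀ (m : ℕ) (x : X), ‖(L ^ m) x‖ ≤ Γ * (1 / 2) ^ m * ‖x‖)
    (hB : ∀ x y, ‖B x y‖ ≤ β * ‖x‖ * ‖y‖) (f : X) (hf : ‖f‖ ≤ 1 / (32 * Γ ^ 2 * β))
    (S : Submodule ℝ X) (hS : IsClosed (S : Set X)) (hLS : ∀ x ∈ S, L x ∈ S)
    (hBS : ∀ x ∈ S, ∀ y ∈ S, B x y ∈ S) (hfS : f ∈ S) :
    ∃ w ∈ S, w = L w + B w w + f ∧ ‖w‖ ≤ 4 * Γ * ‖f‖ := by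
  obtain ⟨N, hN, hN2, hNS⟩ := neumann_exists L (by linarith) hL
  set r : ℝ := 4 * Γ * ‖f‖ with hr
  have hr0 : 0 ≤ r := by positivity
  have hΓ0 : 0 < Γ := by linarith
  have hrs : r * (8 * Γ * β) ≤ 1 := by
    have : ‖f‖ * (32 * Γ ^ 2 * β) ≤ 1 := by
      rwa [le_div_iff₀ (by positivity)] at hf
    calc r * (8 * Γ * β) = ‖f‖ * (32 * Γ ^ 2 * β) := by rw [hr]; ring
      _ ≤ 1 := this
  set Φ : X → X := fun w => N (B w w + f) with hΦ
  set s : Set X := Metric.closedBall 0 r ∩ (S : Set X) with hs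
  have hsc : IsComplete s := (Metric.isClosed_closedBall.inter hS).isComplete
  have hmaps : MapsTo Φ s s := by
    intro w hw
    have hw1 : ‖w‖ ≤ r := by simpa using hw.1
    refine ⟨?_, hNS S hS hLS _ (S.add_mem (hBS w hw.2 w hw.2) hfS)⟩
    rw [mem_closedBall_zero_iff]
    calc ‖N (B w w + f)‖ ≤ 2 * Γ * ‖B w w + f‖ := hN _
      _ ≤ 2 * Γ * (β * ‖w‖ * ‖w‖ + ‖f‖) := by
          gcongr
          exact (norm_add_le _ _).trans (by gcongr; exact hB w w)
      _ ≤ 2 * Γ * (β * r * r + ‖f‖) := by gcongr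
      _ = r * (8 * Γ * β) * (r / 4) + r / 2 := by rw [hr]; ring
      _ ≤ 1 * (r / 4) + r / 2 := by gcongr
      _ ≤ r := by linarith
  have hcontr : ContractingWith (1 / 2 : NNReal) (hmaps.restrict Φ s s) := by
    refine ⟨?_, ?_⟩
    · rw [← NNReal.coe_lt_coe]; norm_num
    · refine LipschitzWith.of_dist_le_mul fun w w' => ?_
      have hw1 : ‖(w : X)‖ ≤ r := by simpa using w.2.1
      have hw2 : ‖(w' : X)‖ ≤ r := by simpa using w'.2.1
      have e1 : dist (hmaps.restrict Φ s s w) (hmaps.restrict Φ s s w') =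
          ‖N (B (w : X) w + f) - N (B (w' : X) w' + f)‖ := by
        rw [Subtype.dist_eq, dist_eq_norm]; rfl
      have e2 : dist w w' = ‖(w : X) - w'‖ := by rw [Subtype.dist_eq, dist_eq_norm]
      rw [e1, e2, ← map_sub]
      have e3 : B (w : X) w + f - (B (w' : X) w' + f) = B ((w : X) - w') w + B (w' : X) (w - w') := by
        simp only [map_sub, ContinuousLinearMap.sub_apply]; abel
      rw [e3]
      calc ‖N (B ((w : X) - w') w + B (w' : X) (w - w'))‖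
          ≤ 2 * Γ * ‖B ((w : X) - w') w + B (w' : X) (w - w')‖ := hN _
        _ ≤ 2 * Γ * (β * ‖(w : X) - w'‖ * ‖(w : X)‖ + β * ‖(w' : X)‖ * ‖(w : X) - w'‖) := by
            gcongr
            exact (norm_add_le _ _).trans (add_le_add (hB _ _) (hB _ _))
        _ ≤ 2 * Γ * (β * ‖(w : X) - w'‖ * r + β * r * ‖(w : X) - w'‖) := by gcongr
        _ = r * (8 * Γ * β) * (‖(w : X) - w'‖ / 2) := by ring
        _ ≤ 1 * (‖(w : X) - w'‖ / 2) := by gcongr
        _ = ((1 / 2 : NNReal) : ℝ) * ‖(w : X) - w'‖ := by push_cast; ring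
  have h0 : (0 : X) ∈ s := ⟨by simpa using hr0, S.zero_mem⟩
  obtain ⟨w, hw, hfix, -⟩ := hcontr.exists_fixedPoint' hsc hmaps h0 (edist_ne_top _ _)
  have hfix' : N (B w w + f) = w := hfix
  refine ⟨w, hw.2, ?_, by simpa using hw.1⟩
  have := hN2 (B w w + f)
  rw [hfix'] at this
  rw [add_assoc]; exact this

end H754R3.NSD
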