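import Mathlib

/-! Convolution type bilinear operators on `ℓ¹(I; E)`. -/

open Set Filter Topology

namespace H754R3.NSD

section
variable {I : Type*} [AddCommGroup I] {E : Type*} [NormedAddCommGroup E] [NormedSpace ℝ E]
  [CompleteSpace E]

/-- The space `ℓ¹(I; E)`. -/
abbrev X1 (I E : Type*) [NormedAddCommGroup E] := lp (fun _ : I => E) 1

omit [AddCommGroup I] [NormedSpace ℝ E] [CompleteSpace E] in
lemma x1_norm (g : X1 I E) : ‖g‖ = ∑' k, ‖g k‖ := by
  rw [lp.norm_eq_tsum_rpow (by norm_num)]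
  simp

omit [AddCommGroup I] [NormedSpace ℝ E] [CompleteSpace E] in
lemma x1_summable (g : X1 I E) : Summable fun k => ‖g k‖ := by
  have := (lp.memℓp g).summable (by norm_num)
  simpa using this

omit [AddCommGroup I] [NormedSpace ℝ E] [CompleteSpace E] in
lemma x1_mem {f : I → E} (hf : Summable fun k => ‖f k‖) : Memℓp f 1 := by
  apply memℓp_gen
  simpa using hf

/-- Constructor. -/
def x1mk (f : I → E) (hf : Summable fun k => ‖f k‖) : X1 I E := ⟨f, x1_mem hf⟩

omit [AddCommGroup I] [NormedSpace ℝ E] [CompleteSpace E] in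
@[simp] lemma x1mk_apply (f : I → E) (hf : Summable fun k => ‖f k‖) (k : I) : x1mk f hf k = f k := rfl

omit [AddCommGroup I] [NormedSpace ℝ E] [CompleteSpace E] in
lemma x1_norm_le_apply (g : X1 I E) (k : I) : ‖g k‖ ≤ ‖g‖ := by
  rw [x1_norm]
  exact (x1_summable g).le_tsum k fun _ _ => norm_nonneg _

/-- reindexing `(k, j) ↦ (j, k - j)` -/
def cEquiv (I : Type*) [AddCommGroup I] : I × I ≃ I × I where
  toFun p := (p.2, p.1 - p.2)
  invFun p := (p.1 + p.2, p.1)
  left_inv p := by simp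
  right_inv p := by simp

lemma conv_real {a b : I → ℝ} (ha0 : ∀ j, 0 ≤ a j) (hb0 : ∀ j, 0 ≤ b j) (ha : Summable a)
    (hb : Summable b) :
    Summable (fun p : I × I => a p.2 * b (p.1 - p.2)) ∧
    (∀ k, Summable fun j => a j * b (k - j)) ∧ Summable (fun k => ∑' j, a j * b (k - j)) ∧
      ∑' k, ∑' j, a j * b (k - j) = (∑' j, a j) * (∑' j, b j) := by
  have h1 : Summable (fun p : I × I => a p.1 * b p.2) := ha.mul_of_nonneg hb ha0 hb0
  have h2 : Summable (fun p : I × I => a p.2 * b (p.1 - p.2)) := by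
    have := (cEquiv I).summable_iff.2 h1
    exact this
  refine ⟨h2, fun k => h2.prod_factor k, h2.prod, ?_⟩
  rw [← h2.tsum_prod, ha.tsum_mul_tsum hb h1]
  exact (cEquiv I).tsum_eq (fun p : I × I => a p.1 * b p.2)

omit [NormedSpace ℝ E] in
lemma conv_bound {F : I → I → E} {a b : I → ℝ} (ha0 : ∀ j, 0 ≤ a j) (hb0 : ∀ j, 0 ≤ b j)
    (ha : Summable a) (hb : Summable b) (hF : ∀ k j, ‖F k j‖ ≤ a j * b (k - j)) :
    (∀ k, Summable fun j => ‖F k j‖) ∧ Summable (fun k => ‖∑' j, F k j‖) ∧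
      ∑' k, ‖∑' j, F k j‖ ≤ (∑' j, a j) * (∑' j, b j) := by
  obtain ⟨-, h1, h2, h3⟩ := conv_real ha0 hb0 ha hb
  have h4 : ∀ k, Summable fun j => ‖F k j‖ := fun k =>
    Summable.of_nonneg_of_le (fun j => norm_nonneg _) (hF k) (h1 k)
  have h5 : ∀ k, ‖∑' j, F k j‖ ≤ ∑' j, a j * b (k - j) := fun k =>
    (norm_tsum_le_tsum_norm (h4 k)).trans ((h4 k).tsum_le_tsum (hF k) (h1 k))
  have h6 : Summable (fun k => ‖∑' j, F k j‖) :=
    Summable.of_nonneg_of_le (fun k => norm_nonneg _) h5 h2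
  exact ⟨h4, h6, (h6.tsum_le_tsum h5 h2).trans h3.le⟩

variable (T : I → I → E →L[ℝ] E →L[ℝ] E) {C : ℝ}

lemma conv_T_bound (hT : ∀ j l x y, ‖T j l x y‖ ≤ C * ‖x‖ * ‖y‖) (hC : 0 ≤ C) (g g' : X1 I E) :
    (∀ k, Summable fun j => ‖T j (k - j) (g j) (g' (k - j))‖) ∧
      Summable (fun k => ‖∑' j, T j (k - j) (g j) (g' (k - j))‖) ∧
      ∑' k, ‖∑' j, T j (k - j) (g j) (g' (k - j))‖ ≤ C * ‖g‖ * ‖g'‖ := by
  have := conv_bound (F := fun k j => T j (k - j) (g j) (g' (k - j)))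
    (a := fun j => C * ‖g j‖) (b := fun j => ‖g' j‖) (fun j => by positivity)
    (fun j => norm_nonneg _) ((x1_summable g).mul_left C) (x1_summable g')
    (fun k j => hT _ _ _ _)
  refine ⟨this.1, this.2.1, this.2.2.trans ?_⟩
  rw [tsum_mul_left, x1_norm g, x1_norm g']

/-- The convolution bilinear map. -/
noncomputable def convL (hT : ∀ j l x y, ‖T j l x y‖ ≤ C * ‖x‖ * ‖y‖) (hC : 0 ≤ C) :
    X1 I E →L[ℝ] X1 I E →L[ℝ] X1 I E :=
  LinearMap.mkContinuous₂ (LinearMap.mk₂ ℝ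
    (fun g g' => x1mk (fun k => ∑' j, T j (k - j) (g j) (g' (k - j)))
      (conv_T_bound T hT hC g g').2.1)
    (by
      intro g₁ g₂ g'
      ext1; funext k
      simp only [lp.coeFn_add, Pi.add_apply, x1mk_apply]
      rw [← Summable.tsum_add ((conv_T_bound T hT hC g₁ g').1 k).of_norm
        ((conv_T_bound T hT hC g₂ g').1 k).of_norm]
      simp)
    (by
      intro c g g'
      ext1; funext k
      simp only [lp.coeFn_smul, Pi.smul_apply, x1mk_apply, map_smul,
        ContinuousLinearMap.smul_apply]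
      rw [← tsum_const_smul'' c])
    (by
      intro g g₁ g₂
      ext1; funext k
      simp only [lp.coeFn_add, Pi.add_apply, x1mk_apply]
      rw [← Summable.tsum_add ((conv_T_bound T hT hC g g₁).1 k).of_norm
        ((conv_T_bound T hT hC g g₂).1 k).of_norm]
      simp)
    (by
      intro c g g'
      ext1; funext k
      simp only [lp.coeFn_smul, Pi.smul_apply, x1mk_apply, map_smul]
      rw [← tsum_const_smul'' c])) C
    (by
      intro g g'
      rw [x1_norm]
      exact (conv_T_bound T hT hC g g').2.2)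

lemma convL_apply (hT : ∀ j l x y, ‖T j l x y‖ ≤ C * ‖x‖ * ‖y‖) (hC : 0 ≤ C) (g g' : X1 I E)
    (k : I) : convL T hT hC g g' k = ∑' j, T j (k - j) (g j) (g' (k - j)) := rfl

lemma convL_norm (hT : ∀ j l x y, ‖T j l x y‖ ≤ C * ‖x‖ * ‖y‖) (hC : 0 ≤ C) (g g' : X1 I E) :
    ‖convL T hT hC g g'‖ ≤ C * ‖g‖ * ‖g'‖ := by
  rw [x1_norm]
  exact (conv_T_bound T hT hC g g').2.2

variable [DecidableEq I]

lemma convL_single (hT : ∀ j l x y, ‖T j l x y‖ ≤ C * ‖x‖ * ‖y‖) (hC : 0 ≤ C) (a b : I) (x y : E) :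
    convL T hT hC (lp.single 1 a x) (lp.single 1 b y) = lp.single 1 (a + b) (T a b x y) := by
  ext1; funext k
  rw [convL_apply, tsum_eq_single a]
  · rw [lp.single_apply_self]
    by_cases h : k = a + b
    · subst h
      simp
    · rw [lp.single_apply_ne _ _ _ h, lp.single_apply_ne, map_zero]
      intro h'
      exact h (by rw [← h']; abel)
  · intro j hj
    rw [lp.single_apply_ne _ _ _ hj, map_zero]
    rfl

lemma convL_single_left (hT : ∀ j l x y, ‖T j l x y‖ ≤ C * ‖x‖ * ‖y‖) (hC : 0 ≤ C) (a : I) (x : E)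
    (g : X1 I E) (k : I) :
    convL T hT hC (lp.single 1 a x) g k = T a (k - a) x (g (k - a)) := by
  rw [convL_apply, tsum_eq_single a]
  · rw [lp.single_apply_self]
  · intro j hj
    rw [lp.single_apply_ne _ _ _ hj, map_zero]
    rfl

lemma convL_single_right (hT : ∀ j l x y, ‖T j l x y‖ ≤ C * ‖x‖ * ‖y‖) (hC : 0 ≤ C) (a : I) (x : E)
    (g : X1 I E) (k : I) :
    convL T hT hC g (lp.single 1 a x) k = T (k - a) a (g (k - a)) x := by
  rw [convL_apply, tsum_eq_single (k - a)]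
  · simp
  · intro j hj
    rw [lp.single_apply_ne, map_zero]
    intro h
    exact hj (by rw [← h]; abel)

end

end H754R3.NSD
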