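import Mathlib

/-! The Duhamel operator `h ↦ ∫₀ᵗ e^{-α(t-s)} h(s) ds` on `L^1(0,∞)` and `L^2(0,∞)`. -/

open Set Filter Topology MeasureTheory
open scoped ENNReal

namespace H754R3.NSD

/-- Lebesgue measure on the half line. -/
noncomputable abbrev mup : Measure ℝ := volume.restrict (Ioi (0:ℝ))

lemma cs_sq {α : Type*} [MeasurableSpace α] {μ : Measure α} {f g : α → ℝ≥0∞}
    (hf : AEMeasurable f μ) (hg : AEMeasurable g μ) :
    (∫⁻ x, f x * g x ∂μ) ^ 2 ≤ (∫⁻ x, f x ^ 2 ∂μ) * (∫⁻ x, g x ^ 2 ∂μ) := by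
  have h := ENNReal.lintegral_mul_le_Lp_mul_Lq μ
    (Real.HolderConjugate.two_two) hf hg
  have h2 := pow_le_pow_left' h 2
  refine h2.trans (le_of_eq ?_)
  rw [mul_pow, ← ENNReal.rpow_natCast, ← ENNReal.rpow_natCast (n := 2) (x := (_ : ℝ≥0∞) ^ (1 / 2 : ℝ)),
    ← ENNReal.rpow_mul, ← ENNReal.rpow_mul]
  norm_num

variable {V : Type*} [NormedAddCommGroup V] [NormedSpace ℝ V]

/-- Duhamel operator. -/
noncomputable def duh (α : ℝ) (h : ℝ → V) (t : ℝ) : V :=
  ∫ s in (0:ℝ)..t, Real.exp (-(α * (t - s))) • h s ∂mup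

lemma duh_factor (α : ℝ) (h : ℝ → V) (t : ℝ) :
    duh α h t = Real.exp (-(α * t)) • ∫ s in (0:ℝ)..t, Real.exp (α * s) • h s ∂mup := by
  unfold duh
  rw [← intervalIntegral.integral_smul]
  congr 1
  funext s
  rw [smul_smul, ← Real.exp_add]
  congr 2
  ring

lemma ii_exp {h : ℝ → V} (hh : Integrable h mup) (c a b : ℝ) :
    IntervalIntegrable (fun s => Real.exp (c * s) • h s) mup a b := by
  refine (hh.intervalIntegrable (a := a) (b := b)).continuousOn_smul ?_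
  fun_prop

lemma ii_exp2 {h : ℝ → V} (hh : Integrable h mup) (α t a b : ℝ) :
    IntervalIntegrable (fun s => Real.exp (-(α * (t - s))) • h s) mup a b := by
  refine (hh.intervalIntegrable (a := a) (b := b)).continuousOn_smul ?_
  fun_prop

lemma duh_continuous (α : ℝ) {h : ℝ → V} (hh : Integrable h mup) : Continuous (duh α h) := by
  have : duh α h = fun t => Real.exp (-(α * t)) •
      ∫ s in (0:ℝ)..t, Real.exp (α * s) • h s ∂mup := by
    funext t; exact duh_factor α h t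
  rw [this]
  refine Continuous.smul (by fun_prop) ?_
  exact intervalIntegral.continuous_primitive (fun a b => ii_exp hh α a b) 0

lemma duh_add (α : ℝ) {h h' : ℝ → V} (hh : Integrable h mup) (hh' : Integrable h' mup) (t : ℝ) :
    duh α (h + h') t = duh α h t + duh α h' t := by
  unfold duh
  rw [← intervalIntegral.integral_add (ii_exp2 hh _ _ _ _) (ii_exp2 hh' _ _ _ _)]
  simp [smul_add]

lemma duh_smul (α : ℝ) (c : ℝ) (h : ℝ → V) (t : ℝ) :
    duh α (c • h) t = c • duh α h t := by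
  unfold duh
  rw [← intervalIntegral.integral_smul]
  congr 1
  funext s
  simp only [Pi.smul_apply]
  rw [smul_comm]

lemma duh_congr (α : ℝ) {h h' : ℝ → V} (hh : h =ᵐ[mup] h') (t : ℝ) :
    duh α h t = duh α h' t := by
  unfold duh
  refine intervalIntegral.integral_congr_ae ?_
  filter_upwards [hh] with s hs _
  rw [hs]

lemma duh_of_nonpos (α : ℝ) (h : ℝ → V) {t : ℝ} (ht : t ≤ 0) : duh α h t = 0 := by
  unfold duh
  rw [intervalIntegral.integral_of_ge ht]
  have : (mup.restrict (Ioc t 0)) = 0 := by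
    rw [Measure.restrict_eq_zero, Measure.restrict_apply measurableSet_Ioc]
    convert measure_empty (μ := (volume : Measure ℝ))
    ext x; simp
  rw [this]; simp

lemma duh_of_nonneg (α : ℝ) (h : ℝ → V) {t : ℝ} (ht : 0 ≤ t) :
    duh α h t = ∫ s in Ioc 0 t, Real.exp (-(α * (t - s))) • h s := by
  unfold duh
  rw [intervalIntegral.integral_of_le ht, Measure.restrict_restrict measurableSet_Ioc]
  congr 2
  ext x; simp +contextual

lemma duh_enorm (α : ℝ) (h : ℝ → V) {t : ℝ} (ht : 0 ≤ t) :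
    ‖duh α h t‖ₑ ≤ ∫⁻ s in Ioc 0 t, ENNReal.ofReal (Real.exp (-(α * (t - s)))) * ‖h s‖ₑ := by
  rw [duh_of_nonneg α h ht]
  refine (enorm_integral_le_lintegral_enorm _).trans (lintegral_mono fun s => ?_)
  simp only [enorm_smul]
  rw [Real.enorm_eq_ofReal (Real.exp_pos _).le]

lemma mup_Ioc {t : ℝ} : (volume : Measure ℝ).restrict (Ioc 0 t) ≤ mup :=
  Measure.restrict_mono_set _ (fun _ hx => hx.1)

lemma duh_bound {α : ℝ} (hα : 0 ≤ α) (h : ℝ → V) (t : ℝ) :
    ‖duh α h t‖ₑ ≤ ∫⁻ s, ‖h s‖ₑ ∂mup := by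
  rcases le_total t 0 with ht | ht
  · rw [duh_of_nonpos α h ht]; simp
  refine (duh_enorm α h ht).trans ?_
  calc ∫⁻ s in Ioc 0 t, ENNReal.ofReal (Real.exp (-(α * (t - s)))) * ‖h s‖ₑ
      ≤ ∫⁻ s in Ioc 0 t, ‖h s‖ₑ := by
        refine setLIntegral_mono' measurableSet_Ioc fun s hs => ?_
        calc _ ≤ 1 * ‖h s‖ₑ := by
              gcongr
              rw [← ENNReal.ofReal_one]
              refine ENNReal.ofReal_le_ofReal (Real.exp_le_one_iff.2 ?_)
              have : 0 ≤ α * (t - s) := mul_nonneg hα (by linarith [hs.2])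
              linarith
          _ = _ := one_mul _
    _ ≤ ∫⁻ s, ‖h s‖ₑ ∂mup := lintegral_mono' mup_Ioc le_rfl

lemma lintegral_exp_Ici {b : ℝ} (hb : 0 < b) (s : ℝ) :
    ∫⁻ t in Ici s, ENNReal.ofReal (Real.exp (-(b * (t - s)))) = ENNReal.ofReal (1 / b) := by
  have hint : IntegrableOn (fun t => Real.exp (-(b * (t - s)))) (Ioi s) := by
    have h1 := (integrableOn_exp_mul_Ioi (a := -b) (by linarith) s)
    have h2 := h1.const_mul (Real.exp (b * s))
    refine IntegrableOn.congr_fun h2 (fun t _ => ?_) measurableSet_Ioi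
    show Real.exp (b * s) * Real.exp (-b * t) = Real.exp (-(b * (t - s)))
    rw [← Real.exp_add]; congr 1; ring
  rw [setLIntegral_congr (Ioi_ae_eq_Ici.symm), ← ofReal_integral_eq_lintegral_ofReal hint
    (Eventually.of_forall fun t => (Real.exp_pos _).le)]
  congr 1
  have : ∀ t, Real.exp (-(b * (t - s))) = Real.exp (b * s) * Real.exp (-b * t) := by
    intro t; rw [← Real.exp_add]; congr 1; ring
  simp_rw [this]
  rw [integral_const_mul, integral_exp_mul_Ioi (by linarith)]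
  rw [mul_div_assoc', mul_neg, ← Real.exp_add]
  have : b * s + -b * s = 0 := by ring
  rw [this, Real.exp_zero]
  field_simp

lemma tonelli_exp {b : ℝ} (hb : 0 < b) {G : ℝ → ℝ≥0∞} (hG : AEMeasurable G mup) :
    ∫⁻ t, (∫⁻ s in Ioc 0 t, ENNReal.ofReal (Real.exp (-(b * (t - s)))) * G s) ∂mup ≤
      ENNReal.ofReal (1 / b) * ∫⁻ s, G s ∂mup := by
  set G' := hG.mk G with hG'
  have e1 : ∀ t, ∫⁻ s in Ioc 0 t, ENNReal.ofReal (Real.exp (-(b * (t - s)))) * G s =
      ∫⁻ s, (Iic t).indicator (fun s => ENNReal.ofReal (Real.exp (-(b * (t - s)))) * G' s) s ∂mup := by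
    intro t
    rw [lintegral_indicator measurableSet_Iic, Measure.restrict_restrict measurableSet_Iic]
    have : Iic t ∩ Ioi 0 = Ioc 0 t := by ext x; simp [and_comm]
    rw [this]
    refine lintegral_congr_ae ?_
    have := ae_mono (mup_Ioc (t := t)) hG.ae_eq_mk
    filter_upwards [this] with s hs
    rw [hs]
  simp_rw [e1]
  have hmeas : Measurable (Function.uncurry fun t s => (Iic t).indicator
      (fun s => ENNReal.ofReal (Real.exp (-(b * (t - s)))) * G' s) s) := by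
    have : (Function.uncurry fun t s => (Iic t).indicator
      (fun s => ENNReal.ofReal (Real.exp (-(b * (t - s)))) * G' s) s) =
      ({p : ℝ × ℝ | p.2 ≤ p.1}).indicator
        (fun p => ENNReal.ofReal (Real.exp (-(b * (p.1 - p.2)))) * G' p.2) := by
      funext p
      simp [Function.uncurry, Set.indicator]
    rw [this]
    refine Measurable.indicator ?_ (measurableSet_le measurable_snd measurable_fst)
    refine Measurable.mul (by fun_prop) ?_
    exact hG.measurable_mk.comp measurable_snd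
  rw [lintegral_lintegral_swap hmeas.aemeasurable]
  have e2 : ∀ s, ∫⁻ t, (Iic t).indicator
      (fun s => ENNReal.ofReal (Real.exp (-(b * (t - s)))) * G' s) s ∂mup ≤
      ENNReal.ofReal (1 / b) * G' s := by
    intro s
    calc ∫⁻ t, (Iic t).indicator
          (fun s => ENNReal.ofReal (Real.exp (-(b * (t - s)))) * G' s) s ∂mup
        ≤ ∫⁻ t, (Iic t).indicator
          (fun s => ENNReal.ofReal (Real.exp (-(b * (t - s)))) * G' s) s :=
          lintegral_mono' Measure.restrict_le_self le_rfl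
      _ = ∫⁻ t in Ici s, ENNReal.ofReal (Real.exp (-(b * (t - s)))) * G' s := by
          rw [← lintegral_indicator measurableSet_Ici]
          congr 1
      _ = ENNReal.ofReal (1 / b) * G' s := by
          rw [lintegral_mul_const _ (by fun_prop), lintegral_exp_Ici hb]
  calc _ ≤ ∫⁻ s, ENNReal.ofReal (1 / b) * G' s ∂mup := lintegral_mono e2
    _ = ENNReal.ofReal (1 / b) * ∫⁻ s, G' s ∂mup := lintegral_const_mul _ hG.measurable_mk
    _ = _ := by rw [lintegral_congr_ae hG.ae_eq_mk.symm]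

/-- `L¹ → L²` bound. -/
lemma duh_L2 {α : ℝ} (hα : 0 < α) {h : ℝ → V} (hh : Integrable h mup) :
    ∫⁻ t, ‖duh α h t‖ₑ ^ 2 ∂mup ≤ ENNReal.ofReal (1 / (2 * α)) * (∫⁻ s, ‖h s‖ₑ ∂mup) ^ 2 := by
  have hm : AEMeasurable (fun s => ‖h s‖ₑ) mup := hh.1.enorm
  have hfin : ∫⁻ s, ‖h s‖ₑ ∂mup ≠ ∞ := hh.2.ne
  have e1 : ∀ t ∈ Ioi (0:ℝ), ‖duh α h t‖ₑ ^ 2 ≤ (∫⁻ s, ‖h s‖ₑ ∂mup) *
      (∫⁻ s in Ioc 0 t, ENNReal.ofReal (Real.exp (-((2 * α) * (t - s)))) * ‖h s‖ₑ) := by
    intro t ht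
    have ht' : 0 ≤ t := le_of_lt ht
    have hmt : AEMeasurable (fun s => ‖h s‖ₑ) (volume.restrict (Ioc 0 t)) :=
      hm.mono_measure mup_Ioc
    have h1 : ∫⁻ s in Ioc 0 t, ENNReal.ofReal (Real.exp (-(α * (t - s)))) * ‖h s‖ₑ =
        ∫⁻ s in Ioc 0 t, (‖h s‖ₑ ^ (1 / 2 : ℝ)) *
          (ENNReal.ofReal (Real.exp (-(α * (t - s)))) * ‖h s‖ₑ ^ (1 / 2 : ℝ)) := by
      refine lintegral_congr fun s => ?_
      rw [mul_left_comm, ← ENNReal.rpow_add_of_nonneg _ _ (by norm_num) (by norm_num)]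
      norm_num
    have h2 := cs_sq (μ := volume.restrict (Ioc 0 t)) (f := fun s => ‖h s‖ₑ ^ (1 / 2 : ℝ))
      (g := fun s => ENNReal.ofReal (Real.exp (-(α * (t - s)))) * ‖h s‖ₑ ^ (1 / 2 : ℝ))
      (hmt.pow_const _) (AEMeasurable.mul (by fun_prop) (hmt.pow_const _))
    have h3 : ∀ x : ℝ≥0∞, (x ^ (1 / 2 : ℝ)) ^ 2 = x := by
      intro x
      rw [← ENNReal.rpow_natCast, ← ENNReal.rpow_mul]; norm_num
    have h4 : ∫⁻ s in Ioc 0 t, (‖h s‖ₑ ^ (1 / 2 : ℝ)) ^ 2 ≤ ∫⁻ s, ‖h s‖ₑ ∂mup := by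
      simp_rw [h3]
      exact lintegral_mono' mup_Ioc le_rfl
    have h5 : ∫⁻ s in Ioc 0 t, (ENNReal.ofReal (Real.exp (-(α * (t - s)))) *
        ‖h s‖ₑ ^ (1 / 2 : ℝ)) ^ 2 =
        ∫⁻ s in Ioc 0 t, ENNReal.ofReal (Real.exp (-((2 * α) * (t - s)))) * ‖h s‖ₑ := by
      refine lintegral_congr fun s => ?_
      have h6 : ((2 : ℕ) : ℝ) * -(α * (t - s)) = -((2 * α) * (t - s)) := by push_cast; ring
      rw [mul_pow, h3, ← ENNReal.ofReal_pow (Real.exp_pos _).le, ← Real.exp_nat_mul, h6]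
    refine (pow_le_pow_left' (duh_enorm α h ht') 2).trans ?_
    rw [h1]
    refine h2.trans ?_
    rw [h5]
    exact mul_le_mul' h4 le_rfl
  calc ∫⁻ t, ‖duh α h t‖ₑ ^ 2 ∂mup
      ≤ ∫⁻ t, ((∫⁻ s, ‖h s‖ₑ ∂mup) *
      (∫⁻ s in Ioc 0 t, ENNReal.ofReal (Real.exp (-((2 * α) * (t - s)))) * ‖h s‖ₑ)) ∂mup :=
        setLIntegral_mono' measurableSet_Ioi e1
    _ = (∫⁻ s, ‖h s‖ₑ ∂mup) * (∫⁻ t,
      (∫⁻ s in Ioc 0 t, ENNReal.ofReal (Real.exp (-((2 * α) * (t - s)))) * ‖h s‖ₑ) ∂mup) :=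
        lintegral_const_mul' _ _ hfin
    _ ≤ (∫⁻ s, ‖h s‖ₑ ∂mup) * (ENNReal.ofReal (1 / (2 * α)) * ∫⁻ s, ‖h s‖ₑ ∂mup) := by
        gcongr
        exact tonelli_exp (by linarith) hm
    _ = _ := by ring

/-- weighted `L²` bound. -/
lemma duh_L2w {α : ℝ} (hα : 0 < α) {h : ℝ → V} {m : ℝ → ℝ} (hm : Continuous m)
    (hm0 : ∀ t, 0 < m t) {U W : ℝ → ℝ≥0∞} (hU : AEMeasurable U mup) (hW : AEMeasurable W mup)
    (hh : ∀ᵐ s ∂mup, ‖h s‖ₑ ≤ U s * W s) {A : ℝ≥0∞} (hA : A ≠ ∞)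
    (hUA : ∀ t, 0 < t → ∫⁻ s in Ioc 0 t, (ENNReal.ofReal (m t / m s) * U s) ^ 2 ≤ A) :
    ∫⁻ t, ‖m t • duh α h t‖ₑ ^ 2 ∂mup ≤
      A * (ENNReal.ofReal (1 / (2 * α)) * ∫⁻ s, (ENNReal.ofReal (m s) * W s) ^ 2 ∂mup) := by
  have e1 : ∀ t ∈ Ioi (0:ℝ), ‖m t • duh α h t‖ₑ ^ 2 ≤ A *
      (∫⁻ s in Ioc 0 t, ENNReal.ofReal (Real.exp (-((2 * α) * (t - s)))) *
        (ENNReal.ofReal (m s) * W s) ^ 2) := by
    intro t ht
    have ht' : 0 ≤ t := le_of_lt ht
    have hUt : AEMeasurable U (volume.restrict (Ioc 0 t)) := hU.mono_measure mup_Ioc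
    have hWt : AEMeasurable W (volume.restrict (Ioc 0 t)) := hW.mono_measure mup_Ioc
    have hht : ∀ᵐ s ∂(volume.restrict (Ioc 0 t)), ‖h s‖ₑ ≤ U s * W s := ae_mono mup_Ioc hh
    have h1 : ‖m t • duh α h t‖ₑ ≤ ∫⁻ s in Ioc 0 t, (ENNReal.ofReal (m t / m s) * U s) *
          (ENNReal.ofReal (Real.exp (-(α * (t - s)))) * (ENNReal.ofReal (m s) * W s)) := by
      rw [enorm_smul, Real.enorm_eq_ofReal (hm0 t).le]
      calc ENNReal.ofReal (m t) * ‖duh α h t‖ₑ
          ≤ ENNReal.ofReal (m t) * ∫⁻ s in Ioc 0 t,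
            ENNReal.ofReal (Real.exp (-(α * (t - s)))) * ‖h s‖ₑ := by
              gcongr; exact duh_enorm α h ht'
        _ = ∫⁻ s in Ioc 0 t, ENNReal.ofReal (m t) *
            (ENNReal.ofReal (Real.exp (-(α * (t - s)))) * ‖h s‖ₑ) := by
              rw [lintegral_const_mul' _ _ ENNReal.ofReal_ne_top]
        _ ≤ _ := by
              refine lintegral_mono_ae ?_
              filter_upwards [hht] with s hs
              have hms : ENNReal.ofReal (m t) = ENNReal.ofReal (m t / m s) * ENNReal.ofReal (m s) := by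
                rw [← ENNReal.ofReal_mul (div_nonneg (hm0 t).le (hm0 s).le),
                  div_mul_cancel₀ _ (hm0 s).ne']
              calc _ ≤ ENNReal.ofReal (m t) *
                    (ENNReal.ofReal (Real.exp (-(α * (t - s)))) * (U s * W s)) := by gcongr
                _ = _ := by rw [hms]; ring
    have hmc : AEMeasurable (fun s => ENNReal.ofReal (m t / m s)) (volume.restrict (Ioc 0 t)) := by
      have : Continuous fun s => m t / m s := continuous_const.div hm fun s => (hm0 s).ne'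
      exact (this.measurable.ennreal_ofReal).aemeasurable
    have hmc2 : AEMeasurable (fun s => ENNReal.ofReal (m s)) (volume.restrict (Ioc 0 t)) :=
      (hm.measurable.ennreal_ofReal).aemeasurable
    have h2 := cs_sq (μ := volume.restrict (Ioc 0 t)) (f := fun s => ENNReal.ofReal (m t / m s) * U s)
      (g := fun s => ENNReal.ofReal (Real.exp (-(α * (t - s)))) * (ENNReal.ofReal (m s) * W s))
      (hmc.mul hUt) (AEMeasurable.mul (by fun_prop) (hmc2.mul hWt))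
    have h5 : ∫⁻ s in Ioc 0 t, (ENNReal.ofReal (Real.exp (-(α * (t - s)))) *
        (ENNReal.ofReal (m s) * W s)) ^ 2 =
        ∫⁻ s in Ioc 0 t, ENNReal.ofReal (Real.exp (-((2 * α) * (t - s)))) *
          (ENNReal.ofReal (m s) * W s) ^ 2 := by
      refine lintegral_congr fun s => ?_
      have h6 : ((2 : ℕ) : ℝ) * -(α * (t - s)) = -((2 * α) * (t - s)) := by push_cast; ring
      rw [mul_pow, ← ENNReal.ofReal_pow (Real.exp_pos _).le, ← Real.exp_nat_mul, h6]
    refine (pow_le_pow_left' h1 2).trans ?_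
    refine h2.trans ?_
    rw [h5]
    exact mul_le_mul' (hUA t ht) le_rfl
  have hmc2 : AEMeasurable (fun s => ENNReal.ofReal (m s)) mup :=
      (hm.measurable.ennreal_ofReal).aemeasurable
  calc ∫⁻ t, ‖m t • duh α h t‖ₑ ^ 2 ∂mup
      ≤ ∫⁻ t, (A *
      (∫⁻ s in Ioc 0 t, ENNReal.ofReal (Real.exp (-((2 * α) * (t - s)))) *
        (ENNReal.ofReal (m s) * W s) ^ 2)) ∂mup :=
        setLIntegral_mono' measurableSet_Ioi e1
    _ = A * (∫⁻ t,
      (∫⁻ s in Ioc 0 t, ENNReal.ofReal (Real.exp (-((2 * α) * (t - s)))) *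
        (ENNReal.ofReal (m s) * W s) ^ 2) ∂mup) :=
        lintegral_const_mul' _ _ hA
    _ ≤ _ := by
        gcongr
        exact tonelli_exp (by linarith) ((hmc2.mul hW).pow_const 2)

end H754R3.NSD
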