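import Mathlib
import Pool.Agent.H754R3.NSD.Ker

/-! The Duhamel operator as a continuous (bi)linear map on `L^p(0,∞)` and its weighted bounds. -/

open Set Filter Topology MeasureTheory
open scoped ENNReal

namespace H754R3.NSD

variable {V : Type*} [NormedAddCommGroup V] [NormedSpace ℝ V]

set_option linter.unusedSectionVars false

/-- `L²((0,∞); V)`. -/
noncomputable abbrev L2 (V : Type*) [NormedAddCommGroup V] := Lp V 2 mup
/-- `L¹((0,∞); V)`. -/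
noncomputable abbrev L1 (V : Type*) [NormedAddCommGroup V] := Lp V 1 mup

lemma eL2 {f : ℝ → V} : (eLpNorm f 2 mup) ^ 2 = ∫⁻ t, ‖f t‖ₑ ^ 2 ∂mup := by
  rw [eLpNorm_eq_lintegral_rpow_enorm_toReal (by norm_num) (by norm_num)]
  simp only [ENNReal.toReal_ofNat, ENNReal.rpow_ofNat]
  rw [← ENNReal.rpow_natCast, ← ENNReal.rpow_mul]
  norm_num

lemma eL2_le {f : ℝ → V} {c : ℝ≥0∞} (h : ∫⁻ t, ‖f t‖ₑ ^ 2 ∂mup ≤ c ^ 2) : eLpNorm f 2 mup ≤ c := by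
  rw [← eL2] at h
  exact (ENNReal.pow_le_pow_left_iff (by norm_num)).1 h

lemma duh_eL2 {α : ℝ} (hα : 0 < α) {h : ℝ → V} (hh : Integrable h mup) :
    eLpNorm (duh α h) 2 mup ≤ ENNReal.ofReal (Real.sqrt (1 / (2 * α))) * ∫⁻ s, ‖h s‖ₑ ∂mup := by
  refine eL2_le ((duh_L2 hα hh).trans (le_of_eq ?_))
  rw [mul_pow, ← ENNReal.ofReal_pow (Real.sqrt_nonneg _), Real.sq_sqrt (by positivity)]

lemma duh_memLp {α : ℝ} (hα : 0 < α) {h : ℝ → V} (hh : Integrable h mup) :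
    MemLp (duh α h) 2 mup := by
  refine ⟨(duh_continuous α hh).aestronglyMeasurable, (duh_eL2 hα hh).trans_lt ?_⟩
  exact ENNReal.mul_lt_top ENNReal.ofReal_lt_top hh.2

lemma L1_int (h : L1 V) : Integrable h mup := memLp_one_iff_integrable.1 (Lp.memLp h)

lemma L1_norm (h : L1 V) : ∫⁻ s, ‖h s‖ₑ ∂mup = ENNReal.ofReal ‖h‖ := by
  rw [Lp.norm_def, ENNReal.ofReal_toReal (Lp.eLpNorm_ne_top h), eLpNorm_one_eq_lintegral_enorm]

/-- Duhamel operator `L¹ → L²`. -/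
noncomputable def SL (α : ℝ) : L1 V →L[ℝ] L2 V :=
  if hα : 0 < α then
    LinearMap.mkContinuous
      { toFun := fun h => (duh_memLp hα (L1_int h)).toLp (duh α h)
        map_add' := by
          intro h h'
          rw [← MemLp.toLp_add]
          refine MemLp.toLp_congr _ _ (Eventually.of_forall fun t => ?_)
          rw [duh_congr α (Lp.coeFn_add h h') t]
          exact duh_add α (L1_int h) (L1_int h') t
        map_smul' := by
          intro c h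
          simp only [RingHom.id_apply]
          rw [← MemLp.toLp_const_smul]
          refine MemLp.toLp_congr _ _ (Eventually.of_forall fun t => ?_)
          rw [duh_congr α (Lp.coeFn_smul c h) t]
          exact duh_smul α c h t }
      (Real.sqrt (1 / (2 * α)))
      (by
        intro h
        simp only [LinearMap.coe_mk, AddHom.coe_mk]
        rw [Lp.norm_toLp]
        refine ENNReal.toReal_le_of_le_ofReal (by positivity) ?_
        rw [ENNReal.ofReal_mul (Real.sqrt_nonneg _), ← L1_norm]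
        exact duh_eL2 hα (L1_int h))
  else 0

lemma SL_coe {α : ℝ} (hα : 0 < α) (h : L1 V) : (SL α h : L2 V) =ᵐ[mup] duh α h := by
  rw [SL, dif_pos hα]
  exact MemLp.coeFn_toLp (duh_memLp hα (L1_int h))

lemma SL_norm {α : ℝ} (hα : 0 < α) (h : L1 V) : ‖(SL α h : L2 V)‖ ≤ Real.sqrt (1 / (2 * α)) * ‖h‖ := by
  rw [SL, dif_pos hα]
  simp only [LinearMap.mkContinuous_apply, LinearMap.coe_mk, AddHom.coe_mk]
  rw [Lp.norm_toLp]
  refine ENNReal.toReal_le_of_le_ofReal (by positivity) ?_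
  rw [ENNReal.ofReal_mul (Real.sqrt_nonneg _), ← L1_norm]
  exact duh_eL2 hα (L1_int h)

/-- The bilinear operator `(x, y) ↦ ∫₀ᵗ e^{-α(t-s)} b(x(s), y(s)) ds`. -/
noncomputable def TT (α : ℝ) (b : V →L[ℝ] V →L[ℝ] V) : L2 V →L[ℝ] L2 V →L[ℝ] L2 V :=
  (ContinuousLinearMap.compL ℝ (L2 V) (L1 V) (L2 V) (SL α)).comp (b.holderL mup 2 2 1)

lemma TT_apply (α : ℝ) (b : V →L[ℝ] V →L[ℝ] V) (x y : L2 V) :
    TT α b x y = SL α (b.holder 1 x y) := rfl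

lemma TT_coe {α : ℝ} (hα : 0 < α) (b : V →L[ℝ] V →L[ℝ] V) (x y : L2 V) :
    (TT α b x y : ℝ → V) =ᵐ[mup] duh α (fun s => b (x s) (y s)) := by
  rw [TT_apply]
  filter_upwards [SL_coe hα (b.holder 1 x y)] with t ht
  rw [ht]
  exact duh_congr α (b.coeFn_holder x y) t

lemma TT_norm_L1 {α : ℝ} (hα : 0 < α) (b : V →L[ℝ] V →L[ℝ] V) (x y : L2 V) :
    ‖TT α b x y‖ ≤ Real.sqrt (1 / (2 * α)) * (∫⁻ s, ‖b (x s) (y s)‖ₑ ∂mup).toReal := by
  rw [TT_apply]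
  refine (SL_norm hα _).trans (le_of_eq ?_)
  congr 1
  rw [Lp.norm_def, eLpNorm_one_eq_lintegral_enorm]
  congr 1
  refine lintegral_congr_ae ?_
  filter_upwards [b.coeFn_holder (r := 1) x y] with t ht
  rw [ht]

lemma TT_norm {α : ℝ} (hα : 0 < α) (b : V →L[ℝ] V →L[ℝ] V) (x y : L2 V) :
    ‖TT α b x y‖ ≤ Real.sqrt (1 / (2 * α)) * (‖b‖ * ‖x‖ * ‖y‖) := by
  rw [TT_apply]
  refine (SL_norm hα _).trans ?_
  gcongr
  exact b.norm_holder_apply_apply_le x y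

/-- Multiplication by a bounded continuous function. -/
noncomputable def Mop (m : ℝ → ℝ) (hm : Continuous m) (hm1 : ∀ t, |m t| ≤ 1) : L2 V →L[ℝ] L2 V :=
  ((ContinuousLinearMap.lsmul ℝ ℝ : ℝ →L[ℝ] V →L[ℝ] V).holderL mup ∞ 2 2)
    ((memLp_top_of_bound hm.aestronglyMeasurable 1
      (Eventually.of_forall fun t => by simpa using hm1 t) : MemLp m ∞ mup).toLp m)

lemma Mop_coe {m : ℝ → ℝ} (hm : Continuous m) (hm1 : ∀ t, |m t| ≤ 1) (g : L2 V) :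
    (Mop m hm hm1 g : ℝ → V) =ᵐ[mup] fun t => m t • g t := by
  unfold Mop
  rw [ContinuousLinearMap.holderL_apply_apply]
  filter_upwards [ContinuousLinearMap.coeFn_holder (r := 2)
    (ContinuousLinearMap.lsmul ℝ ℝ : ℝ →L[ℝ] V →L[ℝ] V)
    ((memLp_top_of_bound hm.aestronglyMeasurable 1
      (Eventually.of_forall fun t => by simpa using hm1 t) : MemLp m ∞ mup).toLp m) g,
    MemLp.coeFn_toLp (memLp_top_of_bound hm.aestronglyMeasurable 1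
      (Eventually.of_forall fun t => by simpa using hm1 t) : MemLp m ∞ mup)] with t h1 h2
  rw [h1, h2]; rfl

lemma L2_norm_sq (g : L2 V) : ENNReal.ofReal ‖g‖ ^ 2 = ∫⁻ t, ‖g t‖ₑ ^ 2 ∂mup := by
  rw [Lp.norm_def, ENNReal.ofReal_toReal (Lp.eLpNorm_ne_top g), eL2]

lemma L2_norm_le_of {g : L2 V} {c : ℝ} (hc : 0 ≤ c)
    (h : ∫⁻ t, ‖g t‖ₑ ^ 2 ∂mup ≤ ENNReal.ofReal c ^ 2) : ‖g‖ ≤ c := by
  rw [← L2_norm_sq] at h
  have := (ENNReal.pow_le_pow_left_iff (by norm_num)).1 h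
  exact (ENNReal.ofReal_le_ofReal_iff hc).1 this

lemma Mop_norm_sq {m : ℝ → ℝ} (hm : Continuous m) (hm1 : ∀ t, |m t| ≤ 1) (g : L2 V) :
    ENNReal.ofReal ‖Mop m hm hm1 g‖ ^ 2 = ∫⁻ t, ‖m t • g t‖ₑ ^ 2 ∂mup := by
  rw [L2_norm_sq]
  refine lintegral_congr_ae ?_
  filter_upwards [Mop_coe hm hm1 g] with t ht
  rw [ht]

lemma Mop_le {m : ℝ → ℝ} (hm : Continuous m) (hm1 : ∀ t, |m t| ≤ 1) (g : L2 V) :
    ‖Mop m hm hm1 g‖ ≤ ‖g‖ := by
  refine L2_norm_le_of (norm_nonneg _) ?_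
  rw [← L2_norm_sq, Mop_norm_sq, L2_norm_sq]
  refine lintegral_mono fun t => ?_
  gcongr
  rw [enorm_smul]
  calc ‖m t‖ₑ * ‖g t‖ₑ ≤ 1 * ‖g t‖ₑ := by
        gcongr
        rw [← enorm_norm, Real.norm_eq_abs, Real.enorm_eq_ofReal (abs_nonneg _), ← ENNReal.ofReal_one]
        exact ENNReal.ofReal_le_ofReal (hm1 t)
    _ = _ := one_mul _

lemma Mop_ge {m : ℝ → ℝ} (hm : Continuous m) (hm1 : ∀ t, |m t| ≤ 1) {δ : ℝ} (hδ : 0 ≤ δ)
    (hmδ : ∀ t, δ ≤ m t) (g : L2 V) :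
    δ * ‖g‖ ≤ ‖Mop m hm hm1 g‖ := by
  have : ENNReal.ofReal (δ * ‖g‖) ^ 2 ≤ ENNReal.ofReal ‖Mop m hm hm1 g‖ ^ 2 := by
    rw [Mop_norm_sq, ENNReal.ofReal_mul hδ, mul_pow, L2_norm_sq, ← lintegral_const_mul' _ _
      (by exact ENNReal.pow_ne_top ENNReal.ofReal_ne_top)]
    refine lintegral_mono fun t => ?_
    rw [enorm_smul, mul_pow]
    gcongr
    rw [Real.enorm_eq_ofReal (hδ.trans (hmδ t))]
    exact ENNReal.ofReal_le_ofReal (hmδ t)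
  have h2 := (ENNReal.pow_le_pow_left_iff (by norm_num)).1 this
  exact (ENNReal.ofReal_le_ofReal_iff (norm_nonneg _)).1 h2

/-- weighted bound -/
lemma TT_weighted {α : ℝ} (hα : 0 < α) (b : V →L[ℝ] V →L[ℝ] V) {m : ℝ → ℝ} (hm : Continuous m)
    (hm1 : ∀ t, |m t| ≤ 1) (hm0 : ∀ t, 0 < m t) (x : L2 V) {A : ℝ} (hA : 0 ≤ A)
    (hx : ∀ t, 0 < t → ∫⁻ s in Ioc 0 t, (ENNReal.ofReal (m t / m s) * ‖x s‖ₑ) ^ 2 ≤
      ENNReal.ofReal A) (v : L2 V) :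
    ‖Mop m hm hm1 (TT α b x v)‖ ≤ ‖b‖ * Real.sqrt (A / (2 * α)) * ‖Mop m hm hm1 v‖ ∧
    ‖Mop m hm hm1 (TT α b v x)‖ ≤ ‖b‖ * Real.sqrt (A / (2 * α)) * ‖Mop m hm hm1 v‖ := by
  have key : ∀ h : ℝ → V, (∀ᵐ s ∂mup, ‖h s‖ₑ ≤ ‖x s‖ₑ * (‖b‖ₑ * ‖v s‖ₑ)) → ∀ g : L2 V,
      (g : ℝ → V) =ᵐ[mup] duh α h →
      ‖Mop m hm hm1 g‖ ≤ ‖b‖ * Real.sqrt (A / (2 * α)) * ‖Mop m hm hm1 v‖ := by
    intro h hh g hg
    have h1 := duh_L2w hα (h := h) hm hm0 (U := fun s => ‖x s‖ₑ) (W := fun s => ‖b‖ₑ * ‖v s‖ₑ)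
      (Lp.aestronglyMeasurable x).enorm ((Lp.aestronglyMeasurable v).enorm.const_mul _)
      hh ENNReal.ofReal_ne_top hx
    have h2 : ENNReal.ofReal ‖Mop m hm hm1 g‖ ^ 2 ≤
        ENNReal.ofReal (‖b‖ * Real.sqrt (A / (2 * α)) * ‖Mop m hm hm1 v‖) ^ 2 := by
      rw [Mop_norm_sq]
      have e1 : ∫⁻ t, ‖m t • g t‖ₑ ^ 2 ∂mup = ∫⁻ t, ‖m t • duh α h t‖ₑ ^ 2 ∂mup := by
        refine lintegral_congr_ae ?_
        filter_upwards [hg] with t ht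
        rw [ht]
      rw [e1]
      refine h1.trans (le_of_eq ?_)
      have e2 : ∫⁻ s, (ENNReal.ofReal (m s) * (‖b‖ₑ * ‖v s‖ₑ)) ^ 2 ∂mup =
          ENNReal.ofReal ‖b‖ ^ 2 * ENNReal.ofReal ‖Mop m hm hm1 v‖ ^ 2 := by
        rw [Mop_norm_sq, ← lintegral_const_mul' _ _ (ENNReal.pow_ne_top ENNReal.ofReal_ne_top)]
        refine lintegral_congr fun s => ?_
        have hbe : ‖b‖ₑ = ENNReal.ofReal ‖b‖ := (ofReal_norm b).symm
        rw [enorm_smul, Real.enorm_eq_ofReal (hm0 s).le, hbe]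
        ring
      rw [e2, ENNReal.ofReal_mul (by positivity), ENNReal.ofReal_mul (by positivity), mul_pow,
        mul_pow, ← ENNReal.ofReal_pow (Real.sqrt_nonneg _), Real.sq_sqrt (by positivity)]
      have e3 : A / (2 * α) = A * (1 / (2 * α)) := by ring
      rw [e3, ENNReal.ofReal_mul hA]
      ring
    have h3 := (ENNReal.pow_le_pow_left_iff (by norm_num)).1 h2
    exact (ENNReal.ofReal_le_ofReal_iff (by positivity)).1 h3
  have hb : ∀ y z : V, ‖b y z‖ₑ ≤ ‖b‖ₑ * ‖y‖ₑ * ‖z‖ₑ := by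
    intro y z
    rw [← ofReal_norm, ← ofReal_norm, ← ofReal_norm, ← ofReal_norm,
      ← ENNReal.ofReal_mul (norm_nonneg _), ← ENNReal.ofReal_mul (by positivity)]
    exact ENNReal.ofReal_le_ofReal (b.le_opNorm₂ y z)
  refine ⟨key _ (Eventually.of_forall fun s => ?_) _ (TT_coe hα b x v),
    key _ (Eventually.of_forall fun s => ?_) _ (TT_coe hα b v x)⟩
  · refine (hb _ _).trans (le_of_eq (by ring))
  · refine (hb _ _).trans (le_of_eq (by ring))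

end H754R3.NSD
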