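import Mathlib
import Pool.Agent.H754R3.NSD.Op
import Pool.Agent.H754R3.NSD.Conv

/-! The Fourier symbol of the Navier-Stokes bilinear form and the weighted convolution operator. -/

open Set Filter Topology MeasureTheory
open scoped ENNReal

namespace H754R3.NSD

set_option linter.unusedSectionVars false

/-- Fourier modes. -/
abbrev Md := Fin 3 → ℤ
/-- Values of the Fourier coefficients. -/
abbrev V3 := Fin 3 → ℂ

/-- `|k|²` -/
noncomputable def nsq (k : Md) : ℝ := ∑ i, (k i : ℝ) ^ 2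
/-- `|k|₁` -/
noncomputable def n1 (k : Md) : ℝ := ∑ i, |(k i : ℝ)|
/-- `k · x` -/
noncomputable def dotk (k : Md) (x : V3) : ℂ := ∑ i, (k i : ℂ) * x i
/-- Leray projection on the mode `k`. -/
noncomputable def proj (k : Md) (y : V3) : V3 := fun i => y i - dotk k y / (nsq k : ℂ) * (k i : ℂ)
/-- Symbol of `-P div (u ⊗ u)`. -/
noncomputable def symb (k : Md) (x y : V3) : V3 :=
  (-(2 * Real.pi * Complex.I) * dotk k x) • proj k y

lemma nsq_nonneg (k : Md) : 0 ≤ nsq k := Finset.sum_nonneg fun i _ => sq_nonneg _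

lemma abs_le_sqrt_nsq (k : Md) (i : Fin 3) : |(k i : ℝ)| ≤ Real.sqrt (nsq k) := by
  rw [← Real.sqrt_sq_eq_abs]
  refine Real.sqrt_le_sqrt ?_
  exact Finset.single_le_sum (f := fun i => (k i : ℝ) ^ 2) (fun j _ => sq_nonneg _) (Finset.mem_univ i)

lemma n1_le (k : Md) : n1 k ≤ 3 * Real.sqrt (nsq k) := by
  unfold n1
  calc ∑ i, |(k i : ℝ)| ≤ ∑ _i : Fin 3, Real.sqrt (nsq k) :=
        Finset.sum_le_sum fun i _ => abs_le_sqrt_nsq k i
    _ = _ := by simp

lemma n1_nonneg (k : Md) : 0 ≤ n1 k := Finset.sum_nonneg fun i _ => abs_nonneg _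

lemma n1_add (j l : Md) : n1 (j + l) ≤ n1 j + n1 l := by
  unfold n1
  rw [← Finset.sum_add_distrib]
  refine Finset.sum_le_sum fun i _ => ?_
  simp only [Pi.add_apply, Int.cast_add]
  exact abs_add_le _ _

lemma nsq_eq_zero {k : Md} (h : nsq k = 0) : k = 0 := by
  unfold nsq at h
  rw [Finset.sum_eq_zero_iff_of_nonneg fun i _ => sq_nonneg _] at h
  funext i
  have := h i (Finset.mem_univ i)
  simpa using this

lemma one_le_nsq {k : Md} (hk : k ≠ 0) : 1 ≤ nsq k := by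
  obtain ⟨i, hi⟩ : ∃ i, k i ≠ 0 := by
    by_contra h
    push Not at h
    exact hk (funext h)
  have h1 : (1:ℝ) ≤ (k i : ℝ) ^ 2 := by
    have : (1:ℤ) ≤ (k i) ^ 2 := by
      have := sq_nonneg (k i)
      have h2 : (k i) ^ 2 ≠ 0 := pow_ne_zero _ hi
      omega
    exact_mod_cast this
  exact h1.trans (Finset.single_le_sum (f := fun i => (k i : ℝ) ^ 2) (fun j _ => sq_nonneg _)
    (Finset.mem_univ i))

lemma dotk_norm (k : Md) (x : V3) : ‖dotk k x‖ ≤ 3 * Real.sqrt (nsq k) * ‖x‖ := by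
  unfold dotk
  calc ‖∑ i, (k i : ℂ) * x i‖ ≤ ∑ i, ‖(k i : ℂ) * x i‖ := norm_sum_le _ _
    _ ≤ ∑ i, |(k i : ℝ)| * ‖x‖ := by
        refine Finset.sum_le_sum fun i _ => ?_
        rw [norm_mul, Complex.norm_intCast]
        gcongr
        exact norm_le_pi_norm x i
    _ = n1 k * ‖x‖ := by rw [n1, Finset.sum_mul]
    _ ≤ _ := by gcongr; exact n1_le k

lemma proj_norm (k : Md) (y : V3) : ‖proj k y‖ ≤ 4 * ‖y‖ := by
  rw [pi_norm_le_iff_of_nonneg (by positivity)]
  intro i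
  unfold proj
  refine (norm_sub_le _ _).trans ?_
  have h1 : ‖y i‖ ≤ ‖y‖ := norm_le_pi_norm y i
  have h2 : ‖dotk k y / (nsq k : ℂ) * (k i : ℂ)‖ ≤ 3 * ‖y‖ := by
    rw [norm_mul, norm_div, Complex.norm_intCast, Complex.norm_real, Real.norm_eq_abs,
      abs_of_nonneg (nsq_nonneg k)]
    rcases (nsq_nonneg k).eq_or_lt with h | h
    · rw [← h]; simp
    · rw [div_mul_eq_mul_div, div_le_iff₀ h]
      calc ‖dotk k y‖ * |(k i : ℝ)| ≤ (3 * Real.sqrt (nsq k) * ‖y‖) * Real.sqrt (nsq k) := by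
            gcongr
            · exact dotk_norm k y
            · exact abs_le_sqrt_nsq k i
        _ = 3 * ‖y‖ * (Real.sqrt (nsq k) * Real.sqrt (nsq k)) := by ring
        _ = _ := by rw [Real.mul_self_sqrt (nsq_nonneg k)]
  linarith

lemma symb_norm (k : Md) (x y : V3) :
    ‖symb k x y‖ ≤ 24 * Real.pi * Real.sqrt (nsq k) * ‖x‖ * ‖y‖ := by
  unfold symb
  rw [norm_smul, norm_mul]
  have h1 : ‖-(2 * (Real.pi : ℂ) * Complex.I)‖ = 2 * Real.pi := by
    rw [norm_neg, norm_mul, norm_mul, Complex.norm_I, Complex.norm_real, Real.norm_eq_abs,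
      abs_of_pos Real.pi_pos]; simp
  rw [h1]
  calc 2 * Real.pi * ‖dotk k x‖ * ‖proj k y‖
      ≤ 2 * Real.pi * (3 * Real.sqrt (nsq k) * ‖x‖) * (4 * ‖y‖) := by
        gcongr
        · exact dotk_norm k x
        · exact proj_norm k y
    _ = _ := by ring

lemma dotk_add (k : Md) (x y : V3) : dotk k (x + y) = dotk k x + dotk k y := by
  simp [dotk, mul_add, Finset.sum_add_distrib]

lemma dotk_smul (k : Md) (c : ℂ) (x : V3) : dotk k (c • x) = c * dotk k x := by
  simp only [dotk, Pi.smul_apply, smul_eq_mul, Finset.mul_sum]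
  refine Finset.sum_congr rfl fun i _ => by ring

lemma proj_add (k : Md) (x y : V3) : proj k (x + y) = proj k x + proj k y := by
  funext i
  simp only [proj, dotk_add, Pi.add_apply]
  ring

lemma proj_smul (k : Md) (c : ℂ) (x : V3) : proj k (c • x) = c • proj k x := by
  funext i
  simp only [proj, dotk_smul, Pi.smul_apply, smul_eq_mul]
  ring

lemma dotk_proj {k : Md} (hk : k ≠ 0) (y : V3) : dotk k (proj k y) = 0 := by
  have h0 : (nsq k : ℂ) ≠ 0 := by
    have := one_le_nsq hk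
    exact_mod_cast (by linarith : nsq k ≠ 0)
  have h1 : ∑ i, (k i : ℂ) * (k i : ℂ) = (nsq k : ℂ) := by
    rw [nsq]; push_cast
    refine Finset.sum_congr rfl fun i _ => by ring
  have : dotk k (proj k y) = dotk k y - dotk k y / (nsq k : ℂ) * ∑ i, (k i : ℂ) * (k i : ℂ) := by
    unfold proj
    simp only [dotk, Finset.mul_sum]
    rw [← Finset.sum_sub_distrib]
    refine Finset.sum_congr rfl fun i _ => by ring
  rw [this, h1, div_mul_cancel₀ _ h0, sub_self]

lemma dotk_symb (k : Md) (x y : V3) : dotk k (symb k x y) = 0 := by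
  by_cases hk : k = 0
  · subst hk; simp [dotk]
  · unfold symb
    rw [dotk_smul, dotk_proj hk, mul_zero]

lemma symb_zero (x y : V3) : symb 0 x y = 0 := by
  unfold symb
  have : dotk 0 x = 0 := by simp [dotk]
  rw [this, mul_zero, zero_smul]

/-- The symbol as a real bilinear map. -/
noncomputable def symbL (k : Md) : V3 →L[ℝ] V3 →L[ℝ] V3 :=
  LinearMap.mkContinuous₂ (LinearMap.mk₂ ℝ (symb k)
    (by intro x x' y; unfold symb; rw [dotk_add, mul_add, add_smul])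
    (by
      intro c x y; unfold symb
      have : c • x = (c : ℂ) • x := by funext i; simp
      rw [this, dotk_smul]
      funext i
      simp only [Pi.smul_apply, smul_eq_mul, Complex.real_smul]
      ring)
    (by intro x y y'; unfold symb; rw [proj_add, smul_add])
    (by
      intro c x y; unfold symb
      have : c • y = (c : ℂ) • y := by funext i; simp
      rw [this, proj_smul]
      funext i
      simp only [Pi.smul_apply, smul_eq_mul, Complex.real_smul]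
      ring))
    (24 * Real.pi * Real.sqrt (nsq k)) (symb_norm k)

@[simp] lemma symbL_apply (k : Md) (x y : V3) : symbL k x y = symb k x y := rfl

lemma symbL_norm (k : Md) : ‖symbL k‖ ≤ 24 * Real.pi * Real.sqrt (nsq k) :=
  LinearMap.mkContinuous₂_norm_le _ (by positivity) _

/-- The constant of the bilinear estimate. -/
noncomputable def Cc (c : ℝ) : ℝ := 24 * Real.pi * Real.sqrt (1 / (2 * c))

lemma Cc_pos {c : ℝ} (hc : 0 < c) : 0 < Cc c := by unfold Cc; positivity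

lemma symb_Cc {c : ℝ} (hc : 0 < c) {k : Md} (hk : k ≠ 0) (A : ℝ) (hA : 0 ≤ A) :
    ‖symbL k‖ * Real.sqrt (A / (2 * (c * nsq k))) ≤ Cc c * Real.sqrt A := by
  have hn : 0 < nsq k := by linarith [one_le_nsq hk]
  have h1 : A / (2 * (c * nsq k)) = (1 / (2 * c)) * A * (1 / nsq k) := by
    field_simp
  rw [h1, Real.sqrt_mul (by positivity), Real.sqrt_mul (by positivity)]
  calc ‖symbL k‖ * (Real.sqrt (1 / (2 * c)) * Real.sqrt A * Real.sqrt (1 / nsq k))
      ≤ (24 * Real.pi * Real.sqrt (nsq k)) *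
        (Real.sqrt (1 / (2 * c)) * Real.sqrt A * Real.sqrt (1 / nsq k)) := by
        gcongr; exact symbL_norm k
    _ = Cc c * Real.sqrt A * (Real.sqrt (nsq k) * Real.sqrt (1 / nsq k)) := by unfold Cc; ring
    _ = Cc c * Real.sqrt A := by
        rw [← Real.sqrt_mul hn.le, mul_one_div_cancel hn.ne', Real.sqrt_one, mul_one]

/-- `T_k(x,y) = ∫₀ᵗ e^{-c|k|²(t-s)} symb_k(x(s),y(s)) ds`. -/
noncomputable def TF (c : ℝ) (k : Md) : L2 V3 →L[ℝ] L2 V3 →L[ℝ] L2 V3 := TT (c * nsq k) (symbL k)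

lemma TF_zero (c : ℝ) : TF c 0 = 0 := by
  ext1 x
  ext1 y
  have h : nsq 0 = 0 := by simp [nsq]
  rw [TF, TT_apply, h, mul_zero]
  unfold SL
  rw [dif_neg (lt_irrefl _)]
  rfl

lemma TF_norm {c : ℝ} (hc : 0 < c) (k : Md) (x y : L2 V3) :
    ‖TF c k x y‖ ≤ Cc c * ‖x‖ * ‖y‖ := by
  by_cases hk : k = 0
  · subst hk
    rw [TF_zero]
    have := (Cc_pos hc).le
    simp only [ContinuousLinearMap.zero_apply, norm_zero]
    positivity
  · have hα : 0 < c * nsq k := mul_pos hc (by linarith [one_le_nsq hk])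
    have h1 := symb_Cc hc hk 1 zero_le_one
    rw [Real.sqrt_one, mul_one] at h1
    calc ‖TF c k x y‖ ≤ Real.sqrt (1 / (2 * (c * nsq k))) * (‖symbL k‖ * ‖x‖ * ‖y‖) :=
          TT_norm hα _ _ _
      _ = (‖symbL k‖ * Real.sqrt (1 / (2 * (c * nsq k)))) * ‖x‖ * ‖y‖ := by ring
      _ ≤ _ := by gcongr

/-- The weight ratio. -/
noncomputable def rho (σ : ℝ) (j l : Md) : ℝ := Real.exp (σ * (n1 (j + l) - n1 j - n1 l))

lemma rho_pos (σ : ℝ) (j l : Md) : 0 < rho σ j l := Real.exp_pos _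

lemma rho_le {σ : ℝ} (hσ : 0 ≤ σ) (j l : Md) : rho σ j l ≤ 1 := by
  unfold rho
  rw [Real.exp_le_one_iff]
  have := n1_add j l
  exact mul_nonpos_of_nonneg_of_nonpos hσ (by linarith)

/-- The weighted family. -/
noncomputable def WT (c σ : ℝ) (j l : Md) : L2 V3 →L[ℝ] L2 V3 →L[ℝ] L2 V3 :=
  rho σ j l • TF c (j + l)

lemma WT_apply (c σ : ℝ) (j l : Md) (x y : L2 V3) :
    WT c σ j l x y = rho σ j l • TF c (j + l) x y := rfl

lemma WT_norm {c σ : ℝ} (hc : 0 < c) (hσ : 0 ≤ σ) (j l : Md) (x y : L2 V3) :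
    ‖WT c σ j l x y‖ ≤ Cc c * ‖x‖ * ‖y‖ := by
  rw [WT_apply, norm_smul, Real.norm_eq_abs, abs_of_pos (rho_pos _ _ _)]
  calc rho σ j l * ‖TF c (j + l) x y‖ ≤ 1 * (Cc c * ‖x‖ * ‖y‖) := by
        gcongr
        · exact rho_le hσ j l
        · exact TF_norm hc _ _ _
    _ = _ := one_mul _

/-- weighted bound for the family -/
lemma WT_weighted {c σ : ℝ} (hc : 0 < c) (hσ : 0 ≤ σ) {m : ℝ → ℝ} (hm : Continuous m)
    (hm1 : ∀ t, |m t| ≤ 1) (hm0 : ∀ t, 0 < m t) (x : L2 V3) {A : ℝ} (hA : 0 ≤ A)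
    (hx : ∀ t, 0 < t → ∫⁻ s in Ioc 0 t, (ENNReal.ofReal (m t / m s) * ‖x s‖ₑ) ^ 2 ≤
      ENNReal.ofReal A) (j l : Md) (v : L2 V3) :
    ‖Mop m hm hm1 (WT c σ j l x v)‖ ≤ Cc c * Real.sqrt A * ‖Mop m hm hm1 v‖ ∧
    ‖Mop m hm hm1 (WT c σ j l v x)‖ ≤ Cc c * Real.sqrt A * ‖Mop m hm hm1 v‖ := by
  have hC := (Cc_pos hc).le
  rw [WT_apply, WT_apply, map_smul, map_smul, norm_smul, norm_smul, Real.norm_eq_abs,
    abs_of_pos (rho_pos _ _ _)]
  have h0 : ∀ y : ℝ, 0 ≤ y → rho σ j l * y ≤ y := fun y hy => by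
    calc rho σ j l * y ≤ 1 * y := by gcongr; exact rho_le hσ j l
      _ = y := one_mul y
  by_cases hk : j + l = 0
  · rw [hk, TF_zero]
    simp only [ContinuousLinearMap.zero_apply, map_zero, norm_zero, mul_zero]
    constructor <;> positivity
  · have hα : 0 < c * nsq (j + l) := mul_pos hc (by linarith [one_le_nsq hk])
    have h1 := TT_weighted hα (symbL (j + l)) hm hm1 hm0 x hA hx v
    have h2 := symb_Cc hc hk A hA
    constructor
    · refine (h0 _ (norm_nonneg _)).trans (h1.1.trans ?_)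
      gcongr
    · refine (h0 _ (norm_nonneg _)).trans (h1.2.trans ?_)
      gcongr

/-- The space. -/
noncomputable abbrev XX := X1 Md (L2 V3)

/-- The weighted bilinear operator on `XX`. -/
noncomputable def Bil (c σ : ℝ) (hc : 0 < c) (hσ : 0 ≤ σ) : XX →L[ℝ] XX →L[ℝ] XX :=
  convL (WT c σ) (C := Cc c) (fun j l x y => WT_norm hc hσ j l x y) (Cc_pos hc).le

lemma Bil_apply (c σ : ℝ) (hc : 0 < c) (hσ : 0 ≤ σ) (g g' : XX) (k : Md) :
    Bil c σ hc hσ g g' k = ∑' j, WT c σ j (k - j) (g j) (g' (k - j)) := rfl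

lemma Bil_norm (c σ : ℝ) (hc : 0 < c) (hσ : 0 ≤ σ) (g g' : XX) :
    ‖Bil c σ hc hσ g g'‖ ≤ Cc c * ‖g‖ * ‖g'‖ := convL_norm _ _ _ _ _

end H754R3.NSD
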