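import Mathlib
import Pool.Agent.H754R3.NSD.Sym

/-! Power bound for the linearised operator around a large background. -/

open Set Filter Topology MeasureTheory
open scoped ENNReal

namespace H754R3.NSD

set_option linter.unusedSectionVars false

/-- weighted norm -/
noncomputable def NN (M : L2 V3 →L[ℝ] L2 V3) (g : XX) : ℝ := ∑' k, ‖M (g k)‖

section NN
variable {M : L2 V3 →L[ℝ] L2 V3} (hM : ∀ x, ‖M x‖ ≤ ‖x‖)
include hM

lemma NN_summable (g : XX) : Summable fun k => ‖M (g k)‖ :=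
  Summable.of_nonneg_of_le (fun _ => norm_nonneg _) (fun k => hM (g k)) (x1_summable g)

lemma NN_le (g : XX) : NN M g ≤ ‖g‖ := by
  rw [x1_norm]
  exact (NN_summable hM g).tsum_le_tsum (fun k => hM (g k)) (x1_summable g)

lemma NN_add (g g' : XX) : NN M (g + g') ≤ NN M g + NN M g' := by
  unfold NN
  rw [← (NN_summable hM g).tsum_add (NN_summable hM g')]
  refine (NN_summable hM (g + g')).tsum_le_tsum (fun k => ?_)
    ((NN_summable hM g).add (NN_summable hM g'))
  rw [lp.coeFn_add, Pi.add_apply, map_add]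
  exact norm_add_le _ _

lemma NN_sum {ι : Type*} (s : Finset ι) (g : ι → XX) : NN M (∑ i ∈ s, g i) ≤ ∑ i ∈ s, NN M (g i) := by
  classical
  induction s using Finset.induction_on with
  | empty => simp [NN]
  | insert a s ha ih =>
      rw [Finset.sum_insert ha, Finset.sum_insert ha]
      exact (NN_add hM _ _).trans (by gcongr)

lemma NN_ge {δ : ℝ} (hMδ : ∀ x, δ * ‖x‖ ≤ ‖M x‖) (g : XX) : δ * ‖g‖ ≤ NN M g := by
  rw [x1_norm, ← tsum_mul_left]
  exact ((x1_summable g).mul_left δ).tsum_le_tsum (fun k => hMδ (g k)) (NN_summable hM g)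

lemma NN_conv {c σ : ℝ} (hc : 0 < c) (hσ : 0 ≤ σ) (y : XX) {e : Md → ℝ} (he0 : ∀ j, 0 ≤ e j)
    (he : Summable e)
    (hey : ∀ j l v, ‖M (WT c σ j l (y j) v)‖ ≤ e j * ‖M v‖ ∧ ‖M (WT c σ l j v (y j))‖ ≤ e j * ‖M v‖)
    (g : XX) :
    NN M (Bil c σ hc hσ y g) ≤ (∑' j, e j) * NN M g ∧
    NN M (Bil c σ hc hσ g y) ≤ (∑' j, e j) * NN M g := by
  constructor
  · have h := conv_bound (F := fun k j => M (WT c σ j (k - j) (y j) (g (k - j)))) (a := e)
      (b := fun j => ‖M (g j)‖) he0 (fun _ => norm_nonneg _) he (NN_summable hM g)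
      (fun k j => (hey j (k - j) _).1)
    refine le_trans (le_of_eq ?_) h.2.2
    unfold NN
    refine tsum_congr fun k => ?_
    rw [Bil_apply]
    rw [M.map_tsum ((conv_T_bound (WT c σ) (fun j l x y => WT_norm hc hσ j l x y)
      (Cc_pos hc).le y g).1 k).of_norm]
  · have h := conv_bound (F := fun k j => M (WT c σ j (k - j) (g j) (y (k - j))))
      (a := fun j => ‖M (g j)‖) (b := e) (fun _ => norm_nonneg _) he0 (NN_summable hM g) he
      (fun k j => by
        rw [mul_comm]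
        exact (hey (k - j) j _).2)
    refine le_trans (le_of_eq ?_) (h.2.2.trans (le_of_eq (mul_comm _ _)))
    unfold NN
    refine tsum_congr fun k => ?_
    rw [Bil_apply]
    rw [M.map_tsum ((conv_T_bound (WT c σ) (fun j l x y => WT_norm hc hσ j l x y)
      (Cc_pos hc).le g y).1 k).of_norm]

end NN

/-- The linearised operator. -/
noncomputable def LL (c σ : ℝ) (hc : 0 < c) (hσ : 0 ≤ σ) (Y : XX) : XX →L[ℝ] XX :=
  Bil c σ hc hσ Y + (Bil c σ hc hσ).flip Y

lemma LL_apply (c σ : ℝ) (hc : 0 < c) (hσ : 0 ≤ σ) (Y g : XX) :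
    LL c σ hc hσ Y g = Bil c σ hc hσ Y g + Bil c σ hc hσ g Y := rfl

/-- The main power bound. -/
theorem LL_pow {c σ : ℝ} (hc : 0 < c) (hσ : 0 ≤ σ) {ι : Type*} (s : Finset ι) (l : ι → Md)
    (x : ι → L2 V3) (φ : ι → ℝ → V3) (hφ : ∀ i, Continuous (φ i))
    (hxφ : ∀ i, (x i : ℝ → V3) =ᵐ[mup] φ i) (rest : XX) {lam Θ : ℝ} (hlam : 0 < lam)
    (hΘ : ∀ t, 0 ≤ t → ∫ r in (0:ℝ)..t, ∑ i ∈ s, ‖φ i r‖ ^ 2 ≤ Θ)
    (hrest : Cc c * ‖rest‖ ≤ 1 / 8)
    (hs : Cc c * s.card * Real.sqrt (1 / (2 * lam)) ≤ 1 / 8)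
    (m : ℕ) (g : XX) :
    ‖((LL c σ hc hσ (rest + ∑ i ∈ s, lp.single 1 (l i) (x i))) ^ m) g‖ ≤
      Real.exp (lam * Θ) * (1 / 2) ^ m * ‖g‖ := by
  classical
  set G : ℝ → ℝ := fun r => ∑ i ∈ s, ‖φ i r‖ ^ 2 with hG
  have hGc : Continuous G := continuous_finsetSum _ fun i _ => ((hφ i).norm.pow 2)
  have hG0 : ∀ r, 0 ≤ G r := fun r => Finset.sum_nonneg fun i _ => sq_nonneg _
  set θ : ℝ → ℝ := fun t => ∫ r in (0:ℝ)..t, G r with hθ
  have hθd : ∀ t, HasDerivAt θ (G t) t := fun t =>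
    intervalIntegral.integral_hasDerivAt_right (hGc.intervalIntegrable _ _)
      (hGc.stronglyMeasurableAtFilter _ _) hGc.continuousAt
  have hθc : Continuous θ := continuous_iff_continuousAt.2 fun t => (hθd t).continuousAt
  have hθmono : Monotone θ := monotone_of_deriv_nonneg (fun t => (hθd t).differentiableAt)
    (fun t => by rw [(hθd t).deriv]; exact hG0 t)
  have hθ0 : θ 0 = 0 := by simp [hθ]
  set mw : ℝ → ℝ := fun t => Real.exp (-(lam * θ (max t 0))) with hmw
  have hmc : Continuous mw := by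
    refine Real.continuous_exp.comp ((continuous_const.mul (hθc.comp (by fun_prop))).neg)
  have hθnn : ∀ t, 0 ≤ θ (max t 0) := fun t => by
    have h := hθmono (le_max_right t 0)
    rwa [hθ0] at h
  have hm0 : ∀ t, 0 < mw t := fun t => Real.exp_pos _
  have hm1 : ∀ t, |mw t| ≤ 1 := fun t => by
    rw [abs_of_pos (hm0 t), hmw]
    simp only [Real.exp_le_one_iff, Left.neg_nonpos_iff]
    exact mul_nonneg hlam.le (hθnn t)
  have hmδ : ∀ t, Real.exp (-(lam * Θ)) ≤ mw t := fun t => by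
    rw [hmw]
    simp only [Real.exp_le_exp, neg_le_neg_iff]
    exact mul_le_mul_of_nonneg_left (hΘ _ (le_max_right _ _)) hlam.le
  set M := Mop (V := V3) mw hmc hm1 with hMdef
  have hM : ∀ x, ‖M x‖ ≤ ‖x‖ := fun x => Mop_le hmc hm1 x
  have hMδ : ∀ x, Real.exp (-(lam * Θ)) * ‖x‖ ≤ ‖M x‖ := fun x =>
    Mop_ge hmc hm1 (Real.exp_pos _).le hmδ x
  -- ratio
  have hratio : ∀ t, 0 < t → ∀ r ∈ Ioc 0 t, mw t / mw r = Real.exp (-(lam * (θ t - θ r))) := by
    intro t ht r hr
    rw [hmw]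
    simp only
    rw [max_eq_left ht.le, max_eq_left hr.1.le, ← Real.exp_sub]
    congr 1; ring
  -- A for single terms
  have hA1 : ∀ i ∈ s, ∀ t, 0 < t →
      ∫⁻ r in Ioc 0 t, (ENNReal.ofReal (mw t / mw r) * ‖x i r‖ₑ) ^ 2 ≤
        ENNReal.ofReal (1 / (2 * lam)) := by
    intro i hi t ht
    have e1 : ∫⁻ r in Ioc 0 t, (ENNReal.ofReal (mw t / mw r) * ‖x i r‖ₑ) ^ 2 ≤
        ∫⁻ r in Ioc 0 t, ENNReal.ofReal (Real.exp (-(2 * lam * (θ t - θ r))) * G r) := by
      refine lintegral_mono_ae ?_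
      have h1 := ae_mono (mup_Ioc (t := t)) (hxφ i)
      filter_upwards [h1, ae_restrict_mem measurableSet_Ioc] with r hr hr2
      rw [hratio t ht r hr2, hr, mul_pow, ← ENNReal.ofReal_pow (Real.exp_pos _).le,
        ENNReal.ofReal_mul (Real.exp_pos _).le, ← Real.exp_nat_mul]
      refine mul_le_mul' (le_of_eq ?_) ?_
      · congr 2; push_cast; ring
      · rw [← ofReal_norm, ← ENNReal.ofReal_pow (norm_nonneg _)]
        refine ENNReal.ofReal_le_ofReal ?_
        exact Finset.single_le_sum (f := fun i => ‖φ i r‖ ^ 2) (fun j _ => sq_nonneg _) hi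
    refine e1.trans ?_
    have hcont : Continuous fun r => Real.exp (-(2 * lam * (θ t - θ r))) * G r := by fun_prop
    rw [← ofReal_integral_eq_lintegral_ofReal
      ((hcont.continuousOn.integrableOn_Icc (a := 0) (b := t)).mono_set Ioc_subset_Icc_self)
      (Eventually.of_forall fun r => mul_nonneg (Real.exp_pos _).le (hG0 r))]
    refine ENNReal.ofReal_le_ofReal ?_
    rw [← intervalIntegral.integral_of_le ht.le]
    have hd : ∀ r ∈ uIcc 0 t, HasDerivAt (fun r => Real.exp (-(2 * lam * (θ t - θ r))) * (1 / (2 * lam)))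
        (Real.exp (-(2 * lam * (θ t - θ r))) * G r) r := by
      intro r _
      have h1 : HasDerivAt (fun r => -(2 * lam * (θ t - θ r))) (2 * lam * G r) r := by
        have h := ((hθd r).const_sub (θ t)).const_mul (-(2 * lam))
        have e : (fun r => -(2 * lam * (θ t - θ r))) = fun y => -(2 * lam) * (θ t - θ y) := by
          funext y; ring
        rw [e]
        exact h.congr_deriv (by ring)
      have h2 := h1.exp.mul_const (1 / (2 * lam))
      refine h2.congr_deriv ?_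
      have h3 : (2 * lam) * (1 / (2 * lam)) = 1 := by field_simp
      linear_combination (Real.exp (-(2 * lam * (θ t - θ r))) * G r) * h3
    rw [intervalIntegral.integral_eq_sub_of_hasDerivAt hd (hcont.intervalIntegrable _ _)]
    have h3 : Real.exp (-(2 * lam * (θ t - θ t))) = 1 := by simp
    rw [h3]
    have h4 : 0 ≤ Real.exp (-(2 * lam * (θ t - θ 0))) * (1 / (2 * lam)) := by positivity
    linarith
  -- A for rest
  have hA2 : ∀ y : L2 V3, ∀ t, 0 < t →
      ∫⁻ r in Ioc 0 t, (ENNReal.ofReal (mw t / mw r) * ‖y r‖ₑ) ^ 2 ≤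
        ENNReal.ofReal (‖y‖ ^ 2) := by
    intro y t ht
    rw [ENNReal.ofReal_pow (norm_nonneg _), L2_norm_sq]
    refine le_trans ?_ (lintegral_mono' (mup_Ioc (t := t)) le_rfl)
    refine setLIntegral_mono' measurableSet_Ioc fun r hr => ?_
    gcongr
    calc ENNReal.ofReal (mw t / mw r) * ‖y r‖ₑ ≤ 1 * ‖y r‖ₑ := by
          gcongr
          rw [hratio t ht r hr, ← ENNReal.ofReal_one]
          refine ENNReal.ofReal_le_ofReal (Real.exp_le_one_iff.2 ?_)
          have := mul_nonneg hlam.le (sub_nonneg.2 (hθmono hr.2))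
          linarith
      _ = _ := one_mul _
  have hC := (Cc_pos hc).le
  set L := LL c σ hc hσ (rest + ∑ i ∈ s, lp.single 1 (l i) (x i)) with hL
  -- contraction in NN
  have hrestB : ∀ g, NN M (Bil c σ hc hσ rest g) ≤ (1 / 8) * NN M g ∧
      NN M (Bil c σ hc hσ g rest) ≤ (1 / 8) * NN M g := by
    intro g
    have h := NN_conv hM hc hσ rest (e := fun j => Cc c * ‖rest j‖) (fun j => by positivity)
      ((x1_summable rest).mul_left _) (fun j l v => by
        have h1 := WT_weighted hc hσ hmc hm1 hm0 (rest j) (sq_nonneg _) (hA2 (rest j)) j l v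
        have h2 := WT_weighted hc hσ hmc hm1 hm0 (rest j) (sq_nonneg _) (hA2 (rest j)) l j v
        rw [Real.sqrt_sq (norm_nonneg _)] at h1 h2
        exact ⟨h1.1, h2.2⟩) g
    have hsum : ∑' j, Cc c * ‖rest j‖ ≤ 1 / 8 := by
      rw [tsum_mul_left, ← x1_norm]; exact hrest
    have hNN0 : 0 ≤ NN M g := tsum_nonneg fun _ => norm_nonneg _
    exact ⟨h.1.trans (mul_le_mul_of_nonneg_right hsum hNN0),
      h.2.trans (mul_le_mul_of_nonneg_right hsum hNN0)⟩
  set e0 : ℝ := Cc c * Real.sqrt (1 / (2 * lam)) with he0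
  have he00 : 0 ≤ e0 := by positivity
  have hsingB : ∀ i ∈ s, ∀ g, NN M (Bil c σ hc hσ (lp.single 1 (l i) (x i)) g) ≤ e0 * NN M g ∧
      NN M (Bil c σ hc hσ g (lp.single 1 (l i) (x i))) ≤ e0 * NN M g := by
    intro i hi g
    have h := NN_conv hM hc hσ (lp.single 1 (l i) (x i)) (e := Pi.single (l i) e0)
      (fun j => by
        by_cases hj : j = l i
        · subst hj; simpa using he00
        · simp [Pi.single_eq_of_ne hj])
      (hasSum_pi_single (l i) e0).summable
      (fun j l' v => by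
        by_cases hj : j = l i
        · subst hj
          rw [lp.single_apply_self, Pi.single_eq_same]
          exact ⟨(WT_weighted hc hσ hmc hm1 hm0 (x i) (by positivity) (hA1 i hi) (l i) l' v).1,
            (WT_weighted hc hσ hmc hm1 hm0 (x i) (by positivity) (hA1 i hi) l' (l i) v).2⟩
        · rw [lp.single_apply_ne _ _ _ hj, Pi.single_eq_of_ne hj]
          simp) g
    have hsum : ∑' j, (Pi.single (l i) e0 : Md → ℝ) j = e0 := (hasSum_pi_single (l i) e0).tsum_eq
    rw [hsum] at h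
    exact h
  have hcontr : ∀ g, NN M (L g) ≤ 1 / 2 * NN M g := by
    intro g
    have hNN0 : 0 ≤ NN M g := tsum_nonneg fun _ => norm_nonneg _
    rw [hL, LL_apply, map_add, map_sum, ContinuousLinearMap.add_apply, map_add, map_sum,
      ContinuousLinearMap.sum_apply]
    have h1 : NN M (∑ i ∈ s, Bil c σ hc hσ (lp.single 1 (l i) (x i)) g) ≤ (1 / 8) * NN M g := by
      refine (NN_sum hM _ _).trans ((Finset.sum_le_sum fun i hi => (hsingB i hi g).1).trans ?_)
      rw [Finset.sum_const, nsmul_eq_mul, ← mul_assoc]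
      refine mul_le_mul_of_nonneg_right ?_ hNN0
      calc (s.card : ℝ) * e0 = Cc c * s.card * Real.sqrt (1 / (2 * lam)) := by rw [he0]; ring
        _ ≤ _ := hs
    have h2 : NN M (∑ i ∈ s, Bil c σ hc hσ g (lp.single 1 (l i) (x i))) ≤ (1 / 8) * NN M g := by
      refine (NN_sum hM _ _).trans ((Finset.sum_le_sum fun i hi => (hsingB i hi g).2).trans ?_)
      rw [Finset.sum_const, nsmul_eq_mul, ← mul_assoc]
      refine mul_le_mul_of_nonneg_right ?_ hNN0
      calc (s.card : ℝ) * e0 = Cc c * s.card * Real.sqrt (1 / (2 * lam)) := by rw [he0]; ring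
        _ ≤ _ := hs
    have h3 := (hrestB g).1
    have h4 := (hrestB g).2
    refine (NN_add hM _ _).trans ?_
    have h5 := NN_add hM (Bil c σ hc hσ rest g) (∑ i ∈ s, Bil c σ hc hσ (lp.single 1 (l i) (x i)) g)
    have h6 := NN_add hM (Bil c σ hc hσ g rest) (∑ i ∈ s, Bil c σ hc hσ g (lp.single 1 (l i) (x i)))
    linarith
  have hpow : ∀ m : ℕ, NN M ((L ^ m) g) ≤ (1 / 2) ^ m * NN M g := by
    intro m
    induction m with
    | zero => simp
    | succ m ih =>
        rw [pow_succ']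
        calc NN M ((L * L ^ m) g) = NN M (L ((L ^ m) g)) := rfl
          _ ≤ 1 / 2 * NN M ((L ^ m) g) := hcontr _
          _ ≤ 1 / 2 * ((1 / 2) ^ m * NN M g) := by gcongr
          _ = _ := by ring
  have h1 := NN_ge hM hMδ ((L ^ m) g)
  have h2 := hpow m
  have h3 := NN_le hM g
  have h4 : Real.exp (lam * Θ) * Real.exp (-(lam * Θ)) = 1 := by rw [← Real.exp_add]; simp
  calc ‖(L ^ m) g‖ = Real.exp (lam * Θ) * (Real.exp (-(lam * Θ)) * ‖(L ^ m) g‖) := by
        rw [← mul_assoc, h4, one_mul]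
    _ ≤ Real.exp (lam * Θ) * ((1 / 2) ^ m * ‖g‖) := by
        refine mul_le_mul_of_nonneg_left ?_ (Real.exp_pos _).le
        refine h1.trans (h2.trans ?_)
        exact mul_le_mul_of_nonneg_left h3 (by positivity)
    _ = _ := by ring

end H754R3.NSD
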