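import Mathlib
import Pool.Agent.H754R3.NSD.Lin

/-! Exponentials in `L²(0,∞)`, complex conjugation. -/

open Set Filter Topology MeasureTheory
open scoped ENNReal

namespace H754R3.NSD

set_option linter.unusedSectionVars false

/-- the function `t ↦ e^{-γ t} z` -/
noncomputable def exf (γ : ℝ) (z : V3) (t : ℝ) : V3 := Real.exp (-(γ * t)) • z

lemma exf_continuous (γ : ℝ) (z : V3) : Continuous (exf γ z) := by unfold exf; fun_prop

lemma lint_exp {b : ℝ} (hb : 0 < b) :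
    ∫⁻ t, ENNReal.ofReal (Real.exp (-(b * t))) ∂mup = ENNReal.ofReal (1 / b) := by
  have h := lintegral_exp_Ici hb 0
  simp only [sub_zero] at h
  rw [← h, setLIntegral_congr (Ioi_ae_eq_Ici.symm)]

lemma exf_sq {γ : ℝ} (hγ : 0 < γ) (z : V3) :
    ∫⁻ t, ‖exf γ z t‖ₑ ^ 2 ∂mup = ENNReal.ofReal (‖z‖ * Real.sqrt (1 / (2 * γ))) ^ 2 := by
  have h1 : ∀ t, ‖exf γ z t‖ₑ ^ 2 = ENNReal.ofReal (Real.exp (-(2 * γ * t))) * ENNReal.ofReal (‖z‖ ^ 2) := by
    intro t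
    have h6 : ((2 : ℕ) : ℝ) * -(γ * t) = -(2 * γ * t) := by push_cast; ring
    rw [exf, enorm_smul, Real.enorm_eq_ofReal (Real.exp_pos _).le, mul_pow,
      ← ENNReal.ofReal_pow (Real.exp_pos _).le, ← Real.exp_nat_mul, h6, ← ofReal_norm,
      ← ENNReal.ofReal_pow (norm_nonneg _)]
  simp_rw [h1]
  rw [lintegral_mul_const' _ _ ENNReal.ofReal_ne_top, lint_exp (by linarith : 0 < 2 * γ),
    ← ENNReal.ofReal_mul (by positivity), ← ENNReal.ofReal_pow (by positivity), mul_pow,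
    Real.sq_sqrt (by positivity)]
  congr 1; ring

lemma exf_memLp {γ : ℝ} (hγ : 0 < γ) (z : V3) : MemLp (exf γ z) 2 mup := by
  refine ⟨(exf_continuous γ z).aestronglyMeasurable, ?_⟩
  have h : eLpNorm (exf γ z) 2 mup ≤ ENNReal.ofReal (‖z‖ * Real.sqrt (1 / (2 * γ))) :=
    eL2_le (exf_sq hγ z).le
  exact h.trans_lt ENNReal.ofReal_lt_top

/-- `e^{-γ t} z` as an element of `L²`. -/
noncomputable def exF (γ : ℝ) (z : V3) : L2 V3 :=
  if hγ : 0 < γ then (exf_memLp hγ z).toLp (exf γ z) else 0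

lemma exF_coe {γ : ℝ} (hγ : 0 < γ) (z : V3) : (exF γ z : ℝ → V3) =ᵐ[mup] exf γ z := by
  rw [exF, dif_pos hγ]; exact MemLp.coeFn_toLp _

lemma exF_norm_le {γ : ℝ} (hγ : 0 < γ) (z : V3) :
    ‖exF γ z‖ ≤ ‖z‖ * Real.sqrt (1 / (2 * γ)) := by
  refine L2_norm_le_of (by positivity) ?_
  rw [← exf_sq hγ z]
  refine le_of_eq (lintegral_congr_ae ?_)
  filter_upwards [exF_coe hγ z] with t ht
  rw [ht]

lemma exF_add (γ : ℝ) (z z' : V3) : exF γ (z + z') = exF γ z + exF γ z' := by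
  by_cases hγ : 0 < γ
  · apply Lp.ext
    filter_upwards [exF_coe hγ z, exF_coe hγ z', exF_coe hγ (z + z'), Lp.coeFn_add (exF γ z) (exF γ z')]
      with t h1 h2 h3 h4
    rw [h3, h4, Pi.add_apply, h1, h2]; simp [exf]
  · simp [exF, dif_neg hγ]

lemma exF_smul (γ : ℝ) (a : ℝ) (z : V3) : exF γ (a • z) = a • exF γ z := by
  by_cases hγ : 0 < γ
  · apply Lp.ext
    filter_upwards [exF_coe hγ z, exF_coe hγ (a • z), Lp.coeFn_smul a (exF γ z)]
      with t h1 h2 h3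
    rw [h2, h3, Pi.smul_apply, h1]
    simp only [exf]; rw [smul_comm]
  · simp [exF, dif_neg hγ]

lemma exF_zero (γ : ℝ) : exF γ 0 = 0 := by
  have := exF_smul γ 0 0
  simpa using this

lemma exF_neg (γ : ℝ) (z : V3) : exF γ (-z) = -exF γ z := by
  have := exF_smul γ (-1) z
  simpa using this

/-- The product of two exponentials under the Duhamel operator. -/
lemma TF_ex {c : ℝ} (hc : 0 < c) {k : Md} (hk : k ≠ 0) {γ₁ γ₂ : ℝ} (h1 : 0 < γ₁) (h2 : 0 < γ₂)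
    (hne : γ₁ + γ₂ - c * nsq k ≠ 0) (p q : V3) :
    TF c k (exF γ₁ p) (exF γ₂ q) =
      (1 / (γ₁ + γ₂ - c * nsq k)) • (exF (c * nsq k) (symb k p q) - exF (γ₁ + γ₂) (symb k p q)) := by
  have hα : 0 < c * nsq k := mul_pos hc (by linarith [one_le_nsq hk])
  set α := c * nsq k with hαd
  apply Lp.ext
  have hae : (fun s => symbL k (exF γ₁ p s) (exF γ₂ q s)) =ᵐ[mup]
      fun s => Real.exp (-((γ₁ + γ₂) * s)) • symb k p q := by
    filter_upwards [exF_coe h1 p, exF_coe h2 q] with s hs1 hs2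
    rw [hs1, hs2]
    simp only [exf, map_smul, ContinuousLinearMap.smul_apply, symbL_apply, smul_smul]
    rw [← Real.exp_add]
    congr 2; ring
  filter_upwards [TT_coe hα (symbL k) (exF γ₁ p) (exF γ₂ q),
    Lp.coeFn_smul (1 / (γ₁ + γ₂ - α)) (exF α (symb k p q) - exF (γ₁ + γ₂) (symb k p q)),
    Lp.coeFn_sub (exF α (symb k p q)) (exF (γ₁ + γ₂) (symb k p q)),
    exF_coe hα (symb k p q), exF_coe (add_pos h1 h2) (symb k p q),
    ae_restrict_mem measurableSet_Ioi] with t e1 e2 e3 e4 e5 ht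
  rw [TF, e1, e2, Pi.smul_apply, e3, Pi.sub_apply, e4, e5, duh_congr α hae t]
  have ht0 : 0 ≤ t := le_of_lt ht
  rw [duh_of_nonneg α _ ht0, ← intervalIntegral.integral_of_le ht0]
  have hi : ∀ s, Real.exp (-(α * (t - s))) • Real.exp (-((γ₁ + γ₂) * s)) • symb k p q =
      (Real.exp (-(α * t)) * Real.exp (-((γ₁ + γ₂ - α) * s))) • symb k p q := by
    intro s
    rw [smul_smul, ← Real.exp_add, ← Real.exp_add]
    congr 2; ring
  simp_rw [hi]
  rw [intervalIntegral.integral_smul_const, intervalIntegral.integral_const_mul]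
  have hd : ∀ s ∈ uIcc 0 t, HasDerivAt (fun s => -(1 / (γ₁ + γ₂ - α)) * Real.exp (-((γ₁ + γ₂ - α) * s)))
      (Real.exp (-((γ₁ + γ₂ - α) * s))) s := by
    intro s _
    have h3 : HasDerivAt (fun s : ℝ => -((γ₁ + γ₂ - α) * s)) (-(γ₁ + γ₂ - α)) s := by
      have := (hasDerivAt_id s).const_mul (-(γ₁ + γ₂ - α))
      have e : (fun s : ℝ => -((γ₁ + γ₂ - α) * s)) = fun y => -(γ₁ + γ₂ - α) * id y := by
        funext y; simp only [id]; ring
      rw [e]; exact this.congr_deriv (by ring)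
    refine (h3.exp.const_mul _).congr_deriv ?_
    field_simp
  rw [intervalIntegral.integral_eq_sub_of_hasDerivAt hd (by
    apply Continuous.intervalIntegrable; fun_prop)]
  simp only [exf]
  rw [← sub_smul, smul_smul]
  congr 1
  have e6 : Real.exp (-((γ₁ + γ₂) * t)) = Real.exp (-(α * t)) * Real.exp (-((γ₁ + γ₂ - α) * t)) := by
    rw [← Real.exp_add]; congr 1; ring
  rw [e6]
  simp only [mul_zero, neg_zero, Real.exp_zero]
  ring

lemma TF_ex_norm {c : ℝ} (hc : 0 < c) {k : Md} (hk : k ≠ 0) {γ₁ γ₂ : ℝ} (h1 : 0 < γ₁) (h2 : 0 < γ₂)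
    (p q : V3) :
    ‖TF c k (exF γ₁ p) (exF γ₂ q)‖ ≤
      Real.sqrt (1 / (2 * (c * nsq k))) * (‖symb k p q‖ / (γ₁ + γ₂)) := by
  have hα : 0 < c * nsq k := mul_pos hc (by linarith [one_le_nsq hk])
  refine (TT_norm_L1 hα (symbL k) (exF γ₁ p) (exF γ₂ q)).trans ?_
  gcongr
  refine ENNReal.toReal_le_of_le_ofReal (by positivity) (le_of_eq ?_)
  have hae : (fun s => ‖symbL k (exF γ₁ p s) (exF γ₂ q s)‖ₑ) =ᵐ[mup]
      fun s => ENNReal.ofReal (Real.exp (-((γ₁ + γ₂) * s))) * ENNReal.ofReal ‖symb k p q‖ := by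
    filter_upwards [exF_coe h1 p, exF_coe h2 q] with s hs1 hs2
    rw [hs1, hs2]
    simp only [exf, map_smul, ContinuousLinearMap.smul_apply, symbL_apply, smul_smul]
    rw [← Real.exp_add, enorm_smul, Real.enorm_eq_ofReal (Real.exp_pos _).le, ofReal_norm]
    congr 3; ring
  rw [lintegral_congr_ae hae, lintegral_mul_const' _ _ ENNReal.ofReal_ne_top,
    lint_exp (add_pos h1 h2), ← ENNReal.ofReal_mul (by positivity)]
  congr 1; ring

lemma TF_ex_norm' {c : ℝ} (hc : 0 < c) (k : Md) {γ₁ γ₂ : ℝ} (h1 : 0 < γ₁) (h2 : 0 < γ₂)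
    (p q : V3) :
    ‖TF c k (exF γ₁ p) (exF γ₂ q)‖ ≤ Cc c * (‖p‖ * ‖q‖ / (γ₁ + γ₂)) := by
  by_cases hk : k = 0
  · subst hk
    rw [TF_zero]
    have := (Cc_pos hc).le
    simp only [ContinuousLinearMap.zero_apply, norm_zero]
    positivity
  · refine (TF_ex_norm hc hk h1 h2 p q).trans ?_
    have h3 := symb_Cc hc hk 1 zero_le_one
    rw [Real.sqrt_one, mul_one] at h3
    have h4 : ‖symb k p q‖ ≤ ‖symbL k‖ * ‖p‖ * ‖q‖ := (symbL k).le_opNorm₂ p q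
    calc Real.sqrt (1 / (2 * (c * nsq k))) * (‖symb k p q‖ / (γ₁ + γ₂))
        ≤ Real.sqrt (1 / (2 * (c * nsq k))) * ((‖symbL k‖ * ‖p‖ * ‖q‖) / (γ₁ + γ₂)) := by gcongr
      _ = (‖symbL k‖ * Real.sqrt (1 / (2 * (c * nsq k)))) * (‖p‖ * ‖q‖ / (γ₁ + γ₂)) := by ring
      _ ≤ _ := by gcongr

/-- vanishing interaction -/
lemma TF_ex_zero {c : ℝ} {k : Md} {γ₁ γ₂ : ℝ} (h1 : 0 < γ₁) (h2 : 0 < γ₂)
    (hc : 0 < c) (p q : V3) (h : dotk k p = 0) : TF c k (exF γ₁ p) (exF γ₂ q) = 0 := by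
  by_cases hk : k = 0
  · subst hk; rw [TF_zero]; rfl
  · have := TF_ex_norm hc hk h1 h2 p q
    have h3 : symb k p q = 0 := by unfold symb; rw [h, mul_zero, zero_smul]
    rw [h3, norm_zero, zero_div, mul_zero] at this
    exact norm_le_zero_iff.1 this

/-! interaction with a general background -/

/-- the weight `e^{-γ t/2}` -/
noncomputable def mg (γ : ℝ) (t : ℝ) : ℝ := Real.exp (-(γ / 2 * max t 0))

lemma mg_cont (γ : ℝ) : Continuous (mg γ) := by unfold mg; fun_prop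

lemma mg_pos (γ t : ℝ) : 0 < mg γ t := Real.exp_pos _

lemma mg_le {γ : ℝ} (hγ : 0 ≤ γ) (t : ℝ) : |mg γ t| ≤ 1 := by
  rw [abs_of_pos (mg_pos γ t), mg, Real.exp_le_one_iff]
  have : 0 ≤ γ / 2 * max t 0 := mul_nonneg (by linarith) (le_max_right _ _)
  linarith

/-- Weight operator. -/
noncomputable def Mg (γ : ℝ) (hγ : 0 ≤ γ) : L2 V3 →L[ℝ] L2 V3 := Mop (mg γ) (mg_cont γ) (mg_le hγ)

lemma TF_bg {c : ℝ} (hc : 0 < c) (k : Md) {γ : ℝ} (hγ : 0 < γ) (z : V3) (y : L2 V3) :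
    ‖TF c k y (exF γ z)‖ ≤ Cc c * (‖z‖ * Real.sqrt (1 / γ)) * ‖Mg γ hγ.le y‖ ∧
    ‖TF c k (exF γ z) y‖ ≤ Cc c * (‖z‖ * Real.sqrt (1 / γ)) * ‖Mg γ hγ.le y‖ := by
  by_cases hk : k = 0
  · subst hk
    rw [TF_zero]
    have := (Cc_pos hc).le
    simp only [ContinuousLinearMap.zero_apply, norm_zero]
    constructor <;> positivity
  have hα : 0 < c * nsq k := mul_pos hc (by linarith [one_le_nsq hk])
  have h3 := symb_Cc hc hk 1 zero_le_one
  rw [Real.sqrt_one, mul_one] at h3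
  -- the L¹ bound
  have key : ∫⁻ s, ‖y s‖ₑ * ‖exF γ z s‖ₑ ∂mup ≤
      ENNReal.ofReal (‖Mg γ hγ.le y‖ * (‖z‖ * Real.sqrt (1 / γ))) := by
    have e1 : ∫⁻ s, ‖y s‖ₑ * ‖exF γ z s‖ₑ ∂mup =
        ∫⁻ s, ‖Mg γ hγ.le y s‖ₑ * ‖exf (γ / 2) z s‖ₑ ∂mup := by
      refine lintegral_congr_ae ?_
      filter_upwards [exF_coe hγ z, Mop_coe (mg_cont γ) (mg_le hγ.le) y,
        ae_restrict_mem measurableSet_Ioi] with s h1 h2 h3
      have h3' : max s 0 = s := max_eq_left (le_of_lt h3)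
      rw [h1, Mg, h2]
      simp only [exf, enorm_smul, mg, h3']
      rw [Real.enorm_eq_ofReal (Real.exp_pos _).le, Real.enorm_eq_ofReal (Real.exp_pos _).le]
      have e : Real.exp (-(γ * s)) = Real.exp (-(γ / 2 * s)) * Real.exp (-(γ / 2 * s)) := by
        rw [← Real.exp_add]; congr 1; ring
      rw [e, ENNReal.ofReal_mul (Real.exp_pos _).le]
      ring
    rw [e1]
    have h2 := cs_sq (μ := mup) (f := fun s => ‖Mg γ hγ.le y s‖ₑ) (g := fun s => ‖exf (γ / 2) z s‖ₑ)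
      (Lp.aestronglyMeasurable _).enorm (exf_continuous _ _).aestronglyMeasurable.enorm
    rw [exf_sq (by linarith), ← L2_norm_sq, ← mul_pow, ← ENNReal.ofReal_mul (norm_nonneg _)] at h2
    have h4 := (ENNReal.pow_le_pow_left_iff (by norm_num)).1 h2
    have h5 : 1 / (2 * (γ / 2)) = 1 / γ := by congr 1; ring
    rw [h5] at h4
    exact h4
  have hb : ∀ y z : V3, ‖symbL k y z‖ₑ ≤ ENNReal.ofReal ‖symbL k‖ * (‖y‖ₑ * ‖z‖ₑ) := by
    intro y z
    rw [← ofReal_norm, ← ofReal_norm, ← ofReal_norm,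
      ← ENNReal.ofReal_mul (norm_nonneg _), ← ENNReal.ofReal_mul (by positivity)]
    refine ENNReal.ofReal_le_ofReal (((symbL k).le_opNorm₂ y z).trans (le_of_eq (by ring)))
  have fin : ∀ a b : L2 V3, (∫⁻ s, ‖a s‖ₑ * ‖b s‖ₑ ∂mup ≤
      ENNReal.ofReal (‖Mg γ hγ.le y‖ * (‖z‖ * Real.sqrt (1 / γ)))) →
      ‖TF c k a b‖ ≤ Cc c * (‖z‖ * Real.sqrt (1 / γ)) * ‖Mg γ hγ.le y‖ := by
    intro a b hab
    refine (TT_norm_L1 hα (symbL k) a b).trans ?_
    have h6 : (∫⁻ s, ‖symbL k (a s) (b s)‖ₑ ∂mup).toReal ≤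
        ‖symbL k‖ * (‖Mg γ hγ.le y‖ * (‖z‖ * Real.sqrt (1 / γ))) := by
      refine ENNReal.toReal_le_of_le_ofReal (by positivity) ?_
      rw [ENNReal.ofReal_mul (show (0:ℝ) ≤ ‖symbL k‖ by positivity)]
      calc ∫⁻ s, ‖symbL k (a s) (b s)‖ₑ ∂mup
          ≤ ∫⁻ s, ENNReal.ofReal ‖symbL k‖ * (‖a s‖ₑ * ‖b s‖ₑ) ∂mup :=
            lintegral_mono fun s => hb _ _
        _ = ENNReal.ofReal ‖symbL k‖ * ∫⁻ s, ‖a s‖ₑ * ‖b s‖ₑ ∂mup :=
            lintegral_const_mul' _ _ ENNReal.ofReal_ne_top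
        _ ≤ _ := by gcongr
    calc _ ≤ Real.sqrt (1 / (2 * (c * nsq k))) *
          (‖symbL k‖ * (‖Mg γ hγ.le y‖ * (‖z‖ * Real.sqrt (1 / γ)))) := by gcongr
      _ = (‖symbL k‖ * Real.sqrt (1 / (2 * (c * nsq k)))) * (‖z‖ * Real.sqrt (1 / γ)) *
          ‖Mg γ hγ.le y‖ := by ring
      _ ≤ _ := by gcongr
  refine ⟨fin y (exF γ z) key, fin (exF γ z) y ?_⟩
  refine le_trans (le_of_eq ?_) key
  refine lintegral_congr fun s => mul_comm _ _

end H754R3.NSD
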