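import Mathlib
import Pool.Agent.H754R3.NSD.Ex
import Pool.Agent.H754R3.NSD.AFP

/-! Conjugation symmetry, weighted embedding, solutions. -/

open Set Filter Topology MeasureTheory
open scoped ENNReal

namespace H754R3.NSD

set_option linter.unusedSectionVars false

/-- Complex conjugation on `V3`. -/
noncomputable def conjV : V3 →L[ℝ] V3 :=
  ContinuousLinearMap.pi fun i => (Complex.conjCLE : ℂ →L[ℝ] ℂ).comp (ContinuousLinearMap.proj i)

@[simp] lemma conjV_apply (x : V3) (i : Fin 3) : conjV x i = (starRingEnd ℂ) (x i) := rfl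

/-- Complex conjugation on `L²`. -/
noncomputable def conjE : L2 V3 →L[ℝ] L2 V3 := conjV.compLpL 2 mup

lemma conjE_coe (x : L2 V3) : (conjE x : ℝ → V3) =ᵐ[mup] fun t => conjV (x t) :=
  ContinuousLinearMap.coeFn_compLpL _ _

lemma dotk_neg_conj (k : Md) (x : V3) : dotk (-k) (conjV x) = -(starRingEnd ℂ) (dotk k x) := by
  simp [dotk]

lemma nsq_neg (k : Md) : nsq (-k) = nsq k := by simp [nsq]

lemma n1_neg (k : Md) : n1 (-k) = n1 k := by simp [n1]

lemma proj_neg_conj (k : Md) (y : V3) : proj (-k) (conjV y) = conjV (proj k y) := by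
  funext i
  simp only [proj, dotk_neg_conj, nsq_neg, conjV_apply, Pi.neg_apply, Int.cast_neg, map_sub,
    map_mul, map_div₀, Complex.conj_ofReal, map_intCast]
  ring

lemma symb_conj (k : Md) (x y : V3) : conjV (symb k x y) = symb (-k) (conjV x) (conjV y) := by
  unfold symb
  rw [dotk_neg_conj, proj_neg_conj]
  funext i
  simp only [conjV_apply, Pi.smul_apply, smul_eq_mul, map_mul, map_neg, Complex.conj_I,
    Complex.conj_ofReal, map_ofNat]
  ring

lemma duh_clm {V : Type*} [NormedAddCommGroup V] [NormedSpace ℝ V] [CompleteSpace V]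
    (L : V →L[ℝ] V) (α : ℝ) {h : ℝ → V} (hh : Integrable h mup) (t : ℝ) :
    L (duh α h t) = duh α (fun s => L (h s)) t := by
  unfold duh
  rw [← ContinuousLinearMap.intervalIntegral_comp_comm L (ii_exp2 hh _ _ _ _)]
  simp

lemma bil_int (b : V3 →L[ℝ] V3 →L[ℝ] V3) (x y : L2 V3) :
    Integrable (fun s => b (x s) (y s)) mup :=
  memLp_one_iff_integrable.1 (b.memLp_of_bilin 1 (Lp.memLp x) (Lp.memLp y))

lemma conj_TF {c : ℝ} (hc : 0 < c) (k : Md) (x y : L2 V3) :
    conjE (TF c k x y) = TF c (-k) (conjE x) (conjE y) := by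
  by_cases hk : k = 0
  · subst hk
    rw [neg_zero, TF_zero]
    exact map_zero conjE
  have hα : 0 < c * nsq k := mul_pos hc (by linarith [one_le_nsq hk])
  have hα' : 0 < c * nsq (-k) := by rwa [nsq_neg]
  apply Lp.ext
  have hae : (fun s => symbL (-k) (conjE x s) (conjE y s)) =ᵐ[mup]
      fun s => conjV (symbL k (x s) (y s)) := by
    filter_upwards [conjE_coe x, conjE_coe y] with s h1 h2
    rw [h1, h2, symbL_apply, symbL_apply, symb_conj]
  filter_upwards [conjE_coe (TF c k x y), TT_coe hα (symbL k) x y,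
    TT_coe hα' (symbL (-k)) (conjE x) (conjE y)] with t h1 h2 h3
  rw [h1, TF, h2, TF, h3, duh_congr _ hae t, nsq_neg]
  exact duh_clm conjV _ (bil_int _ _ _) t

lemma conj_exF (γ : ℝ) (z : V3) : conjE (exF γ z) = exF γ (conjV z) := by
  by_cases hγ : 0 < γ
  · apply Lp.ext
    filter_upwards [conjE_coe (exF γ z), exF_coe hγ z, exF_coe hγ (conjV z)] with t h1 h2 h3
    rw [h1, h2, h3]
    simp only [exf, map_smul]
  · simp only [exF, dif_neg hγ]; exact map_zero conjE

lemma conjE_conjE (x : L2 V3) : conjE (conjE x) = x := by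
  apply Lp.ext
  filter_upwards [conjE_coe (conjE x), conjE_coe x] with t h1 h2
  rw [h1, h2]; funext i; simp

/-- Symmetric sequences. -/
noncomputable def SymS : Submodule ℝ XX where
  carrier := {g | ∀ k, g (-k) = conjE (g k)}
  add_mem' := by
    intro a b ha hb k
    rw [lp.coeFn_add, Pi.add_apply, Pi.add_apply, ha k, hb k, map_add]
  zero_mem' := by
    intro k
    rw [lp.coeFn_zero, Pi.zero_apply, Pi.zero_apply, map_zero]
  smul_mem' := by
    intro c a ha k
    rw [lp.coeFn_smul, Pi.smul_apply, Pi.smul_apply, ha k, map_smul]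

lemma SymS_mem {g : XX} : g ∈ SymS ↔ ∀ k, g (-k) = conjE (g k) := Iff.rfl

lemma eval_cont (k : Md) : Continuous fun g : XX => g k :=
  (lp.lipschitzWith_one_eval (E := fun _ : Md => L2 V3) 1 k).continuous

lemma SymS_closed : IsClosed (SymS : Set XX) := by
  have : (SymS : Set XX) = ⋂ k, {g : XX | g (-k) = conjE (g k)} := by
    ext g; simp [SymS]
  rw [this]
  exact isClosed_iInter fun k => isClosed_eq (eval_cont _) (conjE.continuous.comp (eval_cont k))

lemma rho_neg (σ : ℝ) (j l : Md) : rho σ (-j) (-l) = rho σ j l := by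
  unfold rho
  rw [← neg_add, n1_neg, n1_neg, n1_neg]

lemma WT_conj {c : ℝ} (hc : 0 < c) (σ : ℝ) (j l : Md) (x y : L2 V3) :
    conjE (WT c σ j l x y) = WT c σ (-j) (-l) (conjE x) (conjE y) := by
  rw [WT_apply, WT_apply, map_smul, conj_TF hc, rho_neg, ← neg_add]

lemma Bil_sym {c σ : ℝ} (hc : 0 < c) (hσ : 0 ≤ σ) {g g' : XX} (hg : g ∈ SymS) (hg' : g' ∈ SymS) :
    Bil c σ hc hσ g g' ∈ SymS := by
  intro k
  rw [Bil_apply, Bil_apply]
  have hs := ((conv_T_bound (WT c σ) (fun j l x y => WT_norm hc hσ j l x y)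
      (Cc_pos hc).le g g').1 k).of_norm
  rw [conjE.map_tsum hs, ← (Equiv.neg Md).tsum_eq]
  refine tsum_congr fun j => ?_
  simp only [Equiv.neg_apply]
  have e : -k - -j = -(k - j) := by abel
  rw [WT_conj hc, e, hg j, hg' (k - j)]

/-- Weighted embedding of a mode. -/
noncomputable def Em (σ : ℝ) (k : Md) (x : L2 V3) : XX := lp.single 1 k (Real.exp (σ * n1 k) • x)

lemma Em_norm (σ : ℝ) (k : Md) (x : L2 V3) : ‖Em σ k x‖ = Real.exp (σ * n1 k) * ‖x‖ := by
  unfold Em
  rw [lp.norm_single (by norm_num), norm_smul, Real.norm_eq_abs, abs_of_pos (Real.exp_pos _)]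

lemma Em_add (σ : ℝ) (k : Md) (x y : L2 V3) : Em σ k (x + y) = Em σ k x + Em σ k y := by
  unfold Em; rw [smul_add, lp.single_add]

lemma Em_sub (σ : ℝ) (k : Md) (x y : L2 V3) : Em σ k (x - y) = Em σ k x - Em σ k y := by
  unfold Em; rw [smul_sub, lp.single_sub]

lemma Em_zero (σ : ℝ) (k : Md) : Em σ k 0 = 0 := by
  unfold Em; rw [smul_zero, lp.single_zero]

lemma Em_apply (σ : ℝ) (k : Md) (x : L2 V3) (j : Md) :
    Em σ k x j = if j = k then Real.exp (σ * n1 k) • x else 0 := by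
  unfold Em
  split_ifs with h
  · subst h; rw [lp.single_apply_self]
  · rw [lp.single_apply_ne _ _ _ h]

lemma Bil_Em {c σ : ℝ} (hc : 0 < c) (hσ : 0 ≤ σ) (l l' : Md) (x x' : L2 V3) :
    Bil c σ hc hσ (Em σ l x) (Em σ l' x') = Em σ (l + l') (TF c (l + l') x x') := by
  unfold Bil Em
  rw [convL_single, WT_apply]
  simp only [map_smul, ContinuousLinearMap.smul_apply, smul_smul]
  congr 2
  unfold rho
  rw [← Real.exp_add, ← Real.exp_add]
  congr 1; ring

lemma Em_sym (σ : ℝ) (l : Md) (x : L2 V3) : Em σ l x + Em σ (-l) (conjE x) ∈ SymS := by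
  intro k
  rw [lp.coeFn_add, Pi.add_apply, Pi.add_apply, map_add, Em_apply, Em_apply, Em_apply, Em_apply,
    n1_neg]
  have e1 : (-k = -l) ↔ (k = l) := neg_inj
  have e2 : (-k = l) ↔ (k = -l) := neg_eq_iff_eq_neg
  rw [add_comm]
  congr 1
  · by_cases h : k = l
    · simp [h]
    · rw [if_neg (by rwa [e1]), if_neg h, map_zero]
  · by_cases h : k = -l
    · rw [if_pos (e2.2 h), if_pos h, map_smul, conjE_conjE]
    · rw [if_neg (by rwa [e2]), if_neg h, map_zero]

/-- The weighted sequence as an element of `XX`. -/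
noncomputable def wg (σ : ℝ) (u : Md → L2 V3)
    (hu : Summable fun k => Real.exp (σ * n1 k) * ‖u k‖) : XX :=
  x1mk (fun k => Real.exp (σ * n1 k) • u k) (by
    refine hu.congr fun k => ?_
    rw [norm_smul, Real.norm_eq_abs, abs_of_pos (Real.exp_pos _)])

lemma wg_apply (σ : ℝ) (u : Md → L2 V3)
    (hu : Summable fun k => Real.exp (σ * n1 k) * ‖u k‖) (k : Md) :
    wg σ u hu k = Real.exp (σ * n1 k) • u k := rfl

lemma Bil_scal {c σ : ℝ} (hc : 0 < c) (hσ : 0 ≤ σ) (g g' : XX) (k : Md) :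
    Bil c σ hc hσ g g' k = Real.exp (σ * n1 k) •
      ∑' j, TF c k (Real.exp (-(σ * n1 j)) • g j) (Real.exp (-(σ * n1 (k - j))) • g' (k - j)) := by
  rw [Bil_apply, ← tsum_const_smul'' (Real.exp (σ * n1 k))]
  refine tsum_congr fun j => ?_
  have e : j + (k - j) = k := by abel
  rw [WT_apply, e]
  simp only [map_smul, ContinuousLinearMap.smul_apply, smul_smul]
  congr 1
  unfold rho
  rw [e, ← Real.exp_add, ← Real.exp_add]
  congr 1; ring

lemma Bil_wg {c σ : ℝ} (hc : 0 < c) (hσ : 0 ≤ σ) (u : Md → L2 V3)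
    (hu : Summable fun k => Real.exp (σ * n1 k) * ‖u k‖) (k : Md) :
    Bil c σ hc hσ (wg σ u hu) (wg σ u hu) k =
      Real.exp (σ * n1 k) • ∑' j, TF c k (u j) (u (k - j)) := by
  rw [Bil_scal]
  congr 1
  refine tsum_congr fun j => ?_
  rw [wg_apply, wg_apply, smul_smul, smul_smul, ← Real.exp_add, ← Real.exp_add]
  simp

/-- Solutions of the Fourier-transformed Navier-Stokes equations, at the level of `L²` in time. -/
structure IsSol (c : ℝ) (v : Md → V3) (u : Md → L2 V3) : Prop where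
  dec : ∃ σ > 0, Summable fun k => Real.exp (σ * n1 k) * ‖u k‖
  eq : ∀ k, u k = exF (c * nsq k) (v k) + ∑' j, TF c k (u j) (u (k - j))
  sym : ∀ k, u (-k) = conjE (u k)

end H754R3.NSD
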