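import Mathlib
import Pool.Agent.H754R3.NSD.Sol

/-! The abstract perturbation step. -/

open Set Filter Topology MeasureTheory
open scoped ENNReal

namespace H754R3.NSD

set_option linter.unusedSectionVars false

lemma approx_cont (x : L2 V3) {ε : ℝ} (hε : 0 < ε) :
    ∃ (φ : ℝ → V3) (hφ : MemLp φ 2 mup), Continuous φ ∧ ‖x - hφ.toLp φ‖ ≤ ε := by
  have h1 : MemLp (indicator (Ioi (0:ℝ)) (x : ℝ → V3)) 2 volume :=
    (memLp_indicator_iff_restrict measurableSet_Ioi).2 (Lp.memLp x)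
  obtain ⟨φ, -, h2, h3, h4⟩ := h1.exists_hasCompactSupport_eLpNorm_sub_le (by norm_num)
    (ε := ENNReal.ofReal ε) (by simpa using hε)
  have h5 : MemLp φ 2 mup := h4.restrict _
  refine ⟨φ, h5, h3, ?_⟩
  have h6 : eLpNorm (fun t => x t - φ t) 2 mup ≤ ENNReal.ofReal ε := by
    refine le_trans ?_ h2
    calc eLpNorm (fun t => x t - φ t) 2 mup
        = eLpNorm (indicator (Ioi (0:ℝ)) (x : ℝ → V3) - φ) 2 mup := by
          refine eLpNorm_congr_ae ?_
          filter_upwards [ae_restrict_mem measurableSet_Ioi] with t ht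
          rw [Pi.sub_apply, indicator_of_mem ht]
      _ ≤ _ := eLpNorm_mono_measure _ Measure.restrict_le_self
  rw [Lp.norm_def]
  refine ENNReal.toReal_le_of_le_ofReal hε.le (le_trans (le_of_eq ?_) h6)
  refine eLpNorm_congr_ae ?_
  filter_upwards [Lp.coeFn_sub x (h5.toLp φ), h5.coeFn_toLp] with t e1 e2
  rw [e1, Pi.sub_apply, e2]

lemma int_sq_le {φ : ℝ → V3} (hφ : MemLp φ 2 mup) (hc : Continuous φ) {t : ℝ} (ht : 0 ≤ t) :
    ∫ r in (0:ℝ)..t, ‖φ r‖ ^ 2 ≤ ∫ r, ‖φ r‖ ^ 2 ∂mup := by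
  rw [intervalIntegral.integral_of_le ht]
  have hi : Integrable (fun r => ‖φ r‖ ^ 2) mup := hφ.integrable_norm_pow (by norm_num)
  refine integral_mono_measure mup_Ioc (Eventually.of_forall fun r => by positivity) hi

lemma exf_int {γ : ℝ} (hγ : 0 < γ) (z : V3) :
    ∫ r, ‖exf γ z r‖ ^ 2 ∂mup ≤ (‖z‖ * Real.sqrt (1 / (2 * γ))) ^ 2 := by
  have h1 := exf_sq hγ z
  have hcont : Continuous fun r => ‖exf γ z r‖ ^ 2 := by
    have := exf_continuous γ z
    fun_prop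
  rw [integral_eq_lintegral_of_nonneg_ae (f := fun r => ‖exf γ z r‖ ^ 2)
    (Eventually.of_forall fun r => by positivity) hcont.aestronglyMeasurable]
  refine ENNReal.toReal_le_of_le_ofReal (by positivity) ?_
  rw [ENNReal.ofReal_pow (by positivity), ← h1]
  refine le_of_eq (lintegral_congr fun t => ?_)
  rw [ENNReal.ofReal_pow (norm_nonneg _), ofReal_norm]


/-- Decomposition of a background into finitely many continuous modes and a small rest. -/
lemma decomp {u : Md → L2 V3} {σ0 : ℝ} (hu0 : Summable fun k => Real.exp (σ0 * n1 k) * ‖u k‖)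
    {δ : ℝ} (hδ0 : 0 < δ) :
    ∃ (J : Finset Md) (φ : Md → ℝ → V3) (hφ : ∀ k, MemLp (φ k) 2 mup), (∀ k, Continuous (φ k)) ∧
      ∀ (σ : ℝ), σ ≤ σ0 → ∀ (hu : Summable fun k => Real.exp (σ * n1 k) * ‖u k‖),
        ∃ rest : XX, ‖rest‖ ≤ 2 * δ ∧
          wg σ u hu = rest + ∑ k ∈ J, lp.single 1 k (Real.exp (σ * n1 k) • (hφ k).toLp (φ k)) := by
  classical
  set f0 : Md → ℝ := fun k => Real.exp (σ0 * n1 k) * ‖u k‖ with hf0
  obtain ⟨J, hJ⟩ : ∃ J : Finset Md, ∑' k, f0 k - ∑ k ∈ J, f0 k ≤ δ := by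
    have := hu0.hasSum.eventually (Ioi_mem_nhds (show ∑' k, f0 k - δ < ∑' k, f0 k by linarith))
    obtain ⟨J, hJ⟩ := this.exists
    exact ⟨J, by have : ∑' k, f0 k - δ < ∑ k ∈ J, f0 k := hJ; linarith⟩
  have hφex : ∀ k : Md, ∃ (φ : ℝ → V3) (hφ : MemLp φ 2 mup), Continuous φ ∧
      ‖u k - hφ.toLp φ‖ ≤ δ / ((J.card + 1) * Real.exp (σ0 * n1 k)) := fun k =>
    approx_cont (u k) (by positivity)
  choose φ hφ hφc hφn using hφex
  refine ⟨J, φ, hφ, hφc, fun σ hσσ hu => ?_⟩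
  have hw : ∀ k, Real.exp (σ * n1 k) ≤ Real.exp (σ0 * n1 k) := fun k =>
    Real.exp_le_exp.2 (mul_le_mul_of_nonneg_right hσσ (n1_nonneg k))
  set rf : Md → L2 V3 := fun k => Real.exp (σ * n1 k) •
    (u k - if k ∈ J then (hφ k).toLp (φ k) else 0) with hrf
  have hrf_le : ∀ k, ‖rf k‖ ≤ f0 k + (if k ∈ J then δ / (J.card + 1) - f0 k else 0) := by
    intro k
    simp only [hrf]
    rw [norm_smul, Real.norm_eq_abs, abs_of_pos (Real.exp_pos _)]
    split_ifs with hk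
    · calc Real.exp (σ * n1 k) * ‖u k - (hφ k).toLp (φ k)‖
          ≤ Real.exp (σ0 * n1 k) * (δ / ((J.card + 1) * Real.exp (σ0 * n1 k))) :=
            mul_le_mul (hw k) (hφn k) (norm_nonneg _) (Real.exp_pos _).le
        _ = δ / (J.card + 1) := by field_simp
        _ = _ := by ring
    · rw [sub_zero, add_zero]
      exact mul_le_mul_of_nonneg_right (hw k) (norm_nonneg _)
  have hfin : HasSum (fun k => if k ∈ J then δ / (J.card + 1) - f0 k else 0)
      (∑ k ∈ J, (δ / (J.card + 1) - f0 k)) := by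
    have e0 : ∑ k ∈ J, (δ / (J.card + 1) - f0 k) =
        ∑ k ∈ J, (if k ∈ J then δ / (J.card + 1) - f0 k else 0) :=
      Finset.sum_congr rfl fun k hk => by simp [hk]
    rw [e0]
    exact hasSum_sum_of_ne_finset_zero (fun k hk => by simp [hk])
  have hbound := hu0.hasSum.add hfin
  have hrfs : Summable fun k => ‖rf k‖ :=
    Summable.of_nonneg_of_le (fun k => norm_nonneg _) hrf_le hbound.summable
  refine ⟨(x1mk rf hrfs : XX), ?_, ?_⟩
  · rw [x1_norm]
    calc ∑' k, ‖(x1mk rf hrfs : XX) k‖ ≤ ∑' k, f0 k + ∑ k ∈ J, (δ / (J.card + 1) - f0 k) := by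
          rw [← hbound.tsum_eq]
          exact hrfs.tsum_le_tsum hrf_le hbound.summable
      _ = (∑' k, f0 k - ∑ k ∈ J, f0 k) + J.card * (δ / (J.card + 1)) := by
          rw [Finset.sum_sub_distrib, Finset.sum_const, nsmul_eq_mul]; ring
      _ ≤ δ + δ := by
          refine add_le_add hJ ?_
          rw [mul_div_assoc', div_le_iff₀ (by positivity)]
          nlinarith
      _ = _ := by ring
  · ext1
    funext k
    rw [lp.coeFn_add, Pi.add_apply, lp.coeFn_sum, Finset.sum_apply]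
    have e1 : ∑ j ∈ J, (lp.single 1 j (Real.exp (σ * n1 j) • (hφ j).toLp (φ j)) : XX) k =
        if k ∈ J then Real.exp (σ * n1 k) • (hφ k).toLp (φ k) else 0 := by
      split_ifs with hk
      · rw [Finset.sum_eq_single k]
        · rw [lp.single_apply_self]
        · intro j _ hj
          rw [lp.single_apply_ne _ _ _ (Ne.symm hj)]
        · intro hk'; exact absurd hk hk'
      · refine Finset.sum_eq_zero fun j hj => ?_
        rw [lp.single_apply_ne]
        intro hkj; exact hk (hkj ▸ hj)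
    rw [e1, wg_apply, x1mk_apply]
    simp only [hrf]
    rw [smul_sub]
    split_ifs <;> simp

/-- Uniform power bound around `u + R`. -/
lemma pow_unif {c : ℝ} (hc : 0 < c) {u : Md → L2 V3} {σ0 : ℝ}
    (hu0 : Summable fun k => Real.exp (σ0 * n1 k) * ‖u k‖) (N : ℕ) (M : ℝ) :
    ∃ Γ : ℝ, 1 ≤ Γ ∧ ∀ (σ : ℝ) (hσ : 0 < σ), σ ≤ σ0 →
      ∀ (hu : Summable fun k => Real.exp (σ * n1 k) * ‖u k‖)
      (l : Fin N → Md) (γ : Fin N → ℝ) (p : Fin N → V3) (R : XX),
      R = ∑ i, Em σ (l i) (exF (γ i) (p i)) →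
      (∀ i, 0 < γ i) → (∀ i, Real.exp (σ * n1 (l i)) * (‖p i‖ * Real.sqrt (1 / (2 * γ i))) ≤ M) →
      ∀ (m : ℕ) (x : XX), ‖((LL c σ hc hσ.le (wg σ u hu + R)) ^ m) x‖ ≤ Γ * (1 / 2) ^ m * ‖x‖ := by
  classical
  have hCc := Cc_pos hc
  set δ : ℝ := 1 / (16 * Cc c) with hδ
  have hδ0 : 0 < δ := by positivity
  obtain ⟨J, φ, hφ, hφc, hdec⟩ := decomp hu0 hδ0
  set K : Md → ℝ := fun k => ∫ r, ‖φ k r‖ ^ 2 ∂mup with hK
  have hK0 : ∀ k, 0 ≤ K k := fun k => integral_nonneg fun r => by positivity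
  set Θ : ℝ := ∑ k ∈ J, Real.exp (σ0 * n1 k) ^ 2 * K k + N * M ^ 2 with hΘ
  have hΘ0 : 0 ≤ Θ := by
    have : 0 ≤ ∑ k ∈ J, Real.exp (σ0 * n1 k) ^ 2 * K k :=
      Finset.sum_nonneg fun k _ => mul_nonneg (by positivity) (hK0 k)
    positivity
  set q : ℝ := 8 * (Cc c * (J.card + N + 1)) with hq
  have hq0 : 0 < q := by positivity
  set lam : ℝ := q ^ 2 with hlamd
  have hlam : 0 < lam := by positivity
  refine ⟨Real.exp (lam * Θ), Real.one_le_exp (by positivity), ?_⟩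
  intro σ hσ hσσ hu l γ p R hR hγ hM m x
  obtain ⟨rest, hrestn, hwudec⟩ := hdec σ hσσ hu
  have hw : ∀ k, Real.exp (σ * n1 k) ≤ Real.exp (σ0 * n1 k) := fun k =>
    Real.exp_le_exp.2 (mul_le_mul_of_nonneg_right hσσ (n1_nonneg k))
  let ι := {k // k ∈ J} ⊕ Fin N
  let lι : ι → Md := Sum.elim (fun j => j.1) l
  let xι : ι → L2 V3 := Sum.elim (fun j => Real.exp (σ * n1 j.1) • (hφ j.1).toLp (φ j.1))
    (fun i => Real.exp (σ * n1 (l i)) • exF (γ i) (p i))
  let φι : ι → ℝ → V3 := Sum.elim (fun j => Real.exp (σ * n1 j.1) • φ j.1)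
    (fun i => Real.exp (σ * n1 (l i)) • exf (γ i) (p i))
  have hY : wg σ u hu + R = rest + ∑ i : ι, lp.single 1 (lι i) (xι i) := by
    rw [Fintype.sum_sum_type, hwudec, hR, add_assoc]
    congr 2
    rw [← Finset.sum_coe_sort J (fun k => (lp.single 1 k (Real.exp (σ * n1 k) • (hφ k).toLp (φ k)) : XX))]
    exact Finset.sum_congr rfl fun i _ => rfl
  have hφιc : ∀ i, Continuous (φι i) := by
    rintro (j | i)
    · exact (hφc j.1).const_smul _
    · exact (exf_continuous _ _).const_smul _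
  have hxφ : ∀ i, (xι i : ℝ → V3) =ᵐ[mup] φι i := by
    rintro (j | i)
    · filter_upwards [Lp.coeFn_smul (Real.exp (σ * n1 j.1)) ((hφ j.1).toLp (φ j.1)),
        (hφ j.1).coeFn_toLp] with t e1 e2
      show (Real.exp (σ * n1 j.1) • (hφ j.1).toLp (φ j.1) : L2 V3) t = _
      rw [e1, Pi.smul_apply, e2]; rfl
    · filter_upwards [Lp.coeFn_smul (Real.exp (σ * n1 (l i))) (exF (γ i) (p i)),
        exF_coe (hγ i) (p i)] with t e1 e2
      show (Real.exp (σ * n1 (l i)) • exF (γ i) (p i) : L2 V3) t = _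
      rw [e1, Pi.smul_apply, e2]; rfl
  have hΘb : ∀ t, 0 ≤ t → ∫ r in (0:ℝ)..t, ∑ i : ι, ‖φι i r‖ ^ 2 ≤ Θ := by
    intro t ht
    have hii : ∀ i ∈ (Finset.univ : Finset ι),
        IntervalIntegrable (fun r => ‖φι i r‖ ^ 2) volume 0 t := fun i _ => by
      have h1 : Continuous fun r => ‖φι i r‖ ^ 2 := (hφιc i).norm.pow 2
      exact h1.intervalIntegrable _ _
    rw [intervalIntegral.integral_finsetSum (f := fun i r => ‖φι i r‖ ^ 2) hii,
      Fintype.sum_sum_type, hΘ]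
    refine add_le_add ?_ ?_
    · rw [← Finset.sum_coe_sort J]
      refine Finset.sum_le_sum fun j _ => ?_
      have e1 : ∀ r, ‖φι (Sum.inl j) r‖ ^ 2 = Real.exp (σ * n1 j.1) ^ 2 * ‖φ j.1 r‖ ^ 2 := by
        intro r
        show ‖Real.exp (σ * n1 j.1) • φ j.1 r‖ ^ 2 = _
        rw [norm_smul, Real.norm_eq_abs, abs_of_pos (Real.exp_pos _), mul_pow]
      simp_rw [e1]
      rw [intervalIntegral.integral_const_mul]
      have e2 := int_sq_le (hφ j.1) (hφc j.1) ht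
      have e3 : Real.exp (σ * n1 j.1) ^ 2 ≤ Real.exp (σ0 * n1 j.1) ^ 2 :=
        pow_le_pow_left₀ (Real.exp_pos _).le (hw j.1) 2
      exact mul_le_mul e3 e2 (intervalIntegral.integral_nonneg ht fun r _ => by positivity)
        (by positivity)
    · calc ∑ i : Fin N, ∫ r in (0:ℝ)..t, ‖φι (Sum.inr i) r‖ ^ 2 ≤ ∑ _i : Fin N, M ^ 2 := by
            refine Finset.sum_le_sum fun i _ => ?_
            have e1 : ∀ r, ‖φι (Sum.inr i) r‖ ^ 2 =
                Real.exp (σ * n1 (l i)) ^ 2 * ‖exf (γ i) (p i) r‖ ^ 2 := by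
              intro r
              show ‖Real.exp (σ * n1 (l i)) • exf (γ i) (p i) r‖ ^ 2 = _
              rw [norm_smul, Real.norm_eq_abs, abs_of_pos (Real.exp_pos _), mul_pow]
            simp_rw [e1]
            rw [intervalIntegral.integral_const_mul]
            have e2 := (int_sq_le (exf_memLp (hγ i) (p i)) (exf_continuous _ _) ht).trans
              (exf_int (hγ i) (p i))
            calc _ ≤ Real.exp (σ * n1 (l i)) ^ 2 * (‖p i‖ * Real.sqrt (1 / (2 * γ i))) ^ 2 :=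
                  mul_le_mul_of_nonneg_left e2 (by positivity)
              _ = (Real.exp (σ * n1 (l i)) * (‖p i‖ * Real.sqrt (1 / (2 * γ i)))) ^ 2 := by ring
              _ ≤ M ^ 2 := pow_le_pow_left₀ (by positivity) (hM i) 2
        _ = N * M ^ 2 := by simp
  have hcard : Cc c * (Finset.univ : Finset ι).card * Real.sqrt (1 / (2 * lam)) ≤ 1 / 8 := by
    have e1 : ((Finset.univ : Finset ι).card : ℝ) = J.card + N := by
      rw [Finset.card_univ, Fintype.card_sum, Fintype.card_coe, Fintype.card_fin]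
      push_cast; ring
    have e2 : Real.sqrt (1 / (2 * lam)) ≤ 1 / q := by
      rw [Real.sqrt_le_left (by positivity)]
      rw [hlamd, div_pow, one_pow]
      exact one_div_le_one_div_of_le (by positivity) (by nlinarith [sq_nonneg q])
    rw [e1]
    calc Cc c * (J.card + N) * Real.sqrt (1 / (2 * lam)) ≤ (Cc c * (J.card + N + 1)) * (1 / q) := by
          refine mul_le_mul ?_ e2 (Real.sqrt_nonneg _) (by positivity)
          exact mul_le_mul_of_nonneg_left (by linarith) hCc.le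
      _ = 1 / 8 := by rw [hq]; field_simp
  have hrest8 : Cc c * ‖rest‖ ≤ 1 / 8 := by
    calc Cc c * ‖rest‖ ≤ Cc c * (2 * δ) := mul_le_mul_of_nonneg_left hrestn hCc.le
      _ = 1 / 8 := by rw [hδ]; field_simp; norm_num
  rw [hY]
  exact LL_pow hc hσ.le Finset.univ lι xι φι hφιc hxφ rest hlam hΘb hrest8 hcard m x

lemma wg_sym {c : ℝ} {v : Md → V3} {u : Md → L2 V3} (h : IsSol c v u) {σ : ℝ}
    (hu : Summable fun k => Real.exp (σ * n1 k) * ‖u k‖) : wg σ u hu ∈ SymS := by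
  intro k
  rw [wg_apply, wg_apply, map_smul, n1_neg, h.sym k]

lemma sol_algebra {c σ : ℝ} (hc : 0 < c) (hσ : 0 ≤ σ) (wu R D w f : XX)
    (hf : f = D - R + Bil c σ hc hσ R R + (Bil c σ hc hσ wu R + Bil c σ hc hσ R wu))
    (hw : w = LL c σ hc hσ (wu + R) w + Bil c σ hc hσ w w + f) :
    (wu + R + w) = (wu - Bil c σ hc hσ wu wu + D) + Bil c σ hc hσ (wu + R + w) (wu + R + w) := by
  have e1 : Bil c σ hc hσ (wu + R + w) (wu + R + w) = Bil c σ hc hσ wu wu + Bil c σ hc hσ R R +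
      (Bil c σ hc hσ wu R + Bil c σ hc hσ R wu) + LL c σ hc hσ (wu + R) w +
      Bil c σ hc hσ w w := by
    rw [LL_apply]
    simp only [map_add, ContinuousLinearMap.add_apply]
    abel
  rw [e1]
  have e3 : wu + R + w = wu + R + (LL c σ hc hσ (wu + R) w + Bil c σ hc hσ w w + f) := by
    rw [← hw]
  rw [e3, hf]
  abel

/-- From a fixed point in the weighted space to a solution. -/
lemma sol_of_fix {c σ : ℝ} (hc : 0 < c) (hσ : 0 < σ) {v d : Md → V3} {u : Md → L2 V3}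
    (h : IsSol c v u) (hu : Summable fun k => Real.exp (σ * n1 k) * ‖u k‖) (D g : XX)
    (hD : ∀ k, D k = Real.exp (σ * n1 k) • exF (c * nsq k) (d k)) (hgS : g ∈ SymS)
    (hgeq : g = (wg σ u hu - Bil c σ hc hσ.le (wg σ u hu) (wg σ u hu) + D) +
      Bil c σ hc hσ.le g g) :
    IsSol c (v + d) (fun k => Real.exp (-(σ * n1 k)) • g k) := by
  refine ⟨⟨σ, hσ, ?_⟩, ?_, ?_⟩
  · refine (x1_summable g).congr fun k => ?_
    rw [norm_smul, Real.norm_eq_abs, abs_of_pos (Real.exp_pos _), ← mul_assoc, ← Real.exp_add]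
    simp
  · intro k
    have e1 : g k = (Real.exp (σ * n1 k) • exF (c * nsq k) (v k) +
        Real.exp (σ * n1 k) • exF (c * nsq k) (d k)) + Real.exp (σ * n1 k) •
        ∑' j, TF c k (Real.exp (-(σ * n1 j)) • g j) (Real.exp (-(σ * n1 (k - j))) • g (k - j)) := by
      have e2 : (g : Md → L2 V3) k = ((wg σ u hu - Bil c σ hc hσ.le (wg σ u hu) (wg σ u hu) + D : XX)
          : Md → L2 V3) k + (Bil c σ hc hσ.le g g : XX) k := by
        conv_lhs => rw [hgeq]
        rw [lp.coeFn_add, Pi.add_apply]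
      rw [e2, lp.coeFn_add, Pi.add_apply, lp.coeFn_sub, Pi.sub_apply, hD, Bil_wg, wg_apply,
        ← smul_sub]
      have e3 : u k - ∑' j, TF c k (u j) (u (k - j)) = exF (c * nsq k) (v k) := by
        conv_lhs => rw [h.eq k]
        simp
      rw [e3, Bil_scal]
    have e4 : Real.exp (-(σ * n1 k)) * Real.exp (σ * n1 k) = 1 := by
      rw [← Real.exp_add]; simp
    rw [e1, smul_add, smul_add, smul_smul, smul_smul, smul_smul, e4, one_smul, one_smul, one_smul,
      Pi.add_apply, exF_add]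
  · intro k
    simp only
    rw [n1_neg, hgS k, map_smul]

theorem step_abs {c : ℝ} (hc : 0 < c) {v : Md → V3} {u : Md → L2 V3} (h : IsSol c v u)
    {σ0 : ℝ} (hu0 : Summable fun k => Real.exp (σ0 * n1 k) * ‖u k‖)
    (N : ℕ) (M : ℝ) :
    ∃ η > 0, ∃ Λ > 0, ∀ (σ : ℝ) (hσ : 0 < σ), σ ≤ σ0 →
      ∀ (hu : Summable fun k => Real.exp (σ * n1 k) * ‖u k‖)
      (l : Fin N → Md) (γ : Fin N → ℝ) (p : Fin N → V3) (D R : XX) (d : Md → V3),
      R = ∑ i, Em σ (l i) (exF (γ i) (p i)) →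
      (∀ i, 0 < γ i) → (∀ i, Real.exp (σ * n1 (l i)) * (‖p i‖ * Real.sqrt (1 / (2 * γ i))) ≤ M) →
      R ∈ SymS → D ∈ SymS → (∀ k, D k = Real.exp (σ * n1 k) • exF (c * nsq k) (d k)) →
      ‖D - R + Bil c σ hc hσ.le R R + (Bil c σ hc hσ.le (wg σ u hu) R +
        Bil c σ hc hσ.le R (wg σ u hu))‖ ≤ η →
      ∃ (u' : Md → L2 V3) (w : XX), IsSol c (v + d) u' ∧
        (∀ k, u' k = u k + Real.exp (-(σ * n1 k)) • (R k + w k)) ∧
        ‖w‖ ≤ Λ * ‖D - R + Bil c σ hc hσ.le R R + (Bil c σ hc hσ.le (wg σ u hu) R +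
          Bil c σ hc hσ.le R (wg σ u hu))‖ := by
  obtain ⟨Γ, hΓ1, hpow⟩ := pow_unif hc hu0 N M
  have hCc := Cc_pos hc
  refine ⟨1 / (32 * Γ ^ 2 * Cc c), by positivity, 4 * Γ, by positivity, ?_⟩
  intro σ hσ hσσ hu l γ p D R d hR hγ hM hRS hDS hD hsmall
  have hwuS := wg_sym h hu
  have hYS : wg σ u hu + R ∈ SymS := SymS.add_mem hwuS hRS
  have hpow' := hpow σ hσ hσσ hu l γ p R hR hγ hM
  clear hpow
  generalize hwue : wg σ u hu = wu at *
  obtain ⟨f, hf⟩ : ∃ f : XX, f = D - R + Bil c σ hc hσ.le R R + (Bil c σ hc hσ.le wu R +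
        Bil c σ hc hσ.le R wu) := ⟨_, rfl⟩
  rw [← hf] at hsmall ⊢
  have hfS : f ∈ SymS := by
    rw [hf]
    exact SymS.add_mem (SymS.add_mem (SymS.sub_mem hDS hRS)
      (Bil_sym hc hσ.le hRS hRS)) (SymS.add_mem (Bil_sym hc hσ.le hwuS hRS)
      (Bil_sym hc hσ.le hRS hwuS))
  have hLS : ∀ x ∈ SymS, LL c σ hc hσ.le (wu + R) x ∈ SymS := by
    intro x hx
    rw [LL_apply]
    exact SymS.add_mem (Bil_sym hc hσ.le hYS hx) (Bil_sym hc hσ.le hx hYS)
  obtain ⟨w, hwS, hweq, hwn⟩ := fixed_exists (LL c σ hc hσ.le (wu + R)) (Bil c σ hc hσ.le)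
    hΓ1 hCc hpow' (fun x y => Bil_norm c σ hc hσ.le x y) f hsmall SymS SymS_closed
    hLS (fun x hx y hy => Bil_sym hc hσ.le hx hy) hfS
  have hgeq := sol_algebra hc hσ.le wu R D w f hf hweq
  have hgS : wu + R + w ∈ SymS := SymS.add_mem hYS hwS
  have hcomp : ∀ k, Real.exp (-(σ * n1 k)) • (wu + R + w : XX) k =
      u k + Real.exp (-(σ * n1 k)) • (R k + w k) := by
    intro k
    have e4 : Real.exp (-(σ * n1 k)) * Real.exp (σ * n1 k) = 1 := by
      rw [← Real.exp_add]; simp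
    rw [lp.coeFn_add, Pi.add_apply, lp.coeFn_add, Pi.add_apply, ← hwue, wg_apply, add_assoc,
      smul_add, smul_smul, e4, one_smul]
  generalize wu + R + w = g at *
  rw [← hwue] at hgeq
  exact ⟨_, w, sol_of_fix hc hσ h hu D g hD hgS hgeq, hcomp, hwn⟩

end H754R3.NSD
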