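import Mathlib
import Pool.Agent.H754R3.NSD.StepAbs

/-! Integer vector algebra, background decay, pair bounds. -/

open Set Filter Topology MeasureTheory
open scoped ENNReal

namespace H754R3.NSD

set_option linter.unusedSectionVars false

/-- integer vector as a complex vector -/
noncomputable def vv (k : Md) : V3 := fun i => (k i : ℂ)
/-- dot product of integer vectors -/
def idot (k l : Md) : ℤ := ∑ i, k i * l i
/-- cross product -/
def crz (a b : Md) : Md := ![a 1 * b 2 - a 2 * b 1, a 2 * b 0 - a 0 * b 2, a 0 * b 1 - a 1 * b 0]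

lemma dotk_vv (k l : Md) : dotk k (vv l) = (idot k l : ℂ) := by
  simp [dotk, vv, idot]

lemma nsq_eq (k : Md) : nsq k = (idot k k : ℝ) := by
  simp [nsq, idot, sq]

lemma idot_crz_left (a b : Md) : idot a (crz a b) = 0 := by
  simp [idot, crz, Fin.sum_univ_three]; ring

lemma idot_crz_right (a b : Md) : idot b (crz a b) = 0 := by
  simp [idot, crz, Fin.sum_univ_three]; ring

lemma crz_sq (a b : Md) : idot (crz a b) (crz a b) = idot a a * idot b b - idot a b ^ 2 := by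
  simp [idot, crz, Fin.sum_univ_three]; ring

lemma idot_add_left (a b l : Md) : idot (a + b) l = idot a l + idot b l := by
  simp [idot, add_mul, Finset.sum_add_distrib]

lemma idot_add_right (l a b : Md) : idot l (a + b) = idot l a + idot l b := by
  simp [idot, mul_add, Finset.sum_add_distrib]

lemma idot_smul_left (n : ℤ) (a l : Md) : idot (n • a) l = n * idot a l := by
  simp [idot, Finset.mul_sum, mul_assoc]

lemma idot_smul_right (n : ℤ) (a l : Md) : idot l (n • a) = n * idot l a := by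
  simp only [idot, Finset.mul_sum, Pi.smul_apply, smul_eq_mul]
  exact Finset.sum_congr rfl fun i _ => by ring

lemma idot_neg_left (a l : Md) : idot (-a) l = -idot a l := by
  simp [idot]

lemma idot_neg_right (a l : Md) : idot l (-a) = -idot l a := by
  simp [idot]

lemma idot_comm (a b : Md) : idot a b = idot b a := by
  simp [idot, mul_comm]

lemma idot_self_pos {a : Md} (ha : a ≠ 0) : 0 < idot a a := by
  have h := one_le_nsq ha
  rw [nsq_eq] at h
  have : (0:ℝ) < (idot a a : ℝ) := by linarith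
  exact_mod_cast this

lemma crz_ne {a b : Md} (ha : a ≠ 0) (hb : b ≠ 0) (hab : idot a b = 0) : crz a b ≠ 0 := by
  intro h
  have h1 := crz_sq a b
  rw [h, hab] at h1
  have h2 : idot 0 (0 : Md) = 0 := by simp [idot]
  rw [h2] at h1
  have := mul_pos (idot_self_pos ha) (idot_self_pos hb)
  have h3 : (0:ℤ) ^ 2 = 0 := by norm_num
  rw [h3] at h1
  linarith

/-! decay of the background under the weight -/

lemma Mg_tendsto (y : L2 V3) {η : ℝ} (hη : 0 < η) :
    ∃ G : ℝ, 0 < G ∧ ∀ γ (hγ : 0 ≤ γ), G ≤ γ → ‖Mg γ hγ y‖ ≤ η := by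
  have h1 : Tendsto (fun γ : ℝ => ∫⁻ t, ENNReal.ofReal (Real.exp (-(γ * t))) * ‖y t‖ₑ ^ 2 ∂mup)
      atTop (𝓝 (∫⁻ _t, 0 ∂mup)) := by
    refine tendsto_lintegral_filter_of_dominated_convergence (fun t => ‖y t‖ₑ ^ 2) ?_ ?_ ?_ ?_
    · refine Eventually.of_forall fun γ => ?_
      have hm : Measurable fun t : ℝ => ENNReal.ofReal (Real.exp (-(γ * t))) := by fun_prop
      exact hm.mul ((Lp.stronglyMeasurable y).enorm.pow_const 2)
    · filter_upwards [eventually_ge_atTop 0] with γ hγ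
      filter_upwards [ae_restrict_mem measurableSet_Ioi] with t ht
      calc ENNReal.ofReal (Real.exp (-(γ * t))) * ‖y t‖ₑ ^ 2 ≤ 1 * ‖y t‖ₑ ^ 2 := by
            gcongr
            rw [← ENNReal.ofReal_one]
            refine ENNReal.ofReal_le_ofReal (Real.exp_le_one_iff.2 ?_)
            have : 0 ≤ γ * t := mul_nonneg hγ (le_of_lt ht)
            linarith
        _ = _ := one_mul _
    · rw [← L2_norm_sq]
      exact ENNReal.pow_ne_top ENNReal.ofReal_ne_top
    · filter_upwards [ae_restrict_mem measurableSet_Ioi] with t ht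
      have ht' : (0:ℝ) < t := ht
      have h2 : Tendsto (fun γ : ℝ => ENNReal.ofReal (Real.exp (-(γ * t)))) atTop (𝓝 0) := by
        rw [← ENNReal.ofReal_zero]
        refine ENNReal.tendsto_ofReal ?_
        refine Real.tendsto_exp_neg_atTop_nhds_zero.comp ?_
        exact tendsto_id.atTop_mul_const ht'
      by_cases h0 : ‖y t‖ₑ ^ 2 = 0
      · rw [h0]; simp
      · have h3 := ENNReal.Tendsto.mul_const (b := ‖y t‖ₑ ^ 2) h2
          (Or.inr (ENNReal.pow_ne_top enorm_ne_top))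
        simpa using h3
  rw [lintegral_zero] at h1
  have h4 := h1.eventually (ge_mem_nhds (show (0:ℝ≥0∞) < ENNReal.ofReal η ^ 2 by
    exact ENNReal.pow_pos (ENNReal.ofReal_pos.2 hη) 2))
  obtain ⟨G, hG⟩ := eventually_atTop.1 h4
  refine ⟨max G 1, by positivity, fun γ hγ hGγ => ?_⟩
  refine L2_norm_le_of hη.le ?_
  have h5 := hG γ ((le_max_left _ _).trans hGγ)
  refine le_trans (le_of_eq ?_) h5
  refine lintegral_congr_ae ?_
  filter_upwards [Mop_coe (mg_cont γ) (mg_le hγ) y, ae_restrict_mem measurableSet_Ioi] with t h6 h7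
  have h7' : max t 0 = t := max_eq_left (le_of_lt h7)
  rw [Mg, h6, enorm_smul, Real.enorm_eq_ofReal (mg_pos γ t).le, mul_pow,
    ← ENNReal.ofReal_pow (mg_pos γ t).le, mg, ← Real.exp_nat_mul, h7']
  congr 3
  push_cast; ring

lemma kap_small {u : Md → L2 V3} {σ0 : ℝ}
    (hu0 : Summable fun k => Real.exp (σ0 * n1 k) * ‖u k‖) {η : ℝ} (hη : 0 < η) :
    ∃ G : ℝ, 0 < G ∧ ∀ γ (hγ : 0 ≤ γ), G ≤ γ → ∀ σ ≤ σ0,
      (Summable fun j => Real.exp (σ * n1 j) * ‖Mg γ hγ (u j)‖) ∧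
      ∑' j, Real.exp (σ * n1 j) * ‖Mg γ hγ (u j)‖ ≤ η := by
  classical
  set f0 : Md → ℝ := fun k => Real.exp (σ0 * n1 k) * ‖u k‖ with hf0
  obtain ⟨J, hJ⟩ : ∃ J : Finset Md, ∑' k, f0 k - ∑ k ∈ J, f0 k ≤ η / 2 := by
    have := hu0.hasSum.eventually (Ioi_mem_nhds (show ∑' k, f0 k - η / 2 < ∑' k, f0 k by linarith))
    obtain ⟨J, hJ⟩ := this.exists
    exact ⟨J, by have : ∑' k, f0 k - η / 2 < ∑ k ∈ J, f0 k := hJ; linarith⟩
  have hG : ∀ k : Md, ∃ G : ℝ, 0 < G ∧ ∀ γ (hγ : 0 ≤ γ), G ≤ γ →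
      ‖Mg γ hγ (u k)‖ ≤ η / (2 * (J.card + 1) * Real.exp (σ0 * n1 k)) := fun k =>
    Mg_tendsto (u k) (by positivity)
  choose G hG0 hG1 using hG
  refine ⟨1 + ∑ k ∈ J, G k, ?_, ?_⟩
  · have := Finset.sum_nonneg fun k (_ : k ∈ J) => (hG0 k).le
    positivity
  intro γ hγ hGγ σ hσ
  have hw : ∀ k, Real.exp (σ * n1 k) ≤ Real.exp (σ0 * n1 k) := fun k =>
    Real.exp_le_exp.2 (mul_le_mul_of_nonneg_right hσ (n1_nonneg k))
  have hle : ∀ j, Real.exp (σ * n1 j) * ‖Mg γ hγ (u j)‖ ≤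
      f0 j + (if j ∈ J then η / (2 * (J.card + 1)) - f0 j else 0) := by
    intro j
    split_ifs with hj
    · have h1 : G j ≤ γ := by
        have := Finset.single_le_sum (f := G) (fun k _ => (hG0 k).le) hj
        linarith
      calc Real.exp (σ * n1 j) * ‖Mg γ hγ (u j)‖
          ≤ Real.exp (σ0 * n1 j) * (η / (2 * (J.card + 1) * Real.exp (σ0 * n1 j))) :=
            mul_le_mul (hw j) (hG1 j γ hγ h1) (norm_nonneg _) (Real.exp_pos _).le
        _ = η / (2 * (J.card + 1)) := by field_simp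
        _ = _ := by ring
    · rw [add_zero]
      exact mul_le_mul (hw j) (Mop_le _ _ _) (norm_nonneg _) (Real.exp_pos _).le
  have hfin : HasSum (fun k => if k ∈ J then η / (2 * (J.card + 1)) - f0 k else 0)
      (∑ k ∈ J, (η / (2 * (J.card + 1)) - f0 k)) := by
    have e0 : ∑ k ∈ J, (η / (2 * (J.card + 1)) - f0 k) =
        ∑ k ∈ J, (if k ∈ J then η / (2 * (J.card + 1)) - f0 k else 0) :=
      Finset.sum_congr rfl fun k hk => by simp [hk]
    rw [e0]
    exact hasSum_sum_of_ne_finset_zero (fun k hk => by simp [hk])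
  have hbound := hu0.hasSum.add hfin
  have hs : Summable fun j => Real.exp (σ * n1 j) * ‖Mg γ hγ (u j)‖ :=
    Summable.of_nonneg_of_le (fun j => by positivity) hle hbound.summable
  refine ⟨hs, ?_⟩
  calc ∑' j, Real.exp (σ * n1 j) * ‖Mg γ hγ (u j)‖
      ≤ ∑' k, f0 k + ∑ k ∈ J, (η / (2 * (J.card + 1)) - f0 k) := by
        rw [← hbound.tsum_eq]
        exact hs.tsum_le_tsum hle hbound.summable
    _ = (∑' k, f0 k - ∑ k ∈ J, f0 k) + J.card * (η / (2 * (J.card + 1))) := by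
        rw [Finset.sum_sub_distrib, Finset.sum_const, nsmul_eq_mul]; ring
    _ ≤ η / 2 + η / 2 := by
        refine add_le_add hJ ?_
        rw [mul_div_assoc', div_le_iff₀ (by positivity)]
        nlinarith
    _ = _ := by ring

lemma Bil_bg {c σ : ℝ} (hc : 0 < c) (hσ : 0 ≤ σ) {u : Md → L2 V3}
    (hu : Summable fun k => Real.exp (σ * n1 k) * ‖u k‖) {γ : ℝ} (hγ : 0 < γ)
    (hs : Summable fun j => Real.exp (σ * n1 j) * ‖Mg γ hγ.le (u j)‖) (l : Md) (p : V3) :
    ‖Bil c σ hc hσ (wg σ u hu) (Em σ l (exF γ p))‖ ≤ Real.exp (σ * n1 l) * (Cc c * (‖p‖ * Real.sqrt (1 / γ))) *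
      ∑' j, Real.exp (σ * n1 j) * ‖Mg γ hγ.le (u j)‖ ∧
    ‖Bil c σ hc hσ (Em σ l (exF γ p)) (wg σ u hu)‖ ≤ Real.exp (σ * n1 l) * (Cc c * (‖p‖ * Real.sqrt (1 / γ))) *
      ∑' j, Real.exp (σ * n1 j) * ‖Mg γ hγ.le (u j)‖ := by
  set C' : ℝ := Real.exp (σ * n1 l) * (Cc c * (‖p‖ * Real.sqrt (1 / γ))) with hC'
  have hshift : ∀ f : Md → ℝ, ∑' k, f (k - l) = ∑' j, f j := fun f =>
    (Equiv.subRight l).tsum_eq f
  have hshift_s : ∀ f : Md → ℝ, Summable f → Summable fun k => f (k - l) := fun f hf =>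
    (Equiv.subRight l).summable_iff.2 hf
  have hs' := hshift_s _ (hs.mul_left C')
  have hrho : ∀ j : Md, ∀ y : ℝ, 0 ≤ y → rho σ j l * y ≤ y ∧ rho σ l j * y ≤ y := fun j y hy =>
    ⟨by nlinarith [rho_le hσ j l], by nlinarith [rho_le hσ l j]⟩
  constructor
  · rw [x1_norm]
    have hpt : ∀ k, ‖Bil c σ hc hσ (wg σ u hu) (Em σ l (exF γ p)) k‖ ≤
        C' * (Real.exp (σ * n1 (k - l)) * ‖Mg γ hγ.le (u (k - l))‖) := by
      intro k
      rw [Em, Bil, convL_single_right, wg_apply, WT_apply]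
      simp only [map_smul, ContinuousLinearMap.smul_apply, norm_smul, Real.norm_eq_abs,
        abs_of_pos (Real.exp_pos _), abs_of_pos (rho_pos _ _ _)]
      have h1 := (TF_bg hc (k - l + l) hγ p (u (k - l))).1
      have h2 : 0 ≤ Real.exp (σ * n1 l) * (Real.exp (σ * n1 (k - l)) *
          ‖TF c (k - l + l) (u (k - l)) (exF γ p)‖) := by positivity
      refine ((hrho (k - l) _ h2).1).trans ?_
      calc _ ≤ Real.exp (σ * n1 l) * (Real.exp (σ * n1 (k - l)) *
            (Cc c * (‖p‖ * Real.sqrt (1 / γ)) * ‖Mg γ hγ.le (u (k - l))‖)) := by gcongr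
        _ = _ := by rw [hC']; ring
    refine ((x1_summable _).tsum_le_tsum hpt hs').trans (le_of_eq ?_)
    rw [hshift (fun j => C' * (Real.exp (σ * n1 j) * ‖Mg γ hγ.le (u j)‖)), tsum_mul_left]
  · rw [x1_norm]
    have hpt : ∀ k, ‖Bil c σ hc hσ (Em σ l (exF γ p)) (wg σ u hu) k‖ ≤
        C' * (Real.exp (σ * n1 (k - l)) * ‖Mg γ hγ.le (u (k - l))‖) := by
      intro k
      rw [Em, Bil, convL_single_left, wg_apply, WT_apply]
      simp only [map_smul, ContinuousLinearMap.smul_apply, norm_smul, Real.norm_eq_abs,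
        abs_of_pos (Real.exp_pos _), abs_of_pos (rho_pos _ _ _)]
      have h1 := (TF_bg hc (l + (k - l)) hγ p (u (k - l))).2
      have h2 : 0 ≤ Real.exp (σ * n1 (k - l)) * (Real.exp (σ * n1 l) *
          ‖TF c (l + (k - l)) (exF γ p) (u (k - l))‖) := by positivity
      refine ((hrho (k - l) _ h2).2).trans ?_
      calc _ ≤ Real.exp (σ * n1 (k - l)) * (Real.exp (σ * n1 l) *
            (Cc c * (‖p‖ * Real.sqrt (1 / γ)) * ‖Mg γ hγ.le (u (k - l))‖)) := by gcongr
        _ = _ := by rw [hC']; ring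
    refine ((x1_summable _).tsum_le_tsum hpt hs').trans (le_of_eq ?_)
    rw [hshift (fun j => C' * (Real.exp (σ * n1 j) * ‖Mg γ hγ.le (u j)‖)), tsum_mul_left]

lemma Bil_pair {c σ : ℝ} (hc : 0 < c) (hσ : 0 ≤ σ) {γ γ' : ℝ} (hγ : 0 < γ) (hγ' : 0 < γ')
    (l l' : Md) (p p' : V3) :
    ‖Bil c σ hc hσ (Em σ l (exF γ p)) (Em σ l' (exF γ' p'))‖ ≤
      Real.exp (σ * n1 l) * Real.exp (σ * n1 l') * (Cc c * (‖p‖ * ‖p'‖ / (γ + γ'))) := by
  rw [Bil_Em, Em_norm]
  have h1 : Real.exp (σ * n1 (l + l')) ≤ Real.exp (σ * n1 l) * Real.exp (σ * n1 l') := by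
    rw [← Real.exp_add]
    refine Real.exp_le_exp.2 ?_
    have := n1_add l l'
    nlinarith
  exact mul_le_mul h1 (TF_ex_norm' hc _ hγ hγ' p p') (norm_nonneg _) (by positivity)

end H754R3.NSD
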