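import Mathlib
import Pool.Agent.H754R3.NSD.Wave

/-! The concrete step: adding a mode together with a high frequency wave pair that cancels it. -/

open Set Filter Topology MeasureTheory
open scoped ENNReal

namespace H754R3.NSD

set_option linter.unusedSectionVars false

/-- first wave vector -/
def K1 (k0 c0 : Md) (n : ℕ) : Md := (n : ℤ) • crz k0 c0
/-- second wave vector -/
def K2 (k0 c0 : Md) (n : ℕ) : Md := K1 k0 c0 n + k0
/-- first amplitude -/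
noncomputable def A1 (a : ℝ) (k0 : Md) (n : ℕ) : V3 := ((n : ℝ) * a) • vv k0
/-- decay rate of the product -/
noncomputable def Gm (c : ℝ) (k0 c0 : Md) (n : ℕ) : ℝ :=
  c * nsq (K1 k0 c0 n) + c * nsq (K2 k0 c0 n)
/-- scalar amplitude of the second wave -/
noncomputable def z2 (c a : ℝ) (z : ℂ) (k0 c0 : Md) (n : ℕ) : ℂ :=
  (Gm c k0 c0 n : ℂ) * z / (2 * Real.pi * Complex.I * (nsq k0 : ℂ) * ((n : ℂ) * (a : ℂ)))
/-- second amplitude -/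
noncomputable def A2 (c a : ℝ) (z : ℂ) (k0 c0 : Md) (n : ℕ) : V3 := z2 c a z k0 c0 n • vv c0

/-- a real mode pair -/
noncomputable def modd (z : ℂ) (k0 c0 : Md) : Md → V3 :=
  Pi.single k0 (z • vv c0) + Pi.single (-k0) (conjV (z • vv c0))

/-- the wave pair -/
noncomputable def wav (c a : ℝ) (z : ℂ) (k0 c0 : Md) (n : ℕ) : Md → V3 :=
  Pi.single (K1 k0 c0 n) (A1 a k0 n) + Pi.single (-K1 k0 c0 n) (conjV (A1 a k0 n)) +
  (Pi.single (K2 k0 c0 n) (A2 c a z k0 c0 n) + Pi.single (-K2 k0 c0 n) (conjV (A2 c a z k0 c0 n)))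

section
variable {k0 c0 : Md} (hk0 : k0 ≠ 0) (hc0 : c0 ≠ 0) (h0 : idot k0 c0 = 0) {n : ℕ} (hn : 1 ≤ n)

lemma nsq_K1 : nsq (K1 k0 c0 n) = n ^ 2 * nsq (crz k0 c0) := by
  rw [nsq_eq, nsq_eq, K1, idot_smul_left, idot_smul_right]; push_cast; ring

lemma idot_k0_K1 : idot k0 (K1 k0 c0 n) = 0 := by
  rw [K1, idot_smul_right, idot_crz_left, mul_zero]

lemma idot_c0_K1 : idot c0 (K1 k0 c0 n) = 0 := by
  rw [K1, idot_smul_right, idot_crz_right, mul_zero]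

lemma nsq_K2 : nsq (K2 k0 c0 n) = n ^ 2 * nsq (crz k0 c0) + nsq k0 := by
  have h1 : idot (K1 k0 c0 n) k0 = 0 := by rw [idot_comm, idot_k0_K1]
  rw [← nsq_K1, nsq_eq, nsq_eq, nsq_eq, K2, idot_add_left, idot_add_right, idot_add_right,
    idot_k0_K1, h1]; push_cast; ring

include h0 in
lemma idot_c0_K2 : idot c0 (K2 k0 c0 n) = 0 := by
  rw [K2, idot_add_right, idot_c0_K1, idot_comm, h0, add_zero]

lemma idot_k0_K2 : idot k0 (K2 k0 c0 n) = idot k0 k0 := by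
  rw [K2, idot_add_right, idot_k0_K1, zero_add]

include hk0 hc0 h0 in
lemma one_le_X : 1 ≤ nsq (crz k0 c0) := one_le_nsq (crz_ne hk0 hc0 h0)

lemma Gm_eq (c : ℝ) : Gm c k0 c0 n = c * (2 * n ^ 2 * nsq (crz k0 c0) + nsq k0) := by
  rw [Gm, nsq_K1, nsq_K2]; ring

include hk0 h0 hn in
lemma symb_main {c a : ℝ} (ha : 0 < a) (z : ℂ) :
    symb k0 (A1 a k0 n) (A2 c a z k0 c0 n) = (-(Gm c k0 c0 n)) • (z • vv c0) := by
  have hY : (nsq k0 : ℂ) ≠ 0 := by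
    have := one_le_nsq hk0
    exact_mod_cast (by linarith : nsq k0 ≠ 0)
  have hnn : (n : ℂ) ≠ 0 := by exact_mod_cast (by omega : n ≠ 0)
  have haa : (a : ℂ) ≠ 0 := by exact_mod_cast ha.ne'
  have hpi : (Real.pi : ℂ) ≠ 0 := by exact_mod_cast Real.pi_ne_zero
  have e1 : A1 a k0 n = ((n : ℂ) * (a : ℂ)) • vv k0 := by
    unfold A1; funext i; simp [Complex.real_smul]
  have e2 : dotk k0 (vv c0) = 0 := by rw [dotk_vv, h0]; simp
  have e3 : proj k0 (vv c0) = vv c0 := by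
    funext i; simp [proj, e2]
  have e4 : dotk k0 (vv k0) = (nsq k0 : ℂ) := by rw [dotk_vv, nsq_eq]; simp
  unfold symb
  rw [e1, dotk_smul, e4, A2, proj_smul, e3, smul_smul, z2]
  funext i
  simp only [Pi.smul_apply, smul_eq_mul, Complex.real_smul, Complex.ofReal_neg]
  have hI := Complex.I_ne_zero
  field_simp

include hk0 hc0 h0 hn in
lemma Gm_bounds {c : ℝ} (hc : 0 < c) : c * n ^ 2 ≤ Gm c k0 c0 n ∧ c * n ^ 2 ≤ c * nsq (K1 k0 c0 n) ∧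
    c * n ^ 2 ≤ c * nsq (K2 k0 c0 n) ∧ 2 * c * n ^ 2 ≤ Gm c k0 c0 n - c * nsq k0 ∧
    Gm c k0 c0 n ≤ c * (2 * nsq (crz k0 c0) + nsq k0) * n ^ 2 := by
  have hX := one_le_X hk0 hc0 h0
  have hY := one_le_nsq hk0
  have hn1 : (1:ℝ) ≤ n := by exact_mod_cast hn
  have hn2 : (1:ℝ) ≤ (n:ℝ) ^ 2 := by nlinarith
  rw [Gm_eq, nsq_K1, nsq_K2]
  have h1 : (n:ℝ) ^ 2 * 1 ≤ n ^ 2 * nsq (crz k0 c0) := by gcongr
  refine ⟨?_, ?_, ?_, ?_, ?_⟩
  · nlinarith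
  · nlinarith
  · nlinarith
  · nlinarith
  · have h2 : nsq k0 * 1 ≤ nsq k0 * (n:ℝ) ^ 2 := by gcongr
    nlinarith

end

lemma conjV_conjV (x : V3) : conjV (conjV x) = x := by funext i; simp

lemma conjV_norm (x : V3) : ‖conjV x‖ = ‖x‖ := by
  apply le_antisymm
  · rw [pi_norm_le_iff_of_nonneg (norm_nonneg _)]
    intro i
    rw [conjV_apply, RCLike.norm_conj]
    exact norm_le_pi_norm x i
  · rw [pi_norm_le_iff_of_nonneg (norm_nonneg _)]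
    intro i
    have := norm_le_pi_norm (conjV x) i
    rwa [conjV_apply, RCLike.norm_conj] at this

lemma conjV_A1 (a : ℝ) (k0 : Md) (n : ℕ) : conjV (A1 a k0 n) = A1 a k0 n := by
  unfold A1
  rw [map_smul]
  congr 1
  funext i; simp [vv]

/-- amplitude bound constant -/
noncomputable def PP (c a : ℝ) (z : ℂ) (k0 c0 : Md) : ℝ :=
  a * ‖vv k0‖ + (c * (2 * nsq (crz k0 c0) + nsq k0) * ‖z‖ / (2 * Real.pi * nsq k0 * a)) * ‖vv c0‖ +
    ‖z‖ * ‖vv c0‖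

lemma PP_nonneg {c a : ℝ} (hc : 0 < c) (ha : 0 < a) (z : ℂ) (k0 c0 : Md) : 0 ≤ PP c a z k0 c0 := by
  have h1 := nsq_nonneg k0
  have h2 := nsq_nonneg (crz k0 c0)
  unfold PP; positivity

lemma A1_norm {c a : ℝ} (hc : 0 < c) (ha : 0 < a) (z : ℂ) (k0 c0 : Md) (n : ℕ) :
    ‖A1 a k0 n‖ ≤ n * PP c a z k0 c0 := by
  have h1 := nsq_nonneg k0
  have h2 := nsq_nonneg (crz k0 c0)
  unfold A1 PP
  rw [norm_smul, Real.norm_eq_abs, abs_of_nonneg (by positivity), mul_assoc]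
  gcongr
  have : 0 ≤ (c * (2 * nsq (crz k0 c0) + nsq k0) * ‖z‖ / (2 * Real.pi * nsq k0 * a)) * ‖vv c0‖ +
    ‖z‖ * ‖vv c0‖ := by positivity
  linarith

lemma z2_norm {c a : ℝ} (hc : 0 < c) (ha : 0 < a) (z : ℂ) {k0 c0 : Md} (hk0 : k0 ≠ 0)
    (hc0 : c0 ≠ 0) (h0 : idot k0 c0 = 0) {n : ℕ} (hn : 1 ≤ n) :
    ‖z2 c a z k0 c0 n‖ ≤
      n * (c * (2 * nsq (crz k0 c0) + nsq k0) * ‖z‖ / (2 * Real.pi * nsq k0 * a)) := by
  have hY := one_le_nsq hk0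
  have hY0 : 0 < nsq k0 := by linarith
  have hn1 : (0:ℝ) < n := by exact_mod_cast hn
  have hG := Gm_bounds hk0 hc0 h0 hn hc
  have hG0 : 0 ≤ Gm c k0 c0 n := le_trans (by positivity) hG.1
  unfold z2
  rw [norm_div, norm_mul, norm_mul, norm_mul, norm_mul, norm_mul, norm_mul, Complex.norm_I,
    Complex.norm_real, Complex.norm_real, Complex.norm_real, Complex.norm_real,
    Complex.norm_natCast, Real.norm_eq_abs, Real.norm_eq_abs, Real.norm_eq_abs, Real.norm_eq_abs,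
    abs_of_nonneg hG0, abs_of_pos Real.pi_pos, abs_of_pos hY0, abs_of_pos ha]
  have e : ‖(2:ℂ)‖ = 2 := by simp
  rw [e, div_le_iff₀ (by positivity)]
  calc Gm c k0 c0 n * ‖z‖ ≤ (c * (2 * nsq (crz k0 c0) + nsq k0) * n ^ 2) * ‖z‖ := by
        gcongr; exact hG.2.2.2.2
    _ = _ := by field_simp

lemma A2_norm {c a : ℝ} (hc : 0 < c) (ha : 0 < a) (z : ℂ) {k0 c0 : Md} (hk0 : k0 ≠ 0)
    (hc0 : c0 ≠ 0) (h0 : idot k0 c0 = 0) {n : ℕ} (hn : 1 ≤ n) :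
    ‖A2 c a z k0 c0 n‖ ≤ n * PP c a z k0 c0 := by
  have h1 := nsq_nonneg k0
  have h2 := nsq_nonneg (crz k0 c0)
  unfold A2 PP
  rw [norm_smul]
  have h3 := z2_norm hc ha z hk0 hc0 h0 hn
  have h4 : ‖z2 c a z k0 c0 n‖ * ‖vv c0‖ ≤
    n * (c * (2 * nsq (crz k0 c0) + nsq k0) * ‖z‖ / (2 * Real.pi * nsq k0 * a)) * ‖vv c0‖ := by
    gcongr
  have h5 : 0 ≤ (n:ℝ) * (a * ‖vv k0‖ + ‖z‖ * ‖vv c0‖) := by positivity
  nlinarith

lemma P0_norm {c a : ℝ} (hc : 0 < c) (ha : 0 < a) (z : ℂ) (k0 c0 : Md) :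
    ‖z • vv c0‖ ≤ PP c a z k0 c0 := by
  have h1 := nsq_nonneg k0
  have h2 := nsq_nonneg (crz k0 c0)
  rw [norm_smul]
  unfold PP
  have : 0 ≤ a * ‖vv k0‖ + (c * (2 * nsq (crz k0 c0) + nsq k0) * ‖z‖ / (2 * Real.pi * nsq k0 * a)) *
    ‖vv c0‖ := by positivity
  linarith

/-- the resonant term -/
lemma main_cancel {c σ : ℝ} (hc : 0 < c) {k0 : Md} (hk0 : k0 ≠ 0) {γ₁ γ₂ : ℝ}
    (h1 : 0 < γ₁) (h2 : 0 < γ₂) (hne : 0 < γ₁ + γ₂ - c * nsq k0) (p q P0 : V3)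
    (hs : symb k0 p q = (-(γ₁ + γ₂)) • P0) :
    ‖Em σ k0 (exF (c * nsq k0) P0 - exF (γ₁ + γ₂) P0) + Em σ k0 (TF c k0 (exF γ₁ p) (exF γ₂ q))‖ ≤
      Real.exp (σ * n1 k0) * ((c * nsq k0) / (γ₁ + γ₂ - c * nsq k0) *
        (‖P0‖ * Real.sqrt (1 / (2 * (c * nsq k0))) + ‖P0‖ * Real.sqrt (1 / (2 * (γ₁ + γ₂))))) := by
  have hα : 0 < c * nsq k0 := mul_pos hc (by linarith [one_le_nsq hk0])
  rw [TF_ex hc hk0 h1 h2 hne.ne', hs, exF_smul, exF_smul, ← Em_add, Em_norm]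
  have e : exF (c * nsq k0) P0 - exF (γ₁ + γ₂) P0 + (1 / (γ₁ + γ₂ - c * nsq k0)) •
      (-(γ₁ + γ₂) • exF (c * nsq k0) P0 - -(γ₁ + γ₂) • exF (γ₁ + γ₂) P0) =
      (-((c * nsq k0) / (γ₁ + γ₂ - c * nsq k0))) • (exF (c * nsq k0) P0 - exF (γ₁ + γ₂) P0) := by
    rw [← smul_sub, smul_smul]
    nth_rewrite 1 [← one_smul ℝ (exF (c * nsq k0) P0 - exF (γ₁ + γ₂) P0)]
    rw [← add_smul]
    congr 1
    field_simp
    ring
  rw [e, norm_smul, Real.norm_eq_abs, abs_neg, abs_of_pos (div_pos hα hne)]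
  refine mul_le_mul_of_nonneg_left ?_ (Real.exp_pos _).le
  refine mul_le_mul_of_nonneg_left ?_ (div_pos hα hne).le
  exact (norm_sub_le _ _).trans (add_le_add (exF_norm_le hα P0) (exF_norm_le (add_pos h1 h2) P0))

end H754R3.NSD
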