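import Mathlib
import Pool.Agent.H754R3.NSD.StepAbs

/-! The norm of a solution on the time interval `(t₁, ∞)`. -/

open Set Filter Topology MeasureTheory
open scoped ENNReal

namespace H754R3.NSD

set_option linter.unusedSectionVars false

/-- restriction to `(t₁,∞)` -/
noncomputable def chi (t1 : ℝ) : L2 V3 →L[ℝ] Lp V3 2 (mup.restrict (Ioi t1)) :=
  LpToLpRestrictCLM ℝ V3 ℝ mup 2 (Ioi t1)

lemma chi_coe (t1 : ℝ) (x : L2 V3) :
    (chi t1 x : ℝ → V3) =ᵐ[mup.restrict (Ioi t1)] (x : ℝ → V3) :=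
  LpToLpRestrictCLM_coeFn ℝ (Ioi t1) x

lemma chi_norm_le (t1 : ℝ) (x : L2 V3) : ‖chi t1 x‖ ≤ ‖x‖ := norm_Lp_toLp_restrict_le (Ioi t1) x

lemma chi_enorm_le (t1 : ℝ) (x : L2 V3) : ‖chi t1 x‖ₑ ≤ ‖x‖ₑ := by
  rw [← ofReal_norm, ← ofReal_norm]
  exact ENNReal.ofReal_le_ofReal (chi_norm_le t1 x)

/-- norm in `ℓ¹(ℤ³; L²(t₁,∞))` -/
noncomputable def TN (t1 : ℝ) (u : Md → L2 V3) : ℝ≥0∞ := ∑' k, ‖chi t1 (u k)‖ₑ

lemma TN_zero (t1 : ℝ) : TN t1 0 = 0 := by simp [TN]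

lemma TN_add (t1 : ℝ) (f g : Md → L2 V3) : TN t1 (fun k => f k + g k) ≤ TN t1 f + TN t1 g := by
  unfold TN
  rw [← ENNReal.tsum_add]
  refine ENNReal.tsum_le_tsum fun k => ?_
  rw [map_add]; exact enorm_add_le _ _

lemma TN_sum {ι : Type*} (s : Finset ι) (t1 : ℝ) (f : ι → Md → L2 V3) :
    TN t1 (fun k => ∑ i ∈ s, f i k) ≤ ∑ i ∈ s, TN t1 (f i) := by
  classical
  induction s using Finset.induction_on with
  | empty => simp [TN]
  | insert a s ha ih =>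
      simp only [Finset.sum_insert ha]
      exact (TN_add t1 _ _).trans (add_le_add le_rfl ih)

lemma TN_single (σ t1 : ℝ) (l : Md) (x : L2 V3) :
    TN t1 (fun k => Real.exp (-(σ * n1 k)) • (Em σ l x) k) = ‖chi t1 x‖ₑ := by
  have e : (fun k => Real.exp (-(σ * n1 k)) • (Em σ l x) k) = fun k => if k = l then x else 0 := by
    funext k
    have h := Em_apply σ l x k
    rw [h]
    by_cases hk : k = l
    · have e4 : Real.exp (-(σ * n1 l)) * Real.exp (σ * n1 l) = 1 := by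
        rw [← Real.exp_add]; simp
      rw [if_pos hk, if_pos hk, smul_smul, hk, e4, one_smul]
    · rw [if_neg hk, if_neg hk, smul_zero]
  rw [e]
  unfold TN
  rw [tsum_eq_single l]
  · simp only [if_true]
  · intro k hk
    simp only [if_neg hk, map_zero, enorm_zero]

lemma TN_XX {σ : ℝ} (hσ : 0 ≤ σ) (t1 : ℝ) (w : XX) :
    TN t1 (fun k => Real.exp (-(σ * n1 k)) • w k) ≤ ENNReal.ofReal ‖w‖ := by
  rw [x1_norm, ENNReal.ofReal_tsum_of_nonneg (fun k => norm_nonneg _) (x1_summable w)]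
  unfold TN
  refine ENNReal.tsum_le_tsum fun k => (chi_enorm_le _ _).trans ?_
  rw [← ofReal_norm]
  refine ENNReal.ofReal_le_ofReal ?_
  rw [norm_smul, Real.norm_eq_abs, abs_of_pos (Real.exp_pos _)]
  have : Real.exp (-(σ * n1 k)) ≤ 1 := by
    rw [Real.exp_le_one_iff]
    have := mul_nonneg hσ (n1_nonneg k)
    linarith
  calc Real.exp (-(σ * n1 k)) * ‖w k‖ ≤ 1 * ‖w k‖ := by gcongr
    _ = _ := one_mul _

lemma chi_exF {γ : ℝ} (hγ : 0 < γ) (p : V3) (t1 : ℝ) :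
    ‖chi t1 (exF γ p)‖ ≤ Real.exp (-(γ / 2 * t1)) * (‖p‖ * Real.sqrt (1 / γ)) := by
  have hγ2 : 0 < γ / 2 := by linarith
  have h1 : ‖chi t1 (exF γ p)‖ ≤ Real.exp (-(γ / 2 * t1)) * ‖chi t1 (exF (γ / 2) p)‖ := by
    refine Lp.norm_le_mul_norm_of_ae_le_mul ?_
    have a1 : ∀ᵐ t ∂(mup.restrict (Ioi t1)), (exF γ p : ℝ → V3) t = exf γ p t :=
      ae_restrict_of_ae (exF_coe hγ p)
    have a2 : ∀ᵐ t ∂(mup.restrict (Ioi t1)), (exF (γ/2) p : ℝ → V3) t = exf (γ/2) p t :=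
      ae_restrict_of_ae (exF_coe hγ2 p)
    have a3 : ∀ᵐ t ∂(mup.restrict (Ioi t1)), t ∈ Ioi t1 := ae_restrict_mem measurableSet_Ioi
    filter_upwards [chi_coe t1 (exF γ p), chi_coe t1 (exF (γ/2) p), a1, a2, a3] with t b1 b2 b3 b4 b5
    rw [b1, b2, b3, b4]
    unfold exf
    rw [norm_smul, norm_smul, Real.norm_eq_abs, Real.norm_eq_abs, abs_of_pos (Real.exp_pos _),
      abs_of_pos (Real.exp_pos _), ← mul_assoc, ← Real.exp_add]
    have b5' : t1 < t := b5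
    gcongr
    nlinarith
  have h2 : ‖exF (γ / 2) p‖ ≤ ‖p‖ * Real.sqrt (1 / γ) := by
    have := exF_norm_le hγ2 p
    rwa [show 2 * (γ / 2) = γ by ring] at this
  refine h1.trans ?_
  gcongr
  exact (chi_norm_le _ _).trans h2

lemma TN_step {σ : ℝ} (hσ : 0 ≤ σ) (t1 : ℝ) (u : Md → L2 V3) {u' : Md → L2 V3} (l : Fin 6 → Md)
    (x : Fin 6 → L2 V3) (w : XX) {κ : ℝ} (hκ : 0 < κ)
    (hu' : ∀ k, u' k = u k + Real.exp (-(σ * n1 k)) • ((∑ i, Em σ (l i) (x i) : XX) k + w k))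
    (hx : ∀ i, ‖chi t1 (x i)‖ ≤ κ / 12) (hw : ‖w‖ ≤ κ / 2) :
    TN t1 u' ≤ TN t1 u + ENNReal.ofReal κ := by
  have e1 : u' = fun k => u k + ((∑ i, Real.exp (-(σ * n1 k)) • (Em σ (l i) (x i)) k) +
      Real.exp (-(σ * n1 k)) • w k) := by
    funext k
    rw [hu' k, smul_add, lp.coeFn_sum, Finset.sum_apply, Finset.smul_sum]
  rw [e1]
  refine (TN_add t1 _ _).trans (add_le_add le_rfl ?_)
  refine (TN_add t1 _ _).trans ?_
  have h1 : TN t1 (fun k => ∑ i, Real.exp (-(σ * n1 k)) • (Em σ (l i) (x i)) k) ≤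
      ENNReal.ofReal (κ / 2) := by
    refine (TN_sum Finset.univ t1 (fun i k => Real.exp (-(σ * n1 k)) • (Em σ (l i) (x i)) k)).trans ?_
    calc ∑ i, TN t1 (fun k => Real.exp (-(σ * n1 k)) • (Em σ (l i) (x i)) k)
        ≤ ∑ _i : Fin 6, ENNReal.ofReal (κ / 12) := by
          refine Finset.sum_le_sum fun i _ => ?_
          rw [TN_single, ← ofReal_norm]
          exact ENNReal.ofReal_le_ofReal (hx i)
      _ = ENNReal.ofReal (κ / 2) := by
          rw [Finset.sum_const, Finset.card_univ, Fintype.card_fin, ← ENNReal.ofReal_nsmul]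
          congr 1
          simp only [nsmul_eq_mul]
          push_cast
          ring
  have h2 : TN t1 (fun k => Real.exp (-(σ * n1 k)) • w k) ≤ ENNReal.ofReal (κ / 2) :=
    (TN_XX hσ t1 w).trans (ENNReal.ofReal_le_ofReal hw)
  calc _ ≤ ENNReal.ofReal (κ / 2) + ENNReal.ofReal (κ / 2) := add_le_add h1 h2
    _ = ENNReal.ofReal κ := by
        rw [← ENNReal.ofReal_add (by linarith) (by linarith)]; congr 1; ring

end H754R3.NSD
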