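import Mathlib
import Pool.Agent.H754R3.NSD.Step
import Pool.Agent.H754R3.NSD.Tail

/-! The step theorem. -/

open Set Filter Topology MeasureTheory
open scoped ENNReal

namespace H754R3.NSD

set_option linter.unusedSectionVars false

lemma sum6 {X : Type*} [AddCommGroup X] (e : Fin 6 → X) :
    ∑ i, e i = ((e 0 + e 1) + (e 2 + e 3)) + (e 4 + e 5) := by
  rw [Fin.sum_univ_six]; abel

/-- Expansion of the residual. -/
lemma resid_expand {c σ : ℝ} (hc : 0 < c) (hσ : 0 ≤ σ) (e : Fin 6 → XX) (D4 D5 wu R D : XX)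
    (hR : R = ∑ i, e i) (hD : D = ((e 0 + e 1) + (e 2 + e 3)) + (D4 + D5))
    (hz1 : ∀ i j : Fin 6, (i = 0 ∨ i = 1) → (j = 0 ∨ j = 1) → Bil c σ hc hσ (e i) (e j) = 0)
    (hz2 : ∀ i j : Fin 6, (i = 2 ∨ i = 3) → (j = 0 ∨ j = 1 ∨ j = 2 ∨ j = 3) →
      Bil c σ hc hσ (e i) (e j) = 0) :
    D - R + Bil c σ hc hσ R R + (Bil c σ hc hσ wu R + Bil c σ hc hσ R wu) =
      ((D4 - e 4) + Bil c σ hc hσ (e 1) (e 2)) + ((D5 - e 5) + Bil c σ hc hσ (e 0) (e 3)) +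
      (Bil c σ hc hσ (e 0) (e 2) + Bil c σ hc hσ (e 1) (e 3)) +
      (∑ i, Bil c σ hc hσ (e 4) (e i) + ∑ i, Bil c σ hc hσ (e 5) (e i)) +
      ((Bil c σ hc hσ (e 0) (e 4) + Bil c σ hc hσ (e 1) (e 4) + Bil c σ hc hσ (e 2) (e 4) +
        Bil c σ hc hσ (e 3) (e 4)) +
       (Bil c σ hc hσ (e 0) (e 5) + Bil c σ hc hσ (e 1) (e 5) + Bil c σ hc hσ (e 2) (e 5) +
        Bil c σ hc hσ (e 3) (e 5))) +
      (∑ i, Bil c σ hc hσ wu (e i) + ∑ i, Bil c σ hc hσ (e i) wu) := by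
  have z00 := hz1 0 0 (by simp) (by simp)
  have z01 := hz1 0 1 (by simp) (by simp)
  have z10 := hz1 1 0 (by simp) (by simp)
  have z11 := hz1 1 1 (by simp) (by simp)
  have z20 := hz2 2 0 (by simp) (by simp)
  have z21 := hz2 2 1 (by simp) (by simp)
  have z22 := hz2 2 2 (by simp) (by simp)
  have z23 := hz2 2 3 (by simp) (by simp)
  have z30 := hz2 3 0 (by simp) (by simp)
  have z31 := hz2 3 1 (by simp) (by simp)
  have z32 := hz2 3 2 (by simp) (by simp)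
  have z33 := hz2 3 3 (by simp) (by simp)
  rw [hD, hR]
  generalize Bil c σ hc hσ = B at *
  simp only [Fin.sum_univ_six, map_add, ContinuousLinearMap.add_apply, z00, z01, z10, z11, z20,
    z21, z22, z23, z30, z31, z32, z33, zero_add, add_zero]
  abel

lemma norm_sum6_le {f : Fin 6 → XX} {b : ℝ} (h : ∀ i, ‖f i‖ ≤ b) : ‖∑ i, f i‖ ≤ 6 * b := by
  refine (norm_sum_le _ _).trans ((Finset.sum_le_sum fun i _ => h i).trans ?_)
  simp

lemma norm_4_le {a b c d : XX} {t : ℝ} (ha : ‖a‖ ≤ t) (hb : ‖b‖ ≤ t) (hc : ‖c‖ ≤ t) (hd : ‖d‖ ≤ t) :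
    ‖a + b + c + d‖ ≤ 4 * t := by
  have h1 := norm_add_le (a + b + c) d
  have h2 := norm_add_le (a + b) c
  have h3 := norm_add_le a b
  linarith

/-- Norm bound of the residual. -/
lemma resid_norm {c σ : ℝ} (hc : 0 < c) (hσ : 0 ≤ σ) (e : Fin 6 → XX) (D4 D5 wu : XX)
    {t1 t2 t3 t4 : ℝ}
    (h1 : ‖(D4 - e 4) + Bil c σ hc hσ (e 1) (e 2)‖ ≤ t1)
    (h1' : ‖(D5 - e 5) + Bil c σ hc hσ (e 0) (e 3)‖ ≤ t1)
    (h2 : ‖Bil c σ hc hσ (e 0) (e 2)‖ ≤ t2) (h2' : ‖Bil c σ hc hσ (e 1) (e 3)‖ ≤ t2)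
    (h3 : ∀ i j : Fin 6, (i = 4 ∨ i = 5) → ‖Bil c σ hc hσ (e i) (e j)‖ ≤ t3 ∧
      ‖Bil c σ hc hσ (e j) (e i)‖ ≤ t3)
    (h4 : ∀ i, ‖Bil c σ hc hσ wu (e i)‖ ≤ t4 ∧ ‖Bil c σ hc hσ (e i) wu‖ ≤ t4) :
    ‖((D4 - e 4) + Bil c σ hc hσ (e 1) (e 2)) + ((D5 - e 5) + Bil c σ hc hσ (e 0) (e 3)) +
      (Bil c σ hc hσ (e 0) (e 2) + Bil c σ hc hσ (e 1) (e 3)) +
      (∑ i, Bil c σ hc hσ (e 4) (e i) + ∑ i, Bil c σ hc hσ (e 5) (e i)) +
      ((Bil c σ hc hσ (e 0) (e 4) + Bil c σ hc hσ (e 1) (e 4) + Bil c σ hc hσ (e 2) (e 4) +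
        Bil c σ hc hσ (e 3) (e 4)) +
       (Bil c σ hc hσ (e 0) (e 5) + Bil c σ hc hσ (e 1) (e 5) + Bil c σ hc hσ (e 2) (e 5) +
        Bil c σ hc hσ (e 3) (e 5))) +
      (∑ i, Bil c σ hc hσ wu (e i) + ∑ i, Bil c σ hc hσ (e i) wu)‖ ≤
      2 * t1 + 2 * t2 + 20 * t3 + 12 * t4 := by
  have a1 := norm_sum6_le (f := fun i => Bil c σ hc hσ (e 4) (e i)) (b := t3)
    (fun i => (h3 4 i (by simp)).1)
  have a2 := norm_sum6_le (f := fun i => Bil c σ hc hσ (e 5) (e i)) (b := t3)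
    (fun i => (h3 5 i (by simp)).1)
  have a3 := norm_4_le (h3 4 0 (by simp)).2 (h3 4 1 (by simp)).2 (h3 4 2 (by simp)).2
    (h3 4 3 (by simp)).2
  have a4 := norm_4_le (h3 5 0 (by simp)).2 (h3 5 1 (by simp)).2 (h3 5 2 (by simp)).2
    (h3 5 3 (by simp)).2
  have a5 := norm_sum6_le (f := fun i => Bil c σ hc hσ wu (e i)) (b := t4) (fun i => (h4 i).1)
  have a6 := norm_sum6_le (f := fun i => Bil c σ hc hσ (e i) wu) (b := t4) (fun i => (h4 i).2)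
  refine (norm_add_le _ _).trans ?_
  refine (add_le_add (norm_add_le _ _) (norm_add_le _ _)).trans ?_
  refine (add_le_add (add_le_add (norm_add_le _ _) (norm_add_le _ _)) le_rfl).trans ?_
  refine (add_le_add (add_le_add (add_le_add (norm_add_le _ _) (norm_add_le _ _)) le_rfl) le_rfl).trans ?_
  refine (add_le_add (add_le_add (add_le_add (add_le_add (norm_add_le _ _) (norm_add_le _ _)) le_rfl) le_rfl) le_rfl).trans ?_
  linarith

lemma dotk_zero (x : V3) : dotk 0 x = 0 := by simp [dotk]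

lemma D_eval {c σ : ℝ} (l : Fin 6 → Md) (p : Fin 6 → V3) (k : Md) :
    (∑ i, Em σ (l i) (exF (c * nsq (l i)) (p i)) : XX) k =
      Real.exp (σ * n1 k) • exF (c * nsq k) ((∑ i, (Pi.single (l i) (p i) : Md → V3)) k) := by
  have hz : ∀ (q : Fin 6 → V3), exF (c * nsq k) (∑ i, q i) = ∑ i, exF (c * nsq k) (q i) := by
    intro q
    simp only [Fin.sum_univ_six, exF_add]
  rw [lp.coeFn_sum, Finset.sum_apply, Finset.sum_apply, hz, Finset.smul_sum]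
  refine Finset.sum_congr rfl fun i _ => ?_
  rw [Em_apply]
  by_cases h : k = l i
  · subst h; simp
  · rw [if_neg h, Pi.single_eq_of_ne h, exF_zero, smul_zero]

lemma num_tail {c t1 κ n Q γ q : ℝ} (hc : 0 < c) (ht1 : 0 < t1) (hκ : 0 < κ) (hn : 1 ≤ n)
    (hQ : 0 ≤ Q) (hγ : c * n ^ 2 ≤ γ) (hq : q ≤ Q) (hq0 : 0 ≤ q) (hN : 24 * Q / (c * t1 * κ) ≤ n) :
    Real.exp (-(γ / 2 * t1)) * q ≤ κ / 12 := by
  have hn0 : 0 < n := by linarith
  have h1 : c * n * t1 / 2 ≤ γ / 2 * t1 := by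
    have hnn : n ≤ n ^ 2 := by nlinarith
    have : c * n ≤ γ := (mul_le_mul_of_nonneg_left hnn hc.le).trans hγ
    nlinarith
  have h0 : 0 < c * n * t1 / 2 := by positivity
  have h2 : Real.exp (-(γ / 2 * t1)) ≤ 1 / (c * n * t1 / 2) := by
    rw [Real.exp_neg, ← one_div]
    refine one_div_le_one_div_of_le h0 ?_
    have := Real.add_one_le_exp (γ / 2 * t1)
    linarith
  calc Real.exp (-(γ / 2 * t1)) * q ≤ 1 / (c * n * t1 / 2) * Q :=
        mul_le_mul h2 hq hq0 (by positivity)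
    _ = (24 * Q / (c * t1 * κ)) * κ / (12 * n) := by field_simp; ring
    _ ≤ n * κ / (12 * n) := by gcongr
    _ = κ / 12 := by field_simp

lemma idot_zero_left (k : Md) : idot 0 k = 0 := by simp [idot]

lemma num_sq1 {c Y : ℝ} (hc : 0 < c) (hY : 1 ≤ Y) :
    Real.sqrt (1 / (2 * (c * Y))) ≤ Real.sqrt (1 / (2 * c)) := by
  refine Real.sqrt_le_sqrt (one_div_le_one_div_of_le (by positivity) ?_)
  nlinarith

lemma num_sq2 {c n G : ℝ} (hc : 0 < c) (hn : 1 ≤ n) (hg : c * n ^ 2 ≤ G) :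
    Real.sqrt (1 / (2 * G)) ≤ Real.sqrt (1 / (2 * c)) := by
  refine Real.sqrt_le_sqrt (one_div_le_one_div_of_le (by positivity) ?_)
  have h1 : c * 1 ≤ c * n ^ 2 := by gcongr; nlinarith
  linarith

lemma num_main {c n Y D : ℝ} (hc : 0 < c) (hn : 1 ≤ n) (hY : 1 ≤ Y) (hD : 2 * c * n ^ 2 ≤ D) :
    (c * Y) / D ≤ Y / n := by
  have hD0 : 0 < D := lt_of_lt_of_le (by positivity) hD
  rw [div_le_div_iff₀ hD0 (by linarith)]
  have h1 : c * n ≤ D := by nlinarith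
  calc c * Y * n = Y * (c * n) := by ring
    _ ≤ Y * D := by gcongr

lemma num_cross1 {c n N : ℝ} (hc : 0 < c) (hn : 1 ≤ n) (hN : 1 * n ^ 2 ≤ N) :
    Real.sqrt (1 / (2 * (c * N))) ≤ Real.sqrt (1 / (2 * c)) / n := by
  have hn0 : 0 < n := by linarith
  have hN0 : 0 < N := lt_of_lt_of_le (by positivity) hN
  rw [le_div_iff₀ hn0]
  calc Real.sqrt (1 / (2 * (c * N))) * n = Real.sqrt (1 / (2 * (c * N)) * n ^ 2) := by
        rw [Real.sqrt_mul (by positivity), Real.sqrt_sq hn0.le]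
    _ ≤ Real.sqrt (1 / (2 * c)) := by
        refine Real.sqrt_le_sqrt ?_
        rw [div_mul_eq_mul_div, div_le_div_iff₀ (by positivity) (by positivity)]
        nlinarith

lemma num_cross2 {c n a Y P s G : ℝ} (hc : 0 < c) (hn : 1 ≤ n) (ha : 0 < a) (hY : 1 ≤ Y)
    (hP : 0 ≤ P) (hg : c * n ^ 2 ≤ G) (hs : s ≤ 8 * Real.pi * (n * a * Y) * (n * P)) :
    s / G ≤ 8 * Real.pi * a * Y * P / c := by
  have hG0 : 0 < G := lt_of_lt_of_le (by positivity) hg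
  rw [div_le_div_iff₀ hG0 hc]
  calc s * c ≤ (8 * Real.pi * (n * a * Y) * (n * P)) * c := by gcongr
    _ = (8 * Real.pi * a * Y * P) * (c * n ^ 2) := by ring
    _ ≤ _ := by gcongr

lemma num_bg {c n P p g : ℝ} (hc : 0 < c) (hn : 1 ≤ n) (hP : 0 ≤ P) (hp : p ≤ n * P)
    (hg : c * n ^ 2 ≤ g) :
    p * Real.sqrt (1 / g) ≤ P * Real.sqrt (1 / c) := by
  have hn0 : 0 < n := by linarith
  calc p * Real.sqrt (1 / g) ≤ (n * P) * Real.sqrt (1 / (c * n ^ 2)) := by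
        refine mul_le_mul hp (Real.sqrt_le_sqrt (one_div_le_one_div_of_le (by positivity) hg))
          (Real.sqrt_nonneg _) (by positivity)
    _ = P * Real.sqrt (1 / c) := by
        have : 1 / (c * n ^ 2) = (1 / c) * (1 / n) ^ 2 := by field_simp
        rw [this, Real.sqrt_mul (by positivity), Real.sqrt_sq (by positivity)]
        field_simp

lemma num_final {q1 q2 q3 n η w η1 Q : ℝ} (hη : 0 < η) (hn0 : 0 < n)
    (hQ : Q = 2 * q1 + 2 * q2 + 20 * q3) (hn1 : 2 * Q / η ≤ n) (hw0 : 0 ≤ w)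
    (hη1 : η1 = η / (2 * (1 + 12 * w))) :
    2 * (q1 / n) + 2 * (q2 / n) + 20 * (q3 / n) + 12 * (w * η1) ≤ η := by
  have h1 : 2 * (q1 / n) + 2 * (q2 / n) + 20 * (q3 / n) = Q / n := by rw [hQ]; ring
  have h2 : Q / n ≤ η / 2 := by
    rw [div_le_iff₀ hη] at hn1
    rw [div_le_iff₀ hn0]
    linarith
  have h3 : 12 * (w * η1) ≤ η / 2 := by
    rw [hη1]
    have : 12 * (w * (η / (2 * (1 + 12 * w)))) = (12 * w / (1 + 12 * w)) * (η / 2) := by
      field_simp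
    rw [this]
    have h5 : 12 * w / (1 + 12 * w) ≤ 1 := by
      rw [div_le_one (by positivity)]; linarith
    nlinarith
  linarith

theorem step {c : ℝ} (hc : 0 < c) {v : Md → V3} {u : Md → L2 V3} (hu : IsSol c v u) {k0 c0 : Md}
    (hk0 : k0 ≠ 0) (hc0 : c0 ≠ 0) (h0 : idot k0 c0 = 0) (z : ℂ) {a : ℝ} (ha : 0 < a)
    {κ : ℝ} (hκ : 0 < κ) {t1 : ℝ} (ht1 : 0 < t1) :
    ∃ N : ℕ, ∀ n ≥ N, ∃ u', IsSol c (v + (modd z k0 c0 + wav c a z k0 c0 n)) u' ∧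
      TN t1 u' ≤ TN t1 u + ENNReal.ofReal κ := by
  obtain ⟨σ0, hσ0, hu0⟩ := hu.dec
  set P := PP c a z k0 c0 with hP
  have hP0 : 0 ≤ P := PP_nonneg hc ha z k0 c0
  have hCc := Cc_pos hc
  obtain ⟨η0, hη0, Λ, hΛ, hstep⟩ := step_abs hc hu hu0 6 (3 * (P * Real.sqrt (1 / (2 * c))))
  set η : ℝ := min η0 (κ / (2 * Λ)) with hηd
  have hη : 0 < η := lt_min hη0 (by positivity)
  -- background smallness
  set η1 : ℝ := η / (2 * (1 + 12 * (3 * (Cc c * (P * Real.sqrt (1 / c)))))) with hη1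
  have hη1p : 0 < η1 := by positivity
  obtain ⟨G, hG0, hG⟩ := kap_small hu0 hη1p
  set Y := nsq k0 with hY
  have hY1 : 1 ≤ Y := one_le_nsq hk0
  set q1 : ℝ := 3 * (Y * (2 * (P * Real.sqrt (1 / (2 * c))))) with hq1
  set q2 : ℝ := 3 * (Real.sqrt (1 / (2 * c)) * (8 * Real.pi * a * Y * P / c)) with hq2
  set q3 : ℝ := 3 * 3 * (Cc c * (P * P / c)) with hq3
  set Q : ℝ := 2 * q1 + 2 * q2 + 20 * q3 with hQ
  have hq10 : 0 ≤ q1 := by positivity
  have hq20 : 0 ≤ q2 := by positivity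
  have hq30 : 0 ≤ q3 := by positivity
  obtain ⟨N1, hN1⟩ := exists_nat_ge (2 * Q / η)
  obtain ⟨N2, hN2⟩ := exists_nat_ge (G / c)
  obtain ⟨N3, hN3⟩ := exists_nat_ge (24 * (P * Real.sqrt (1 / c)) / (c * t1 * κ))
  refine ⟨N1 + N2 + N3 + 1, fun n hnN => ?_⟩
  have hn : 1 ≤ n := by omega
  have hnr : (1:ℝ) ≤ n := by exact_mod_cast hn
  have hn0 : (0:ℝ) < n := by linarith
  have hn1 : 2 * Q / η ≤ n := hN1.trans (by exact_mod_cast (by omega : N1 ≤ n))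
  have hn2 : G / c ≤ n := hN2.trans (by exact_mod_cast (by omega : N2 ≤ n))
  have hGn : G ≤ c * (n:ℝ) ^ 2 := by
    rw [div_le_iff₀ hc] at hn2
    nlinarith
  obtain ⟨g1, g2, g3, g4, -⟩ := Gm_bounds hk0 hc0 h0 hn hc
  set Γ := Gm c k0 c0 n with hΓ
  have hcn : 0 < c * (n:ℝ) ^ 2 := by positivity
  have hΓ0 : 0 < Γ := lt_of_lt_of_le hcn g1
  -- modes
  set κ1 := K1 k0 c0 n with hκ1
  set κ2 := K2 k0 c0 n with hκ2
  set B1 := A1 a k0 n with hB1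
  set B2 := A2 c a z k0 c0 n with hB2
  set P0 := z • vv c0 with hP0d
  set γ1 := c * nsq κ1 with hγ1
  set γ2 := c * nsq κ2 with hγ2
  have hγ10 : 0 < γ1 := lt_of_lt_of_le hcn g2
  have hγ20 : 0 < γ2 := lt_of_lt_of_le hcn g3
  have hΓsum : Γ = γ1 + γ2 := rfl
  -- weight
  set σ : ℝ := min σ0 (1 / (n1 k0 + n1 κ1 + n1 κ2 + 1)) with hσd
  have hn1k := n1_nonneg k0
  have hn1κ1 := n1_nonneg κ1
  have hn1κ2 := n1_nonneg κ2
  have hσ : 0 < σ := lt_min hσ0 (by positivity)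
  have hσσ : σ ≤ σ0 := min_le_left _ _
  have hσn : ∀ l : Md, n1 l ≤ n1 k0 + n1 κ1 + n1 κ2 → Real.exp (σ * n1 l) ≤ 3 := by
    intro l hl
    have h1 : σ * n1 l ≤ 1 := by
      calc σ * n1 l ≤ (1 / (n1 k0 + n1 κ1 + n1 κ2 + 1)) * (n1 k0 + n1 κ1 + n1 κ2 + 1) := by
            refine mul_le_mul (min_le_right _ _) (by linarith) (n1_nonneg l) (by positivity)
        _ = 1 := by field_simp
    have h2 := Real.exp_one_lt_d9
    have h3 := Real.exp_le_exp.2 h1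
    linarith
  have husum : Summable fun k => Real.exp (σ * n1 k) * ‖u k‖ := by
    refine Summable.of_nonneg_of_le (fun k => by positivity) (fun k => ?_) hu0
    exact mul_le_mul_of_nonneg_right
      (Real.exp_le_exp.2 (mul_le_mul_of_nonneg_right hσσ (n1_nonneg k))) (norm_nonneg _)
  let lR : Fin 6 → Md := ![κ1, -κ1, κ2, -κ2, k0, -k0]
  let γR : Fin 6 → ℝ := ![γ1, γ1, γ2, γ2, Γ, Γ]
  let pR : Fin 6 → V3 := ![B1, conjV B1, B2, conjV B2, P0, conjV P0]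
  have hB1n : ‖B1‖ ≤ n * P := A1_norm hc ha z k0 c0 n
  have hB2n : ‖B2‖ ≤ n * P := A2_norm hc ha z hk0 hc0 h0 hn
  have hP0n : ‖P0‖ ≤ P := P0_norm hc ha z k0 c0
  have hP0n' : ‖P0‖ ≤ n * P := hP0n.trans (by nlinarith)
  have hγR : ∀ i, c * (n:ℝ) ^ 2 ≤ γR i := by
    intro i; fin_cases i <;> simp [γR] <;> assumption
  have hγR0 : ∀ i, 0 < γR i := fun i => lt_of_lt_of_le hcn (hγR i)
  have hpR : ∀ i, ‖pR i‖ ≤ n * P := by
    intro i; fin_cases i <;> simp [pR, conjV_norm] <;> assumption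
  have hlR : ∀ i, Real.exp (σ * n1 (lR i)) ≤ 3 := by
    intro i; fin_cases i <;> simp [lR, n1_neg] <;> apply hσn <;> linarith
  let e : Fin 6 → XX := fun i => Em σ (lR i) (exF (γR i) (pR i))
  let R : XX := ∑ i, e i
  let D : XX := ∑ i, Em σ (lR i) (exF (c * nsq (lR i)) (pR i))
  let D4 : XX := Em σ k0 (exF (c * nsq k0) P0)
  let D5 : XX := Em σ (-k0) (exF (c * nsq (-k0)) (conjV P0))
  have hDexp : D = ((e 0 + e 1) + (e 2 + e 3)) + (D4 + D5) := by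
    show ∑ i, Em σ (lR i) (exF (c * nsq (lR i)) (pR i)) = _
    rw [sum6]
    have e1 : (e 1 : XX) = Em σ (-κ1) (exF (c * nsq (-κ1)) (conjV B1)) := by rw [nsq_neg]; rfl
    have e3 : (e 3 : XX) = Em σ (-κ2) (exF (c * nsq (-κ2)) (conjV B2)) := by rw [nsq_neg]; rfl
    rw [e1, e3]
    rfl
  have hRS : R ∈ SymS := by
    have : R = (Em σ κ1 (exF γ1 B1) + Em σ (-κ1) (conjE (exF γ1 B1)) +
        (Em σ κ2 (exF γ2 B2) + Em σ (-κ2) (conjE (exF γ2 B2)))) +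
        (Em σ k0 (exF Γ P0) + Em σ (-k0) (conjE (exF Γ P0))) := by
      rw [conj_exF, conj_exF, conj_exF]
      exact sum6 e
    rw [this]
    exact SymS.add_mem (SymS.add_mem (Em_sym _ _ _) (Em_sym _ _ _)) (Em_sym _ _ _)
  have hDS : D ∈ SymS := by
    have : D = (Em σ κ1 (exF γ1 B1) + Em σ (-κ1) (conjE (exF γ1 B1)) +
        (Em σ κ2 (exF γ2 B2) + Em σ (-κ2) (conjE (exF γ2 B2)))) +
        (Em σ k0 (exF (c * nsq k0) P0) + Em σ (-k0) (conjE (exF (c * nsq k0) P0))) := by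
      rw [conj_exF, conj_exF, conj_exF, hDexp]
      have : D5 = Em σ (-k0) (exF (c * nsq k0) (conjV P0)) := by
        show Em σ (-k0) (exF (c * nsq (-k0)) (conjV P0)) = _
        rw [nsq_neg]
      rw [this]
      rfl
    rw [this]
    exact SymS.add_mem (SymS.add_mem (Em_sym _ _ _) (Em_sym _ _ _)) (Em_sym _ _ _)
  have hd : (∑ i, (Pi.single (lR i) (pR i) : Md → V3)) = modd z k0 c0 + wav c a z k0 c0 n := by
    rw [sum6]
    show ((Pi.single κ1 B1 : Md → V3) + (Pi.single (-κ1) (conjV B1) : Md → V3) +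
      ((Pi.single κ2 B2 : Md → V3) + (Pi.single (-κ2) (conjV B2) : Md → V3)))
      + ((Pi.single k0 P0 : Md → V3) + (Pi.single (-k0) (conjV P0) : Md → V3)) = _
    rw [add_comm]
    rfl
  -- zero pairs
  have hzero : ∀ (l l' : Md) (γ γ' : ℝ) (p p' : V3), 0 < γ → 0 < γ' → dotk (l + l') p = 0 →
      Bil c σ hc hσ.le (Em σ l (exF γ p)) (Em σ l' (exF γ' p')) = 0 := by
    intro l l' γ γ' p p' hγ hγ' hd
    rw [Bil_Em, TF_ex_zero hγ hγ' hc p p' hd, Em_zero]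
  have hdB1 : ∀ k, dotk k B1 = ((n:ℂ) * a) * (idot k k0 : ℂ) := by
    intro k
    have : B1 = ((n : ℂ) * (a : ℂ)) • vv k0 := by
      rw [hB1]; unfold A1; funext i; simp [Complex.real_smul]
    rw [this, dotk_smul, dotk_vv]
  have hdB1c : ∀ k, dotk k (conjV B1) = ((n:ℂ) * a) * (idot k k0 : ℂ) := by
    intro k; rw [hB1, conjV_A1, ← hB1, hdB1]
  have hdB2 : ∀ k, dotk k B2 = z2 c a z k0 c0 n * (idot k c0 : ℂ) := by
    intro k; rw [hB2, A2, dotk_smul, dotk_vv]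
  have hdB2c : ∀ k, dotk k (conjV B2) = (starRingEnd ℂ) (z2 c a z k0 c0 n) * (idot k c0 : ℂ) := by
    intro k
    have : conjV B2 = (starRingEnd ℂ) (z2 c a z k0 c0 n) • vv c0 := by
      rw [hB2, A2]; funext i; simp [vv]
    rw [this, dotk_smul, dotk_vv]
  have i1 : idot κ1 k0 = 0 := by rw [idot_comm]; exact idot_k0_K1
  have i2 : idot κ1 c0 = 0 := by rw [idot_comm]; exact idot_c0_K1
  have i3 : idot κ2 c0 = 0 := by rw [idot_comm]; exact idot_c0_K2 h0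
  have i4 : idot κ2 k0 = idot k0 k0 := by rw [idot_comm]; exact idot_k0_K2
  have hz1 : ∀ i j : Fin 6, (i = 0 ∨ i = 1) → (j = 0 ∨ j = 1) →
      Bil c σ hc hσ.le (e i) (e j) = 0 := by
    intro i j hi hj
    refine hzero _ _ _ _ _ _ (hγR0 i) (hγR0 j) ?_
    rcases hi with rfl | rfl <;> rcases hj with rfl | rfl <;>
      simp [lR, pR, hdB1, hdB1c, idot_add_left, idot_neg_left, i1, dotk_zero, idot_zero_left]
  have hz2 : ∀ i j : Fin 6, (i = 2 ∨ i = 3) → (j = 0 ∨ j = 1 ∨ j = 2 ∨ j = 3) →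
      Bil c σ hc hσ.le (e i) (e j) = 0 := by
    intro i j hi hj
    refine hzero _ _ _ _ _ _ (hγR0 i) (hγR0 j) ?_
    rcases hi with rfl | rfl <;> rcases hj with rfl | rfl | rfl | rfl <;>
      simp [lR, pR, hdB2, hdB2c, idot_add_left, idot_neg_left, i2, i3, dotk_zero, idot_zero_left]
  -- main terms
  have hne : 0 < γ1 + γ2 - c * nsq k0 := by
    have : 2 * c * (n:ℝ) ^ 2 ≤ γ1 + γ2 - c * nsq k0 := g4
    have : 0 < 2 * c * (n:ℝ) ^ 2 := by positivity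
    linarith
  have hsqY : Real.sqrt (1 / (2 * (c * nsq k0))) ≤ Real.sqrt (1 / (2 * c)) := by
    exact num_sq1 hc hY1
  have hsqΓ : Real.sqrt (1 / (2 * (γ1 + γ2))) ≤ Real.sqrt (1 / (2 * c)) := num_sq2 hc hnr g1
  have hmainb : ∀ q : V3, ‖q‖ ≤ P → 3 * ((c * nsq k0) / (γ1 + γ2 - c * nsq k0) *
        (‖q‖ * Real.sqrt (1 / (2 * (c * nsq k0))) + ‖q‖ * Real.sqrt (1 / (2 * (γ1 + γ2))))) ≤
      q1 / n := by
    intro q hq
    have h1 : (c * nsq k0) / (γ1 + γ2 - c * nsq k0) ≤ Y / n := num_main hc hnr hY1 g4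
    have h2 : ‖q‖ * Real.sqrt (1 / (2 * (c * nsq k0))) + ‖q‖ * Real.sqrt (1 / (2 * (γ1 + γ2))) ≤
        2 * (P * Real.sqrt (1 / (2 * c))) := by
      have := mul_le_mul hq hsqY (Real.sqrt_nonneg _) hP0
      have := mul_le_mul hq hsqΓ (Real.sqrt_nonneg _) hP0
      linarith
    calc _ ≤ 3 * ((Y / n) * (2 * (P * Real.sqrt (1 / (2 * c))))) := by
          refine mul_le_mul_of_nonneg_left ?_ (by norm_num)
          exact mul_le_mul h1 h2 (by positivity) (by positivity)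
      _ = q1 / n := by rw [hq1]; ring
  have ek : -κ1 + κ2 = k0 := by rw [hκ1, hκ2, K2]; abel
  have ek' : κ1 + -κ2 = -k0 := by rw [hκ1, hκ2, K2]; abel
  have hsymb : symb k0 B1 B2 = (-(γ1 + γ2)) • P0 := symb_main hk0 h0 hn ha z
  have hm1 : ‖(D4 - e 4) + Bil c σ hc hσ.le (e 1) (e 2)‖ ≤ q1 / n := by
    have h1 := main_cancel (σ := σ) hc hk0 hγ10 hγ20 hne B1 B2 P0 hsymb
    have h2 : (D4 - e 4) + Bil c σ hc hσ.le (e 1) (e 2) =
        Em σ k0 (exF (c * nsq k0) P0 - exF (γ1 + γ2) P0) +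
          Em σ k0 (TF c k0 (exF γ1 B1) (exF γ2 B2)) := by
      have h3 : Bil c σ hc hσ.le (e 1) (e 2) = Em σ k0 (TF c k0 (exF γ1 B1) (exF γ2 B2)) := by
        show Bil c σ hc hσ.le (Em σ (-κ1) (exF γ1 (conjV B1))) (Em σ κ2 (exF γ2 B2)) = _
        rw [Bil_Em, ek, hB1, conjV_A1]
      rw [h3, Em_sub]; rfl
    rw [h2]
    refine h1.trans (le_trans ?_ (hmainb P0 hP0n))
    exact mul_le_mul_of_nonneg_right (hσn k0 (by linarith)) (by positivity)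
  have hm2 : ‖(D5 - e 5) + Bil c σ hc hσ.le (e 0) (e 3)‖ ≤ q1 / n := by
    have hk0' : -k0 ≠ 0 := neg_ne_zero.2 hk0
    have hsymb' : symb (-k0) B1 (conjV B2) = (-(γ1 + γ2)) • conjV P0 := by
      have := symb_conj k0 B1 B2
      rw [hsymb, map_smul] at this
      rw [this, hB1, conjV_A1]
    have hne' : 0 < γ1 + γ2 - c * nsq (-k0) := by rwa [nsq_neg]
    have h1 := main_cancel (σ := σ) hc hk0' hγ10 hγ20 hne' B1 (conjV B2) (conjV P0) hsymb'
    have h2 : (D5 - e 5) + Bil c σ hc hσ.le (e 0) (e 3) =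
        Em σ (-k0) (exF (c * nsq (-k0)) (conjV P0) - exF (γ1 + γ2) (conjV P0)) +
          Em σ (-k0) (TF c (-k0) (exF γ1 B1) (exF γ2 (conjV B2))) := by
      have h3 : Bil c σ hc hσ.le (e 0) (e 3) =
          Em σ (-k0) (TF c (-k0) (exF γ1 B1) (exF γ2 (conjV B2))) := by
        show Bil c σ hc hσ.le (Em σ κ1 (exF γ1 B1)) (Em σ (-κ2) (exF γ2 (conjV B2))) = _
        rw [Bil_Em, ek']
      rw [h3, Em_sub]; rfl
    rw [h2]
    refine h1.trans (le_trans ?_ (hmainb (conjV P0) (by rw [conjV_norm]; exact hP0n)))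
    rw [nsq_neg, n1_neg]
    exact mul_le_mul_of_nonneg_right (hσn k0 (by linarith)) (by positivity)
  -- cross terms
  have hcross : ∀ (k : Md) (p p' : V3), 1 * (n:ℝ) ^ 2 ≤ nsq k → n1 k ≤ n1 k0 + n1 κ1 + n1 κ2 →
      ‖dotk k p‖ ≤ n * a * Y → ‖p'‖ ≤ n * P →
      ‖Em σ k (TF c k (exF γ1 p) (exF γ2 p'))‖ ≤ q2 / n := by
    intro k p p' hk hkn hp hp'
    have hk0 : k ≠ 0 := by
      rintro rfl
      have : nsq 0 = 0 := by simp [nsq]
      rw [this] at hk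
      nlinarith
    rw [Em_norm]
    have h1 := TF_ex_norm hc hk0 hγ10 hγ20 p p'
    have h2 : ‖symb k p p'‖ ≤ 8 * Real.pi * (n * a * Y) * (n * P) := by
      unfold symb
      rw [norm_smul, norm_mul]
      have h3 : ‖-(2 * (Real.pi : ℂ) * Complex.I)‖ = 2 * Real.pi := by
        rw [norm_neg, norm_mul, norm_mul, Complex.norm_I, Complex.norm_real, Real.norm_eq_abs,
          abs_of_pos Real.pi_pos]; simp
      rw [h3]
      calc 2 * Real.pi * ‖dotk k p‖ * ‖proj k p'‖ ≤ 2 * Real.pi * (n * a * Y) * (4 * (n * P)) := by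
            gcongr
            exact (proj_norm k p').trans (by gcongr)
        _ = _ := by ring
    have h4 : Real.sqrt (1 / (2 * (c * nsq k))) ≤ Real.sqrt (1 / (2 * c)) / n := num_cross1 hc hnr hk
    have h5 : ‖symb k p p'‖ / (γ1 + γ2) ≤ 8 * Real.pi * a * Y * P / c :=
      num_cross2 hc hnr ha hY1 hP0 g1 h2
    calc Real.exp (σ * n1 k) * ‖TF c k (exF γ1 p) (exF γ2 p')‖
        ≤ 3 * ((Real.sqrt (1 / (2 * c)) / n) * (8 * Real.pi * a * Y * P / c)) := by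
          refine mul_le_mul (hσn k hkn) (h1.trans ?_) (norm_nonneg _) (by norm_num)
          exact mul_le_mul h4 h5 (by positivity) (by positivity)
      _ = q2 / n := by rw [hq2]; ring
  have hYi : ((idot k0 k0 : ℤ) : ℝ) = Y := by rw [hY, nsq_eq]
  have hdn : ∀ k p, dotk k p = ((n:ℂ) * a) * (idot k k0 : ℂ) → |(idot k k0 : ℝ)| = Y →
      ‖dotk k p‖ ≤ n * a * Y := by
    intro k p hkp hkY
    rw [hkp, norm_mul, norm_mul, Complex.norm_natCast, Complex.norm_real, Real.norm_eq_abs,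
      abs_of_pos ha, Complex.norm_intCast, hkY]
  have hnsq12 : 1 * (n:ℝ) ^ 2 ≤ nsq (κ1 + κ2) := by
    have h1 : nsq (κ1 + κ2) = nsq κ1 + nsq κ2 + 2 * (idot κ1 κ2 : ℝ) := by
      rw [nsq_eq, nsq_eq, nsq_eq, idot_add_left, idot_add_right, idot_add_right, idot_comm κ2 κ1]
      push_cast; ring
    have h2 : idot κ1 κ2 = idot κ1 κ1 := by
      rw [hκ2, K2, idot_add_right, ← hκ1, i1, add_zero]
    have h3 : ((idot κ1 κ1 : ℤ) : ℝ) = nsq κ1 := (nsq_eq _).symm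
    have h4 : c * (1 * (n:ℝ) ^ 2) ≤ c * nsq κ1 := by rw [one_mul]; exact g2
    have h5 := le_of_mul_le_mul_left h4 hc
    have h6 := nsq_nonneg κ2
    rw [h1, h2, h3]
    nlinarith
  have hx1 : ‖Bil c σ hc hσ.le (e 0) (e 2)‖ ≤ q2 / n := by
    show ‖Bil c σ hc hσ.le (Em σ κ1 (exF γ1 B1)) (Em σ κ2 (exF γ2 B2))‖ ≤ _
    rw [Bil_Em]
    refine hcross _ _ _ hnsq12 ((n1_add _ _).trans (by linarith)) (hdn _ _ (hdB1 _) ?_) hB2n
    rw [idot_add_left, i1, i4, zero_add, hYi, abs_of_nonneg (by linarith)]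
  have hx2 : ‖Bil c σ hc hσ.le (e 1) (e 3)‖ ≤ q2 / n := by
    show ‖Bil c σ hc hσ.le (Em σ (-κ1) (exF γ1 (conjV B1))) (Em σ (-κ2) (exF γ2 (conjV B2)))‖ ≤ _
    rw [Bil_Em, ← neg_add]
    refine hcross _ _ _ (by rwa [nsq_neg]) (by rw [n1_neg]; exact (n1_add _ _).trans (by linarith))
      (hdn _ _ (hdB1c _) ?_) (by rw [conjV_norm]; exact hB2n)
    rw [idot_neg_left, idot_add_left, i1, i4, zero_add]
    push_cast
    rw [abs_neg, hYi, abs_of_nonneg (by linarith)]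
  -- V terms
  have hP4 : ∀ i : Fin 6, (i = 4 ∨ i = 5) → ‖pR i‖ ≤ P := by
    rintro i (rfl | rfl)
    · exact hP0n
    · show ‖conjV P0‖ ≤ P
      rw [conjV_norm]; exact hP0n
  have hv : ∀ i j : Fin 6, (i = 4 ∨ i = 5) → ‖Bil c σ hc hσ.le (e i) (e j)‖ ≤ q3 / n ∧
      ‖Bil c σ hc hσ.le (e j) (e i)‖ ≤ q3 / n := by
    intro i j hi
    have hb : P * (n * P) / (c * (n:ℝ) ^ 2) = (P * P / c) / n := by field_simp
    have hgen : ∀ (s t : Fin 6), ‖pR s‖ * ‖pR t‖ ≤ P * (n * P) →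
        ‖Bil c σ hc hσ.le (e s) (e t)‖ ≤ q3 / n := by
      intro s t hst
      refine (Bil_pair hc hσ.le (hγR0 s) (hγR0 t) (lR s) (lR t) (pR s) (pR t)).trans ?_
      calc _ ≤ 3 * 3 * (Cc c * (P * (n * P) / (c * (n:ℝ) ^ 2))) := by
            refine mul_le_mul (mul_le_mul (hlR s) (hlR t) (Real.exp_pos _).le (by norm_num)) ?_
              (by have := (hγR0 s).le; have := (hγR0 t).le; positivity) (by norm_num)
            refine mul_le_mul_of_nonneg_left ?_ hCc.le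
            refine div_le_div₀ (by positivity) hst hcn ?_
            have := hγR s; have := (hγR0 t).le; linarith
        _ = q3 / n := by rw [hb, hq3]; ring
    constructor
    · exact hgen i j (mul_le_mul (hP4 i hi) (hpR j) (norm_nonneg _) hP0)
    · exact hgen j i (by rw [mul_comm]; exact mul_le_mul (hP4 i hi) (hpR j) (norm_nonneg _) hP0)
  -- background
  set t4 : ℝ := 3 * (Cc c * (P * Real.sqrt (1 / c))) * η1 with ht4
  have hbg : ∀ i, ‖Bil c σ hc hσ.le (wg σ u husum) (e i)‖ ≤ t4 ∧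
      ‖Bil c σ hc hσ.le (e i) (wg σ u husum)‖ ≤ t4 := by
    intro i
    obtain ⟨hs, hs'⟩ := hG (γR i) (hγR0 i).le (hGn.trans (hγR i)) σ hσσ
    have h1 := Bil_bg hc hσ.le husum (hγR0 i) hs (lR i) (pR i)
    have h2 : ‖pR i‖ * Real.sqrt (1 / γR i) ≤ P * Real.sqrt (1 / c) :=
      num_bg hc hnr hP0 (hpR i) (hγR i)
    have h3 : Real.exp (σ * n1 (lR i)) * (Cc c * (‖pR i‖ * Real.sqrt (1 / γR i))) *
        ∑' j, Real.exp (σ * n1 j) * ‖Mg (γR i) (hγR0 i).le (u j)‖ ≤ t4 := by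
      rw [ht4]
      refine mul_le_mul ?_ hs' (tsum_nonneg fun _ => by positivity) (by positivity)
      refine mul_le_mul (hlR i) ?_ (by positivity) (by norm_num)
      exact mul_le_mul_of_nonneg_left h2 hCc.le
    exact ⟨h1.1.trans h3, h1.2.trans h3⟩
  have hres := resid_norm hc hσ.le e D4 D5 (wg σ u husum) hm1 hm2 hx1 hx2 hv hbg
  rw [← resid_expand hc hσ.le e D4 D5 (wg σ u husum) R D rfl hDexp hz1 hz2] at hres
  have hfinal : 2 * (q1 / n) + 2 * (q2 / n) + 20 * (q3 / n) + 12 * t4 ≤ η := by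
    exact num_final hη hn0 hQ hn1 (by positivity) hη1
  have hM : ∀ i, Real.exp (σ * n1 (lR i)) * (‖pR i‖ * Real.sqrt (1 / (2 * γR i))) ≤
      3 * (P * Real.sqrt (1 / (2 * c))) := by
    intro i
    refine mul_le_mul (hlR i) ?_ (by positivity) (by norm_num)
    exact num_bg (c := 2 * c) (by positivity) hnr hP0 (hpR i) (by have := hγR i; linarith)
  have hDe : ∀ k, D k = Real.exp (σ * n1 k) • exF (c * nsq k) ((modd z k0 c0 + wav c a z k0 c0 n) k) := by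
    intro k
    rw [← hd]
    exact D_eval lR pR k
  have hfin0 := hres.trans hfinal
  obtain ⟨u', w, hsol', hu'eq, hwn⟩ := hstep σ hσ hσσ husum lR γR pR D R
    (modd z k0 c0 + wav c a z k0 c0 n) rfl hγR0 hM hRS hDS hDe (hfin0.trans (min_le_left _ _))
  refine ⟨u', hsol', TN_step hσ.le t1 u lR (fun i => exF (γR i) (pR i)) w hκ hu'eq (fun i => ?_) ?_⟩
  · have hn3 : 24 * (P * Real.sqrt (1 / c)) / (c * t1 * κ) ≤ n :=
      hN3.trans (by exact_mod_cast (by omega : N3 ≤ n))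
    refine (chi_exF (hγR0 i) (pR i) t1).trans ?_
    have h2 : ‖pR i‖ * Real.sqrt (1 / γR i) ≤ P * Real.sqrt (1 / c) :=
      num_bg hc hnr hP0 (hpR i) (hγR i)
    exact num_tail hc ht1 hκ hnr (by positivity) (hγR i) h2 (by positivity) hn3
  · refine hwn.trans ?_
    calc Λ * _ ≤ Λ * (κ / (2 * Λ)) :=
          mul_le_mul_of_nonneg_left (hfin0.trans (min_le_right _ _)) hΛ.le
      _ = κ / 2 := by field_simp

end H754R3.NSD
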