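import Mathlib
import Pool.Agent.H754R3.NSD.Step2

/-! Assembly, part 1: iterating the step with lacunary frequencies. -/

open Set Filter Topology MeasureTheory
open scoped ENNReal

namespace H754R3.NSD

set_option linter.unusedSectionVars false

/-- weighted coefficient sum -/
noncomputable def HHe (W : Md → V3) (t : ℝ) : ℝ≥0∞ :=
  ∑' k, ENNReal.ofReal (Real.sqrt t * Real.exp (-(4 * Real.pi ^ 2 * nsq k * t))) * ‖W k‖ₑ

lemma HHe_zero (t : ℝ) : HHe 0 t = 0 := by simp [HHe]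

lemma HHe_add_le (W W' : Md → V3) (t : ℝ) : HHe (W + W') t ≤ HHe W t + HHe W' t := by
  unfold HHe
  rw [← ENNReal.tsum_add]
  refine ENNReal.tsum_le_tsum fun k => ?_
  rw [← mul_add]
  gcongr
  exact enorm_add_le _ _

lemma HHe_single (κ : Md) (p : V3) (t : ℝ) : HHe (Pi.single κ p) t =
    ENNReal.ofReal (Real.sqrt t * Real.exp (-(4 * Real.pi ^ 2 * nsq κ * t))) * ‖p‖ₑ := by
  unfold HHe
  rw [tsum_eq_single κ (fun k hk => by rw [Pi.single_eq_of_ne hk]; simp), Pi.single_eq_same]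

/-- bound for one wave -/
noncomputable def G0 (P : ℝ) (n : ℕ) (t : ℝ) : ℝ :=
  Real.sqrt t * Real.exp (-(4 * Real.pi ^ 2 * (n:ℝ) ^ 2 * t)) * (n * P)

lemma HHe_single_le {κ : Md} {p : V3} {n : ℕ} {P t : ℝ} (hκ : (n:ℝ) ^ 2 ≤ nsq κ)
    (hp : ‖p‖ ≤ n * P) (ht : 0 ≤ t) : HHe (Pi.single κ p) t ≤ ENNReal.ofReal (G0 P n t) := by
  rw [HHe_single, ← ofReal_norm, ← ENNReal.ofReal_mul (by positivity)]
  refine ENNReal.ofReal_le_ofReal ?_
  unfold G0
  gcongr

lemma G0_nonneg {P : ℝ} (hP : 0 ≤ P) (n : ℕ) (t : ℝ) : 0 ≤ G0 P n t := by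
  unfold G0; positivity

lemma HHe_wav {c a : ℝ} (hc : 0 < c) (ha : 0 < a) (z : ℂ) {k0 c0 : Md} (hk0 : k0 ≠ 0)
    (hc0 : c0 ≠ 0) (h0 : idot k0 c0 = 0) {n : ℕ} (hn : 1 ≤ n) {P : ℝ} (hP : PP c a z k0 c0 ≤ P)
    {t : ℝ} (ht : 0 ≤ t) : HHe (wav c a z k0 c0 n) t ≤ ENNReal.ofReal (4 * G0 P n t) := by
  have hP0 : 0 ≤ P := (PP_nonneg hc ha z k0 c0).trans hP
  obtain ⟨-, g2, g3, -, -⟩ := Gm_bounds hk0 hc0 h0 hn hc
  have k1 : (n:ℝ) ^ 2 ≤ nsq (K1 k0 c0 n) := le_of_mul_le_mul_left g2 hc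
  have k2 : (n:ℝ) ^ 2 ≤ nsq (K2 k0 c0 n) := le_of_mul_le_mul_left g3 hc
  have a1 : ‖A1 a k0 n‖ ≤ n * P := (A1_norm hc ha z k0 c0 n).trans (by gcongr)
  have a2 : ‖A2 c a z k0 c0 n‖ ≤ n * P := (A2_norm hc ha z hk0 hc0 h0 hn).trans (by gcongr)
  have b1 := HHe_single_le k1 a1 ht
  have b2 : HHe (Pi.single (-K1 k0 c0 n) (conjV (A1 a k0 n))) t ≤ _ :=
    HHe_single_le (n := n) (P := P) (by rw [nsq_neg]; exact k1) (by rw [conjV_norm]; exact a1) ht
  have b3 := HHe_single_le k2 a2 ht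
  have b4 : HHe (Pi.single (-K2 k0 c0 n) (conjV (A2 c a z k0 c0 n))) t ≤ _ :=
    HHe_single_le (n := n) (P := P) (by rw [nsq_neg]; exact k2) (by rw [conjV_norm]; exact a2) ht
  have hg := G0_nonneg hP0 n t
  unfold wav
  calc _ ≤ _ := HHe_add_le _ _ _
    _ ≤ _ := add_le_add (HHe_add_le _ _ _) (HHe_add_le _ _ _)
    _ ≤ (ENNReal.ofReal (G0 P n t) + ENNReal.ofReal (G0 P n t)) +
        (ENNReal.ofReal (G0 P n t) + ENNReal.ofReal (G0 P n t)) :=
        add_le_add (add_le_add b1 b2) (add_le_add b3 b4)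
    _ = _ := by
        rw [← ENNReal.ofReal_add hg hg, ← ENNReal.ofReal_add (by linarith) (by linarith)]
        congr 1; ring

lemma tele {P : ℝ} (hP : 0 ≤ P) (n : ℕ) (t : ℝ) (ht : 0 ≤ t) :
    4 * G0 P n t ≤ 16 * P * (1 / (1 + n * Real.sqrt t) - 1 / (1 + 2 * n * Real.sqrt t)) := by
  set y : ℝ := n * Real.sqrt t with hy
  have hy0 : 0 ≤ y := by positivity
  have hyt : y ^ 2 = (n:ℝ) ^ 2 * t := by rw [hy, mul_pow, Real.sq_sqrt ht]
  have h1 : Real.exp (-(4 * Real.pi ^ 2 * (n:ℝ) ^ 2 * t)) ≤ 1 / (1 + y ^ 2) := by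
    rw [Real.exp_neg, ← one_div]
    refine one_div_le_one_div_of_le (by positivity) ?_
    have h2 := Real.add_one_le_exp (4 * Real.pi ^ 2 * (n:ℝ) ^ 2 * t)
    have h3 : y ^ 2 ≤ 4 * Real.pi ^ 2 * (n:ℝ) ^ 2 * t := by
      have hpi := Real.pi_gt_three
      have : (1:ℝ) ≤ 4 * Real.pi ^ 2 := by nlinarith
      calc y ^ 2 = 1 * y ^ 2 := (one_mul _).symm
        _ ≤ (4 * Real.pi ^ 2) * y ^ 2 := by gcongr
        _ = _ := by rw [hyt]; ring
    linarith
  have h4 : 1 / (1 + y) - 1 / (1 + 2 * y) = y / ((1 + y) * (1 + 2 * y)) := by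
    field_simp; ring
  have h5 : y * (1 / (1 + y ^ 2)) ≤ 4 * (y / ((1 + y) * (1 + 2 * y))) := by
    rw [mul_one_div, ← mul_div_assoc, div_le_div_iff₀ (by positivity) (by positivity)]
    have h6 : (1 + y) * (1 + 2 * y) ≤ 4 * (1 + y ^ 2) := by nlinarith [sq_nonneg (y - 1)]
    calc y * ((1 + y) * (1 + 2 * y)) ≤ y * (4 * (1 + y ^ 2)) := by gcongr
      _ = _ := by ring
  have e1 : 1 + 2 * (n:ℝ) * Real.sqrt t = 1 + 2 * y := by rw [hy]; ring
  rw [e1, h4]
  calc 4 * G0 P n t = 4 * P * (y * Real.exp (-(4 * Real.pi ^ 2 * (n:ℝ) ^ 2 * t))) := by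
        unfold G0; rw [hy]; ring
    _ ≤ 4 * P * (y * (1 / (1 + y ^ 2))) := by gcongr
    _ ≤ 4 * P * (4 * (y / ((1 + y) * (1 + 2 * y)))) := by gcongr
    _ = _ := by ring

lemma exp_int {b : ℝ} (hb : 0 < b) :
    ∫⁻ t in Ioi (0:ℝ), ENNReal.ofReal (Real.sqrt t * Real.exp (-(b * t))) * ENNReal.ofReal (1 / t) =
      ENNReal.ofReal (Real.sqrt (Real.pi / b)) := by
  have h1 := Real.integral_rpow_mul_exp_neg_mul_Ioi (a := 1 / 2) (r := b) (by norm_num) hb
  have h2 : IntegrableOn (fun t : ℝ => t ^ ((1:ℝ) / 2 - 1) * Real.exp (-(b * t))) (Ioi 0) := by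
    have := integrableOn_rpow_mul_exp_neg_mul_rpow (p := 1) (s := (1:ℝ) / 2 - 1) (b := b)
      (by norm_num) one_pos hb
    refine this.congr_fun (fun x hx => ?_) measurableSet_Ioi
    simp
  have h3 : ∫⁻ t in Ioi (0:ℝ), ENNReal.ofReal (Real.sqrt t * Real.exp (-(b * t))) *
      ENNReal.ofReal (1 / t) =
      ∫⁻ t in Ioi (0:ℝ), ENNReal.ofReal (t ^ ((1:ℝ) / 2 - 1) * Real.exp (-(b * t))) := by
    refine setLIntegral_congr_fun measurableSet_Ioi fun t ht => ?_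
    have ht0 : (0:ℝ) < t := ht
    rw [← ENNReal.ofReal_mul (by positivity)]
    congr 1
    have : t ^ ((1:ℝ) / 2 - 1) = Real.sqrt t * (1 / t) := by
      rw [Real.rpow_sub ht0, Real.rpow_one, Real.sqrt_eq_rpow]; ring
    rw [this]; ring
  rw [h3, ← ofReal_integral_eq_lintegral_ofReal h2 ?_, h1, Real.Gamma_one_half_eq]
  · congr 1
    rw [Real.sqrt_eq_rpow Real.pi, ← Real.mul_rpow (by positivity) Real.pi_pos.le,
      ← Real.sqrt_eq_rpow]
    congr 1; ring
  · rw [EventuallyLE, ae_restrict_iff' measurableSet_Ioi]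
    refine Eventually.of_forall fun t ht => ?_
    have ht0 : (0:ℝ) < t := ht
    simp only [Pi.zero_apply]
    positivity

lemma G0_int {P : ℝ} (hP : 0 ≤ P) {n : ℕ} (hn : 1 ≤ n) :
    ∫⁻ t in Ioi (0:ℝ), ENNReal.ofReal (4 * G0 P n t) * ENNReal.ofReal (1 / t) ≤
      ENNReal.ofReal (4 * P) := by
  have hn0 : (0:ℝ) < n := by exact_mod_cast hn
  have hpi := Real.pi_gt_three
  have h1 : ∀ t : ℝ, ENNReal.ofReal (4 * G0 P n t) * ENNReal.ofReal (1 / t) =
      ENNReal.ofReal (4 * (n * P)) * (ENNReal.ofReal (Real.sqrt t *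
        Real.exp (-((4 * Real.pi ^ 2 * (n:ℝ) ^ 2) * t))) * ENNReal.ofReal (1 / t)) := by
    intro t
    have hnP : 0 ≤ 4 * ((n:ℝ) * P) := by positivity
    rw [← mul_assoc, ← ENNReal.ofReal_mul hnP]
    congr 2
    unfold G0; ring
  simp_rw [h1]
  rw [lintegral_const_mul' _ _ ENNReal.ofReal_ne_top, exp_int (by positivity),
    ← ENNReal.ofReal_mul (by positivity)]
  refine ENNReal.ofReal_le_ofReal ?_
  have h2 : Real.sqrt (Real.pi / (4 * Real.pi ^ 2 * (n:ℝ) ^ 2)) ≤ 1 / n := by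
    rw [Real.sqrt_le_left (by positivity)]
    rw [div_pow, one_pow, div_le_div_iff₀ (by positivity) (by positivity)]
    have : Real.pi ≤ 4 * Real.pi ^ 2 := by nlinarith
    nlinarith [mul_le_mul_of_nonneg_right this (sq_nonneg (n:ℝ))]
  calc 4 * (n * P) * Real.sqrt (Real.pi / (4 * Real.pi ^ 2 * (n:ℝ) ^ 2))
      ≤ 4 * (n * P) * (1 / n) := by gcongr
    _ = 4 * P := by field_simp

lemma single_pair_sym (κ : Md) (p : V3) (k : Md) :
    (Pi.single κ p + Pi.single (-κ) (conjV p) : Md → V3) (-k) =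
      conjV ((Pi.single κ p + Pi.single (-κ) (conjV p) : Md → V3) k) := by
  simp only [Pi.add_apply, Pi.single_apply, map_add, neg_inj, apply_ite conjV, map_zero,
    conjV_conjV]
  have e : (-k = κ) ↔ (k = -κ) := by constructor <;> (rintro rfl; simp)
  rw [if_congr e rfl rfl, add_comm]

lemma single_pair_div {κ : Md} {p : V3} (hp : dotk κ p = 0) (k : Md) :
    dotk k ((Pi.single κ p + Pi.single (-κ) (conjV p) : Md → V3) k) = 0 := by
  rw [Pi.add_apply, dotk_add]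
  have h1 : dotk k ((Pi.single κ p : Md → V3) k) = 0 := by
    by_cases h : k = κ
    · subst h; rw [Pi.single_eq_same, hp]
    · rw [Pi.single_eq_of_ne h]; simp [dotk]
  have h2 : dotk k ((Pi.single (-κ) (conjV p) : Md → V3) k) = 0 := by
    by_cases h : k = -κ
    · subst h; rw [Pi.single_eq_same, dotk_neg_conj, hp]; simp
    · rw [Pi.single_eq_of_ne h]; simp [dotk]
  rw [h1, h2, add_zero]

lemma single_supp (κ : Md) (p : V3) : (Function.support (Pi.single κ p : Md → V3)).Finite :=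
  (finite_singleton κ).subset Pi.support_single_subset

lemma supp_add {W W' : Md → V3} (h : (Function.support W).Finite)
    (h' : (Function.support W').Finite) : (Function.support (W + W')).Finite :=
  (h.union h').subset (Function.support_add _ _)

lemma wav_supp (c a : ℝ) (z : ℂ) (k0 c0 : Md) (n : ℕ) :
    (Function.support (wav c a z k0 c0 n)).Finite :=
  supp_add (supp_add (single_supp _ _) (single_supp _ _)) (supp_add (single_supp _ _) (single_supp _ _))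

lemma wav_sym (c a : ℝ) (z : ℂ) (k0 c0 : Md) (n : ℕ) (k : Md) :
    wav c a z k0 c0 n (-k) = conjV (wav c a z k0 c0 n k) := by
  unfold wav
  have e1 := single_pair_sym (K1 k0 c0 n) (A1 a k0 n) k
  have e2 := single_pair_sym (K2 k0 c0 n) (A2 c a z k0 c0 n) k
  generalize (Pi.single (K1 k0 c0 n) (A1 a k0 n) +
    Pi.single (-K1 k0 c0 n) (conjV (A1 a k0 n)) : Md → V3) = f1 at *
  generalize (Pi.single (K2 k0 c0 n) (A2 c a z k0 c0 n) +
    Pi.single (-K2 k0 c0 n) (conjV (A2 c a z k0 c0 n)) : Md → V3) = f2 at *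
  rw [Pi.add_apply, Pi.add_apply, e1, e2, map_add]

lemma wav_div (c a : ℝ) (z : ℂ) {k0 c0 : Md} (h0 : idot k0 c0 = 0) (n : ℕ) (k : Md) :
    dotk k (wav c a z k0 c0 n k) = 0 := by
  unfold wav
  rw [Pi.add_apply, dotk_add, single_pair_div, single_pair_div, add_zero]
  · rw [A2, dotk_smul, dotk_vv, idot_comm, idot_c0_K2 h0]; simp
  · have : A1 a k0 n = ((n : ℂ) * (a : ℂ)) • vv k0 := by
      unfold A1; funext i; simp [Complex.real_smul]
    rw [this, dotk_smul, dotk_vv, idot_comm, idot_k0_K1]; simp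

/-- size of the low frequency box -/
lemma exists_coord {k : Md} (hk : k ≠ 0) : ∃ j, 1 ≤ |k j| := by
  obtain ⟨j, hj⟩ : ∃ j, k j ≠ 0 := by
    by_contra h; push Not at h; exact hk (funext h)
  exact ⟨j, Int.one_le_abs hj⟩

lemma wav_low (c a : ℝ) (z : ℂ) {k0 c0 : Md} (hk0 : k0 ≠ 0) (hc0 : c0 ≠ 0) (h0 : idot k0 c0 = 0)
    {n N : ℕ} (hn : (N:ℤ) + ∑ j, |k0 j| < n) (k : Md) (hk : ∀ j, |k j| ≤ N) :
    wav c a z k0 c0 n k = 0 := by
  obtain ⟨j, hj⟩ := exists_coord (crz_ne hk0 hc0 h0)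
  have hs : |k0 j| ≤ ∑ j, |k0 j| :=
    Finset.single_le_sum (f := fun j => |k0 j|) (fun i _ => abs_nonneg _) (Finset.mem_univ j)
  have h1 : (n:ℤ) ≤ |K1 k0 c0 n j| := by
    have e : K1 k0 c0 n j = (n:ℤ) * crz k0 c0 j := rfl
    rw [e, abs_mul, abs_of_nonneg (by positivity : (0:ℤ) ≤ n)]
    nlinarith
  have h2 : (N:ℤ) < |K1 k0 c0 n j| := by linarith [abs_nonneg (k0 j)]
  have h3 : (N:ℤ) < |K2 k0 c0 n j| := by
    have e : K2 k0 c0 n j = K1 k0 c0 n j + k0 j := rfl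
    have := abs_sub_abs_le_abs_sub (K1 k0 c0 n j) (-k0 j)
    rw [sub_neg_eq_add, abs_neg] at this
    rw [e]; linarith
  have hne : ∀ κ : Md, (N:ℤ) < |κ j| → k ≠ κ := by
    rintro κ hκ rfl; exact absurd (hk j) (not_le.2 hκ)
  have n1 := hne _ h2
  have n2 := hne (-K1 k0 c0 n) (by simpa using h2)
  have n3 := hne _ h3
  have n4 := hne (-K2 k0 c0 n) (by simpa using h3)
  unfold wav
  simp only [Pi.add_apply]
  rw [Pi.single_eq_of_ne n1, Pi.single_eq_of_ne n2, Pi.single_eq_of_ne n3, Pi.single_eq_of_ne n4]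
  simp

lemma isSol_zero (c : ℝ) : IsSol c 0 0 where
  dec := ⟨1, one_pos, by simp⟩
  eq := fun k => by
    simp [exF_zero]
  sym := fun k => by simp

/-- data attached to a list of atoms -/
noncomputable def VL (l : List (Md × Md × ℂ)) : Md → V3 :=
  (l.map fun A => modd A.2.2 A.1 A.2.1).sum

lemma HHe_measurable (W : Md → V3) : Measurable (HHe W) := by
  unfold HHe
  refine Measurable.ennreal_tsum fun k => ?_
  refine Measurable.mul_const ?_ _
  exact (by fun_prop : Measurable fun t : ℝ =>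
    Real.sqrt t * Real.exp (-(4 * Real.pi ^ 2 * nsq k * t))).ennreal_ofReal

theorem build {c : ℝ} (hc : 0 < c) {a : ℝ} (ha : 0 < a) {P : ℝ} (hP : 0 ≤ P) (N : ℕ)
    {κ : ℝ} (hκ : 0 < κ) {t1 : ℝ} (ht1 : 0 < t1) :
    ∀ l : List (Md × Md × ℂ), (∀ A ∈ l, A.1 ≠ 0 ∧ A.2.1 ≠ 0 ∧ idot A.1 A.2.1 = 0 ∧
      PP c a A.2.2 A.1 A.2.1 ≤ P) →
    ∃ (W : Md → V3) (M : ℕ), (∃ u, IsSol c (VL l + W) u ∧
        TN t1 u ≤ l.length * ENNReal.ofReal κ) ∧
      (Function.support W).Finite ∧ (∀ k, W (-k) = conjV (W k)) ∧ (∀ k, dotk k (W k) = 0) ∧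
      (∀ k : Md, (∀ j, |k j| ≤ N) → W k = 0) ∧
      (∀ t, 0 ≤ t → HHe W t ≤ ENNReal.ofReal (16 * P * (1 - 1 / (1 + 2 * M * Real.sqrt t)))) ∧
      (∫⁻ t in Ioi (0:ℝ), HHe W t * ENNReal.ofReal (1 / t) ≤
        l.length * ENNReal.ofReal (4 * P)) := by
  intro l
  induction l with
  | nil =>
      intro _
      refine ⟨0, 0, ⟨0, by simpa [VL] using isSol_zero c, by simp [TN_zero]⟩, by simp, fun k => by simp,
        fun k => by simp [dotk], fun k _ => rfl, fun t _ => by rw [HHe_zero]; exact bot_le, ?_⟩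
      simp [HHe_zero]
  | cons A l ih =>
      intro hl
      obtain ⟨W, M, ⟨u, hsol, hTN⟩, hfin, hsym, hdiv, hlow, hsup, hint⟩ :=
        ih fun B hB => hl B (List.mem_cons_of_mem _ hB)
      obtain ⟨hA1, hA2, hA3, hA4⟩ := hl A List.mem_cons_self
      obtain ⟨N0, hN0⟩ := step hc hsol hA1 hA2 hA3 A.2.2 ha hκ ht1
      set s : ℕ := (∑ j, |A.1 j|).toNat with hs
      have hsum : (∑ j, |A.1 j|) = (s:ℤ) := by
        rw [hs, Int.toNat_of_nonneg (Finset.sum_nonneg fun j _ => abs_nonneg _)]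
      set n : ℕ := N0 + 2 * M + N + s + 1 with hn
      have hn1 : 1 ≤ n := by omega
      obtain ⟨u', hu', hTN'⟩ := hN0 n (by omega)
      refine ⟨W + wav c a A.2.2 A.1 A.2.1 n, n, ⟨u', ?_, ?_⟩, supp_add hfin (wav_supp _ _ _ _ _ _),
        fun k => ?_, fun k => ?_, fun k hk => ?_, fun t ht => ?_, ?_⟩
      · have : VL (A :: l) + (W + wav c a A.2.2 A.1 A.2.1 n) =
            VL l + W + (modd A.2.2 A.1 A.2.1 + wav c a A.2.2 A.1 A.2.1 n) := by
          simp only [VL, List.map_cons, List.sum_cons]; abel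
        rw [this]; exact hu'
      · refine hTN'.trans ((add_le_add hTN le_rfl).trans (le_of_eq ?_))
        rw [List.length_cons]; push_cast; ring
      · rw [Pi.add_apply, hsym, wav_sym, Pi.add_apply, map_add]
      · rw [Pi.add_apply, dotk_add, hdiv, wav_div c a A.2.2 hA3, add_zero]
      · rw [Pi.add_apply, hlow k hk, wav_low c a A.2.2 hA1 hA2 hA3 (N := N) ?_ k hk, add_zero]
        rw [hsum, hn]; push_cast; omega
      · refine (HHe_add_le _ _ _).trans ((add_le_add (hsup t ht)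
          (HHe_wav hc ha A.2.2 hA1 hA2 hA3 hn1 hA4 ht)).trans ?_)
        have h1 : 1 / (1 + 2 * (M:ℝ) * Real.sqrt t) ≤ 1 := by
          rw [div_le_one (by positivity)]
          have : 0 ≤ 2 * (M:ℝ) * Real.sqrt t := by positivity
          linarith
        rw [← ENNReal.ofReal_add (mul_nonneg (by positivity) (by linarith))
          (mul_nonneg (by norm_num) (G0_nonneg hP n t))]
        refine ENNReal.ofReal_le_ofReal ?_
        have h2 := tele hP n t ht
        have h3 : 1 / (1 + (n:ℝ) * Real.sqrt t) ≤ 1 / (1 + 2 * (M:ℝ) * Real.sqrt t) := by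
          refine one_div_le_one_div_of_le (by positivity) ?_
          have : (2 * M : ℝ) ≤ n := by exact_mod_cast (by omega : 2 * M ≤ n)
          gcongr
        have h4 : 16 * P * (1 / (1 + (n:ℝ) * Real.sqrt t)) ≤
            16 * P * (1 / (1 + 2 * (M:ℝ) * Real.sqrt t)) := by gcongr
        linarith
      · calc ∫⁻ t in Ioi (0:ℝ), HHe (W + wav c a A.2.2 A.1 A.2.1 n) t * ENNReal.ofReal (1 / t)
            ≤ ∫⁻ t in Ioi (0:ℝ), (HHe W t * ENNReal.ofReal (1 / t) +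
                ENNReal.ofReal (4 * G0 P n t) * ENNReal.ofReal (1 / t)) := by
              refine setLIntegral_mono' measurableSet_Ioi fun t ht => ?_
              rw [← add_mul]
              gcongr
              exact (HHe_add_le _ _ _).trans (add_le_add le_rfl
                (HHe_wav hc ha A.2.2 hA1 hA2 hA3 hn1 hA4 (le_of_lt ht)))
          _ = _ := lintegral_add_left ((HHe_measurable W).mul (by fun_prop)) _
          _ ≤ l.length * ENNReal.ofReal (4 * P) + ENNReal.ofReal (4 * P) :=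
              add_le_add hint (G0_int hP hn1)
          _ = _ := by
              rw [List.length_cons]; push_cast; ring

end H754R3.NSD
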