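import Mathlib
import Pool.Agent.H754R3.NSD.Asm1

/-! Assembly, part 2: trigonometric polynomials as sums of modes, and the choice of parameters. -/

open Set Filter Topology MeasureTheory
open scoped ENNReal

namespace H754R3.NSD

set_option linter.unusedSectionVars false

lemma decomp2 {k : Md} (hk : k ≠ 0) {x : V3} (hx : dotk k x = 0) :
    ∃ (c1 c2 : Md) (z1 z2 : ℂ), c1 ≠ 0 ∧ c2 ≠ 0 ∧ idot k c1 = 0 ∧ idot k c2 = 0 ∧
      x = z1 • vv c1 + z2 • vv c2 := by
  simp only [dotk, Fin.sum_univ_three] at hx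
  have hne : k 0 ≠ 0 ∨ k 1 ≠ 0 ∨ k 2 ≠ 0 := by
    by_contra h
    push Not at h
    apply hk
    funext i
    fin_cases i
    · exact h.1
    · exact h.2.1
    · exact h.2.2
  rcases hne with h | h | h
  · have hc : (k 0 : ℂ) ≠ 0 := by exact_mod_cast h
    refine ⟨![-k 1, k 0, 0], ![-k 2, 0, k 0], x 1 / k 0, x 2 / k 0, ?_, ?_, ?_, ?_, ?_⟩
    · intro e; exact h (by simpa using congrFun e 1)
    · intro e; exact h (by simpa using congrFun e 2)
    · simp [idot, Fin.sum_univ_three]; ring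
    · simp [idot, Fin.sum_univ_three]; ring
    · funext i
      fin_cases i
      · simp [vv]; field_simp; linear_combination hx
      · simp [vv]; field_simp
      · simp [vv]; field_simp
  · have hc : (k 1 : ℂ) ≠ 0 := by exact_mod_cast h
    refine ⟨![k 1, -k 0, 0], ![0, -k 2, k 1], x 0 / k 1, x 2 / k 1, ?_, ?_, ?_, ?_, ?_⟩
    · intro e; exact h (by simpa using congrFun e 0)
    · intro e; exact h (by simpa using congrFun e 2)
    · simp [idot, Fin.sum_univ_three]; ring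
    · simp [idot, Fin.sum_univ_three]; ring
    · funext i
      fin_cases i
      · simp [vv]; field_simp
      · simp [vv]; field_simp; linear_combination hx
      · simp [vv]; field_simp
  · have hc : (k 2 : ℂ) ≠ 0 := by exact_mod_cast h
    refine ⟨![k 2, 0, -k 0], ![0, k 2, -k 1], x 0 / k 2, x 1 / k 2, ?_, ?_, ?_, ?_, ?_⟩
    · intro e; exact h (by simpa using congrFun e 0)
    · intro e; exact h (by simpa using congrFun e 1)
    · simp [idot, Fin.sum_univ_three]; ring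
    · simp [idot, Fin.sum_univ_three]; ring
    · funext i
      fin_cases i
      · simp [vv]; field_simp
      · simp [vv]; field_simp
      · simp [vv]; field_simp; linear_combination hx

lemma conjV_smul (z : ℂ) (x : V3) : conjV (z • x) = (starRingEnd ℂ) z • conjV x := by
  funext i; simp

lemma modd_add (z z' : ℂ) (k c c' : Md) :
    modd z k c + modd z' k c' = Pi.single k (z • vv c + z' • vv c') +
      Pi.single (-k) (conjV (z • vv c + z' • vv c')) := by
  unfold modd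
  rw [Pi.single_add, map_add, Pi.single_add]
  abel

lemma atoms_sum {V : Md → V3} (hdiv : ∀ k, dotk k (V k) = 0) (F : Finset Md) (hF : 0 ∉ F) :
    ∃ l : List (Md × Md × ℂ), (∀ A ∈ l, A.1 ≠ 0 ∧ A.2.1 ≠ 0 ∧ idot A.1 A.2.1 = 0) ∧
      VL l = ∑ k ∈ F, ((Pi.single k ((1/2 : ℂ) • V k) : Md → V3) +
        Pi.single (-k) (conjV ((1/2 : ℂ) • V k))) := by
  classical
  induction F using Finset.induction_on with
  | empty => exact ⟨[], by simp, by simp [VL]⟩
  | insert k F hkF ih =>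
      have hk : k ≠ 0 := fun h => hF (h ▸ Finset.mem_insert_self _ _)
      obtain ⟨l, hl, hVL⟩ := ih fun h => hF (Finset.mem_insert_of_mem h)
      have hd : dotk k ((1/2 : ℂ) • V k) = 0 := by rw [dotk_smul, hdiv, mul_zero]
      obtain ⟨c1, c2, z1, z2, h1, h2, h3, h4, h5⟩ := decomp2 hk hd
      refine ⟨(k, c1, z1) :: (k, c2, z2) :: l, ?_, ?_⟩
      · intro A hA
        rcases List.mem_cons.1 hA with rfl | hA
        · exact ⟨hk, h1, h3⟩
        rcases List.mem_cons.1 hA with rfl | hA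
        · exact ⟨hk, h2, h4⟩
        exact hl A hA
      · rw [Finset.sum_insert hkF, ← hVL]
        simp only [VL, List.map_cons, List.sum_cons]
        rw [← add_assoc, modd_add, ← h5]

lemma atoms_of {V : Md → V3} (hfin : (Function.support V).Finite)
    (hsym : ∀ k, V (-k) = conjV (V k)) (hdiv : ∀ k, dotk k (V k) = 0) (h0 : V 0 = 0) :
    ∃ l : List (Md × Md × ℂ), (∀ A ∈ l, A.1 ≠ 0 ∧ A.2.1 ≠ 0 ∧ idot A.1 A.2.1 = 0) ∧
      VL l = V := by
  classical
  obtain ⟨l, hl, hVL⟩ := atoms_sum hdiv hfin.toFinset (by simp [h0])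
  refine ⟨l, hl, ?_⟩
  rw [hVL]
  funext m
  rw [Finset.sum_add_distrib, Pi.add_apply, Finset.sum_apply, Finset.sum_apply]
  have e1 : ∑ k ∈ hfin.toFinset, (Pi.single k ((1/2 : ℂ) • V k) : Md → V3) m = (1/2 : ℂ) • V m := by
    rw [Finset.sum_eq_single m]
    · rw [Pi.single_eq_same]
    · intro b _ hb; rw [Pi.single_eq_of_ne hb.symm]
    · intro h
      rw [Pi.single_eq_same]
      have : V m = 0 := by simpa using h
      rw [this, smul_zero]
  have e2 : ∑ k ∈ hfin.toFinset, (Pi.single (-k) (conjV ((1/2 : ℂ) • V k)) : Md → V3) m =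
      (1/2 : ℂ) • V m := by
    have hh : conjV ((1/2 : ℂ) • V (-m)) = (1/2 : ℂ) • V m := by
      rw [conjV_smul, hsym, conjV_conjV]
      congr 1
      rw [map_div₀, map_one, map_ofNat]
    rw [Finset.sum_eq_single (-m)]
    · rw [neg_neg, Pi.single_eq_same, hh]
    · intro b _ hb
      rw [Pi.single_eq_of_ne]
      rintro rfl
      exact hb (by simp)
    · intro h
      have : V (-m) = 0 := by simpa using h
      rw [neg_neg, Pi.single_eq_same, this]; simp
  rw [e1, e2, ← add_smul]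
  norm_num

/-- scaling of the atoms -/
noncomputable def scl (w : ℝ) (A : Md × Md × ℂ) : Md × Md × ℂ := (A.1, A.2.1, (w : ℂ) * A.2.2)

lemma modd_scale (w : ℝ) (z : ℂ) (k c : Md) : modd ((w : ℂ) * z) k c = w • modd z k c := by
  unfold modd
  have e : ((w : ℂ) * z) • vv c = w • (z • vv c) := by
    funext i; simp [mul_assoc]
  have e2 : ∀ (κ : Md) (p : V3), (Pi.single κ (w • p) : Md → V3) = w • Pi.single κ p :=
    fun κ p => by
      funext j
      by_cases h : j = κ
      · subst h; simp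
      · rw [Pi.smul_apply, Pi.single_eq_of_ne h, Pi.single_eq_of_ne h, smul_zero]
  rw [e, map_smul, e2, e2, smul_add]

lemma VL_scale (w : ℝ) (l : List (Md × Md × ℂ)) : VL (l.map (scl w)) = w • VL l := by
  induction l with
  | nil => simp [VL]
  | cons A l ih =>
      simp only [VL, List.map_cons, List.sum_cons] at ih ⊢
      rw [ih, smul_add]
      congr 1
      exact modd_scale _ _ _ _

lemma VL_append (l l' : List (Md × Md × ℂ)) : VL (l ++ l') = VL l + VL l' := by
  simp [VL]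

lemma VL_rep (r : ℕ) (l : List (Md × Md × ℂ)) :
    VL (List.replicate r l).flatten = (r : ℝ) • VL l := by
  induction r with
  | zero => simp [VL]
  | succ r ih =>
      rw [List.replicate_succ, List.flatten_cons, VL_append, ih]
      push_cast
      rw [add_smul, one_smul, add_comm]

lemma PP_scale {c a : ℝ} (hc : 0 < c) (ha : 0 < a) (ha1 : a ≤ 1) (z : ℂ) {k c0 : Md} (hk : k ≠ 0) :
    PP c a (((a ^ 2 : ℝ) : ℂ) * z) k c0 ≤ a * PP c 1 z k c0 := by
  have h1 := one_le_nsq hk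
  have h2 := nsq_nonneg (crz k c0)
  have h0 : 0 < nsq k := by linarith
  unfold PP
  rw [norm_mul, Complex.norm_real, Real.norm_eq_abs, abs_of_pos (by positivity)]
  have e : c * (2 * nsq (crz k c0) + nsq k) * (a ^ 2 * ‖z‖) / (2 * Real.pi * nsq k * a) =
      a * (c * (2 * nsq (crz k c0) + nsq k) * ‖z‖ / (2 * Real.pi * nsq k * 1)) := by
    field_simp
  rw [e]
  have h3 : a ^ 2 * ‖z‖ * ‖vv c0‖ ≤ a * (‖z‖ * ‖vv c0‖) := by
    have : a ^ 2 ≤ a := by nlinarith
    calc a ^ 2 * ‖z‖ * ‖vv c0‖ = a ^ 2 * (‖z‖ * ‖vv c0‖) := by ring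
      _ ≤ _ := by gcongr
  nlinarith

theorem build2 {c : ℝ} (hc : 0 < c) {V : Md → V3} (hfin : (Function.support V).Finite)
    (hsym : ∀ k, V (-k) = conjV (V k)) (hdiv : ∀ k, dotk k (V k) = 0) (h0 : V 0 = 0) (N : ℕ)
    {q : ℝ} (hq : 2 < q) {ε : ℝ} (hε : 0 < ε) {κ : ℝ} (hκ : 0 < κ) {t1 : ℝ} (ht1 : 0 < t1) :
    ∃ W : Md → V3, (∃ u, IsSol c (V + W) u ∧ TN t1 u ≤ ENNReal.ofReal κ) ∧
      (Function.support W).Finite ∧ (∀ k, W (-k) = conjV (W k)) ∧ (∀ k, dotk k (W k) = 0) ∧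
      (∀ k : Md, (∀ j, |k j| ≤ N) → W k = 0) ∧
      (∀ t, 0 ≤ t → HHe W t ≤ ENNReal.ofReal ε) ∧
      (∫⁻ t in Ioi (0:ℝ), HHe W t ^ q * ENNReal.ofReal (1 / t) ≤ ENNReal.ofReal ε) := by
  obtain ⟨l, hl, hVL⟩ := atoms_of hfin hsym hdiv h0
  set S : ℝ := (l.map fun A => PP c 1 A.2.2 A.1 A.2.1).sum with hS
  have hpp : ∀ x ∈ l.map (fun A => PP c 1 A.2.2 A.1 A.2.1), 0 ≤ x := by
    intro x hx
    obtain ⟨A, -, rfl⟩ := List.mem_map.1 hx
    exact PP_nonneg hc one_pos _ _ _
  have hS0 : 0 ≤ S := List.sum_nonneg hpp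
  have hSA : ∀ A ∈ l, PP c 1 A.2.2 A.1 A.2.1 ≤ S := fun A hA =>
    List.single_le_sum hpp _ (List.mem_map.2 ⟨A, hA, rfl⟩)
  set L : ℝ := (l.length : ℝ) with hL
  -- choice of r
  have lim1 : Tendsto (fun r : ℕ => 16 * S * (r:ℝ) ^ (-(1/2 : ℝ))) atTop (𝓝 (16 * S * 0)) :=
    ((tendsto_rpow_neg_atTop (by norm_num)).comp tendsto_natCast_atTop_atTop).const_mul _
  have lim2 : Tendsto (fun r : ℕ => ((16 * S) ^ (q - 1) * (4 * S * L)) * (r:ℝ) ^ (-(q/2 - 1)))
      atTop (𝓝 (((16 * S) ^ (q - 1) * (4 * S * L)) * 0)) :=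
    ((tendsto_rpow_neg_atTop (by linarith)).comp tendsto_natCast_atTop_atTop).const_mul _
  rw [mul_zero] at lim1 lim2
  obtain ⟨r, hr1, hr2, hr⟩ := ((lim1.eventually_le_const hε).and
    ((lim2.eventually_le_const hε).and (eventually_ge_atTop 1))).exists
  have hr0 : (0:ℝ) < r := by exact_mod_cast hr
  have hr1' : (1:ℝ) ≤ r := by exact_mod_cast hr
  set a : ℝ := (r:ℝ) ^ (-(1/2 : ℝ)) with ha
  have ha0 : 0 < a := Real.rpow_pos_of_pos hr0 _
  have ha1 : a ≤ 1 := Real.rpow_le_one_of_one_le_of_nonpos hr1' (by norm_num)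
  have ha2 : a ^ 2 = 1 / r := by
    rw [ha, ← Real.rpow_natCast, ← Real.rpow_mul hr0.le]
    norm_num
    rw [Real.rpow_neg_one]
  -- the repeated list
  set l' : List (Md × Md × ℂ) := (List.replicate r (l.map (scl (a ^ 2)))).flatten with hl'
  have hVl' : VL l' = V := by
    rw [hl', VL_rep, VL_scale, hVL, smul_smul, ha2]
    rw [mul_one_div_cancel hr0.ne', one_smul]
  have hcond : ∀ A ∈ l', A.1 ≠ 0 ∧ A.2.1 ≠ 0 ∧ idot A.1 A.2.1 = 0 ∧
      PP c a A.2.2 A.1 A.2.1 ≤ a * S := by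
    intro A hA
    rw [hl', List.mem_flatten] at hA
    obtain ⟨m, hm, hAm⟩ := hA
    rw [List.eq_of_mem_replicate hm] at hAm
    obtain ⟨B, hB, rfl⟩ := List.mem_map.1 hAm
    obtain ⟨b1, b2, b3⟩ := hl B hB
    refine ⟨b1, b2, b3, ?_⟩
    exact (PP_scale hc ha0 ha1 B.2.2 b1).trans (mul_le_mul_of_nonneg_left (hSA B hB) ha0.le)
  have haS : 0 ≤ a * S := mul_nonneg ha0.le hS0
  have hκ' : 0 < κ / (l'.length + 1) := by positivity
  obtain ⟨W, M, ⟨u, hsol, hTN⟩, hWf, hWs, hWd, hWl, hsup, hint⟩ :=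
    build hc ha0 haS N hκ' ht1 l' hcond
  rw [hVl'] at hsol
  have hTN' : TN t1 u ≤ ENNReal.ofReal κ := by
    refine hTN.trans ?_
    rw [← ENNReal.ofReal_natCast, ← ENNReal.ofReal_mul (by positivity)]
    refine ENNReal.ofReal_le_ofReal ?_
    rw [← mul_div_assoc, div_le_iff₀ (by positivity)]
    nlinarith
  have hsup' : ∀ t, 0 ≤ t → HHe W t ≤ ENNReal.ofReal (16 * (a * S)) := by
    intro t ht
    refine (hsup t ht).trans (ENNReal.ofReal_le_ofReal ?_)
    have h1 : 0 ≤ 1 / (1 + 2 * (M:ℝ) * Real.sqrt t) := by positivity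
    calc 16 * (a * S) * (1 - 1 / (1 + 2 * (M:ℝ) * Real.sqrt t)) ≤ 16 * (a * S) * 1 := by
          refine mul_le_mul_of_nonneg_left (by linarith) (by positivity)
      _ = _ := mul_one _
  have hlen : (l'.length : ℝ≥0∞) = ENNReal.ofReal (r * L) := by
    have : l'.length = r * l.length := by
      rw [hl', List.length_flatten]
      simp
    rw [this, hL, ← Nat.cast_mul, ENNReal.ofReal_natCast]
  refine ⟨W, ⟨u, hsol, hTN'⟩, hWf, hWs, hWd, hWl, fun t ht => (hsup' t ht).trans ?_, ?_⟩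
  · refine ENNReal.ofReal_le_ofReal ?_
    calc 16 * (a * S) = 16 * S * a := by ring
      _ ≤ ε := hr1
  · have hpow : ∀ t, 0 ≤ t → HHe W t ^ q ≤ ENNReal.ofReal ((16 * (a * S)) ^ (q - 1)) * HHe W t := by
      intro t ht
      have h1 : HHe W t ^ q = HHe W t ^ (q - 1) * HHe W t := by
        have : HHe W t ^ (q - 1) * HHe W t ^ (1:ℝ) = HHe W t ^ (q - 1 + 1) :=
          (ENNReal.rpow_add_of_nonneg (q - 1) 1 (by linarith) zero_le_one).symm
        rw [ENNReal.rpow_one] at this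
        rw [this]; congr 1; ring
      rw [h1]
      gcongr
      rw [← ENNReal.ofReal_rpow_of_nonneg (by positivity) (by linarith)]
      exact ENNReal.rpow_le_rpow (hsup' t ht) (by linarith)
    calc ∫⁻ t in Ioi (0:ℝ), HHe W t ^ q * ENNReal.ofReal (1 / t)
        ≤ ∫⁻ t in Ioi (0:ℝ), ENNReal.ofReal ((16 * (a * S)) ^ (q - 1)) *
            (HHe W t * ENNReal.ofReal (1 / t)) := by
          refine setLIntegral_mono' measurableSet_Ioi fun t ht => ?_
          rw [← mul_assoc]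
          gcongr
          exact hpow t (le_of_lt ht)
      _ = ENNReal.ofReal ((16 * (a * S)) ^ (q - 1)) *
            ∫⁻ t in Ioi (0:ℝ), (HHe W t * ENNReal.ofReal (1 / t)) :=
          lintegral_const_mul' _ _ ENNReal.ofReal_ne_top
      _ ≤ ENNReal.ofReal ((16 * (a * S)) ^ (q - 1)) *
            (ENNReal.ofReal (r * L) * ENNReal.ofReal (4 * (a * S))) := by
          rw [← hlen]; gcongr
      _ = ENNReal.ofReal ((16 * (a * S)) ^ (q - 1) * ((r * L) * (4 * (a * S)))) := by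
          rw [← ENNReal.ofReal_mul (by positivity), ← ENNReal.ofReal_mul (by positivity)]
      _ ≤ ENNReal.ofReal ε := by
          refine ENNReal.ofReal_le_ofReal (le_trans (le_of_eq ?_) hr2)
          have e1 : (16 * (a * S)) ^ (q - 1) = a ^ (q - 1) * (16 * S) ^ (q - 1) := by
            rw [← Real.mul_rpow ha0.le (by positivity)]
            congr 1; ring
          have e2 : a ^ (q - 1) * a * r = (r:ℝ) ^ (-(q/2 - 1)) := by
            have e3 : a ^ (q - 1) * a = a ^ q := by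
              nth_rewrite 2 [← Real.rpow_one a]
              rw [← Real.rpow_add ha0]; congr 1; ring
            rw [e3, ha, ← Real.rpow_mul hr0.le]
            nth_rewrite 2 [← Real.rpow_one (r:ℝ)]
            rw [← Real.rpow_add hr0]; congr 1; ring
          rw [e1, ← e2]; ring

end H754R3.NSD
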