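import Mathlib
import Pool.Agent.H754R3.NSD.Sol

/-! Continuous representatives of solutions and the integrated equation. -/

open Set Filter Topology MeasureTheory
open scoped ENNReal

namespace H754R3.NSD

set_option linter.unusedSectionVars false

lemma tsum_ae {ι : Type*} [Countable ι] {F : ι → L2 V3} {f : ι → ℝ → V3}
    (hF : ∀ i, (F i : ℝ → V3) =ᵐ[mup] f i) (hs : Summable fun i => ‖F i‖)
    (hf : ∀ t, Summable fun i => f i t) :
    ((∑' i, F i : L2 V3) : ℝ → V3) =ᵐ[mup] fun t => ∑' i, f i t := by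
  have h1 : HasSum F (∑' i, F i) := hs.of_norm.hasSum
  obtain ⟨s, hs'⟩ := exists_seq_tendsto (atTop : Filter (Finset ι))
  have h2 : Tendsto (fun n => ∑ i ∈ s n, F i) atTop (𝓝 (∑' i, F i)) :=
    (show Tendsto (fun u => ∑ i ∈ u, F i) atTop (𝓝 (∑' i, F i)) from h1).comp hs'
  have h3 : TendstoInMeasure mup (fun n => ((∑ i ∈ s n, F i : L2 V3) : ℝ → V3)) atTop
      (∑' i, F i : L2 V3) := by
    refine tendstoInMeasure_of_tendsto_Lp h2
  obtain ⟨ns, hns, h4⟩ := h3.exists_seq_tendsto_ae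
  have hsum : ∀ n, ((∑ i ∈ s n, F i : L2 V3) : ℝ → V3) =ᵐ[mup] fun t => ∑ i ∈ s n, f i t := by
    intro n
    have e1 : ∀ u : Finset ι, ((∑ i ∈ u, F i : L2 V3) : ℝ → V3) =ᵐ[mup] fun t => ∑ i ∈ u, f i t := by
      classical
      intro u
      induction u using Finset.induction_on with
      | empty =>
          simp only [Finset.sum_empty]
          exact Lp.coeFn_zero V3 2 mup
      | insert a u ha ih =>
          rw [Finset.sum_insert ha]
          filter_upwards [Lp.coeFn_add (F a) (∑ i ∈ u, F i), ih, hF a] with t h1 h2 h3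
          rw [h1, Pi.add_apply, h2, h3, Finset.sum_insert ha]
    exact e1 _
  filter_upwards [h4, ae_all_iff.2 hsum] with t ht1 ht2
  have h5 : Tendsto (fun n => ∑ i ∈ s (ns n), f i t) atTop (𝓝 ((∑' i, F i : L2 V3) t)) := by
    refine ht1.congr fun n => ?_
    rw [ht2]
  have h6 : Tendsto (fun n => ∑ i ∈ s (ns n), f i t) atTop (𝓝 (∑' i, f i t)) :=
    (show Tendsto (fun u => ∑ i ∈ u, f i t) atTop (𝓝 (∑' i, f i t)) from (hf t).hasSum).comp
      (hs'.comp hns.tendsto_atTop)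
  exact tendsto_nhds_unique h5 h6

/-- the integrand of the convolution -/
noncomputable def hkj (u : Md → L2 V3) (k j : Md) (s : ℝ) : V3 := symb k (u j s) (u (k - j) s)

lemma hkj_int (u : Md → L2 V3) (k j : Md) : Integrable (hkj u k j) mup :=
  bil_int (symbL k) (u j) (u (k - j))

lemma hkj_L1 (u : Md → L2 V3) (k j : Md) :
    ∫⁻ s, ‖hkj u k j s‖ₑ ∂mup ≤
      ENNReal.ofReal (24 * Real.pi * Real.sqrt (nsq k) * (‖u j‖ * ‖u (k - j)‖)) := by
  have hb : ∀ y z : V3, ‖symb k y z‖ₑ ≤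
      ENNReal.ofReal (24 * Real.pi * Real.sqrt (nsq k)) * (‖y‖ₑ * ‖z‖ₑ) := by
    intro y z
    rw [← ofReal_norm, ← ofReal_norm, ← ofReal_norm,
      ← ENNReal.ofReal_mul (norm_nonneg _), ← ENNReal.ofReal_mul (by positivity)]
    refine ENNReal.ofReal_le_ofReal ((symb_norm k y z).trans (le_of_eq (by ring)))
  have h2 := cs_sq (μ := mup) (f := fun s => ‖u j s‖ₑ) (g := fun s => ‖u (k - j) s‖ₑ)
    (Lp.aestronglyMeasurable _).enorm (Lp.aestronglyMeasurable _).enorm
  rw [← L2_norm_sq, ← L2_norm_sq, ← mul_pow, ← ENNReal.ofReal_mul (norm_nonneg _)] at h2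
  have h4 := (ENNReal.pow_le_pow_left_iff (by norm_num)).1 h2
  calc ∫⁻ s, ‖hkj u k j s‖ₑ ∂mup
      ≤ ∫⁻ s, ENNReal.ofReal (24 * Real.pi * Real.sqrt (nsq k)) * (‖u j s‖ₑ * ‖u (k - j) s‖ₑ) ∂mup :=
        lintegral_mono fun s => hb _ _
    _ = ENNReal.ofReal (24 * Real.pi * Real.sqrt (nsq k)) * ∫⁻ s, ‖u j s‖ₑ * ‖u (k - j) s‖ₑ ∂mup :=
        lintegral_const_mul' _ _ ENNReal.ofReal_ne_top
    _ ≤ _ := by
        rw [ENNReal.ofReal_mul (p := 24 * Real.pi * Real.sqrt (nsq k)) (by positivity)]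
        exact mul_le_mul' le_rfl h4

lemma duh_hkj_bound (u : Md → L2 V3) {α : ℝ} (hα : 0 ≤ α) (k j : Md) (t : ℝ) :
    ‖duh α (hkj u k j) t‖ ≤ 24 * Real.pi * Real.sqrt (nsq k) * (‖u j‖ * ‖u (k - j)‖) := by
  have h1 := (duh_bound hα (hkj u k j) t).trans (hkj_L1 u k j)
  rw [← ofReal_norm] at h1
  exact (ENNReal.ofReal_le_ofReal_iff (by positivity)).1 h1

/-- The continuous representative. -/
noncomputable def ub (c : ℝ) (v : Md → V3) (u : Md → L2 V3) (k : Md) (t : ℝ) : V3 :=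
  Real.exp (-(c * nsq k * t)) • v k + ∑' j, duh (c * nsq k) (hkj u k j) t

section
variable {c : ℝ} {v : Md → V3} {u : Md → L2 V3}

lemma conv_sum_bound {σ : ℝ} (hσ : 0 ≤ σ)
    (hu : Summable fun k => Real.exp (σ * n1 k) * ‖u k‖) (k : Md) :
    Summable (fun j => ‖u j‖ * ‖u (k - j)‖) ∧
    ∑' j, ‖u j‖ * ‖u (k - j)‖ ≤ Real.exp (-(σ * n1 k)) *
      (∑' j, Real.exp (σ * n1 j) * ‖u j‖) ^ 2 := by
  set a : Md → ℝ := fun j => Real.exp (σ * n1 j) * ‖u j‖ with ha
  have ha0 : ∀ j, 0 ≤ a j := fun j => by positivity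
  obtain ⟨-, h1, h2, h3⟩ := conv_real ha0 ha0 hu hu
  have hle : ∀ j, ‖u j‖ * ‖u (k - j)‖ ≤ Real.exp (-(σ * n1 k)) * (a j * a (k - j)) := by
    intro j
    have e : Real.exp (σ * n1 k) ≤ Real.exp (σ * n1 j) * Real.exp (σ * n1 (k - j)) := by
      rw [← Real.exp_add]
      refine Real.exp_le_exp.2 ?_
      have := n1_add j (k - j)
      have e2 : j + (k - j) = k := by abel
      rw [e2] at this
      nlinarith
    have e3 : Real.exp (-(σ * n1 k)) * Real.exp (σ * n1 k) = 1 := by rw [← Real.exp_add]; simp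
    calc ‖u j‖ * ‖u (k - j)‖ = (Real.exp (-(σ * n1 k)) * Real.exp (σ * n1 k)) *
          (‖u j‖ * ‖u (k - j)‖) := by rw [e3, one_mul]
      _ ≤ (Real.exp (-(σ * n1 k)) * (Real.exp (σ * n1 j) * Real.exp (σ * n1 (k - j)))) *
          (‖u j‖ * ‖u (k - j)‖) := by gcongr
      _ = _ := by rw [ha]; ring
  have hs : Summable (fun j => ‖u j‖ * ‖u (k - j)‖) :=
    Summable.of_nonneg_of_le (fun j => by positivity) hle ((h1 k).mul_left _)
  refine ⟨hs, ?_⟩
  calc ∑' j, ‖u j‖ * ‖u (k - j)‖ ≤ ∑' j, Real.exp (-(σ * n1 k)) * (a j * a (k - j)) :=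
        hs.tsum_le_tsum hle ((h1 k).mul_left _)
    _ = Real.exp (-(σ * n1 k)) * ∑' j, a j * a (k - j) := tsum_mul_left
    _ ≤ Real.exp (-(σ * n1 k)) * ∑' k, ∑' j, a j * a (k - j) := by
        refine mul_le_mul_of_nonneg_left ?_ (Real.exp_pos _).le
        exact h2.le_tsum k fun i _ => tsum_nonneg fun j => mul_nonneg (ha0 _) (ha0 _)
    _ = _ := by rw [h3]; ring

variable (hc : 0 < c) (h : IsSol c v u)
include hc h

lemma ub_summable (k : Md) : Summable fun j => 24 * Real.pi * Real.sqrt (nsq k) * (‖u j‖ * ‖u (k - j)‖) := by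
  obtain ⟨σ, hσ, hu⟩ := h.dec
  exact (conv_sum_bound hσ.le hu k).1.mul_left _

lemma ub_continuous (k : Md) : Continuous (ub c v u k) := by
  unfold ub
  refine Continuous.add (by fun_prop) ?_
  exact continuous_tsum (fun j => duh_continuous _ (hkj_int u k j)) (ub_summable hc h k)
    (fun j t => duh_hkj_bound u (mul_nonneg hc.le (nsq_nonneg k)) k j t)

lemma ub_ae (hv0 : v 0 = 0) (k : Md) : (u k : ℝ → V3) =ᵐ[mup] ub c v u k := by
  have hα : 0 ≤ c * nsq k := mul_nonneg hc.le (nsq_nonneg k)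
  by_cases hk : k = 0
  · subst hk
    have hn : nsq 0 = 0 := by simp [nsq]
    have hu0 : u 0 = 0 := by
      rw [h.eq 0, hv0, exF_zero]
      simp [TF_zero]
    rw [hu0]
    filter_upwards [Lp.coeFn_zero V3 2 mup] with t ht
    rw [ht, ub, hv0, smul_zero, zero_add]
    symm
    have : ∀ j, duh (c * nsq 0) (hkj u 0 j) t = 0 := by
      intro j
      have e : hkj u 0 j = 0 := by funext s; exact symb_zero _ _
      rw [e]; simp [duh]
    simp [this]
  · have hα' : 0 < c * nsq k := mul_pos hc (by linarith [one_le_nsq hk])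
    obtain ⟨σ, hσ, hu⟩ := h.dec
    have hs := (conv_sum_bound hσ.le hu k).1
    have h1 := tsum_ae (F := fun j => TF c k (u j) (u (k - j)))
      (f := fun j => duh (c * nsq k) (hkj u k j))
      (fun j => TT_coe hα' (symbL k) (u j) (u (k - j)))
      (by
        refine Summable.of_nonneg_of_le (fun j => norm_nonneg _) (fun j => TF_norm hc k (u j) (u (k - j))) ?_
        simp_rw [mul_assoc]
        exact hs.mul_left _)
      (fun t => Summable.of_norm_bounded (ub_summable hc h k)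
        (fun j => duh_hkj_bound u hα k j t))
    have h2 : (u k : ℝ → V3) =ᵐ[mup]
        ((exF (c * nsq k) (v k) + ∑' j, TF c k (u j) (u (k - j)) : L2 V3) : ℝ → V3) := by
      rw [← h.eq k]
    filter_upwards [h1, h2, Lp.coeFn_add (exF (c * nsq k) (v k)) (∑' j, TF c k (u j) (u (k - j))),
      exF_coe hα' (v k)] with t e1 e2 e3 e4
    rw [e2, e3, Pi.add_apply, e1, e4]
    rfl

/-- The nonlinear term. -/
noncomputable def NL (w : Md → ℝ → V3) (k : Md) (s : ℝ) : V3 := ∑' j, symb k (w j s) (w (k - j) s)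

lemma ub_eq (hv0 : v 0 = 0) (k : Md) (t : ℝ) :
    ub c v u k t = Real.exp (-(c * nsq k * t)) • v k + duh (c * nsq k) (NL (ub c v u) k) t := by
  have hα : 0 ≤ c * nsq k := mul_nonneg hc.le (nsq_nonneg k)
  have hdef : ub c v u k t = Real.exp (-(c * nsq k * t)) • v k +
    ∑' j, duh (c * nsq k) (hkj u k j) t := rfl
  rw [hdef]
  congr 1
  rcases le_total t 0 with ht | ht
  · simp [duh_of_nonpos _ _ ht]
  -- exchange
  have h1 : ∑' j, duh (c * nsq k) (hkj u k j) t =
      ∫ s in Ioc 0 t, ∑' j, Real.exp (-(c * nsq k * (t - s))) • hkj u k j s := by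
    simp_rw [duh_of_nonneg _ _ ht]
    rw [integral_tsum]
    · intro j
      have := (ii_exp2 (hkj_int u k j) (c * nsq k) t 0 t).1.aestronglyMeasurable
      rw [Measure.restrict_restrict measurableSet_Ioc] at this
      have e : Ioc 0 t ∩ Ioi 0 = Ioc 0 t := by ext x; simp +contextual
      rwa [e] at this
    · refine ne_of_lt ?_
      calc ∑' j, ∫⁻ s in Ioc 0 t, ‖Real.exp (-(c * nsq k * (t - s))) • hkj u k j s‖ₑ
          ≤ ∑' j, ENNReal.ofReal (24 * Real.pi * Real.sqrt (nsq k) * (‖u j‖ * ‖u (k - j)‖)) := by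
            refine ENNReal.tsum_le_tsum fun j => ?_
            refine le_trans ?_ (hkj_L1 u k j)
            refine le_trans ?_ (lintegral_mono' (mup_Ioc (t := t)) le_rfl)
            refine setLIntegral_mono' measurableSet_Ioc fun s hs => ?_
            rw [enorm_smul, Real.enorm_eq_ofReal (Real.exp_pos _).le]
            calc _ ≤ 1 * ‖hkj u k j s‖ₑ := by
                  gcongr
                  rw [← ENNReal.ofReal_one]
                  refine ENNReal.ofReal_le_ofReal (Real.exp_le_one_iff.2 ?_)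
                  have : 0 ≤ c * nsq k * (t - s) := mul_nonneg hα (by linarith [hs.2])
                  linarith
              _ = _ := one_mul _
        _ = ENNReal.ofReal (∑' j, 24 * Real.pi * Real.sqrt (nsq k) * (‖u j‖ * ‖u (k - j)‖)) := by
            rw [ENNReal.ofReal_tsum_of_nonneg (fun j => by positivity) (ub_summable hc h k)]
        _ < ⊤ := ENNReal.ofReal_lt_top
  rw [h1, duh_of_nonneg _ _ ht]
  refine integral_congr_ae ?_
  have hall : ∀ᵐ s ∂(volume.restrict (Ioc 0 t)), ∀ j, u j s = ub c v u j s :=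
    ae_mono mup_Ioc (ae_all_iff.2 fun j => ub_ae hc h hv0 j)
  filter_upwards [hall] with s hs
  rw [tsum_const_smul'']
  congr 1
  unfold NL hkj
  refine tsum_congr fun j => ?_
  rw [hs j, hs (k - j)]

lemma ub_dec {Cv σv : ℝ} (hσv : 0 < σv) (hv : ∀ k, ‖v k‖ ≤ Cv * Real.exp (-(σv * n1 k))) :
    ∃ σ > 0, ∃ C, ∀ k, ∀ t, 0 ≤ t → ‖ub c v u k t‖ ≤ C * Real.exp (-(σ * n1 k)) := by
  obtain ⟨σ, hσ, hu⟩ := h.dec
  set S : ℝ := ∑' j, Real.exp (σ * n1 j) * ‖u j‖ with hS
  set τ : ℝ := min σv (σ / 2) with hτ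
  have hτ0 : 0 < τ := lt_min hσv (by linarith)
  have hCv : 0 ≤ Cv := by
    have := (norm_nonneg _).trans (hv 0)
    by_contra hneg
    push Not at hneg
    nlinarith [Real.exp_pos (-(σv * n1 0))]
  refine ⟨τ, hτ0, Cv + 24 * Real.pi * (2 / σ) * S ^ 2, fun k t ht => ?_⟩
  have hα : 0 ≤ c * nsq k := mul_nonneg hc.le (nsq_nonneg k)
  have hn := n1_nonneg k
  unfold ub
  have h1 : ‖Real.exp (-(c * nsq k * t)) • v k‖ ≤ Cv * Real.exp (-(τ * n1 k)) := by
    rw [norm_smul, Real.norm_eq_abs, abs_of_pos (Real.exp_pos _)]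
    calc Real.exp (-(c * nsq k * t)) * ‖v k‖ ≤ 1 * (Cv * Real.exp (-(σv * n1 k))) := by
          refine mul_le_mul (Real.exp_le_one_iff.2 ?_) (hv k) (norm_nonneg _) zero_le_one
          have := mul_nonneg hα ht
          linarith
      _ ≤ _ := by
          rw [one_mul]
          refine mul_le_mul_of_nonneg_left (Real.exp_le_exp.2 ?_) hCv
          have : τ ≤ σv := min_le_left _ _
          nlinarith
  have h2 : ‖∑' j, duh (c * nsq k) (hkj u k j) t‖ ≤
      24 * Real.pi * (2 / σ) * S ^ 2 * Real.exp (-(τ * n1 k)) := by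
    have hs := Summable.of_nonneg_of_le (fun j => norm_nonneg _)
      (fun j => duh_hkj_bound u hα k j t) (ub_summable hc h k)
    calc ‖∑' j, duh (c * nsq k) (hkj u k j) t‖ ≤ ∑' j, ‖duh (c * nsq k) (hkj u k j) t‖ :=
          norm_tsum_le_tsum_norm hs
      _ ≤ ∑' j, 24 * Real.pi * Real.sqrt (nsq k) * (‖u j‖ * ‖u (k - j)‖) :=
          hs.tsum_le_tsum (fun j => duh_hkj_bound u hα k j t) (ub_summable hc h k)
      _ = 24 * Real.pi * Real.sqrt (nsq k) * ∑' j, (‖u j‖ * ‖u (k - j)‖) := tsum_mul_left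
      _ ≤ 24 * Real.pi * Real.sqrt (nsq k) * (Real.exp (-(σ * n1 k)) * S ^ 2) := by
          gcongr
          exact (conv_sum_bound hσ.le hu k).2
      _ ≤ 24 * Real.pi * ((2 / σ) * Real.exp (σ / 2 * n1 k)) * (Real.exp (-(σ * n1 k)) * S ^ 2) := by
          gcongr
          have h3 : Real.sqrt (nsq k) ≤ n1 k := by
            rw [Real.sqrt_le_left hn]
            unfold nsq n1
            simp only [Fin.sum_univ_three]
            nlinarith [abs_nonneg (k 0 : ℝ), abs_nonneg (k 1 : ℝ), abs_nonneg (k 2 : ℝ),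
              sq_abs (k 0 : ℝ), sq_abs (k 1 : ℝ), sq_abs (k 2 : ℝ),
              mul_nonneg (abs_nonneg (k 0 : ℝ)) (abs_nonneg (k 1 : ℝ)),
              mul_nonneg (abs_nonneg (k 0 : ℝ)) (abs_nonneg (k 2 : ℝ)),
              mul_nonneg (abs_nonneg (k 1 : ℝ)) (abs_nonneg (k 2 : ℝ))]
          have h4 : σ / 2 * n1 k ≤ Real.exp (σ / 2 * n1 k) := by
            have := Real.add_one_le_exp (σ / 2 * n1 k); linarith
          calc Real.sqrt (nsq k) ≤ n1 k := h3
            _ = (2 / σ) * (σ / 2 * n1 k) := by field_simp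
            _ ≤ _ := by gcongr
      _ = 24 * Real.pi * (2 / σ) * S ^ 2 * (Real.exp (σ / 2 * n1 k) * Real.exp (-(σ * n1 k))) := by ring
      _ ≤ _ := by
          rw [← Real.exp_add]
          refine mul_le_mul_of_nonneg_left (Real.exp_le_exp.2 ?_) (by positivity)
          have : τ ≤ σ / 2 := min_le_right _ _
          nlinarith
  calc _ ≤ _ := norm_add_le _ _
    _ ≤ _ := add_le_add h1 h2
    _ = _ := by ring

lemma ub_sym (hvS : ∀ k, v (-k) = conjV (v k)) (k : Md) (t : ℝ) :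
    ub c v u (-k) t = conjV (ub c v u k t) := by
  have hα : 0 ≤ c * nsq k := mul_nonneg hc.le (nsq_nonneg k)
  unfold ub
  rw [map_add, map_smul, hvS, nsq_neg]
  congr 1
  have hsum : Summable fun j => duh (c * nsq k) (hkj u k j) t :=
    Summable.of_norm_bounded (ub_summable hc h k) (fun j => duh_hkj_bound u hα k j t)
  rw [conjV.map_tsum hsum, ← (Equiv.neg Md).tsum_eq]
  refine tsum_congr fun j => ?_
  simp only [Equiv.neg_apply]
  rw [duh_clm conjV _ (hkj_int u k j)]
  refine duh_congr _ ?_ t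
  have e : -k - -j = -(k - j) := by abel
  have h1 : (u (-j) : ℝ → V3) =ᵐ[mup] fun s => conjV (u j s) := by
    rw [h.sym j]; exact conjE_coe _
  have h2 : (u (-(k - j)) : ℝ → V3) =ᵐ[mup] fun s => conjV (u (k - j) s) := by
    rw [h.sym (k - j)]; exact conjE_coe _
  filter_upwards [h1, h2] with s e1 e2
  unfold hkj
  rw [e, e1, e2, symb_conj]

omit hc h in
lemma dotk_clm_cont (k : Md) : Continuous (dotk k) := by
  unfold dotk; fun_prop

lemma ub_div (hvd : ∀ k, dotk k (v k) = 0) (k : Md) (t : ℝ) : dotk k (ub c v u k t) = 0 := by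
  have hα : 0 ≤ c * nsq k := mul_nonneg hc.le (nsq_nonneg k)
  let Lk : V3 →L[ℝ] ℂ := LinearMap.mkContinuous
    { toFun := dotk k
      map_add' := dotk_add k
      map_smul' := by
        intro a x
        have : a • x = (a : ℂ) • x := by funext i; simp
        rw [this, dotk_smul]; simp } (3 * Real.sqrt (nsq k)) (dotk_norm k)
  have hL : ∀ x, Lk x = dotk k x := fun x => rfl
  rw [← hL]
  unfold ub
  have hsum : Summable fun j => duh (c * nsq k) (hkj u k j) t :=
    Summable.of_norm_bounded (ub_summable hc h k) (fun j => duh_hkj_bound u hα k j t)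
  rw [map_add, map_smul, hL (v k), hvd, smul_zero, zero_add, Lk.map_tsum hsum]
  have : ∀ j, Lk (duh (c * nsq k) (hkj u k j) t) = 0 := by
    intro j
    unfold duh
    rw [← ContinuousLinearMap.intervalIntegral_comp_comm Lk (ii_exp2 (hkj_int u k j) _ _ _ _)]
    have : ∀ s, Lk (Real.exp (-(c * nsq k * (t - s))) • hkj u k j s) = 0 := by
      intro s
      rw [map_smul, hL]
      unfold hkj
      rw [dotk_symb, smul_zero]
    simp [this]
  simp [this]

end

end H754R3.NSD
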