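import Mathlib
import Pool.Agent.H754R3.NSD.Reg

/-! Families of Fourier coefficients which are smooth in time on `[0,∞)` with exponentially
decaying derivatives. -/

open Set Filter Topology MeasureTheory
open scoped ENNReal

namespace H754R3.NSD

set_option linter.unusedSectionVars false

lemma summable_pi_prod {n : ℕ} {f : ℤ → ℝ} (hf0 : ∀ i, 0 ≤ f i) (hf : Summable f) :
    Summable fun k : Fin n → ℤ => ∏ i, f (k i) := by
  induction n with
  | zero => exact Summable.of_finite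
  | succ n ih =>
      have h1 : Summable fun p : ℤ × (Fin n → ℤ) => f p.1 * ∏ i, f (p.2 i) :=
        hf.mul_of_nonneg ih hf0 fun k => Finset.prod_nonneg fun i _ => hf0 _
      rw [← (Fin.consEquiv fun _ => ℤ).summable_iff]
      refine h1.congr fun p => ?_
      simp [Fin.consEquiv, Fin.prod_univ_succ]

lemma summable_exp_int {σ : ℝ} (hσ : 0 < σ) : Summable fun k : ℤ => Real.exp (-(σ * |(k : ℝ)|)) := by
  have h1 : Summable fun n : ℕ => Real.exp (-(σ * n)) := by
    have : ∀ n : ℕ, Real.exp (-(σ * n)) = Real.exp (-σ) ^ n := by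
      intro n; rw [← Real.exp_nat_mul]; congr 1; ring
    simp_rw [this]
    exact summable_geometric_of_lt_one (Real.exp_pos _).le (by rw [Real.exp_lt_one_iff]; linarith)
  refine Summable.of_nat_of_neg ?_ ?_
  · refine h1.congr fun n => ?_
    simp
  · refine h1.congr fun n => ?_
    simp

lemma summable_exp_n1 {σ : ℝ} (hσ : 0 < σ) : Summable fun k : Md => Real.exp (-(σ * n1 k)) := by
  have := summable_pi_prod (n := 3) (f := fun k : ℤ => Real.exp (-(σ * |(k : ℝ)|)))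
    (fun k => (Real.exp_pos _).le) (summable_exp_int hσ)
  refine this.congr fun k => ?_
  rw [← Real.exp_sum]
  congr 1
  rw [n1, Finset.mul_sum, Finset.sum_neg_distrib]

/-- exponential decay, uniformly in `t ≥ 0` -/
def Dec (f : Md → ℝ → ℂ) : Prop :=
  ∃ σ > 0, ∃ C, ∀ k, ∀ t, 0 ≤ t → ‖f k t‖ ≤ C * Real.exp (-(σ * n1 k))

/-- smoothness class -/
def SM : ℕ → (Md → ℝ → ℂ) → Prop
  | 0, f => (∀ k, ContinuousOn (f k) (Ici 0)) ∧ Dec f
  | m + 1, f => Dec f ∧ ∃ g, SM m g ∧ ∀ k, ∀ t, 0 ≤ t → HasDerivWithinAt (f k) (g k t) (Ici 0) t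

lemma SM.dec {m : ℕ} {f : Md → ℝ → ℂ} (h : SM m f) : Dec f := by
  cases m with
  | zero => exact h.2
  | succ m => exact h.1

lemma SM.cont {m : ℕ} {f : Md → ℝ → ℂ} (h : SM m f) (k : Md) : ContinuousOn (f k) (Ici 0) := by
  cases m with
  | zero => exact h.1 k
  | succ m =>
      obtain ⟨-, g, -, hg⟩ := h
      exact fun t ht => (hg k t ht).continuousWithinAt

lemma SM.pred {m : ℕ} {f : Md → ℝ → ℂ} (h : SM (m + 1) f) : SM m f := by
  induction m generalizing f with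
  | zero => exact ⟨h.cont, h.dec⟩
  | succ m ih =>
      obtain ⟨h1, g, h2, h3⟩ := h
      exact ⟨h1, g, ih h2, h3⟩

lemma SM.congr {m : ℕ} {f f' : Md → ℝ → ℂ} (h : SM m f) (hff : ∀ k, ∀ t, 0 ≤ t → f' k t = f k t) :
    SM m f' := by
  have hd : Dec f' := by
    obtain ⟨σ, hσ, C, hC⟩ := h.dec
    exact ⟨σ, hσ, C, fun k t ht => by rw [hff k t ht]; exact hC k t ht⟩
  cases m with
  | zero => exact ⟨fun k => (h.1 k).congr fun t ht => hff k t ht, hd⟩
  | succ m =>
      obtain ⟨-, g, h2, h3⟩ := h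
      exact ⟨hd, g, h2, fun k t ht => (h3 k t ht).congr (fun s hs => hff k s hs) (hff k t ht)⟩

lemma Dec.add {f g : Md → ℝ → ℂ} (hf : Dec f) (hg : Dec g) : Dec (fun k t => f k t + g k t) := by
  obtain ⟨σ, hσ, C, hC⟩ := hf
  obtain ⟨σ', hσ', C', hC'⟩ := hg
  have hC0 : 0 ≤ C := by
    have := (norm_nonneg _).trans (hC 0 0 le_rfl)
    by_contra hneg; push Not at hneg; nlinarith [Real.exp_pos (-(σ * n1 0))]
  have hC0' : 0 ≤ C' := by
    have := (norm_nonneg _).trans (hC' 0 0 le_rfl)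
    by_contra hneg; push Not at hneg; nlinarith [Real.exp_pos (-(σ' * n1 0))]
  refine ⟨min σ σ', lt_min hσ hσ', C + C', fun k t ht => ?_⟩
  have hn := n1_nonneg k
  calc ‖f k t + g k t‖ ≤ ‖f k t‖ + ‖g k t‖ := norm_add_le _ _
    _ ≤ C * Real.exp (-(σ * n1 k)) + C' * Real.exp (-(σ' * n1 k)) := add_le_add (hC k t ht) (hC' k t ht)
    _ ≤ C * Real.exp (-(min σ σ' * n1 k)) + C' * Real.exp (-(min σ σ' * n1 k)) := by
        gcongr
        · exact min_le_left _ _
        · exact min_le_right _ _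
    _ = _ := by ring

lemma SM.add {m : ℕ} {f g : Md → ℝ → ℂ} (hf : SM m f) (hg : SM m g) :
    SM m (fun k t => f k t + g k t) := by
  induction m generalizing f g with
  | zero => exact ⟨fun k => (hf.1 k).add (hg.1 k), hf.2.add hg.2⟩
  | succ m ih =>
      obtain ⟨h1, f', h2, h3⟩ := hf
      obtain ⟨k1, g', k2, k3⟩ := hg
      exact ⟨h1.add k1, _, ih h2 k2, fun k t ht => (h3 k t ht).add (k3 k t ht)⟩

/-- subexponential symbols -/
def SubE (a : Md → ℂ) : Prop := ∀ σ > 0, ∃ A, ∀ k, ‖a k‖ ≤ A * Real.exp (σ * n1 k)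

lemma SubE.of_bdd {a : Md → ℂ} {A : ℝ} (h : ∀ k, ‖a k‖ ≤ A) : SubE a := by
  intro σ hσ
  have hA : 0 ≤ A := (norm_nonneg _).trans (h 0)
  refine ⟨A, fun k => (h k).trans ?_⟩
  have : 1 ≤ Real.exp (σ * n1 k) := Real.one_le_exp (mul_nonneg hσ.le (n1_nonneg k))
  nlinarith

lemma SubE.const (z : ℂ) : SubE (fun _ => z) := SubE.of_bdd (A := ‖z‖) fun _ => le_rfl

lemma SubE.coord (i : Fin 3) : SubE (fun k => (k i : ℂ)) := by
  intro σ hσ
  refine ⟨1 / σ, fun k => ?_⟩
  have h1 : ‖(k i : ℂ)‖ ≤ n1 k := by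
    rw [Complex.norm_intCast]
    exact Finset.single_le_sum (f := fun i => |(k i : ℝ)|) (fun j _ => abs_nonneg _)
      (Finset.mem_univ i)
  have h4 : σ * n1 k ≤ Real.exp (σ * n1 k) := by
    have := Real.add_one_le_exp (σ * n1 k); linarith
  calc ‖(k i : ℂ)‖ ≤ n1 k := h1
    _ = 1 / σ * (σ * n1 k) := by field_simp
    _ ≤ _ := by gcongr

lemma SubE.mul {a b : Md → ℂ} (ha : SubE a) (hb : SubE b) : SubE (fun k => a k * b k) := by
  intro σ hσ
  obtain ⟨A, hA⟩ := ha (σ / 2) (by linarith)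
  obtain ⟨B, hB⟩ := hb (σ / 2) (by linarith)
  refine ⟨A * B, fun k => ?_⟩
  rw [norm_mul]
  calc ‖a k‖ * ‖b k‖ ≤ (A * Real.exp (σ / 2 * n1 k)) * (B * Real.exp (σ / 2 * n1 k)) :=
        mul_le_mul (hA k) (hB k) (norm_nonneg _) ((norm_nonneg _).trans (hA k))
    _ = A * B * (Real.exp (σ / 2 * n1 k) * Real.exp (σ / 2 * n1 k)) := by ring
    _ = _ := by rw [← Real.exp_add]; congr 2; ring

lemma Dec.smulS {a : Md → ℂ} (ha : SubE a) {f : Md → ℝ → ℂ} (hf : Dec f) :
    Dec (fun k t => a k * f k t) := by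
  obtain ⟨σ, hσ, C, hC⟩ := hf
  obtain ⟨A, hA⟩ := ha (σ / 2) (by linarith)
  refine ⟨σ / 2, by linarith, A * C, fun k t ht => ?_⟩
  rw [norm_mul]
  calc ‖a k‖ * ‖f k t‖ ≤ (A * Real.exp (σ / 2 * n1 k)) * (C * Real.exp (-(σ * n1 k))) :=
        mul_le_mul (hA k) (hC k t ht) (norm_nonneg _) ((norm_nonneg _).trans (hA k))
    _ = A * C * (Real.exp (σ / 2 * n1 k) * Real.exp (-(σ * n1 k))) := by ring
    _ = _ := by rw [← Real.exp_add]; congr 2; ring

lemma SM.smulS {m : ℕ} {a : Md → ℂ} (ha : SubE a) {f : Md → ℝ → ℂ} (hf : SM m f) :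
    SM m (fun k t => a k * f k t) := by
  induction m generalizing f with
  | zero => exact ⟨fun k => (hf.1 k).const_smul (a k), hf.2.smulS ha⟩
  | succ m ih =>
      obtain ⟨h1, f', h2, h3⟩ := hf
      exact ⟨h1.smulS ha, _, ih h2, fun k t ht => (h3 k t ht).const_mul (a k)⟩

/-- one sided extension -/
lemma ext_hasDerivAt {P P' : ℝ → ℂ} (h : ∀ t, 0 ≤ t → HasDerivWithinAt P (P' t) (Ici 0) t) (t : ℝ) :
    HasDerivAt (fun t => P (max t 0) + (min t 0 : ℝ) • P' 0) (P' (max t 0)) t := by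
  have hright : ∀ t, 0 ≤ t → HasDerivWithinAt (fun t => P (max t 0) + (min t 0 : ℝ) • P' 0)
      (P' (max t 0)) (Ici 0) t := by
    intro t ht
    rw [max_eq_left ht]
    refine (h t ht).congr (fun s hs => ?_) ?_
    · have hs' : (0:ℝ) ≤ s := hs
      simp [max_eq_left hs', min_eq_right hs']
    · simp [max_eq_left ht, min_eq_right ht]
  have hleft : ∀ t, t ≤ 0 → HasDerivWithinAt (fun t => P (max t 0) + (min t 0 : ℝ) • P' 0)
      (P' (max t 0)) (Iic 0) t := by
    intro t ht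
    rw [max_eq_right ht]
    have h1 : HasDerivAt (fun s : ℝ => P 0 + s • P' 0) (P' 0) t := by
      have := ((hasDerivAt_id t).smul_const (P' 0)).const_add (P 0)
      simpa using this
    refine h1.hasDerivWithinAt.congr (fun s hs => ?_) ?_
    · have hs' : s ≤ 0 := hs
      simp [max_eq_right hs', min_eq_left hs']
    · simp [max_eq_right ht, min_eq_left ht]
  rcases lt_trichotomy t 0 with ht | ht | ht
  · exact (hleft t ht.le).hasDerivAt (Iic_mem_nhds ht)
  · subst ht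
    have := (hleft 0 le_rfl).union (hright 0 le_rfl)
    rw [Iic_union_Ici, hasDerivWithinAt_univ] at this
    exact this
  · exact (hright t ht.le).hasDerivAt (Ici_mem_nhds ht)

lemma hasDerivWithinAt_tsum_Ici {ι : Type*} {P P' : ι → ℝ → ℂ} {b : ι → ℝ} (hb : Summable b)
    (hP : ∀ i t, 0 ≤ t → HasDerivWithinAt (P i) (P' i t) (Ici 0) t)
    (hP' : ∀ i t, 0 ≤ t → ‖P' i t‖ ≤ b i) (h0 : Summable fun i => P i 0) {t : ℝ} (ht : 0 ≤ t) :
    HasDerivWithinAt (fun t => ∑' i, P i t) (∑' i, P' i t) (Ici 0) t := by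
  have h1 := hasDerivAt_tsum (u := b) (g := fun i t => P i (max t 0) + (min t 0 : ℝ) • P' i 0)
    (g' := fun i t => P' i (max t 0)) hb (fun i t => ext_hasDerivAt (hP i) t)
    (fun i t => hP' i _ (le_max_right _ _)) (y₀ := 0) (by simpa using h0) t
  rw [max_eq_left ht] at h1
  refine h1.hasDerivWithinAt.congr (fun s hs => ?_) ?_
  · have hs' : (0:ℝ) ≤ s := hs
    simp [max_eq_left hs', min_eq_right hs']
  · simp [max_eq_left ht, min_eq_right ht]

/-- convolution of families -/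
noncomputable def cv (f g : Md → ℝ → ℂ) (k : Md) (t : ℝ) : ℂ := ∑' j, f j t * g (k - j) t

lemma cv_terms {f g : Md → ℝ → ℂ} (hf : Dec f) (hg : Dec g) :
    ∃ σ > 0, ∃ C, 0 ≤ C ∧ (∀ k j t, 0 ≤ t → ‖f j t * g (k - j) t‖ ≤
      C * Real.exp (-(σ * n1 k)) * Real.exp (-(σ * n1 j))) := by
  obtain ⟨σ, hσ, C, hC⟩ := hf
  obtain ⟨σ', hσ', C', hC'⟩ := hg
  have hC0 : 0 ≤ C := by
    have := (norm_nonneg _).trans (hC 0 0 le_rfl)
    by_contra hneg; push Not at hneg; nlinarith [Real.exp_pos (-(σ * n1 0))]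
  have hC0' : 0 ≤ C' := by
    have := (norm_nonneg _).trans (hC' 0 0 le_rfl)
    by_contra hneg; push Not at hneg; nlinarith [Real.exp_pos (-(σ' * n1 0))]
  set τ : ℝ := min (σ / 2) σ' with hτ
  have hτ0 : 0 < τ := lt_min (by linarith) hσ'
  refine ⟨τ, hτ0, C * C', by positivity, fun k j t ht => ?_⟩
  have hn := n1_nonneg k
  have hnj := n1_nonneg j
  have hnkj := n1_nonneg (k - j)
  rw [norm_mul]
  calc ‖f j t‖ * ‖g (k - j) t‖ ≤ (C * Real.exp (-(σ * n1 j))) * (C' * Real.exp (-(σ' * n1 (k - j)))) :=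
        mul_le_mul (hC j t ht) (hC' _ t ht) (norm_nonneg _) ((norm_nonneg _).trans (hC j t ht))
    _ = C * C' * (Real.exp (-(σ * n1 j)) * Real.exp (-(σ' * n1 (k - j)))) := by ring
    _ ≤ C * C' * (Real.exp (-(τ * n1 k)) * Real.exp (-(τ * n1 j))) := by
        rw [← Real.exp_add, ← Real.exp_add]
        refine mul_le_mul_of_nonneg_left (Real.exp_le_exp.2 ?_) (by positivity)
        have h1 := n1_add j (k - j)
        have e2 : j + (k - j) = k := by abel
        rw [e2] at h1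
        have h2 : τ ≤ σ / 2 := min_le_left _ _
        have h3 : τ ≤ σ' := min_le_right _ _
        have h4 : τ * n1 k ≤ τ * n1 j + τ * n1 (k - j) := by nlinarith
        have h5 : τ * n1 (k - j) ≤ σ' * n1 (k - j) := by nlinarith
        have h6 : 2 * (τ * n1 j) ≤ σ * n1 j := by nlinarith
        linarith
    _ = _ := by ring

lemma cv_summable {f g : Md → ℝ → ℂ} (hf : Dec f) (hg : Dec g) (k : Md) {t : ℝ} (ht : 0 ≤ t) :
    Summable fun j => f j t * g (k - j) t := by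
  obtain ⟨σ, hσ, C, hC0, hC⟩ := cv_terms hf hg
  exact Summable.of_norm_bounded ((summable_exp_n1 hσ).mul_left _) (fun j => hC k j t ht)

lemma Dec.cv {f g : Md → ℝ → ℂ} (hf : Dec f) (hg : Dec g) : Dec (cv f g) := by
  obtain ⟨σ, hσ, C, hC0, hC⟩ := cv_terms hf hg
  have hs := summable_exp_n1 hσ
  refine ⟨σ, hσ, C * ∑' j : Md, Real.exp (-(σ * n1 j)), fun k t ht => ?_⟩
  have hb := (hs.mul_left (C * Real.exp (-(σ * n1 k))))
  have h1 : Summable fun j => ‖f j t * g (k - j) t‖ :=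
    Summable.of_nonneg_of_le (fun _ => norm_nonneg _) (fun j => hC k j t ht) hb
  calc ‖∑' j, f j t * g (k - j) t‖ ≤ ∑' j, ‖f j t * g (k - j) t‖ := norm_tsum_le_tsum_norm h1
    _ ≤ ∑' j, C * Real.exp (-(σ * n1 k)) * Real.exp (-(σ * n1 j)) :=
        h1.tsum_le_tsum (fun j => hC k j t ht) hb
    _ = _ := by rw [tsum_mul_left]; ring

lemma SM.cv {m : ℕ} {f g : Md → ℝ → ℂ} (hf : SM m f) (hg : SM m g) : SM m (cv f g) := by
  induction m generalizing f g with
  | zero =>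
      refine ⟨fun k => ?_, hf.2.cv hg.2⟩
      obtain ⟨σ, hσ, C, hC0, hC⟩ := cv_terms hf.2 hg.2
      exact continuousOn_tsum (fun j => (hf.1 j).mul (hg.1 (k - j)))
        ((summable_exp_n1 hσ).mul_left _) (fun j t ht => hC k j t ht)
  | succ m ih =>
      have hf0 := hf.pred
      have hg0 := hg.pred
      obtain ⟨h1, f', h2, h3⟩ := hf
      obtain ⟨k1, g', k2, k3⟩ := hg
      refine ⟨h1.cv k1, _, (ih h2 hg0).add (ih hf0 k2), fun k t ht => ?_⟩
      obtain ⟨σ, hσ, C, hC0, hC⟩ := cv_terms h2.dec k1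
      obtain ⟨σ', hσ', C', hC0', hC'⟩ := cv_terms h1 k2.dec
      have hb1 := (summable_exp_n1 hσ).mul_left (C * Real.exp (-(σ * n1 k)))
      have hb2 := (summable_exp_n1 hσ').mul_left (C' * Real.exp (-(σ' * n1 k)))
      have h4 := hasDerivWithinAt_tsum_Ici (P := fun j t => f j t * g (k - j) t)
        (P' := fun j t => f' j t * g (k - j) t + f j t * g' (k - j) t) (hb1.add hb2)
        (fun j t ht => (h3 j t ht).mul (k3 (k - j) t ht))
        (fun j t ht => (norm_add_le _ _).trans (add_le_add (hC k j t ht) (hC' k j t ht)))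
        (cv_summable h1 k1 k le_rfl) ht
      refine h4.congr_deriv ?_
      rw [Summable.tsum_add (cv_summable h2.dec k1 k ht) (cv_summable h1 k2.dec k ht)]
      rfl

end H754R3.NSD
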