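import Mathlib
import Pool.Agent.H754R3.NSD.Sm

/-! Smoothness in time of the Fourier coefficients of a solution. -/

open Set Filter Topology MeasureTheory
open scoped ENNReal

namespace H754R3.NSD

set_option linter.unusedSectionVars false

/-- coefficients of the symbol -/
noncomputable def Mc (a b i : Fin 3) (k : Md) : ℂ :=
  -(2 * Real.pi * Complex.I) * ((k a : ℂ) * ((if b = i then 1 else 0) - (k b : ℂ) * (k i : ℂ) / (nsq k : ℂ)))

lemma symb_expand (k : Md) (x y : V3) (i : Fin 3) :
    symb k x y i = ∑ a, ∑ b, Mc a b i k * (x a * y b) := by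
  unfold symb proj dotk Mc
  simp only [Pi.smul_apply, smul_eq_mul]
  have h1 : y i = ∑ b, (if b = i then 1 else 0) * y b := by simp
  calc _ = -(2 * Real.pi * Complex.I) * (∑ a, (k a : ℂ) * x a) *
        (∑ b, ((if b = i then 1 else 0) - (k b : ℂ) * (k i : ℂ) / (nsq k : ℂ)) * y b) := by
        congr 1
        simp only [sub_mul, Finset.sum_sub_distrib]
        rw [← h1, Finset.sum_div, Finset.sum_mul]
        congr 1
        exact Finset.sum_congr rfl fun b _ => by ring
    _ = _ := by
        rw [mul_assoc, Finset.sum_mul_sum, Finset.mul_sum]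
        refine Finset.sum_congr rfl fun a _ => ?_
        rw [Finset.mul_sum]
        exact Finset.sum_congr rfl fun b _ => by ring

lemma ratio_bdd (b i : Fin 3) (k : Md) : ‖(k b : ℂ) * (k i : ℂ) / (nsq k : ℂ)‖ ≤ 1 := by
  rw [norm_div, norm_mul, Complex.norm_intCast, Complex.norm_intCast, Complex.norm_real,
    Real.norm_eq_abs, abs_of_nonneg (nsq_nonneg k)]
  rcases (nsq_nonneg k).eq_or_lt with h | h
  · rw [← h]; simp
  · rw [div_le_one h]
    calc |(k b : ℝ)| * |(k i : ℝ)| ≤ Real.sqrt (nsq k) * Real.sqrt (nsq k) :=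
          mul_le_mul (abs_le_sqrt_nsq k b) (abs_le_sqrt_nsq k i) (abs_nonneg _) (Real.sqrt_nonneg _)
      _ = nsq k := Real.mul_self_sqrt (nsq_nonneg k)

lemma Mc_sub (a b i : Fin 3) : SubE (Mc a b i) := by
  unfold Mc
  refine (SubE.const _).mul ((SubE.coord a).mul (SubE.of_bdd (A := 2) fun k => ?_))
  refine (norm_sub_le _ _).trans ?_
  have h1 : ‖(if b = i then (1:ℂ) else 0)‖ ≤ 1 := by split_ifs <;> simp
  have h2 := ratio_bdd b i k
  linarith

lemma NL_eq {w : Md → ℝ → V3} (hw : ∀ a, Dec fun k t => w k t a) (k : Md) {t : ℝ} (ht : 0 ≤ t)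
    (i : Fin 3) :
    NL w k t i = ∑ a, ∑ b, Mc a b i k * cv (fun k t => w k t a) (fun k t => w k t b) k t := by
  have hs : ∀ a b, Summable fun j => w j t a * w (k - j) t b := fun a b =>
    cv_summable (hw a) (hw b) k ht
  have hs2 : ∀ i, Summable fun j => symb k (w j t) (w (k - j) t) i := by
    intro i
    simp_rw [symb_expand]
    exact summable_sum fun a _ => summable_sum fun b _ => (hs a b).mul_left _
  have hs1 : Summable fun j => symb k (w j t) (w (k - j) t) := Pi.summable.2 hs2
  unfold NL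
  rw [tsum_apply hs1]
  simp_rw [symb_expand]
  rw [Summable.tsum_finsetSum fun a _ => summable_sum fun b _ => (hs a b).mul_left _]
  refine Finset.sum_congr rfl fun a _ => ?_
  rw [Summable.tsum_finsetSum fun b _ => (hs a b).mul_left _]
  refine Finset.sum_congr rfl fun b _ => ?_
  rw [tsum_mul_left]
  rfl

section
variable {c : ℝ} {v : Md → V3} {u : Md → L2 V3} (hc : 0 < c) (h : IsSol c v u) (hv0 : v 0 = 0)
  {Cv σv : ℝ} (hσv : 0 < σv) (hv : ∀ k, ‖v k‖ ≤ Cv * Real.exp (-(σv * n1 k)))
include hc h hv0 hσv hv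

omit hv0 in
lemma U_dec (a : Fin 3) : Dec fun k t => ub c v u k t a := by
  obtain ⟨σ, hσ, C, hC⟩ := ub_dec hc h hσv hv
  exact ⟨σ, hσ, C, fun k t ht => (norm_le_pi_norm _ a).trans (hC k t ht)⟩

omit hv0 in
lemma U_SM0 (a : Fin 3) : SM 0 fun k t => ub c v u k t a := by
  refine ⟨fun k => ?_, U_dec hc h hσv hv a⟩
  exact ((continuous_apply a).comp (ub_continuous hc h k)).continuousOn

/-- the right hand side -/
noncomputable def RH (c : ℝ) (w : Md → ℝ → V3) (i : Fin 3) (k : Md) (t : ℝ) : ℂ :=
  -((c * nsq k : ℝ) : ℂ) * w k t i +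
    ∑ a, ∑ b, Mc a b i k * cv (fun k t => w k t a) (fun k t => w k t b) k t

omit h hv0 hσv hv in
lemma nsq_sub : SubE fun k => -((c * nsq k : ℝ) : ℂ) := by
  have : (fun k => -((c * nsq k : ℝ) : ℂ)) = fun k => (-(c:ℂ)) * (∑ i, (k i : ℂ) * (k i : ℂ)) := by
    funext k; rw [nsq]; push_cast
    rw [neg_mul]
    congr 2
    exact Finset.sum_congr rfl fun i _ => by ring
  rw [this]
  refine (SubE.const _).mul ?_
  intro σ hσ
  have h1 : ∀ i : Fin 3, ∃ A, ∀ k : Md, ‖(k i : ℂ) * (k i : ℂ)‖ ≤ A * Real.exp (σ * n1 k) := fun i =>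
    ((SubE.coord i).mul (SubE.coord i)) σ hσ
  choose A hA using h1
  refine ⟨∑ i, A i, fun k => ?_⟩
  refine (norm_sum_le _ _).trans ?_
  rw [Finset.sum_mul]
  exact Finset.sum_le_sum fun i _ => hA i k

omit h hv0 hσv hv hc in
lemma SM_sum {m : ℕ} {ι : Type*} (s : Finset ι) {f : ι → Md → ℝ → ℂ} (hf : ∀ i ∈ s, SM m (f i)) :
    SM m fun k t => ∑ i ∈ s, f i k t := by
  classical
  induction s using Finset.induction_on with
  | empty =>
      have : SM m fun (_ : Md) (_ : ℝ) => (0:ℂ) := by
        have hd : Dec fun (_ : Md) (_ : ℝ) => (0:ℂ) := ⟨1, one_pos, 0, fun k t _ => by simp⟩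
        clear hf
        induction m with
        | zero => exact ⟨fun k => continuousOn_const, hd⟩
        | succ m ih => exact ⟨hd, _, ih, fun k t _ => hasDerivWithinAt_const _ _ _⟩
      simpa using this
  | insert a s ha ih =>
      have h1 := (hf a (Finset.mem_insert_self a s)).add
        (ih fun i hi => hf i (Finset.mem_insert_of_mem hi))
      refine h1.congr fun k t _ => ?_
      rw [Finset.sum_insert ha]

omit h hv0 hσv hv in
lemma RH_SM {m : ℕ} {w : Md → ℝ → V3} (hw : ∀ a, SM m fun k t => w k t a) (i : Fin 3) :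
    SM m (RH c w i) := by
  refine SM.add ((hw i).smulS (nsq_sub hc)) ?_
  exact SM_sum _ fun a _ => SM_sum _ fun b _ => ((hw a).cv (hw b)).smulS (Mc_sub a b i)

lemma U_deriv (k : Md) {t : ℝ} (ht : 0 ≤ t) (i : Fin 3) :
    HasDerivWithinAt (fun t => ub c v u k t i) (RH c (ub c v u) i k t) (Ici 0) t := by
  set w := ub c v u with hw
  have hdec : ∀ a, Dec fun k t => w k t a := U_dec hc h hσv hv
  -- scalar nonlinear term
  set Q : ℝ → ℂ := fun s => ∑ a, ∑ b, Mc a b i k * cv (fun k t => w k t a) (fun k t => w k t b) k s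
    with hQ
  have hQc : ContinuousOn Q (Ici 0) := by
    have h1 : SM 0 fun k t => ∑ a, ∑ b, Mc a b i k *
        cv (fun k t => w k t a) (fun k t => w k t b) k t :=
      SM_sum _ fun a _ => SM_sum _ fun b _ =>
        ((U_SM0 hc h hσv hv a).cv (U_SM0 hc h hσv hv b)).smulS (Mc_sub a b i)
    exact h1.1 k
  set Qe : ℝ → ℂ := fun s => Q (max s 0) with hQe
  have hQec : Continuous Qe := by
    refine hQc.comp_continuous (by fun_prop) fun s => (show (0:ℝ) ≤ max s 0 from le_max_right _ _)
  set α := c * nsq k with hα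
  set F : ℝ → ℂ := fun t => (Real.exp (-(α * t)) : ℂ) * (v k i + ∫ s in (0:ℝ)..t, (Real.exp (α * s) : ℂ) * Qe s)
    with hF
  have hcont : Continuous fun s => (Real.exp (α * s) : ℂ) * Qe s := by fun_prop
  have hFd : ∀ t, HasDerivAt F (-(α:ℂ) * F t + Qe t) t := by
    intro t
    have h1 : HasDerivAt (fun t => ∫ s in (0:ℝ)..t, (Real.exp (α * s) : ℂ) * Qe s)
        ((Real.exp (α * t) : ℂ) * Qe t) t :=
      intervalIntegral.integral_hasDerivAt_right (hcont.intervalIntegrable _ _)
        (hcont.stronglyMeasurableAtFilter _ _) hcont.continuousAt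
    have h2 : HasDerivAt (fun t : ℝ => Real.exp (-(α * t))) (Real.exp (-(α * t)) * (-α)) t := by
      have h3 : HasDerivAt (fun t : ℝ => -(α * t)) (-α) t := by
        have h := (hasDerivAt_id t).const_mul (-α)
        have e : (fun t : ℝ => -(α * t)) = fun y => -α * id y := by funext y; simp
        rw [e]
        exact h.congr_deriv (by ring)
      exact h3.exp
    have h4 := h2.ofReal_comp.mul (h1.const_add (v k i))
    refine h4.congr_deriv ?_
    have e : (Real.exp (-(α * t)) : ℂ) * (Real.exp (α * t) : ℂ) = 1 := by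
      rw [← Complex.ofReal_mul, ← Real.exp_add]; simp
    simp only [hF]
    push_cast at e ⊢
    linear_combination (Qe t) * e
  have hwF : ∀ t, 0 ≤ t → w k t i = F t := by
    intro t ht
    rw [hw, ub_eq hc h hv0 k t, duh_factor, Pi.add_apply, Pi.smul_apply, Pi.smul_apply, hF]
    simp only
    rw [mul_add, ← Complex.real_smul, ← Complex.real_smul]
    congr 2
    rw [intervalIntegral.integral_of_le ht, intervalIntegral.integral_of_le ht,
      Measure.restrict_restrict measurableSet_Ioc]
    have e : Ioc 0 t ∩ Ioi 0 = Ioc 0 t := by ext x; simp +contextual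
    rw [e]
    have hint : Integrable (fun s => Real.exp (α * s) • NL (ub c v u) k s) (volume.restrict (Ioc 0 t)) := by
      have hcomp : ∀ j : Fin 3, IntegrableOn (fun s => (Real.exp (α * s) • NL (ub c v u) k s) j)
          (Ioc 0 t) := by
        intro j
        have h1 : SM 0 fun k t => ∑ a, ∑ b, Mc a b j k *
            cv (fun k t => w k t a) (fun k t => w k t b) k t :=
          SM_sum _ fun a _ => SM_sum _ fun b _ =>
            ((U_SM0 hc h hσv hv a).cv (U_SM0 hc h hσv hv b)).smulS (Mc_sub a b j)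
        have h2 : ContinuousOn (fun s => (Real.exp (α * s) : ℂ) * (∑ a, ∑ b, Mc a b j k *
            cv (fun k t => w k t a) (fun k t => w k t b) k s)) (Icc 0 t) := by
          refine ContinuousOn.mul (by fun_prop) ((h1.1 k).mono fun s hs => hs.1)
        have h3 : IntegrableOn (fun s => (Real.exp (α * s) : ℂ) * (∑ a, ∑ b, Mc a b j k *
            cv (fun k t => w k t a) (fun k t => w k t b) k s)) (Ioc 0 t) volume :=
          (h2.integrableOn_Icc).mono_set Ioc_subset_Icc_self
        refine IntegrableOn.congr_fun h3 (fun s hs => ?_) measurableSet_Ioc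
        simp only [Pi.smul_apply]
        rw [NL_eq hdec k hs.1.le j, Complex.real_smul]
      exact Integrable.of_eval hcomp
    have e2 : (∫ s in Ioc 0 t, Real.exp (α * s) • NL (ub c v u) k s) i =
        ∫ s in Ioc 0 t, (Real.exp (α * s) • NL (ub c v u) k s) i := by
      exact (ContinuousLinearMap.integral_comp_comm
        (ContinuousLinearMap.proj (R := ℝ) (φ := fun _ : Fin 3 => ℂ) i) hint).symm
    rw [e2]
    refine setIntegral_congr_fun measurableSet_Ioc fun s hs => ?_
    simp only [Pi.smul_apply]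
    rw [NL_eq hdec k hs.1.le i, Complex.real_smul, hQe]
    simp only
    rw [max_eq_left hs.1.le]
  refine ((hFd t).hasDerivWithinAt.congr (fun s hs => hwF s hs) (hwF t ht)).congr_deriv ?_
  rw [← hwF t ht, hQe]
  simp only
  rw [max_eq_left ht]
  rfl

theorem U_SM (m : ℕ) : ∀ i, SM m fun k t => ub c v u k t i := by
  induction m with
  | zero => exact U_SM0 hc h hσv hv
  | succ m ih =>
      intro i
      exact ⟨U_dec hc h hσv hv i, RH c (ub c v u) i, RH_SM hc ih i,
        fun k t ht => U_deriv hc h hv0 hσv hv k ht i⟩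

end

end H754R3.NSD
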