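import Mathlib
import Pool.Agent.H754R3.NSD.UbSm
import Pool.Agent.H754R3.NSD.Tail
import Pool.Agent.H754R3.NSD.Asm1

/-! A solution which is small in `ℓ¹(ℤ³; L²(t₁,∞))` is small in the Wiener norm for all `t ≥ 2 t₁`. -/

open Set Filter Topology MeasureTheory
open scoped ENNReal

namespace H754R3.NSD

set_option linter.unusedSectionVars false

/-- Duhamel's formula from the time `t₀`. -/
lemma duh_split {α : ℝ} {h : ℝ → V3} {t0 t : ℝ} (h0 : 0 ≤ t0) (ht : t0 ≤ t)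
    (hc : ContinuousOn h (Ici 0)) :
    ‖duh α h t - Real.exp (-(α * (t - t0))) • duh α h t0‖ₑ ≤
      ∫⁻ s in Ioc t0 t, ENNReal.ofReal (Real.exp (-(α * (t - s)))) * ‖h s‖ₑ := by
  have hint : ∀ a b, 0 ≤ a → IntegrableOn (fun s => Real.exp (-(α * (t - s))) • h s) (Ioc a b) := by
    intro a b ha
    have h2 : ContinuousOn (fun s : ℝ => Real.exp (-(α * (t - s)))) (Icc a b) := by fun_prop
    have h3 : Icc a b ⊆ Ici 0 := fun s hs => ha.trans hs.1
    exact (h2.smul (hc.mono h3)).integrableOn_Icc.mono_set Ioc_subset_Icc_self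
  have e1 : duh α h t = (∫ s in Ioc 0 t0, Real.exp (-(α * (t - s))) • h s) +
      ∫ s in Ioc t0 t, Real.exp (-(α * (t - s))) • h s := by
    rw [duh_of_nonneg α h (h0.trans ht), ← setIntegral_union _ measurableSet_Ioc (hint 0 t0 le_rfl)
      (hint t0 t h0), Ioc_union_Ioc_eq_Ioc h0 ht]
    rw [Set.disjoint_left]
    intro x hx hx'
    exact absurd hx'.1 (not_lt.2 hx.2)
  have e2 : Real.exp (-(α * (t - t0))) • duh α h t0 =
      ∫ s in Ioc 0 t0, Real.exp (-(α * (t - s))) • h s := by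
    rw [duh_of_nonneg α h h0, ← integral_smul]
    refine setIntegral_congr_fun measurableSet_Ioc fun s _ => ?_
    rw [smul_smul, ← Real.exp_add]
    congr 2; ring
  rw [e1, e2, add_sub_cancel_left]
  refine (enorm_integral_le_lintegral_enorm _).trans (lintegral_mono fun s => ?_)
  simp only [enorm_smul]
  rw [Real.enorm_eq_ofReal (Real.exp_pos _).le]

/-- the kernel -/
noncomputable def kap (c τ : ℝ) : ℝ≥0∞ :=
  ENNReal.ofReal (Real.sqrt τ * Real.exp (-(c / 2 * τ))) * ENNReal.ofReal (1 / τ)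

lemma kernel_bound {c : ℝ} (hc : 0 < c) (k : Md) {τ : ℝ} (hτ : 0 < τ) :
    ENNReal.ofReal (Real.exp (-(c * nsq k * τ))) * ENNReal.ofReal (24 * Real.pi * Real.sqrt (nsq k)) ≤
      ENNReal.ofReal (24 * Real.pi / Real.sqrt c) * kap c τ := by
  by_cases hk : k = 0
  · subst hk
    have : nsq 0 = 0 := by simp [nsq]
    rw [this]; simp
  have h1 := one_le_nsq hk
  have hn0 : 0 < nsq k := by linarith
  unfold kap
  rw [← ENNReal.ofReal_mul (by positivity), ← ENNReal.ofReal_mul (by positivity),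
    ← ENNReal.ofReal_mul (by positivity)]
  refine ENNReal.ofReal_le_ofReal ?_
  set y : ℝ := Real.sqrt (c * nsq k * τ) with hy
  have hysq : y ^ 2 = c * nsq k * τ := Real.sq_sqrt (by positivity)
  have hy0 : 0 ≤ y := Real.sqrt_nonneg _
  have h2 : y * Real.exp (-(y ^ 2 / 2)) ≤ 1 := by
    have h3 := Real.add_one_le_exp (y ^ 2 / 2)
    have h4 : y ≤ Real.exp (y ^ 2 / 2) := by nlinarith [sq_nonneg (y - 1)]
    calc y * Real.exp (-(y ^ 2 / 2)) ≤ Real.exp (y ^ 2 / 2) * Real.exp (-(y ^ 2 / 2)) := by gcongr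
      _ = 1 := by rw [← Real.exp_add]; simp
  have hyf : y = Real.sqrt c * Real.sqrt (nsq k) * Real.sqrt τ := by
    rw [hy, Real.sqrt_mul (by positivity), Real.sqrt_mul hc.le]
  have h5 : Real.exp (-(c * nsq k * τ)) ≤ Real.exp (-(y ^ 2 / 2)) * Real.exp (-(c / 2 * τ)) := by
    rw [← Real.exp_add, hysq]
    refine Real.exp_le_exp.2 ?_
    have : c * τ ≤ c * nsq k * τ := by
      have : c * 1 * τ ≤ c * nsq k * τ := by gcongr
      linarith
    linarith
  have hsc : 0 < Real.sqrt c := Real.sqrt_pos.2 hc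
  have hst : 0 < Real.sqrt τ := Real.sqrt_pos.2 hτ
  have h6 : Real.sqrt (nsq k) * Real.exp (-(y ^ 2 / 2)) ≤ 1 / (Real.sqrt c * Real.sqrt τ) := by
    rw [le_div_iff₀ (by positivity)]
    calc Real.sqrt (nsq k) * Real.exp (-(y ^ 2 / 2)) * (Real.sqrt c * Real.sqrt τ) =
        (Real.sqrt c * Real.sqrt (nsq k) * Real.sqrt τ) * Real.exp (-(y ^ 2 / 2)) := by ring
      _ = y * Real.exp (-(y ^ 2 / 2)) := by rw [← hyf]
      _ ≤ 1 := h2
  have h7 : 1 / (Real.sqrt c * Real.sqrt τ) = 1 / Real.sqrt c * (Real.sqrt τ * (1 / τ)) := by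
    rw [mul_one_div (Real.sqrt τ), Real.sqrt_div_self]
    field_simp
  calc Real.exp (-(c * nsq k * τ)) * (24 * Real.pi * Real.sqrt (nsq k))
      ≤ (Real.exp (-(y ^ 2 / 2)) * Real.exp (-(c / 2 * τ))) * (24 * Real.pi * Real.sqrt (nsq k)) := by
        gcongr
    _ = 24 * Real.pi * (Real.sqrt (nsq k) * Real.exp (-(y ^ 2 / 2))) * Real.exp (-(c / 2 * τ)) := by
        ring
    _ ≤ 24 * Real.pi * (1 / Real.sqrt c * (Real.sqrt τ * (1 / τ))) * Real.exp (-(c / 2 * τ)) := by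
        rw [← h7]; gcongr
    _ = _ := by ring

lemma kap_int {c : ℝ} (hc : 0 < c) (t0 t : ℝ) :
    ∫⁻ s in Ioo t0 t, kap c (t - s) ≤ ENNReal.ofReal (Real.sqrt (Real.pi / (c / 2))) := by
  have h1 : ∫⁻ s in Ioo t0 t, kap c (t - s) ≤ ∫⁻ s, (Ioi (0:ℝ)).indicator (kap c) (t - s) := by
    rw [← lintegral_indicator measurableSet_Ioo]
    refine lintegral_mono fun s => ?_
    by_cases hs : s ∈ Ioo t0 t
    · rw [indicator_of_mem hs, indicator_of_mem (show t - s ∈ Ioi (0:ℝ) from by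
        have := hs.2; simp only [mem_Ioi]; linarith)]
    · rw [indicator_of_notMem hs]; exact bot_le
  refine h1.trans (le_of_eq ?_)
  rw [lintegral_sub_left_eq_self (fun s => (Ioi (0:ℝ)).indicator (kap c) s) t,
    lintegral_indicator measurableSet_Ioi]
  exact exp_int (by linarith)

lemma conv_enn (a : Md → ℝ≥0∞) : ∑' k, ∑' j, a j * a (k - j) = (∑' k, a k) ^ 2 := by
  rw [ENNReal.tsum_comm]
  have : ∀ j, ∑' k, a j * a (k - j) = a j * ∑' k, a k := by
    intro j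
    rw [ENNReal.tsum_mul_left]
    congr 1
    exact (Equiv.subRight j).tsum_eq a
  simp_rw [this]
  rw [ENNReal.tsum_mul_right, sq]

lemma NL_enorm (w : Md → ℝ → V3) (k : Md) (s : ℝ) : ‖NL w k s‖ₑ ≤
    ENNReal.ofReal (24 * Real.pi * Real.sqrt (nsq k)) * ∑' j, ‖w j s‖ₑ * ‖w (k - j) s‖ₑ := by
  unfold NL
  refine enorm_tsum_le_tsum_enorm.trans ?_
  rw [← ENNReal.tsum_mul_left]
  refine ENNReal.tsum_le_tsum fun j => ?_
  rw [← ofReal_norm, ← ofReal_norm, ← ofReal_norm, ← ENNReal.ofReal_mul (norm_nonneg _),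
    ← ENNReal.ofReal_mul (by positivity)]
  exact ENNReal.ofReal_le_ofReal ((symb_norm k _ _).trans (le_of_eq (by ring)))

lemma NL_cont {w : Md → ℝ → V3} (hw : ∀ a, SM 0 fun k t => w k t a) (k : Md) :
    ContinuousOn (NL w k) (Ici 0) := by
  refine continuousOn_pi.2 fun i => ?_
  have h1 : SM 0 fun k t => ∑ a, ∑ b, Mc a b i k *
      cv (fun k t => w k t a) (fun k t => w k t b) k t :=
    SM_sum _ fun a _ => SM_sum _ fun b _ => ((hw a).cv (hw b)).smulS (Mc_sub a b i)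
  exact (h1.1 k).congr fun t ht => NL_eq (fun a => (hw a).2) k ht i

lemma kap_meas (c t : ℝ) : Measurable fun s => kap c (t - s) := by
  unfold kap
  have h1 : Measurable fun s : ℝ => Real.sqrt (t - s) * Real.exp (-(c / 2 * (t - s))) := by fun_prop
  have h2 : Measurable fun s : ℝ => 1 / (t - s) := by fun_prop
  exact h1.ennreal_ofReal.mul h2.ennreal_ofReal

lemma Y_ineq {w : Md → ℝ → V3} {c : ℝ} {v : Md → V3} (hc : 0 < c) (hcont : ∀ k, Continuous (w k))
    (hw : ∀ a, SM 0 fun k t => w k t a)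
    (hduh : ∀ k t, w k t = Real.exp (-(c * nsq k * t)) • v k + duh (c * nsq k) (NL w k) t)
    {t0 t : ℝ} (h0 : 0 ≤ t0) (ht : t0 ≤ t) :
    ∑' k, ‖w k t‖ₑ ≤ ∑' k, ‖w k t0‖ₑ + ∫⁻ s in Ioo t0 t,
      ENNReal.ofReal (24 * Real.pi / Real.sqrt c) * kap c (t - s) * (∑' k, ‖w k s‖ₑ) ^ 2 := by
  have h1 : ∀ k, ‖w k t‖ₑ ≤ ‖w k t0‖ₑ + ∫⁻ s in Ioo t0 t,
      ENNReal.ofReal (24 * Real.pi / Real.sqrt c) * kap c (t - s) *
        ∑' j, ‖w j s‖ₑ * ‖w (k - j) s‖ₑ := by
    intro k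
    have hα : 0 ≤ c * nsq k := mul_nonneg hc.le (nsq_nonneg k)
    have e1 : w k t = Real.exp (-(c * nsq k * (t - t0))) • w k t0 +
        (duh (c * nsq k) (NL w k) t -
          Real.exp (-(c * nsq k * (t - t0))) • duh (c * nsq k) (NL w k) t0) := by
      rw [hduh k t, hduh k t0, smul_add, smul_smul, ← Real.exp_add]
      have : -(c * nsq k * (t - t0)) + -(c * nsq k * t0) = -(c * nsq k * t) := by ring
      rw [this]; abel
    rw [e1]
    refine (enorm_add_le _ _).trans (add_le_add ?_ ?_)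
    · rw [enorm_smul, Real.enorm_eq_ofReal (Real.exp_pos _).le]
      have : ENNReal.ofReal (Real.exp (-(c * nsq k * (t - t0)))) ≤ 1 := by
        rw [← ENNReal.ofReal_one]
        refine ENNReal.ofReal_le_ofReal ?_
        rw [Real.exp_le_one_iff]
        have := mul_nonneg hα (sub_nonneg.2 ht)
        linarith
      calc _ ≤ 1 * ‖w k t0‖ₑ := by gcongr
        _ = _ := one_mul _
    · refine (duh_split h0 ht (NL_cont hw k)).trans ?_
      rw [← setLIntegral_congr Ioo_ae_eq_Ioc]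
      refine setLIntegral_mono' measurableSet_Ioo fun s hs => ?_
      have hτ : 0 < t - s := by have := hs.2; linarith
      calc ENNReal.ofReal (Real.exp (-(c * nsq k * (t - s)))) * ‖NL w k s‖ₑ
          ≤ ENNReal.ofReal (Real.exp (-(c * nsq k * (t - s)))) *
            (ENNReal.ofReal (24 * Real.pi * Real.sqrt (nsq k)) *
              ∑' j, ‖w j s‖ₑ * ‖w (k - j) s‖ₑ) := by gcongr; exact NL_enorm w k s
        _ = (ENNReal.ofReal (Real.exp (-(c * nsq k * (t - s)))) *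
            ENNReal.ofReal (24 * Real.pi * Real.sqrt (nsq k))) *
              ∑' j, ‖w j s‖ₑ * ‖w (k - j) s‖ₑ := by ring
        _ ≤ _ := mul_le_mul' (kernel_bound hc k hτ) le_rfl
  refine (ENNReal.tsum_le_tsum h1).trans (le_of_eq ?_)
  rw [ENNReal.tsum_add]
  congr 1
  have hm : ∀ k, Measurable fun s => ‖w k s‖ₑ := fun k => (hcont k).measurable.enorm
  rw [← lintegral_tsum]
  · refine lintegral_congr fun s => ?_
    rw [ENNReal.tsum_mul_left, conv_enn]
  · intro k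
    refine Measurable.aemeasurable ?_
    refine ((kap_meas c t).const_mul _).mul ?_
    exact Measurable.ennreal_tsum fun j => (hm j).mul (hm (k - j))

lemma sum_bounds {w : Md → ℝ → V3} (hcont : ∀ k, Continuous (w k)) {σ C : ℝ} (hσ : 0 < σ)
    (hw : ∀ k t, 0 ≤ t → ‖w k t‖ ≤ C * Real.exp (-(σ * n1 k))) :
    (∀ t, 0 ≤ t → Summable fun k => ‖w k t‖) ∧
      ContinuousOn (fun t => ∑' k, ‖w k t‖) (Ici 0) := by
  have hs := (summable_exp_n1 hσ).mul_left C
  refine ⟨fun t ht => Summable.of_nonneg_of_le (fun _ => norm_nonneg _) (fun k => hw k t ht) hs, ?_⟩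
  refine continuousOn_tsum (fun k => (hcont k).norm.continuousOn) hs fun k t ht => ?_
  rw [norm_norm]; exact hw k t ht

lemma Y_small {w : Md → ℝ → V3} {c : ℝ} {v : Md → V3} (hc : 0 < c) (hcont : ∀ k, Continuous (w k))
    (hw : ∀ a, SM 0 fun k t => w k t a)
    (hduh : ∀ k t, w k t = Real.exp (-(c * nsq k * t)) • v k + duh (c * nsq k) (NL w k) t)
    {σ C : ℝ} (hσ : 0 < σ) (hdec : ∀ k t, 0 ≤ t → ‖w k t‖ ≤ C * Real.exp (-(σ * n1 k)))
    {η : ℝ} (hη : 0 < η)
    (hK : 24 * Real.pi / Real.sqrt c * Real.sqrt (Real.pi / (c / 2)) * (4 * η) ≤ 1 / 2)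
    {t0 : ℝ} (h0 : 0 ≤ t0) (hY0 : ∑' k, ‖w k t0‖ₑ ≤ ENNReal.ofReal η) :
    ∀ t, t0 ≤ t → ∑' k, ‖w k t‖ < 2 * η := by
  obtain ⟨hsum, hyc⟩ := sum_bounds hcont hσ hdec
  set y : ℝ → ℝ := fun t => ∑' k, ‖w k t‖ with hy
  have hYy : ∀ t, 0 ≤ t → ∑' k, ‖w k t‖ₑ = ENNReal.ofReal (y t) := by
    intro t ht
    rw [hy, ENNReal.ofReal_tsum_of_nonneg (fun k => norm_nonneg _) (hsum t ht)]
    exact tsum_congr fun k => (ofReal_norm _).symm
  have hy0 : ∀ t, 0 ≤ y t := fun t => tsum_nonneg fun k => norm_nonneg _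
  by_contra hcon
  push Not at hcon
  set S : Set ℝ := Ici t0 ∩ y ⁻¹' (Ici (2 * η)) with hS
  have hSc : IsClosed S :=
    (hyc.mono (Ici_subset_Ici.2 h0)).preimage_isClosed_of_isClosed isClosed_Ici isClosed_Ici
  have hSne : S.Nonempty := by
    obtain ⟨t, ht, hty⟩ := hcon
    exact ⟨t, ht, hty⟩
  have hSb : BddBelow S := ⟨t0, fun s hs => hs.1⟩
  have hmem := hSc.csInf_mem hSne hSb
  set t := sInf S with ht
  have htt : t0 ≤ t := hmem.1
  have hyt : 2 * η ≤ y t := hmem.2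
  have hbelow : ∀ s ∈ Ioo t0 t, y s ≤ 2 * η := by
    intro s hs
    by_contra h
    push Not at h
    have : t ≤ s := csInf_le hSb ⟨hs.1.le, h.le⟩
    exact absurd hs.2 (not_lt.2 this)
  have h1 := Y_ineq hc hcont hw hduh h0 htt
  rw [hYy t (h0.trans htt)] at h1
  have h2 : ∫⁻ s in Ioo t0 t, ENNReal.ofReal (24 * Real.pi / Real.sqrt c) * kap c (t - s) *
      (∑' k, ‖w k s‖ₑ) ^ 2 ≤ ENNReal.ofReal (24 * Real.pi / Real.sqrt c) *
        ENNReal.ofReal ((2 * η) ^ 2) * ENNReal.ofReal (Real.sqrt (Real.pi / (c / 2))) := by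
    calc _ ≤ ∫⁻ s in Ioo t0 t, (ENNReal.ofReal (24 * Real.pi / Real.sqrt c) *
          ENNReal.ofReal ((2 * η) ^ 2)) * kap c (t - s) := by
          refine setLIntegral_mono' measurableSet_Ioo fun s hs => ?_
          have hs0 : 0 ≤ s := h0.trans hs.1.le
          rw [hYy s hs0, ← ENNReal.ofReal_pow (hy0 s)]
          calc ENNReal.ofReal (24 * Real.pi / Real.sqrt c) * kap c (t - s) *
                ENNReal.ofReal (y s ^ 2)
              ≤ ENNReal.ofReal (24 * Real.pi / Real.sqrt c) * kap c (t - s) *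
                ENNReal.ofReal ((2 * η) ^ 2) := by
                have := hy0 s
                gcongr
                exact hbelow s hs
            _ = _ := by ring
      _ = (ENNReal.ofReal (24 * Real.pi / Real.sqrt c) * ENNReal.ofReal ((2 * η) ^ 2)) *
          ∫⁻ s in Ioo t0 t, kap c (t - s) :=
          lintegral_const_mul' _ _ (ENNReal.mul_ne_top ENNReal.ofReal_ne_top ENNReal.ofReal_ne_top)
      _ ≤ _ := by gcongr; exact kap_int hc t0 t
  have h3 : ENNReal.ofReal (y t) ≤ ENNReal.ofReal (η + η / 2) := by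
    refine h1.trans ?_
    refine (add_le_add hY0 h2).trans ?_
    rw [← ENNReal.ofReal_mul (by positivity), ← ENNReal.ofReal_mul (by positivity),
      ← ENNReal.ofReal_add hη.le (by positivity)]
    refine ENNReal.ofReal_le_ofReal ?_
    have : 24 * Real.pi / Real.sqrt c * (2 * η) ^ 2 * Real.sqrt (Real.pi / (c / 2)) =
      (24 * Real.pi / Real.sqrt c * Real.sqrt (Real.pi / (c / 2)) * (4 * η)) * η := by ring
    rw [this]
    nlinarith
  have h4 := (ENNReal.ofReal_le_ofReal_iff (by positivity)).1 h3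
  linarith

/-- existence of a good time -/
lemma good_time {c : ℝ} {v : Md → V3} {u : Md → L2 V3} {w : Md → ℝ → V3}
    (hcont : ∀ k, Continuous (w k)) (hae : ∀ k, (u k : ℝ → V3) =ᵐ[mup] w k) {η t1 : ℝ} (hη : 0 < η)
    (ht1 : 0 < t1) (hTN : TN t1 u ≤ ENNReal.ofReal (η * Real.sqrt t1 / 2)) :
    ∃ t0 ∈ Ioo t1 (2 * t1), ∑' k, ‖w k t0‖ₑ ≤ ENNReal.ofReal η := by
  by_contra hcon
  push Not at hcon
  set μ : Measure ℝ := volume.restrict (Ioo t1 (2 * t1)) with hμ
  have hμle : μ ≤ mup.restrict (Ioi t1) := by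
    have h1 : mup.restrict (Ioi t1) = volume.restrict (Ioi t1) := by
      rw [Measure.restrict_restrict measurableSet_Ioi]
      congr 1
      ext x
      simp only [mem_inter_iff, mem_Ioi, and_iff_left_iff_imp]
      intro h; linarith
    rw [h1]
    exact Measure.restrict_mono Ioo_subset_Ioi_self le_rfl
  have hμac : ∀ᵐ s ∂μ, s ∈ Ioo t1 (2 * t1) := ae_restrict_mem measurableSet_Ioo
  have hμuniv : μ univ = ENNReal.ofReal t1 := by
    rw [hμ, Measure.restrict_apply_univ, Real.volume_Ioo]; congr 1; ring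
  have h1 : ∀ k, ∫⁻ s, ‖w k s‖ₑ ∂μ ≤ ENNReal.ofReal (Real.sqrt t1) * ‖chi t1 (u k)‖ₑ := by
    intro k
    rw [← eLpNorm_one_eq_lintegral_enorm]
    refine (eLpNorm_le_eLpNorm_mul_rpow_measure_univ (q := 2) (by norm_num)
      (hcont k).aestronglyMeasurable).trans ?_
    rw [mul_comm]
    refine mul_le_mul' ?_ ?_
    · rw [hμuniv]
      have : (1 / ENNReal.toReal 1 - 1 / ENNReal.toReal 2 : ℝ) = 1 / 2 := by norm_num
      rw [this, Real.sqrt_eq_rpow, ENNReal.ofReal_rpow_of_pos ht1]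
    · rw [Lp.enorm_def]
      have e1 : eLpNorm (w k) 2 μ = eLpNorm (chi t1 (u k) : ℝ → V3) 2 μ := by
        refine eLpNorm_congr_ae ?_
        have a1 : (chi t1 (u k) : ℝ → V3) =ᵐ[μ] (u k : ℝ → V3) :=
          ae_mono hμle (chi_coe t1 (u k))
        have a2 : (u k : ℝ → V3) =ᵐ[μ] w k :=
          ae_mono (hμle.trans Measure.restrict_le_self) (hae k)
        exact (a1.trans a2).symm
      rw [e1]
      exact eLpNorm_mono_measure _ hμle
  have h2 : ∫⁻ s, ∑' k, ‖w k s‖ₑ ∂μ ≤ ENNReal.ofReal (Real.sqrt t1) * TN t1 u := by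
    rw [lintegral_tsum fun k => (hcont k).measurable.enorm.aemeasurable]
    unfold TN
    rw [← ENNReal.tsum_mul_left]
    exact ENNReal.tsum_le_tsum h1
  have h3 : ENNReal.ofReal η * ENNReal.ofReal t1 ≤ ∫⁻ s, ∑' k, ‖w k s‖ₑ ∂μ := by
    rw [← hμuniv, ← lintegral_const]
    refine lintegral_mono_ae ?_
    filter_upwards [hμac] with s hs
    exact (hcon s hs).le
  have h4 := h3.trans (h2.trans (mul_le_mul' le_rfl hTN))
  rw [← ENNReal.ofReal_mul hη.le, ← ENNReal.ofReal_mul (Real.sqrt_nonneg _)] at h4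
  have h5 := (ENNReal.ofReal_le_ofReal_iff (by positivity)).1 h4
  have h6 : Real.sqrt t1 * (η * Real.sqrt t1 / 2) = η * t1 / 2 := by
    have := Real.mul_self_sqrt ht1.le
    nlinarith
  rw [h6] at h5
  nlinarith [mul_pos hη ht1]

/-- smallness for all times `t ≥ 2 t₁` -/
theorem small_after {c : ℝ} {v : Md → V3} {u : Md → L2 V3} (hc : 0 < c) (h : IsSol c v u)
    (hv0 : v 0 = 0) {Cv σv : ℝ} (hσv : 0 < σv) (hv : ∀ k, ‖v k‖ ≤ Cv * Real.exp (-(σv * n1 k)))
    {η : ℝ} (hη : 0 < η)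
    (hK : 24 * Real.pi / Real.sqrt c * Real.sqrt (Real.pi / (c / 2)) * (4 * η) ≤ 1 / 2)
    {t1 : ℝ} (ht1 : 0 < t1) (hTN : TN t1 u ≤ ENNReal.ofReal (η * Real.sqrt t1 / 2)) {t : ℝ}
    (ht : 2 * t1 ≤ t) :
    (Summable fun k => ‖ub c v u k t‖) ∧ ∑' k, ‖ub c v u k t‖ < 2 * η := by
  obtain ⟨σ, hσ, C, hC⟩ := ub_dec hc h hσv hv
  have hcont := fun k => ub_continuous hc h k
  obtain ⟨t0, ht0, hY0⟩ := good_time (c := c) (v := v) hcont (fun k => ub_ae hc h hv0 k) hη ht1 hTN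
  have ht00 : 0 ≤ t0 := by have := ht0.1; linarith
  refine ⟨(sum_bounds hcont hσ hC).1 t (by linarith), ?_⟩
  exact Y_small hc hcont (fun a => U_SM0 hc h hσv hv a) (fun k t => ub_eq hc h hv0 k t) hσ hC hη hK
    ht00 hY0 t (by have := ht0.2; linarith)

end H754R3.NSD
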