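import Mathlib

/-! Definitions used in the statement: smooth periodic data, admissible periodic solutions of the
Navier–Stokes equations, the heat flow and the critical Besov norms. -/

open Set MeasureTheory
open scoped ContDiff ENNReal

namespace H754R3.NSD

/-- The space `ℝ³` (with the maximum norm). -/
abbrev R3 := Fin 3 → ℝ

/-- `ℝ³ × [0,∞)`. -/
def slab : Set (R3 × ℝ) := univ ×ˢ Ici 0

/-- The partial derivative `∂f/∂x_j`. -/
noncomputable def pd (j : Fin 3) (f : R3 → ℝ) (x : R3) : ℝ := fderiv ℝ f x (Pi.single j 1)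

/-- `v₀` is a smooth `ℤ³`-periodic divergence-free vector field on `ℝ³`. -/
structure Datum (v₀ : R3 → R3) : Prop where
  smooth : ContDiff ℝ ∞ v₀
  periodic : ∀ x j, v₀ (x + Pi.single j 1) = v₀ x
  divfree : ∀ x, ∑ j, pd j (fun y => v₀ y j) x = 0

/-- `(u,p)` is an admissible periodic solution of the Navier–Stokes equations with viscosity `ν`,
force `0` and initial velocity `v₀`: both are smooth on `ℝ³ × [0,∞)` (up to `t = 0`), periodic, and
satisfy the equations at all points of `ℝ³ × [0,∞)`. -/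
structure GlobalSol (ν : ℝ) (v₀ : R3 → R3) (u : R3 → ℝ → R3) (p : R3 → ℝ → ℝ) : Prop where
  smooth_u : ContDiffOn ℝ ∞ (fun z : R3 × ℝ => u z.1 z.2) slab
  smooth_p : ContDiffOn ℝ ∞ (fun z : R3 × ℝ => p z.1 z.2) slab
  periodic_u : ∀ x t j, 0 ≤ t → u (x + Pi.single j 1) t = u x t
  periodic_p : ∀ x t j, 0 ≤ t → p (x + Pi.single j 1) t = p x t
  initial : ∀ x, u x 0 = v₀ x
  divfree : ∀ x t, 0 ≤ t → ∑ j, pd j (fun y => u y t j) x = 0
  momentum : ∀ x t i, 0 ≤ t →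
    derivWithin (fun s => u x s i) (Ici 0) t + ∑ j, u x t j * pd j (fun y => u y t i) x =
      ν * ∑ j, pd j (pd j fun y => u y t i) x - pd i (fun y => p y t) x

/-- The Fourier coefficient `∫ f(x) e^{-2πi k·x} dx` (over the unit cube) of a periodic function. -/
noncomputable def coef (f : R3 → ℝ) (k : Fin 3 → ℤ) : ℂ :=
  ∫ x in Icc (0 : R3) 1,
    Complex.exp (-(2 * Real.pi * Complex.I * ∑ a, (k a : ℂ) * (x a : ℂ))) * (f x : ℂ)

/-- The heat flow `(e^{tΔ} f)(x) = ∑_k e^{-4π²|k|²t} f̂(k) e^{2πi k·x}` of a periodic function. -/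
noncomputable def heat (f : R3 → ℝ) (t : ℝ) (x : R3) : ℂ :=
  ∑' k : Fin 3 → ℤ, (Real.exp (-(4 * Real.pi ^ 2 * (∑ a, (k a : ℝ) ^ 2) * t)) : ℂ) * coef f k *
    Complex.exp (2 * Real.pi * Complex.I * ∑ a, (k a : ℂ) * (x a : ℂ))

/-- `√t sup_x |e^{tΔ} f(x)|`, with the maximum norm on `ℝ³`. -/
noncomputable def bN (f : R3 → R3) (t : ℝ) : ℝ≥0∞ :=
  ⨆ x, ⨆ i, ENNReal.ofReal (Real.sqrt t * ‖heat (fun y => f y i) t x‖)

/-- The norm of `f` in the critical Besov space `B^{-1}_{∞,q}`: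
`(∫₀^∞ (√t sup_x |e^{tΔ} f(x)|)^q dt/t)^{1/q}`. -/
noncomputable def besov (q : ℝ) (f : R3 → R3) : ℝ≥0∞ :=
  (∫⁻ t in Ioi (0 : ℝ), bN f t ^ q * ENNReal.ofReal (1 / t)) ^ (1 / q)

end H754R3.NSD
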