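import Mathlib
import Pool.Agent.H754R3.NSD.Sm
import Pool.Agent.H754R3.NSD.Stmt

/-! Space-time functions given by Fourier series with time dependent coefficients. -/

open Set Filter Topology MeasureTheory
open scoped ENNReal ContDiff

namespace H754R3.NSD

set_option linter.unusedSectionVars false

/-- the character `e^{2πi k·x}` -/
noncomputable def ee (k : Md) (x : R3) : ℂ :=
  Complex.exp (2 * Real.pi * Complex.I * ∑ a, (k a : ℂ) * (x a : ℂ))

lemma ee_norm (k : Md) (x : R3) : ‖ee k x‖ = 1 := by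
  have : 2 * Real.pi * Complex.I * ∑ a, (k a : ℂ) * (x a : ℂ) =
      ((2 * Real.pi * ∑ a, (k a : ℝ) * x a : ℝ) : ℂ) * Complex.I := by
    push_cast; ring
  rw [ee, this, Complex.norm_exp_ofReal_mul_I]

lemma ee_continuous (k : Md) : Continuous (ee k) := by unfold ee; fun_prop

/-- space-time function -/
noncomputable def Fs (f : Md → ℝ → ℂ) (x : R3) (t : ℝ) : ℂ := ∑' k, f k t * ee k x

lemma Dec.bound {f : Md → ℝ → ℂ} (hf : Dec f) :
    ∃ b : Md → ℝ, Summable b ∧ ∀ k t, 0 ≤ t → ‖f k t‖ ≤ b k := by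
  obtain ⟨σ, hσ, C, hC⟩ := hf
  exact ⟨_, (summable_exp_n1 hσ).mul_left C, hC⟩

lemma Fs_summable {f : Md → ℝ → ℂ} (hf : Dec f) (x : R3) {t : ℝ} (ht : 0 ≤ t) :
    Summable fun k => f k t * ee k x := by
  obtain ⟨b, hb, hfb⟩ := hf.bound
  refine Summable.of_norm_bounded hb fun k => ?_
  rw [norm_mul, ee_norm, mul_one]; exact hfb k t ht

/-- coordinate functionals -/
noncomputable def dxx (a : Fin 3) : R3 × ℝ →L[ℝ] ℝ :=
  (ContinuousLinearMap.proj (R := ℝ) (φ := fun _ : Fin 3 => ℝ) a).comp (ContinuousLinearMap.fst ℝ R3 ℝ)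

/-- assembled derivative -/
noncomputable def lam (w : Fin 3 → ℂ) (wt : ℂ) : R3 × ℝ →L[ℝ] ℂ :=
  ∑ a, (dxx a).smulRight (w a) + (ContinuousLinearMap.snd ℝ R3 ℝ).smulRight wt

lemma lam_apply (w : Fin 3 → ℂ) (wt : ℂ) (h : R3 × ℝ) :
    lam w wt h = ∑ a, (h.1 a : ℂ) * w a + (h.2 : ℂ) * wt := by
  simp only [lam, ContinuousLinearMap.add_apply, ContinuousLinearMap.sum_apply,
    ContinuousLinearMap.smulRight_apply, ContinuousLinearMap.coe_snd', Complex.real_smul]
  rfl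

lemma lam_norm (w : Fin 3 → ℂ) (wt : ℂ) : ‖lam w wt‖ ≤ ∑ a, ‖w a‖ + ‖wt‖ := by
  refine ContinuousLinearMap.opNorm_le_bound _ (by positivity) fun h => ?_
  rw [lam_apply]
  have h1 : ∀ a, ‖(h.1 a : ℂ) * w a‖ ≤ ‖w a‖ * ‖h‖ := by
    intro a
    rw [norm_mul, mul_comm, Complex.norm_real]
    gcongr
    exact (norm_le_pi_norm h.1 a).trans (norm_fst_le h)
  have h2 : ‖(h.2 : ℂ) * wt‖ ≤ ‖wt‖ * ‖h‖ := by
    rw [norm_mul, mul_comm, Complex.norm_real]
    gcongr
    exact norm_snd_le h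
  calc _ ≤ ‖∑ a, (h.1 a : ℂ) * w a‖ + ‖(h.2 : ℂ) * wt‖ := norm_add_le _ _
    _ ≤ ∑ a, ‖w a‖ * ‖h‖ + ‖wt‖ * ‖h‖ :=
        add_le_add ((norm_sum_le _ _).trans (Finset.sum_le_sum fun a _ => h1 a)) h2
    _ = _ := by rw [← Finset.sum_mul]; ring

lemma lam_tsum {w : Md → Fin 3 → ℂ} {wt : Md → ℂ} (hw : ∀ a, Summable fun k => w k a)
    (hwt : Summable wt) (hl : Summable fun k => lam (w k) (wt k)) :
    ∑' k, lam (w k) (wt k) = lam (fun a => ∑' k, w k a) (∑' k, wt k) := by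
  refine ContinuousLinearMap.ext fun h => ?_
  have e1 : (∑' k, lam (w k) (wt k)) h = ∑' k, lam (w k) (wt k) h :=
    (ContinuousLinearMap.apply ℝ ℂ h).map_tsum hl
  rw [e1]
  simp_rw [lam_apply]
  rw [Summable.tsum_add (summable_sum fun a _ => (hw a).mul_left _) (hwt.mul_left _),
    Summable.tsum_finsetSum fun a _ => (hw a).mul_left _]
  simp_rw [tsum_mul_left]

lemma ee_hasFDeriv (k : Md) (z : R3 × ℝ) :
    HasFDerivAt (fun z : R3 × ℝ => ee k z.1)
      (lam (fun a => 2 * Real.pi * Complex.I * (k a : ℂ) * ee k z.1) 0) z := by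
  have h1 : HasFDerivAt (fun z : R3 × ℝ => 2 * Real.pi * Complex.I * ∑ a, (k a : ℂ) * (z.1 a : ℂ))
      (lam (fun a => 2 * Real.pi * Complex.I * (k a : ℂ)) 0) z := by
    have h2 : (fun z : R3 × ℝ => 2 * Real.pi * Complex.I * ∑ a, (k a : ℂ) * (z.1 a : ℂ)) =
        fun z => lam (fun a => 2 * Real.pi * Complex.I * (k a : ℂ)) 0 z := by
      funext z
      rw [lam_apply, mul_zero, add_zero, Finset.mul_sum]
      exact Finset.sum_congr rfl fun a _ => by ring
    rw [h2]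
    exact ContinuousLinearMap.hasFDerivAt _
  have h3 := h1.cexp
  refine h3.congr_fderiv ?_
  refine ContinuousLinearMap.ext fun h => ?_
  simp only [ContinuousLinearMap.smul_apply, lam_apply, smul_eq_mul, mul_zero, add_zero]
  rw [Finset.mul_sum]
  refine Finset.sum_congr rfl fun a _ => ?_
  unfold ee
  ring

lemma term_hasFDeriv (k : Md) {P : ℝ → ℂ} {P' : ℂ} (z : R3 × ℝ) (hP : HasDerivAt P P' z.2) :
    HasFDerivAt (fun z : R3 × ℝ => P z.2 * ee k z.1)
      (lam (fun a => 2 * Real.pi * Complex.I * (k a : ℂ) * P z.2 * ee k z.1) (P' * ee k z.1)) z := by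
  have h1 : HasFDerivAt (fun z : R3 × ℝ => P z.2)
      ((ContinuousLinearMap.snd ℝ R3 ℝ).smulRight P') z := by
    have h2 := hP.hasFDerivAt.comp z (hasFDerivAt_snd (𝕜 := ℝ) (p := z))
    refine h2.congr_fderiv ?_
    refine ContinuousLinearMap.ext fun h => ?_
    simp
  have h3 := h1.mul (ee_hasFDeriv k z)
  refine h3.congr_fderiv ?_
  refine ContinuousLinearMap.ext fun h => ?_
  simp only [ContinuousLinearMap.add_apply, ContinuousLinearMap.smul_apply, lam_apply,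
    ContinuousLinearMap.smulRight_apply, ContinuousLinearMap.coe_snd', smul_eq_mul, mul_zero,
    add_zero, Complex.real_smul]
  rw [Finset.mul_sum]
  congr 1
  · exact Finset.sum_congr rfl fun a _ => by ring
  · ring

/-- multiplication by `2πi k_a` -/
noncomputable def dk (a : Fin 3) (f : Md → ℝ → ℂ) : Md → ℝ → ℂ :=
  fun k t => (2 * Real.pi * Complex.I * (k a : ℂ)) * f k t

lemma dk_sub (a : Fin 3) : SubE (fun k => 2 * Real.pi * Complex.I * (k a : ℂ)) :=
  (SubE.const _).mul (SubE.coord a)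

lemma dk_dec (a : Fin 3) {f : Md → ℝ → ℂ} (hf : Dec f) : Dec (dk a f) := hf.smulS (dk_sub a)

lemma dk_SM (a : Fin 3) {m : ℕ} {f : Md → ℝ → ℂ} (hf : SM m f) : SM m (dk a f) := hf.smulS (dk_sub a)

theorem Fs_hasFDeriv {f g : Md → ℝ → ℂ} (hf : Dec f) (hg : Dec g)
    (hfg : ∀ k t, 0 ≤ t → HasDerivWithinAt (f k) (g k t) (Ici 0) t) (x : R3) {t : ℝ} (ht : 0 ≤ t) :
    HasFDerivWithinAt (fun z : R3 × ℝ => Fs f z.1 z.2)
      (lam (fun a => Fs (dk a f) x t) (Fs g x t)) (univ ×ˢ Ici 0) (x, t) := by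
  -- extension
  let P : Md → ℝ → ℂ := fun k t => f k (max t 0) + (min t 0 : ℝ) • g k 0
  have hPd : ∀ k t, HasDerivAt (P k) (g k (max t 0)) t := fun k t => ext_hasDerivAt (hfg k) t
  have hPnn : ∀ k t, 0 ≤ t → P k t = f k t := by
    intro k t ht; simp [P, max_eq_left ht, min_eq_right ht]
  obtain ⟨bg, hbg, hbg'⟩ := hg.bound
  have hA : ∀ a, ∃ b : Md → ℝ, Summable b ∧ ∀ k t, 0 ≤ t → ‖dk a f k t‖ ≤ b k := fun a =>
    (dk_dec a hf).bound
  have hB : ∀ a, ∃ b : Md → ℝ, Summable b ∧ ∀ k t, 0 ≤ t → ‖dk a g k t‖ ≤ b k := fun a =>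
    (dk_dec a hg).bound
  choose bA hbA hbA' using hA
  choose bB hbB hbB' using hB
  set b : Md → ℝ := fun k => ∑ a, (bA a k + bB a k) + bg k with hb
  have hbs : Summable b := (summable_sum fun a _ => (hbA a).add (hbB a)).add hbg
  have hdP : ∀ a k, ∀ t, -1 < t → ‖2 * Real.pi * Complex.I * (k a : ℂ) * P k t‖ ≤ bA a k + bB a k := by
    intro a k t ht
    have e : 2 * Real.pi * Complex.I * (k a : ℂ) * P k t =
        dk a f k (max t 0) + (min t 0 : ℝ) • dk a g k 0 := by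
      simp only [P, dk, Complex.real_smul]; ring
    rw [e]
    refine (norm_add_le _ _).trans (add_le_add (hbA' a k _ (le_max_right _ _)) ?_)
    rw [norm_smul]
    have h1 : ‖min t 0‖ ≤ 1 := by
      rw [Real.norm_eq_abs, abs_le]
      constructor
      · exact le_min ht.le (by norm_num)
      · exact (min_le_right _ _).trans (by norm_num)
    calc ‖min t 0‖ * ‖dk a g k 0‖ ≤ 1 * ‖dk a g k 0‖ := by gcongr
      _ = ‖dk a g k 0‖ := one_mul _
      _ ≤ _ := hbB' a k 0 le_rfl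
  have hopen : IsOpen (univ ×ˢ Ioi (-1) : Set (R3 × ℝ)) := isOpen_univ.prod isOpen_Ioi
  have hconn : IsPreconnected (univ ×ˢ Ioi (-1) : Set (R3 × ℝ)) :=
    (convex_univ.prod (convex_Ioi (-1))).isPreconnected
  have hbound : ∀ (k : Md) (z : R3 × ℝ), z ∈ (univ ×ˢ Ioi (-1) : Set (R3 × ℝ)) →
      ‖lam (fun a => 2 * Real.pi * Complex.I * (k a : ℂ) * P k z.2 * ee k z.1)
        (g k (max z.2 0) * ee k z.1)‖ ≤ b k := by
    intro k z hz
    refine (lam_norm _ _).trans (add_le_add (Finset.sum_le_sum fun a _ => ?_) ?_)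
    · rw [norm_mul, ee_norm, mul_one]; exact hdP a k z.2 hz.2
    · rw [norm_mul, ee_norm, mul_one]; exact hbg' k _ (le_max_right _ _)
  have hxt : (x, t) ∈ (univ ×ˢ Ioi (-1) : Set (R3 × ℝ)) :=
    ⟨mem_univ _, show (-1:ℝ) < t by linarith⟩
  have hmain := hasFDerivAt_tsum_of_isPreconnected (𝕜 := ℝ) hbs hopen hconn
    (f := fun k (z : R3 × ℝ) => P k z.2 * ee k z.1)
    (f' := fun k z => lam (fun a => 2 * Real.pi * Complex.I * (k a : ℂ) * P k z.2 * ee k z.1)
        (g k (max z.2 0) * ee k z.1))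
    (fun k z _ => term_hasFDeriv k z (hPd k z.2)) hbound
    (x₀ := (0, 0)) ⟨mem_univ _, show (-1:ℝ) < 0 by norm_num⟩
    (by
      refine (Fs_summable hf 0 le_rfl).congr fun k => ?_
      show _ = P k 0 * ee k 0
      rw [hPnn k 0 le_rfl]) hxt
  have hder : ∑' k, lam (fun a => 2 * Real.pi * Complex.I * (k a : ℂ) * P k t * ee k x)
        (g k (max t 0) * ee k x) = lam (fun a => Fs (dk a f) x t) (Fs g x t) := by
    have e1 : ∀ k, lam (fun a => 2 * Real.pi * Complex.I * (k a : ℂ) * P k t * ee k x)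
        (g k (max t 0) * ee k x) = lam (fun a => dk a f k t * ee k x) (g k t * ee k x) := by
      intro k
      rw [hPnn k t ht, max_eq_left ht]
      rfl
    simp_rw [e1]
    refine lam_tsum (fun a => Fs_summable (dk_dec a hf) x ht) (Fs_summable hg x ht) ?_
    refine Summable.of_norm_bounded hbs fun k => ?_
    have := hbound k (x, t) hxt
    rwa [e1] at this
  have hmain2 : HasFDerivAt (fun z : R3 × ℝ => ∑' k, P k z.2 * ee k z.1)
      (lam (fun a => Fs (dk a f) x t) (Fs g x t)) (x, t) := by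
    rw [← hder]; exact hmain
  refine hmain2.hasFDerivWithinAt.congr (fun z hz => ?_) ?_
  · have hz2 : (0:ℝ) ≤ z.2 := hz.2
    show Fs f z.1 z.2 = _
    unfold Fs
    exact tsum_congr fun k => by rw [hPnn k _ hz2]
  · show Fs f x t = _
    unfold Fs
    exact tsum_congr fun k => by rw [hPnn k _ ht]

lemma Fs_cont {f : Md → ℝ → ℂ} (hf : SM 0 f) :
    ContinuousOn (fun z : R3 × ℝ => Fs f z.1 z.2) (univ ×ˢ Ici 0) := by
  obtain ⟨b, hb, hfb⟩ := hf.2.bound
  refine continuousOn_tsum (u := b) (fun k => ?_) hb fun k z hz => ?_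
  · refine ContinuousOn.mul ?_ ((ee_continuous k).comp continuous_fst).continuousOn
    exact (hf.1 k).comp continuous_snd.continuousOn fun z hz => hz.2
  · rw [norm_mul, ee_norm, mul_one]; exact hfb k _ hz.2

lemma uniq : UniqueDiffOn ℝ (univ ×ˢ Ici 0 : Set (R3 × ℝ)) :=
  uniqueDiffOn_univ.prod (uniqueDiffOn_Ici 0)

theorem Fs_contDiffOn (m : ℕ) : ∀ {f : Md → ℝ → ℂ}, SM m f →
    ContDiffOn ℝ m (fun z : R3 × ℝ => Fs f z.1 z.2) (univ ×ˢ Ici 0) := by
  induction m with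
  | zero =>
      intro f hf
      exact contDiffOn_zero.2 (Fs_cont hf)
  | succ m ih =>
      intro f hf
      have hf0 := hf.pred
      obtain ⟨hfd, g, hg, hfg⟩ := hf
      have hd : ∀ z ∈ (univ ×ˢ Ici 0 : Set (R3 × ℝ)),
          HasFDerivWithinAt (fun z : R3 × ℝ => Fs f z.1 z.2)
            (lam (fun a => Fs (dk a f) z.1 z.2) (Fs g z.1 z.2)) (univ ×ˢ Ici 0) z := by
        intro z hz
        exact Fs_hasFDeriv hfd hg.dec hfg z.1 hz.2
      push_cast
      rw [contDiffOn_succ_iff_fderivWithin uniq]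
      refine ⟨fun z hz => (hd z hz).differentiableWithinAt, fun h => by simp at h, ?_⟩
      have hcd : ContDiffOn ℝ m (fun z : R3 × ℝ =>
          lam (fun a => Fs (dk a f) z.1 z.2) (Fs g z.1 z.2)) (univ ×ˢ Ici 0) := by
        unfold lam
        refine ContDiffOn.add (ContDiffOn.sum fun a _ => ?_) ?_
        · exact (ContinuousLinearMap.smulRightL ℝ (R3 × ℝ) ℂ (dxx a)).contDiff.comp_contDiffOn
            (ih (dk_SM a hf0))
        · exact (ContinuousLinearMap.smulRightL ℝ (R3 × ℝ) ℂ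
            (ContinuousLinearMap.snd ℝ R3 ℝ)).contDiff.comp_contDiffOn (ih hg)
      exact hcd.congr fun z hz => (hd z hz).fderivWithin (uniq z hz)

theorem Fs_smooth {f : Md → ℝ → ℂ} (hf : ∀ m, SM m f) :
    ContDiffOn ℝ ∞ (fun z : R3 × ℝ => Fs f z.1 z.2) (univ ×ˢ Ici 0) :=
  contDiffOn_infty.2 fun m => Fs_contDiffOn m (hf m)

end H754R3.NSD
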