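import Mathlib
import Pool.Agent.H754R3.NSD.Fs

/-! Calculus of Fourier series with time dependent coefficients. -/

open Set Filter Topology MeasureTheory
open scoped ENNReal ContDiff ComplexConjugate

namespace H754R3.NSD

set_option linter.unusedSectionVars false

lemma ee_add (j l : Md) (x : R3) : ee (j + l) x = ee j x * ee l x := by
  unfold ee
  rw [← Complex.exp_add, ← mul_add, ← Finset.sum_add_distrib]
  congr 2
  refine Finset.sum_congr rfl fun a _ => ?_
  simp only [Pi.add_apply, Int.cast_add]; ring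

lemma ee_zero (x : R3) : ee 0 x = 1 := by simp [ee]

lemma ee_neg (k : Md) (x : R3) : ee (-k) x = conj (ee k x) := by
  unfold ee
  rw [← Complex.exp_conj]
  congr 1
  simp only [map_mul, map_sum, Complex.conj_I, Complex.conj_ofReal, Pi.neg_apply, Int.cast_neg,
    map_intCast, map_ofNat]
  rw [Finset.mul_sum, Finset.mul_sum]
  refine Finset.sum_congr rfl fun a _ => ?_
  ring

lemma ee_per (k : Md) (x : R3) (j : Fin 3) : ee k (x + Pi.single j 1) = ee k x := by
  unfold ee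
  have h1 : ∑ a, (k a : ℂ) * (((x + Pi.single j 1 : R3) a : ℝ) : ℂ) =
      ∑ a, (k a : ℂ) * (x a : ℂ) + (k j : ℂ) := by
    have : ∀ a, (k a : ℂ) * (((x + Pi.single j 1 : R3) a : ℝ) : ℂ) =
        (k a : ℂ) * (x a : ℂ) + (if a = j then (k j : ℂ) else 0) := by
      intro a
      by_cases h : a = j
      · subst h; simp [mul_add]
      · simp [h]
    rw [Finset.sum_congr rfl fun a _ => this a, Finset.sum_add_distrib]
    simp
  rw [h1, mul_add, Complex.exp_add]
  have h2 : Complex.exp (2 * Real.pi * Complex.I * (k j : ℂ)) = 1 := by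
    have := Complex.exp_int_mul_two_pi_mul_I (k j)
    rw [← this]; congr 1; ring
  rw [h2, mul_one]

lemma Fs_per (f : Md → ℝ → ℂ) (x : R3) (t : ℝ) (j : Fin 3) :
    Fs f (x + Pi.single j 1) t = Fs f x t := by
  unfold Fs; simp_rw [ee_per]

lemma Fs_real {f : Md → ℝ → ℂ} (hs : ∀ k t, f (-k) t = conj (f k t)) (x : R3) (t : ℝ) :
    ((Fs f x t).re : ℂ) = Fs f x t := by
  rw [← Complex.conj_eq_iff_re]
  unfold Fs
  rw [Complex.conj_tsum, ← (Equiv.neg Md).tsum_eq]
  refine tsum_congr fun k => ?_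
  simp only [Equiv.neg_apply]
  rw [hs, ee_neg, map_mul, Complex.conj_conj, Complex.conj_conj]

lemma Fs_mul {f g : Md → ℝ → ℂ} (hf : Dec f) (hg : Dec g) (x : R3) {t : ℝ} (ht : 0 ≤ t) :
    Fs f x t * Fs g x t = Fs (cv f g) x t := by
  have ha : Summable fun j => ‖f j t * ee j x‖ := (Fs_summable hf x ht).norm
  have hb : Summable fun j => ‖g j t * ee j x‖ := (Fs_summable hg x ht).norm
  have hprod := summable_mul_of_summable_norm ha hb
  unfold Fs
  rw [tsum_mul_tsum_of_summable_norm ha hb]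
  let e : Md × Md ≃ Md × Md :=
    { toFun := fun p => (p.2, p.1 - p.2)
      invFun := fun q => (q.1 + q.2, q.1)
      left_inv := fun p => by ext <;> simp
      right_inv := fun q => by ext <;> simp }
  rw [← e.tsum_eq]
  have hs : Summable (fun p : Md × Md => (f p.2 t * ee p.2 x) * (g (p.1 - p.2) t * ee (p.1 - p.2) x)) :=
    e.summable_iff.2 hprod
  rw [show (∑' p, (fun z : Md × Md => f z.1 t * ee z.1 x * (g z.2 t * ee z.2 x)) (e p)) =
    ∑' p : Md × Md, (f p.2 t * ee p.2 x) * (g (p.1 - p.2) t * ee (p.1 - p.2) x) from rfl,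
    hs.tsum_prod]
  refine tsum_congr fun k => ?_
  unfold cv
  rw [← tsum_mul_right]
  refine tsum_congr fun j => ?_
  have h1 : ee k x = ee j x * ee (k - j) x := by
    rw [← ee_add]; congr 1; abel
  simp only
  rw [h1]; ring

lemma Fs_sum {ι : Type*} (s : Finset ι) {f : ι → Md → ℝ → ℂ} (hf : ∀ i ∈ s, Dec (f i)) (x : R3)
    {t : ℝ} (ht : 0 ≤ t) : ∑ i ∈ s, Fs (f i) x t = Fs (fun k t => ∑ i ∈ s, f i k t) x t := by
  unfold Fs
  rw [← Summable.tsum_finsetSum fun i hi => Fs_summable (hf i hi) x ht]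
  exact tsum_congr fun k => by rw [Finset.sum_mul]

lemma Fs_smul (a : ℂ) (f : Md → ℝ → ℂ) (x : R3) (t : ℝ) :
    Fs (fun k t => a * f k t) x t = a * Fs f x t := by
  unfold Fs
  rw [← tsum_mul_left]
  exact tsum_congr fun k => by ring

/-- spatial derivative -/
lemma Fs_dx {f : Md → ℝ → ℂ} (hf : SM 1 f) (x : R3) {t : ℝ} (ht : 0 ≤ t) :
    HasFDerivAt (fun y => Fs f y t) ((lam (fun a => Fs (dk a f) x t) 0).comp
      (ContinuousLinearMap.inl ℝ R3 ℝ)) x := by
  obtain ⟨hfd, g, hg, hfg⟩ := hf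
  have h1 := Fs_hasFDeriv hfd hg.dec hfg x ht
  have h2 : HasFDerivWithinAt (fun y : R3 => (y, t)) (ContinuousLinearMap.inl ℝ R3 ℝ) univ x :=
    ((hasFDerivAt_id x).prodMk (hasFDerivAt_const t x)).hasFDerivWithinAt
  have hmaps : MapsTo (fun y : R3 => (y, t)) univ (univ ×ˢ Ici 0 : Set (R3 × ℝ)) :=
    fun y _ => ⟨mem_univ _, ht⟩
  have h3 := h1.comp x h2 hmaps
  rw [hasFDerivWithinAt_univ] at h3
  refine h3.congr_fderiv ?_
  refine ContinuousLinearMap.ext fun h => ?_
  simp [lam_apply]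

lemma pd_re {f : Md → ℝ → ℂ} (hf : SM 1 f) (x : R3) {t : ℝ} (ht : 0 ≤ t) (a : Fin 3) (r : ℝ) :
    pd a (fun y => r + (Fs f y t).re) x = (Fs (dk a f) x t).re := by
  have h1 := Complex.reCLM.hasFDerivAt.comp x (Fs_dx hf x ht)
  have h2 : HasFDerivAt (fun y => r + (Fs f y t).re) _ x := h1.const_add r
  unfold pd
  rw [h2.fderiv]
  simp only [ContinuousLinearMap.comp_apply, ContinuousLinearMap.inl_apply, lam_apply,
    Complex.reCLM_apply]
  congr 1
  rw [Finset.sum_eq_single a (fun b _ hb => by simp [hb]) (fun h => absurd (Finset.mem_univ a) h)]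
  simp

lemma dt_re {f g : Md → ℝ → ℂ} (hf : Dec f) (hg : Dec g)
    (hfg : ∀ k t, 0 ≤ t → HasDerivWithinAt (f k) (g k t) (Ici 0) t) (x : R3) {t : ℝ} (ht : 0 ≤ t)
    (r : ℝ) : derivWithin (fun s => r + (Fs f x s).re) (Ici 0) t = (Fs g x t).re := by
  obtain ⟨b, hb, hgb⟩ := hg.bound
  have h1 : HasDerivWithinAt (fun s => Fs f x s) (Fs g x t) (Ici 0) t := by
    unfold Fs
    refine hasDerivWithinAt_tsum_Ici (P := fun k s => f k s * ee k x)
      (P' := fun k s => g k s * ee k x) hb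
      (fun k s hs => (hfg k s hs).mul_const _) (fun k s hs => ?_) (Fs_summable hf x le_rfl) ht
    rw [norm_mul, ee_norm, mul_one]; exact hgb k s hs
  have h2 := Complex.reCLM.hasFDerivAt.comp_hasDerivWithinAt t h1
  have h3 : HasDerivWithinAt (fun s => r + (Fs f x s).re) (Complex.reCLM (Fs g x t)) (Ici 0) t :=
    h2.const_add r
  rw [h3.derivWithin (uniqueDiffOn_Ici 0 t ht)]
  rfl

/-- oscillating factor -/
noncomputable def oe (m : R3) (k : Md) (t : ℝ) : ℂ :=
  Complex.exp (-(2 * Real.pi * Complex.I * (∑ a, (k a : ℂ) * (m a : ℂ))) * t)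

/-- frequency of the oscillation -/
noncomputable def of' (m : R3) (k : Md) : ℂ := -(2 * Real.pi * Complex.I * (∑ a, (k a : ℂ) * (m a : ℂ)))

lemma oe_norm (m : R3) (k : Md) (t : ℝ) : ‖oe m k t‖ = 1 := by
  have : -(2 * Real.pi * Complex.I * (∑ a, (k a : ℂ) * (m a : ℂ))) * t =
      ((-(2 * Real.pi * ∑ a, (k a : ℝ) * m a) * t : ℝ) : ℂ) * Complex.I := by
    push_cast; ring
  rw [oe, this, Complex.norm_exp_ofReal_mul_I]

lemma oe_deriv (m : R3) (k : Md) (t : ℝ) : HasDerivAt (oe m k) (of' m k * oe m k t) t := by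
  have h1 : HasDerivAt (fun t : ℝ => of' m k * (t : ℂ)) (of' m k) t := by
    have := (Complex.ofRealCLM.hasDerivAt (x := t)).const_mul (of' m k)
    simpa using this
  have h2 := h1.cexp
  have e : oe m k = fun t : ℝ => Complex.exp (of' m k * (t : ℂ)) := rfl
  rw [e]
  refine h2.congr_deriv ?_
  ring

lemma of_sub (m : R3) : SubE (of' m) := by
  have : of' m = fun k => (-(2 * Real.pi * Complex.I)) * ∑ a, (k a : ℂ) * (m a : ℂ) := by
    funext k; unfold of'; ring
  rw [this]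
  refine (SubE.const _).mul ?_
  intro σ hσ
  have h1 : ∀ i : Fin 3, ∃ A, ∀ k : Md, ‖(k i : ℂ) * (m i : ℂ)‖ ≤ A * Real.exp (σ * n1 k) := fun i =>
    ((SubE.coord i).mul (SubE.const (m i : ℂ))) σ hσ
  choose A hA using h1
  refine ⟨∑ i, A i, fun k => ?_⟩
  refine (norm_sum_le _ _).trans ?_
  rw [Finset.sum_mul]
  exact Finset.sum_le_sum fun i _ => hA i k

/-- multiplication by the oscillating factor -/
noncomputable def osc (m : R3) (f : Md → ℝ → ℂ) : Md → ℝ → ℂ := fun k t => oe m k t * f k t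

lemma osc_dec (m : R3) {f : Md → ℝ → ℂ} (hf : Dec f) : Dec (osc m f) := by
  obtain ⟨σ, hσ, C, hC⟩ := hf
  exact ⟨σ, hσ, C, fun k t ht => by rw [osc, norm_mul, oe_norm, one_mul]; exact hC k t ht⟩

lemma osc_deriv (m : R3) {f g : Md → ℝ → ℂ}
    (hfg : ∀ k t, 0 ≤ t → HasDerivWithinAt (f k) (g k t) (Ici 0) t) (k : Md) (t : ℝ) (ht : 0 ≤ t) :
    HasDerivWithinAt (osc m f k) (of' m k * osc m f k t + osc m g k t) (Ici 0) t := by
  have := (oe_deriv m k t).hasDerivWithinAt (s := Ici 0) |>.mul (hfg k t ht)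
  refine this.congr_deriv ?_
  simp only [osc]; ring

lemma osc_SM (m : R3) (n : ℕ) : ∀ {f : Md → ℝ → ℂ}, SM n f → SM n (osc m f) := by
  induction n with
  | zero =>
      intro f hf
      refine ⟨fun k => ?_, osc_dec m hf.2⟩
      have h1 : Continuous (oe m k) := by
        unfold oe; fun_prop
      exact h1.continuousOn.mul (hf.1 k)
  | succ n ih =>
      intro f hf
      have hf0 := hf.pred
      obtain ⟨hd, g, hg, hfg⟩ := hf
      exact ⟨osc_dec m hd, _, ((ih hf0).smulS (of_sub m)).add (ih hg), osc_deriv m hfg⟩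

lemma Fs_osc (m : R3) (f : Md → ℝ → ℂ) (x : R3) (t : ℝ) :
    Fs (osc m f) x t = Fs f (fun a => x a - t * m a) t := by
  unfold Fs
  refine tsum_congr fun k => ?_
  have : ee k (fun a => x a - t * m a) = oe m k t * ee k x := by
    unfold ee oe
    rw [← Complex.exp_add]
    congr 1
    have : ∑ a, (k a : ℂ) * ((x a - t * m a : ℝ) : ℂ) =
        ∑ a, (k a : ℂ) * (x a : ℂ) - t * ∑ a, (k a : ℂ) * (m a : ℂ) := by
      rw [Finset.mul_sum, ← Finset.sum_sub_distrib]
      refine Finset.sum_congr rfl fun a _ => ?_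
      push_cast; ring
    rw [this]; ring
  rw [this, osc]; ring

lemma dk_osc (m : R3) (a : Fin 3) (f : Md → ℝ → ℂ) : dk a (osc m f) = osc m (dk a f) := by
  funext k t; simp only [dk, osc]; ring

lemma Fs_add {f g : Md → ℝ → ℂ} (hf : Dec f) (hg : Dec g) (x : R3) {t : ℝ} (ht : 0 ≤ t) :
    Fs (fun k t => f k t + g k t) x t = Fs f x t + Fs g x t := by
  unfold Fs
  rw [← (Fs_summable hf x ht).tsum_add (Fs_summable hg x ht)]
  exact tsum_congr fun k => by ring

lemma Fs_of (m : R3) {f : Md → ℝ → ℂ} (hf : Dec f) (x : R3) {t : ℝ} (ht : 0 ≤ t) :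
    Fs (fun k t => of' m k * f k t) x t = -∑ a, (m a : ℂ) * Fs (dk a f) x t := by
  have h1 : ∀ a, (m a : ℂ) * Fs (dk a f) x t = Fs (fun k t => (m a : ℂ) * dk a f k t) x t := fun a =>
    (Fs_smul _ _ _ _).symm
  rw [Finset.sum_congr rfl fun a _ => h1 a,
    Fs_sum _ (fun a _ => (dk_dec a hf).smulS (SubE.const (m a : ℂ))) x ht]
  unfold Fs
  rw [← tsum_neg]
  refine tsum_congr fun k => ?_
  rw [← neg_mul]
  congr 1
  unfold of' dk
  simp only
  rw [Finset.mul_sum, ← Finset.sum_neg_distrib, ← Finset.sum_neg_distrib, Finset.sum_mul]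
  exact Finset.sum_congr rfl fun a _ => by ring

end H754R3.NSD
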