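import Mathlib
import Pool.Agent.H754R3.NSD.Pde
import Pool.Agent.H754R3.NSD.UbSm

/-! From Fourier coefficients to admissible periodic solutions. -/

open Set Filter Topology MeasureTheory
open scoped ENNReal ContDiff ComplexConjugate

namespace H754R3.NSD

set_option linter.unusedSectionVars false

/-- the vector field with mean `m` and Fourier coefficients `v` -/
noncomputable def fld (m : R3) (v : Md → V3) (x : R3) : R3 :=
  fun i => m i + (∑' k, v k i * ee k x).re

/-- pressure coefficients -/
noncomputable def ph (w : Md → ℝ → V3) (k : Md) (t : ℝ) : ℂ :=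
  ∑ a, ∑ b, (-((k a : ℂ) * (k b : ℂ) / (nsq k : ℂ))) *
    cv (fun k t => w k t a) (fun k t => w k t b) k t

lemma ph_SM {n : ℕ} {w : Md → ℝ → V3} (hw : ∀ a, SM n fun k t => w k t a) : SM n (ph w) := by
  unfold ph
  refine SM_sum _ fun a _ => SM_sum _ fun b _ => ((hw a).cv (hw b)).smulS ?_
  exact SubE.of_bdd (A := 1) fun k => by rw [norm_neg]; exact ratio_bdd a b k

lemma mode_id {w : Md → ℝ → V3} (hdec : ∀ a, Dec fun k t => w k t a)
    (hdiv : ∀ k t, dotk k (w k t) = 0) {c ν : ℝ} (hcν : c = 4 * Real.pi ^ 2 * ν) (k : Md) {t : ℝ}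
    (ht : 0 ≤ t) (i : Fin 3) :
    RH c w i k t + ∑ j, cv (fun k t => w k t j) (dk j fun k t => w k t i) k t =
      (ν : ℂ) * ∑ j, dk j (dk j fun k t => w k t i) k t - dk i (ph w) k t := by
  have s1 : ∀ j, Summable fun l => w l t j * (dk j fun k t => w k t i) (k - l) t := fun j =>
    cv_summable (hdec j) (dk_dec j (hdec i)) k ht
  have s2 : ∀ j, Summable fun l => w l t j * w (k - l) t i := fun j =>
    cv_summable (hdec j) (hdec i) k ht
  have step1 : ∑ j, cv (fun k t => w k t j) (dk j fun k t => w k t i) k t =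
      ∑ j, 2 * Real.pi * Complex.I * (k j : ℂ) * cv (fun k t => w k t j) (fun k t => w k t i) k t := by
    unfold cv
    simp_rw [← tsum_mul_left]
    rw [← Summable.tsum_finsetSum fun j _ => s1 j,
      ← Summable.tsum_finsetSum fun j _ => (s2 j).mul_left _]
    refine tsum_congr fun l => ?_
    have h0 : ∑ j, (l j : ℂ) * w l t j = 0 := hdiv l t
    have h1 : ∑ j, (2 * Real.pi * Complex.I * (k j : ℂ) * (w l t j * w (k - l) t i) -
        w l t j * (dk j fun k t => w k t i) (k - l) t) = 0 := by
      have : ∀ j, 2 * Real.pi * Complex.I * (k j : ℂ) * (w l t j * w (k - l) t i) -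
        w l t j * (dk j fun k t => w k t i) (k - l) t =
          2 * Real.pi * Complex.I * w (k - l) t i * ((l j : ℂ) * w l t j) := by
        intro j
        simp only [dk, Pi.sub_apply, Int.cast_sub]
        ring
      rw [Finset.sum_congr rfl fun j _ => this j, ← Finset.mul_sum, h0, mul_zero]
    rw [Finset.sum_sub_distrib, sub_eq_zero] at h1
    exact h1.symm
  rw [step1]
  set C : Fin 3 → Fin 3 → ℂ := fun a b => cv (fun k t => w k t a) (fun k t => w k t b) k t with hC
  have step2 : ∑ a, ∑ b, Mc a b i k * C a b =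
      -∑ a, 2 * Real.pi * Complex.I * (k a : ℂ) * C a i +
        2 * Real.pi * Complex.I * (k i : ℂ) *
          ∑ a, ∑ b, ((k a : ℂ) * (k b : ℂ) / (nsq k : ℂ)) * C a b := by
    rw [Finset.mul_sum, ← Finset.sum_neg_distrib, ← Finset.sum_add_distrib]
    refine Finset.sum_congr rfl fun a _ => ?_
    have : ∀ b, Mc a b i k * C a b = (if b = i then -(2 * Real.pi * Complex.I * (k a : ℂ) * C a b) else 0)
        + 2 * Real.pi * Complex.I * (k i : ℂ) * (((k a : ℂ) * (k b : ℂ) / (nsq k : ℂ)) * C a b) := by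
      intro b
      unfold Mc
      split_ifs <;> ring
    rw [Finset.sum_congr rfl fun b _ => this b, Finset.sum_add_distrib, ← Finset.mul_sum]
    simp
  have step3 : ∑ j, dk j (dk j fun k t => w k t i) k t =
      -(4 * Real.pi ^ 2 * (nsq k : ℂ)) * w k t i := by
    have : ∀ j, dk j (dk j fun k t => w k t i) k t =
        (-(4 * (Real.pi : ℂ) ^ 2) * w k t i) * (((k j : ℝ) ^ 2 : ℝ) : ℂ) := by
      intro j
      simp only [dk]
      push_cast
      linear_combination (4 * (Real.pi : ℂ) ^ 2 * (k j : ℂ) ^ 2 * w k t i) * Complex.I_mul_I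
    rw [Finset.sum_congr rfl fun j _ => this j, ← Finset.mul_sum, nsq]
    push_cast
    ring
  have step4 : dk i (ph w) k t = -(2 * Real.pi * Complex.I * (k i : ℂ) *
          ∑ a, ∑ b, ((k a : ℂ) * (k b : ℂ) / (nsq k : ℂ)) * C a b) := by
    unfold dk ph
    simp only [neg_mul, Finset.sum_neg_distrib, mul_neg]
    rfl
  rw [step3, step4]
  have hRH : RH c w i k t = -((c * nsq k : ℝ) : ℂ) * w k t i + ∑ a, ∑ b, Mc a b i k * C a b := rfl
  rw [hRH, step2, hcν]
  push_cast
  ring

lemma phys_id {w : Md → ℝ → V3} (hdec : ∀ a, Dec fun k t => w k t a)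
    (hdiv : ∀ k t, dotk k (w k t) = 0) {c ν : ℝ} (hcν : c = 4 * Real.pi ^ 2 * ν)
    (hRH : ∀ i, Dec (RH c w i)) (hph : Dec (ph w)) (y : R3) {t : ℝ} (ht : 0 ≤ t) (i : Fin 3) :
    Fs (RH c w i) y t + ∑ j, Fs (fun k t => w k t j) y t * Fs (dk j fun k t => w k t i) y t =
      (ν : ℂ) * ∑ j, Fs (dk j (dk j fun k t => w k t i)) y t - Fs (dk i (ph w)) y t := by
  have d1 : ∀ j, Dec (cv (fun k t => w k t j) (dk j fun k t => w k t i)) := fun j =>
    (hdec j).cv (dk_dec j (hdec i))
  have d2 : ∀ j, Dec (dk j (dk j fun k t => w k t i)) := fun j => dk_dec j (dk_dec j (hdec i))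
  have e1 : ∑ j, Fs (fun k t => w k t j) y t * Fs (dk j fun k t => w k t i) y t =
      Fs (fun k t => ∑ j, cv (fun k t => w k t j) (dk j fun k t => w k t i) k t) y t := by
    rw [← Fs_sum _ (fun j _ => d1 j) y ht]
    exact Finset.sum_congr rfl fun j _ => Fs_mul (hdec j) (dk_dec j (hdec i)) y ht
  have d1s : Dec (fun k t => ∑ j, cv (fun k t => w k t j) (dk j fun k t => w k t i) k t) := by
    have : ∀ k t, (fun k t => ∑ j, cv (fun k t => w k t j) (dk j fun k t => w k t i) k t) k t =
      (fun k t => cv (fun k t => w k t 0) (dk 0 fun k t => w k t i) k t +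
        cv (fun k t => w k t 1) (dk 1 fun k t => w k t i) k t +
        cv (fun k t => w k t 2) (dk 2 fun k t => w k t i) k t) k t := by
      intro k t; exact Fin.sum_univ_three _
    rw [show (fun k t => ∑ j, cv (fun k t => w k t j) (dk j fun k t => w k t i) k t) = _ from
      funext fun k => funext fun t => this k t]
    exact ((d1 0).add (d1 1)).add (d1 2)
  have d2s : Dec (fun k t => ∑ j, dk j (dk j fun k t => w k t i) k t) := by
    rw [show (fun k t => ∑ j, dk j (dk j fun k t => w k t i) k t) =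
      (fun k t => dk 0 (dk 0 fun k t => w k t i) k t + dk 1 (dk 1 fun k t => w k t i) k t +
        dk 2 (dk 2 fun k t => w k t i) k t) from
      funext fun k => funext fun t => Fin.sum_univ_three _]
    exact ((d2 0).add (d2 1)).add (d2 2)
  rw [e1, Fs_sum _ (fun j _ => d2 j) y ht]
  have s1 := Fs_summable (hRH i) y ht
  have s2 := Fs_summable d1s y ht
  have s3 := Fs_summable d2s y ht
  have s4 := Fs_summable (dk_dec i hph) y ht
  unfold Fs
  rw [← s1.tsum_add s2, ← tsum_mul_left, ← (s3.mul_left (ν : ℂ)).tsum_sub s4]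
  refine tsum_congr fun k => ?_
  have := mode_id hdec hdiv hcν k ht i
  rw [← add_mul, this]
  ring

section
variable {c ν : ℝ} {v : Md → V3} {u : Md → L2 V3} (hc : 0 < c) (h : IsSol c v u) (hv0 : v 0 = 0)
  {Cv σv : ℝ} (hσv : 0 < σv) (hv : ∀ k, ‖v k‖ ≤ Cv * Real.exp (-(σv * n1 k)))
  (hvS : ∀ k, v (-k) = conjV (v k)) (hvd : ∀ k, dotk k (v k) = 0) (hcν : c = 4 * Real.pi ^ 2 * ν)
include hc h hv0 hσv hv hvS hvd hcν

theorem globalSol_of_isSol (m : R3) :
    GlobalSol ν (fld m v)
      (fun x t i => m i + (Fs (osc m fun k t => ub c v u k t i) x t).re)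
      (fun x t => (Fs (osc m (ph (ub c v u))) x t).re) := by
  set w := ub c v u with hw
  have hSM : ∀ n i, SM n fun k t => w k t i := fun n i => U_SM hc h hv0 hσv hv n i
  have hdec : ∀ a, Dec fun k t => w k t a := fun a => (hSM 0 a).dec
  have hdiv : ∀ k t, dotk k (w k t) = 0 := fun k t => ub_div hc h hvd k t
  have hRHS : ∀ n i, SM n (RH c w i) := fun n i => RH_SM hc (hSM n) i
  have hpS : ∀ n, SM n (ph w) := fun n => ph_SM (hSM n)
  have hreal : ∀ i y t, ((Fs (fun k t => w k t i) y t).re : ℂ) = Fs (fun k t => w k t i) y t := by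
    intro i y t
    refine Fs_real (fun k t => ?_) y t
    rw [hw, ub_sym hc h hvS k t]
    rfl
  have hO : ∀ n i, SM n (osc m fun k t => w k t i) := fun n i => osc_SM m n (hSM n i)
  have hOp : ∀ n, SM n (osc m (ph w)) := fun n => osc_SM m n (hpS n)
  have hpd : ∀ i j y t, 0 ≤ t → pd j (fun y => m i + (Fs (osc m fun k t => w k t i) y t).re) y =
      (Fs (dk j (osc m fun k t => w k t i)) y t).re := fun i j y t ht => pd_re (hO 1 i) y ht j (m i)
  refine ⟨?_, ?_, ?_, ?_, ?_, ?_, ?_⟩
  · refine contDiffOn_pi.2 fun i => contDiffOn_const.add ?_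
    exact Complex.reCLM.contDiff.comp_contDiffOn (Fs_smooth fun n => hO n i)
  · exact Complex.reCLM.contDiff.comp_contDiffOn (Fs_smooth fun n => hOp n)
  · intro x t j _
    funext i
    rw [Fs_per]
  · intro x t j _
    exact congrArg Complex.re (Fs_per _ _ _ _)
  · intro x
    funext i
    unfold fld
    congr 2
    unfold Fs
    refine tsum_congr fun k => ?_
    have h1 : oe m k 0 = 1 := by unfold oe; simp
    have h2 : ub c v u k 0 = v k := by
      rw [ub_eq hc h hv0 k 0, duh_of_nonpos _ _ le_rfl]; simp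
    simp only [osc]
    rw [h1, hw, h2, one_mul]
  · intro x t ht
    have h1 : ∀ j, pd j (fun y => m j + (Fs (osc m fun k t => w k t j) y t).re) x =
      (Fs (dk j (osc m fun k t => w k t j)) x t).re := fun j => hpd j j x t ht
    rw [Finset.sum_congr rfl fun j _ => h1 j, ← Complex.re_sum,
      Fs_sum _ (fun j _ => dk_dec j (hO 0 j).dec) x ht]
    have h2 : Fs (fun k t => ∑ j, dk j (osc m fun k t => w k t j) k t) x t = 0 := by
      unfold Fs
      have : ∀ k : Md, (∑ j, dk j (osc m fun k t => w k t j) k t) * ee k x = 0 := by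
        intro k
        have e : ∑ j, dk j (osc m fun k t => w k t j) k t =
            2 * Real.pi * Complex.I * oe m k t * dotk k (w k t) := by
          unfold dotk dk osc
          rw [Finset.mul_sum]
          exact Finset.sum_congr rfl fun j _ => by ring
        rw [e, hdiv, mul_zero, zero_mul]
      simp [this]
    rw [h2]; rfl
  · intro x t i ht
    set y : R3 := fun a => x a - t * m a with hy
    have hOi := hO 2 i
    -- time derivative
    have hdt : derivWithin (fun s => m i + (Fs (osc m fun k t => w k t i) x s).re) (Ici 0) t =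
        (Fs (fun k t => of' m k * osc m (fun k t => w k t i) k t + osc m (RH c w i) k t) x t).re := by
      refine dt_re (hO 0 i).dec ?_ ?_ x ht (m i)
      · exact ((hO 0 i).dec.smulS (of_sub m)).add (osc_dec m (hRHS 0 i).dec)
      · exact osc_deriv m (fun k t ht => U_deriv hc h hv0 hσv hv k ht i)
    have hdt2 : Fs (fun k t => of' m k * osc m (fun k t => w k t i) k t + osc m (RH c w i) k t) x t =
        -∑ a, (m a : ℂ) * Fs (dk a fun k t => w k t i) y t + Fs (RH c w i) y t := by
      rw [Fs_add ((hO 0 i).dec.smulS (of_sub m)) (osc_dec m (hRHS 0 i).dec) x ht,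
        Fs_of m (hO 0 i).dec x ht, Fs_osc]
      congr 2
      refine Finset.sum_congr rfl fun a _ => ?_
      rw [dk_osc, Fs_osc]
    have hdx : ∀ j, pd j (fun y => m i + (Fs (osc m fun k t => w k t i) y t).re) x =
        (Fs (dk j fun k t => w k t i) y t).re := by
      intro j
      rw [hpd i j x t ht, dk_osc, Fs_osc]
    have hlap : ∀ j, pd j (pd j fun y => m i + (Fs (osc m fun k t => w k t i) y t).re) x =
        (Fs (dk j (dk j fun k t => w k t i)) y t).re := by
      intro j
      have e : (pd j fun y => m i + (Fs (osc m fun k t => w k t i) y t).re) =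
          fun y => (0:ℝ) + (Fs (dk j (osc m fun k t => w k t i)) y t).re := by
        funext y; rw [zero_add]; exact hpd i j y t ht
      rw [e, pd_re (dk_SM j (hO 1 i)) x ht j 0, dk_osc, dk_osc, Fs_osc]
    have hpp : pd i (fun y => (Fs (osc m (ph w)) y t).re) x = (Fs (dk i (ph w)) y t).re := by
      have e : (fun y => (Fs (osc m (ph w)) y t).re) = fun y => (0:ℝ) + (Fs (osc m (ph w)) y t).re := by
        funext y; rw [zero_add]
      rw [e, pd_re (hOp 1) x ht i 0, dk_osc, Fs_osc]
    have hu : ∀ j, (Fs (osc m fun k t => w k t j) x t).re = (Fs (fun k t => w k t j) y t).re := by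
      intro j; rw [Fs_osc]
    have key := phys_id hdec hdiv hcν (fun i => (hRHS 0 i).dec) (hpS 0).dec y ht i
    have keyre := congrArg Complex.re key
    simp only [Complex.add_re, Complex.sub_re, Complex.re_sum] at keyre
    have hmulre : ∀ (r : ℝ) (z : ℂ), ((r : ℂ) * z).re = r * z.re := by
      intro r z; simp
    have hV : ∀ j, (Fs (fun k t => w k t j) y t * Fs (dk j fun k t => w k t i) y t).re =
        (Fs (fun k t => w k t j) y t).re * (Fs (dk j fun k t => w k t i) y t).re := by
      intro j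
      rw [← hmulre, hreal]
    rw [hmulre, Complex.re_sum, Finset.sum_congr rfl fun j _ => hV j] at keyre
    rw [hdt, hdt2, hpp]
    simp only [hdx, hlap, hu, Complex.add_re, Complex.neg_re, Complex.re_sum, hmulre]
    rw [← keyre]
    simp only [add_mul, Finset.sum_add_distrib]
    ring

end

end H754R3.NSD
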