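import Mathlib
import Pool.Agent.H754R3.NSD.Asm2
import Pool.Agent.H754R3.NSD.Pde2
import Pool.Agent.H459R3.NS.Phys2

/-! Fourier coefficients of periodic data, truncation. -/

open Set Filter Topology MeasureTheory
open scoped ENNReal ContDiff ComplexConjugate

namespace H754R3.NSD

set_option linter.unusedSectionVars false

lemma ee_eq (k : Md) (x : R3) : H459R3.NS.ee k x = ee k x := by
  unfold H459R3.NS.ee H459R3.NS.ph ee
  push_cast
  rfl

lemma exp_eq_ee (k : Md) (x : R3) :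
    Complex.exp (-(2 * Real.pi * Complex.I * ∑ a, (k a : ℂ) * (x a : ℂ))) = ee (-k) x := by
  unfold ee
  congr 1
  simp only [Pi.neg_apply, Int.cast_neg, neg_mul, Finset.sum_neg_distrib, mul_neg]

lemma coef_eq (f : R3 → ℝ) (k : Md) : coef f k = H459R3.NS.fr f k := by
  unfold coef H459R3.NS.fr H459R3.NS.fc H459R3.NS.cube
  congr 1
  funext x
  rw [ee_eq, exp_eq_ee]

lemma coef_S {f : R3 → ℝ} {b : Md → ℂ} (hb : Summable b)
    (h : ∀ x, (f x : ℂ) = ∑' k, b k * ee k x) (k : Md) : coef f k = b k := by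
  rw [coef_eq]
  have h1 := H459R3.NS.integral_ee_S (-k) hb
  rw [neg_neg] at h1
  rw [← h1]
  unfold H459R3.NS.fr H459R3.NS.fc
  congr 1
  funext x
  show H459R3.NS.ee (-k) x * ((f x : ℝ) : ℂ) = _
  rw [h x]
  unfold H459R3.NS.S
  congr 1
  exact tsum_congr fun k => by rw [ee_eq]

lemma coef_conj (f : R3 → ℝ) (k : Md) : coef f (-k) = conj (coef f k) := by
  unfold coef
  rw [← integral_conj]
  congr 1
  funext x
  rw [map_mul, Complex.conj_ofReal, exp_eq_ee, exp_eq_ee, neg_neg]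
  congr 1
  rw [ee_neg, Complex.conj_conj]

section
variable {u₀ : R3 → R3} (hu : Datum u₀)
include hu

lemma Datum.SP (i : Fin 3) : H459R3.NS.SP fun x => u₀ x i where
  smooth := contDiff_pi.1 hu.smooth i
  per := fun j x => congrFun (hu.periodic x j) i

lemma Datum.summable (i : Fin 3) : Summable fun k => coef (fun x => u₀ x i) k := by
  have := (H459R3.NS.rap_fr (hu.SP i)).summable
  refine this.congr fun k => ?_
  rw [coef_eq]

lemma Datum.series (i : Fin 3) (x : R3) :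
    ((u₀ x i : ℝ) : ℂ) = ∑' k, coef (fun x => u₀ x i) k * ee k x := by
  rw [← H459R3.NS.S_fr (hu.SP i) x]
  unfold H459R3.NS.S
  exact tsum_congr fun k => by rw [coef_eq, ee_eq]

/-- Fourier coefficients of the datum -/
noncomputable def uh (u₀ : R3 → R3) (k : Md) : V3 := fun i => coef (fun x => u₀ x i) k

lemma Datum.uh_div (k : Md) : dotk k (uh u₀ k) = 0 := by
  have h1 : ∀ j, H459R3.NS.fr (H459R3.NS.pd j fun x => u₀ x j) k =
      (2 * Real.pi * Complex.I * (k j : ℂ)) * coef (fun x => u₀ x j) k := by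
    intro j
    rw [H459R3.NS.fr_pd (hu.SP j) j, coef_eq]
    rfl
  have h2 : ∑ j, H459R3.NS.fr (H459R3.NS.pd j fun x => u₀ x j) k = 0 := by
    unfold H459R3.NS.fr H459R3.NS.fc
    rw [← integral_finset_sum]
    · have : ∀ x : R3, ∑ j, H459R3.NS.ee (-k) x * ((H459R3.NS.pd j (fun x => u₀ x j) x : ℝ) : ℂ) = 0 := by
        intro x
        rw [← Finset.mul_sum, ← Complex.ofReal_sum]
        have := hu.divfree x
        rw [show ∑ j, H459R3.NS.pd j (fun x => u₀ x j) x = 0 from this]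
        simp
      simp [this]
    · intro j _
      refine H459R3.NS.integrableOn_cube ?_
      refine (H459R3.NS.ee_continuous _).mul (Complex.continuous_ofReal.comp ?_)
      exact ((hu.SP j).pd j).smooth.continuous
  rw [Finset.sum_congr rfl fun j _ => h1 j] at h2
  have h3 : 2 * Real.pi * Complex.I * dotk k (uh u₀ k) = 0 := by
    unfold dotk uh
    rw [Finset.mul_sum, ← h2]
    exact Finset.sum_congr rfl fun j _ => by ring
  have h4 : (2 * Real.pi * Complex.I : ℂ) ≠ 0 := by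
    simp [Real.pi_ne_zero]
  exact (mul_eq_zero.1 h3).resolve_left h4

omit hu in
lemma uh_sym (k : Md) : uh u₀ (-k) = conjV (uh u₀ k) := by
  funext i
  rw [conjV_apply]
  exact coef_conj _ k

lemma Datum.uh_summable : ∑' k, ‖uh u₀ k‖ₑ ≠ (⊤ : ℝ≥0∞) := by
  have h1 : Summable fun k => uh u₀ k := Pi.summable.2 fun i => hu.summable i
  have h2 : Summable fun k => ‖uh u₀ k‖ := h1.norm
  have h3 := h2.tsum_ofReal_ne_top
  simpa [ofReal_norm] using h3

end

/-- truncation -/
lemma exists_trunc {u₀ : R3 → R3} (hu : Datum u₀) (N : ℕ) {δ : ℝ≥0∞} (hδ : 0 < δ) :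
    ∃ F : Finset Md, (∀ k ∈ F, -k ∈ F) ∧ (∀ k : Md, (∀ j, |k j| ≤ N) → k ∈ F) ∧
      ∑' k, ‖(if k ∈ F then (0 : V3) else uh u₀ k)‖ₑ ≤ δ := by
  classical
  have h1 := ENNReal.tendsto_tsum_compl_atTop_zero hu.uh_summable
  obtain ⟨s, hs⟩ := ((h1.eventually_le_const hδ)).exists_forall_of_atTop
  set B : Finset Md := Fintype.piFinset fun _ => Finset.Icc (-(N:ℤ)) N with hB
  refine ⟨(s ∪ s.image Neg.neg) ∪ (B ∪ B.image Neg.neg), ?_, ?_, ?_⟩
  · intro k hk
    simp only [Finset.mem_union, Finset.mem_image] at hk ⊢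
    rcases hk with (h | ⟨a, ha, rfl⟩) | (h | ⟨a, ha, rfl⟩)
    · exact Or.inl (Or.inr ⟨k, h, rfl⟩)
    · rw [neg_neg]; exact Or.inl (Or.inl ha)
    · exact Or.inr (Or.inr ⟨k, h, rfl⟩)
    · rw [neg_neg]; exact Or.inr (Or.inl ha)
  · intro k hk
    refine Finset.mem_union_right _ (Finset.mem_union_left _ ?_)
    rw [hB, Fintype.mem_piFinset]
    intro j
    rw [Finset.mem_Icc]
    exact abs_le.1 (hk j)
  · set F := (s ∪ s.image Neg.neg) ∪ (B ∪ B.image Neg.neg)
    have h2 := hs F (fun x hx => Finset.mem_union_left _ (Finset.mem_union_left _ hx))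
    refine le_trans (le_of_eq ?_) h2
    have e : ∀ k, ‖(if k ∈ F then (0 : V3) else uh u₀ k)‖ₑ =
        ({k : Md | k ∉ F}).indicator (fun k => ‖uh u₀ k‖ₑ) k := by
      intro k
      by_cases h : k ∈ F
      · simp [h]
      · simp [h]
    simp_rw [e]
    exact (tsum_subtype {k : Md | k ∉ F} fun k => ‖uh u₀ k‖ₑ).symm

lemma expdec_of_fin {v : Md → V3} (hv : (Function.support v).Finite) :
    ∃ C : ℝ, ∀ k, ‖v k‖ ≤ C * Real.exp (-(1 * n1 k)) := by
  classical
  refine ⟨∑ k ∈ hv.toFinset, ‖v k‖ * Real.exp (n1 k), fun k => ?_⟩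
  by_cases h : k ∈ hv.toFinset
  · have h1 : ‖v k‖ * Real.exp (n1 k) ≤ ∑ k ∈ hv.toFinset, ‖v k‖ * Real.exp (n1 k) :=
      Finset.single_le_sum (f := fun k => ‖v k‖ * Real.exp (n1 k)) (fun i _ => by positivity) h
    calc ‖v k‖ = (‖v k‖ * Real.exp (n1 k)) * Real.exp (-(1 * n1 k)) := by
          rw [mul_assoc, ← Real.exp_add]; simp
      _ ≤ _ := by gcongr
  · have : v k = 0 := by simpa using h
    rw [this, norm_zero]
    exact mul_nonneg (Finset.sum_nonneg fun i _ => by positivity) (Real.exp_pos _).le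

end H754R3.NSD
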