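import Mathlib
import Pool.Agent.H754R3.NSD.Fin1
import Pool.Agent.H754R3.NSD.Decay

/-! The density theorem. -/

open Set Filter Topology MeasureTheory
open scoped ENNReal ContDiff ComplexConjugate

namespace H754R3.NSD

set_option linter.unusedSectionVars false

lemma bN_le {f : R3 → R3} {D : Md → V3} (hD : ∀ k i, coef (fun y => f y i) k = D k i) (t : ℝ) :
    bN f t ≤ HHe D t := by
  unfold bN
  refine iSup_le fun x => iSup_le fun i => ?_
  rw [ENNReal.ofReal_mul (Real.sqrt_nonneg t), ofReal_norm]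
  unfold heat HHe
  calc ENNReal.ofReal (Real.sqrt t) * ‖∑' k : Fin 3 → ℤ,
        (Real.exp (-(4 * Real.pi ^ 2 * (∑ a, (k a : ℝ) ^ 2) * t)) : ℂ) * coef (fun y => f y i) k *
        Complex.exp (2 * Real.pi * Complex.I * ∑ a, (k a : ℂ) * (x a : ℂ))‖ₑ
      ≤ ENNReal.ofReal (Real.sqrt t) * ∑' k : Fin 3 → ℤ,
        ‖(Real.exp (-(4 * Real.pi ^ 2 * (∑ a, (k a : ℝ) ^ 2) * t)) : ℂ) * coef (fun y => f y i) k *
        Complex.exp (2 * Real.pi * Complex.I * ∑ a, (k a : ℂ) * (x a : ℂ))‖ₑ := by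
        gcongr; exact enorm_tsum_le_tsum_enorm
    _ = ∑' k : Fin 3 → ℤ, ENNReal.ofReal (Real.sqrt t) *
        ‖(Real.exp (-(4 * Real.pi ^ 2 * (∑ a, (k a : ℝ) ^ 2) * t)) : ℂ) * coef (fun y => f y i) k *
        Complex.exp (2 * Real.pi * Complex.I * ∑ a, (k a : ℂ) * (x a : ℂ))‖ₑ :=
        ENNReal.tsum_mul_left.symm
    _ ≤ _ := ENNReal.tsum_le_tsum fun k => ?_
  have h1 : ‖Complex.exp (2 * Real.pi * Complex.I * ∑ a, (k a : ℂ) * (x a : ℂ))‖ₑ = 1 := by
    rw [← ofReal_norm, show ‖Complex.exp (2 * Real.pi * Complex.I * ∑ a, (k a : ℂ) * (x a : ℂ))‖ = 1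
      from ee_norm k x]; simp
  have h2 : ‖(Real.exp (-(4 * Real.pi ^ 2 * (∑ a, (k a : ℝ) ^ 2) * t)) : ℂ)‖ₑ =
      ENNReal.ofReal (Real.exp (-(4 * Real.pi ^ 2 * nsq k * t))) := by
    rw [← ofReal_norm, Complex.norm_real, Real.norm_of_nonneg (Real.exp_pos _).le]
    rfl
  rw [enorm_mul, enorm_mul, h1, h2, mul_one, hD, ← mul_assoc, ← ENNReal.ofReal_mul (Real.sqrt_nonneg t)]
  gcongr
  rw [← ofReal_norm, ← ofReal_norm]
  exact ENNReal.ofReal_le_ofReal (norm_le_pi_norm (D k) i)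

lemma HHe_tail {T : Md → V3} (hT0 : T 0 = 0) {δ : ℝ≥0∞} (hT : ∑' k, ‖T k‖ₑ ≤ δ) {t : ℝ}
    (ht : 0 ≤ t) :
    HHe T t ≤ ENNReal.ofReal (Real.sqrt t * Real.exp (-(4 * Real.pi ^ 2 * t))) * δ := by
  unfold HHe
  calc _ ≤ ∑' k, ENNReal.ofReal (Real.sqrt t * Real.exp (-(4 * Real.pi ^ 2 * t))) * ‖T k‖ₑ := by
        refine ENNReal.tsum_le_tsum fun k => ?_
        by_cases hk : k = 0
        · subst hk; rw [hT0]; simp
        · have h1 := one_le_nsq hk
          gcongr ENNReal.ofReal (Real.sqrt t * Real.exp (-?_)) * _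
          calc 4 * Real.pi ^ 2 * t = 4 * Real.pi ^ 2 * 1 * t := by ring
            _ ≤ _ := by gcongr
    _ = _ := ENNReal.tsum_mul_left
    _ ≤ _ := by gcongr

lemma sqrt_exp_le {t : ℝ} (ht : 0 ≤ t) : Real.sqrt t * Real.exp (-(4 * Real.pi ^ 2 * t)) ≤ 1 := by
  have hpi := Real.pi_gt_three
  have h1 : Real.sqrt t ≤ 1 + t := by
    rw [Real.sqrt_le_left (by linarith)]; nlinarith
  have h2 : 1 + t ≤ Real.exp (4 * Real.pi ^ 2 * t) := by
    have h3 := Real.add_one_le_exp (4 * Real.pi ^ 2 * t)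
    have h4 : t ≤ 4 * Real.pi ^ 2 * t := by
      have : (1:ℝ) ≤ 4 * Real.pi ^ 2 := by nlinarith
      nlinarith
    linarith
  calc Real.sqrt t * Real.exp (-(4 * Real.pi ^ 2 * t))
      ≤ Real.exp (4 * Real.pi ^ 2 * t) * Real.exp (-(4 * Real.pi ^ 2 * t)) := by
        gcongr; linarith
    _ = 1 := by rw [← Real.exp_add]; simp

lemma tail_int {T : Md → V3} (hT0 : T 0 = 0) {δ : ℝ≥0∞} (hδ : δ ≠ ⊤) (hT : ∑' k, ‖T k‖ₑ ≤ δ)
    {q : ℝ} (hq : 1 ≤ q) :
    ∫⁻ t in Ioi (0:ℝ), HHe T t ^ q * ENNReal.ofReal (1 / t) ≤ δ ^ q := by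
  have hpi := Real.pi_gt_three
  calc ∫⁻ t in Ioi (0:ℝ), HHe T t ^ q * ENNReal.ofReal (1 / t)
      ≤ ∫⁻ t in Ioi (0:ℝ), δ ^ q * (ENNReal.ofReal (Real.sqrt t *
          Real.exp (-((4 * Real.pi ^ 2) * t))) * ENNReal.ofReal (1 / t)) := by
        refine setLIntegral_mono' measurableSet_Ioi fun t ht => ?_
        have ht0 : 0 ≤ t := le_of_lt ht
        rw [← mul_assoc]
        gcongr
        calc HHe T t ^ q ≤ (ENNReal.ofReal (Real.sqrt t * Real.exp (-(4 * Real.pi ^ 2 * t))) * δ) ^ q :=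
              ENNReal.rpow_le_rpow (HHe_tail hT0 hT ht0) (by linarith)
          _ = ENNReal.ofReal (Real.sqrt t * Real.exp (-(4 * Real.pi ^ 2 * t))) ^ q * δ ^ q :=
              ENNReal.mul_rpow_of_nonneg _ _ (by linarith)
          _ ≤ ENNReal.ofReal (Real.sqrt t * Real.exp (-(4 * Real.pi ^ 2 * t))) ^ (1:ℝ) * δ ^ q := by
              gcongr ?_ * _
              refine ENNReal.rpow_le_rpow_of_exponent_ge ?_ hq
              rw [← ENNReal.ofReal_one]
              exact ENNReal.ofReal_le_ofReal (sqrt_exp_le ht0)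
          _ = _ := by rw [ENNReal.rpow_one, mul_comm]
    _ = δ ^ q * ENNReal.ofReal (Real.sqrt (Real.pi / (4 * Real.pi ^ 2))) := by
        rw [lintegral_const_mul' _ _ (ENNReal.rpow_ne_top_of_nonneg (by linarith) hδ),
          exp_int (by positivity)]
    _ ≤ δ ^ q * 1 := by
        gcongr
        rw [← ENNReal.ofReal_one]
        refine ENNReal.ofReal_le_ofReal ?_
        rw [Real.sqrt_le_one]
        rw [div_le_one (by positivity)]
        nlinarith
    _ = δ ^ q := mul_one _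

lemma fld_series {m : R3} {v : Md → V3} (hv : (Function.support v).Finite)
    (hvS : ∀ k, v (-k) = conjV (v k)) (i : Fin 3) :
    (Summable fun k => v k i + if k = 0 then ((m i : ℝ) : ℂ) else 0) ∧
    ∀ x, ((fld m v x i : ℝ) : ℂ) = ∑' k, (v k i + if k = 0 then ((m i : ℝ) : ℂ) else 0) * ee k x := by
  have s1 : Summable fun k => v k i := by
    refine summable_of_hasFiniteSupport (hv.subset fun k hk => ?_)
    intro h; exact hk (by show v k i = 0; rw [h]; rfl)
  have s2 : Summable fun k : Md => if k = 0 then ((m i : ℝ) : ℂ) else 0 :=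
    (hasSum_ite_eq (0 : Md) ((m i : ℝ) : ℂ)).summable
  refine ⟨s1.add s2, fun x => ?_⟩
  have s1' : Summable fun k => v k i * ee k x := by
    refine Summable.of_norm_bounded s1.norm fun k => ?_
    rw [norm_mul, ee_norm, mul_one]
  have s2' : HasSum (fun k : Md => (if k = 0 then ((m i : ℝ) : ℂ) else 0) * ee k x) ((m i : ℝ) : ℂ) := by
    have e : (fun k : Md => (if k = 0 then ((m i : ℝ) : ℂ) else 0) * ee k x) =
        fun k => if k = 0 then ((m i : ℝ) : ℂ) else 0 := by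
      funext k
      by_cases h : k = 0
      · subst h; simp [ee_zero]
      · simp [h]
    rw [e]; exact hasSum_ite_eq _ _
  have h1 := Fs_real (f := fun k _ => v k i) (fun k _ => by rw [hvS k]; rfl) x 0
  unfold Fs at h1
  unfold fld
  push_cast
  rw [h1]
  simp_rw [add_mul]
  rw [s1'.tsum_add s2'.summable, s2'.tsum_eq, add_comm]

lemma fld_smooth {m : R3} {v : Md → V3} (hv : (Function.support v).Finite) :
    ContDiff ℝ ∞ (fld m v) := by
  refine contDiff_pi.2 fun i => ?_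
  have e : (fun x => fld m v x i) = fun x => m i + (∑ k ∈ hv.toFinset, v k i * ee k x).re := by
    funext x
    unfold fld
    congr 2
    refine tsum_eq_sum fun k hk => ?_
    have : v k = 0 := by simpa using hk
    rw [this]; simp
  rw [e]
  refine contDiff_const.add (Complex.reCLM.contDiff.comp ?_)
  refine ContDiff.sum fun k _ => contDiff_const.mul ?_
  have : ee k = fun x : R3 => Complex.exp (2 * Real.pi * Complex.I * ∑ a, (k a : ℂ) * (x a : ℂ)) := rfl
  rw [this]
  refine Complex.contDiff_exp.comp (contDiff_const.mul (ContDiff.sum fun a _ => contDiff_const.mul ?_))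
  exact Complex.ofRealCLM.contDiff.comp (contDiff_apply ℝ ℝ a)

lemma fld_per (m : R3) (v : Md → V3) (x : R3) (j : Fin 3) :
    fld m v (x + Pi.single j 1) = fld m v x := by
  unfold fld; simp_rw [ee_per]

lemma Fs_le {f : Md → ℝ → ℂ} {w : Md → ℝ → V3} {t : ℝ} (hs : Summable fun k => ‖w k t‖)
    (hf : ∀ k, ‖f k t‖ ≤ ‖w k t‖) (x : R3) : |(Fs f x t).re| ≤ ∑' k, ‖w k t‖ := by
  have h1 : ∀ k, ‖f k t * ee k x‖ ≤ ‖w k t‖ := fun k => by
    rw [norm_mul, ee_norm, mul_one]; exact hf k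
  have h2 : Summable fun k => ‖f k t * ee k x‖ :=
    Summable.of_nonneg_of_le (fun _ => norm_nonneg _) h1 hs
  calc |(Fs f x t).re| ≤ ‖Fs f x t‖ := Complex.abs_re_le_norm _
    _ ≤ ∑' k, ‖f k t * ee k x‖ := norm_tsum_le_tsum_norm h2
    _ ≤ _ := h2.tsum_le_tsum h1 hs

/-- The density theorem. -/
theorem density (ν : ℝ) (hν : 0 < ν) (u₀ : R3 → R3) (hu : Datum u₀) (q : ℝ) (hq : 2 < q)
    (ε : ℝ) (hε : 0 < ε) (δ : ℝ) (hδ : 0 < δ) (N : ℕ) :
    ∃ v₀ : R3 → R3, Datum v₀ ∧
      {k : Fin 3 → ℤ | ∃ i, coef (fun x => v₀ x i) k ≠ 0}.Finite ∧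
      (∀ (i : Fin 3) (k : Fin 3 → ℤ), (∀ j, |k j| ≤ N) →
        coef (fun x => v₀ x i) k = coef (fun x => u₀ x i) k) ∧
      (∀ t, 0 < t → bN (v₀ - u₀) t ≤ ENNReal.ofReal ε) ∧
      besov q (v₀ - u₀) ≤ ENNReal.ofReal ε ∧
      ∃ (u : R3 → ℝ → R3) (p : R3 → ℝ → ℝ), GlobalSol ν v₀ u p ∧
        ∀ x t, δ ≤ t → ‖u x t - fun i => ∫ y in Icc (0 : R3) 1, u₀ y i‖ ≤ ε := by
  have hτ0 := hδ
  clear hδ
  obtain ⟨τ, hτ⟩ : ∃ τ : ℝ, τ = δ := ⟨δ, rfl⟩
  rw [← hτ] at hτ0 ⊢
  clear hτ δ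
  classical
  set c : ℝ := 4 * Real.pi ^ 2 * ν with hcdef
  have hc : 0 < c := by positivity
  have hε2 : 0 < ε / 2 := by linarith
  set δ : ℝ≥0∞ := ENNReal.ofReal (ε / 2) with hδ
  have hδ0 : 0 < δ := ENNReal.ofReal_pos.2 hε2
  obtain ⟨F, hFs, hFN, hFt⟩ := exists_trunc hu N hδ0
  have h0F : (0 : Md) ∈ F := hFN 0 (by simp)
  set V : Md → V3 := fun k => if k ∈ F ∧ k ≠ 0 then uh u₀ k else 0 with hV
  have hVf : (Function.support V).Finite := by
    refine F.finite_toSet.subset fun k hk => ?_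
    by_contra h
    exact hk (by simp only [hV]; rw [if_neg (fun h' => h h'.1)])
  have hFs' : ∀ k, -k ∈ F ↔ k ∈ F := fun k =>
    ⟨fun h => by simpa using hFs _ h, fun h => hFs k h⟩
  have hVs : ∀ k, V (-k) = conjV (V k) := by
    intro k
    simp only [hV]
    by_cases h : k ∈ F ∧ k ≠ 0
    · rw [if_pos h, if_pos ⟨(hFs' k).2 h.1, neg_ne_zero.2 h.2⟩, uh_sym]
    · rw [if_neg h, if_neg, map_zero]
      rintro ⟨h1, h2⟩
      exact h ⟨(hFs' k).1 h1, neg_ne_zero.1 h2⟩
  have hVd : ∀ k, dotk k (V k) = 0 := by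
    intro k
    simp only [hV]
    split_ifs
    · exact hu.uh_div k
    · simp [dotk]
  have hV0 : V 0 = 0 := by simp [hV]
  set ε₁ : ℝ := min (ε / 2) ((ε / 2) ^ q) with hε₁
  have hε₁0 : 0 < ε₁ := lt_min hε2 (Real.rpow_pos_of_pos hε2 q)
  set Kc : ℝ := 24 * Real.pi / Real.sqrt c * Real.sqrt (Real.pi / (c / 2)) with hKc
  have hKc0 : 0 < Kc := by
    have := Real.pi_pos
    rw [hKc]; positivity
  set η : ℝ := min (ε / 2) (1 / (8 * Kc)) with hη
  have hη0 : 0 < η := lt_min hε2 (by positivity)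
  have hηK : Kc * (4 * η) ≤ 1 / 2 := by
    calc Kc * (4 * η) ≤ Kc * (4 * (1 / (8 * Kc))) := by
          gcongr; exact min_le_right _ _
      _ = 1 / 2 := by field_simp; norm_num
  have ht1 : 0 < τ / 2 := by linarith
  obtain ⟨W, ⟨u, hsol, hTN⟩, hWf, hWs, hWd, hWl, hWsup, hWint⟩ :=
    build2 hc hVf hVs hVd hV0 N hq hε₁0 (κ := η * Real.sqrt (τ / 2) / 2) (by positivity) ht1
  have hW0 : W 0 = 0 := hWl 0 (by simp)
  set v : Md → V3 := V + W with hv
  have hvf : (Function.support v).Finite := supp_add hVf hWf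
  have hv0 : v 0 = 0 := by rw [hv, Pi.add_apply, hV0, hW0, add_zero]
  have hvs : ∀ k, v (-k) = conjV (v k) := fun k => by
    rw [hv, Pi.add_apply, Pi.add_apply, hVs, hWs, map_add]
  have hvd : ∀ k, dotk k (v k) = 0 := fun k => by
    rw [hv, Pi.add_apply, dotk_add, hVd, hWd, add_zero]
  obtain ⟨C, hC⟩ := expdec_of_fin hvf
  set m : R3 := fun i => (uh u₀ 0 i).re with hm
  have hG := globalSol_of_isSol hc hsol hv0 one_pos hC hvs hvd rfl m
  -- real zero mode
  have hm0 : ∀ i, ((m i : ℝ) : ℂ) = uh u₀ 0 i := by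
    intro i
    rw [hm]
    have := congrFun (uh_sym (u₀ := u₀) 0) i
    rw [neg_zero, conjV_apply] at this
    exact Complex.conj_eq_iff_re.1 this.symm
  -- coefficients
  have hser := fun i => fld_series (m := m) hvf hvs i
  set D : Md → V3 := fun k i => (v k i + if k = 0 then ((m i : ℝ) : ℂ) else 0) - uh u₀ k i with hD
  have hcD : ∀ k i, coef (fun y => (fld m v - u₀) y i) k = D k i := by
    intro k i
    have hus := hu.summable i
    refine coef_S ((hser i).1.sub hus) (fun x => ?_) k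
    have e1 := (hser i).2 x
    have e2 := hu.series i x
    have s1 : Summable fun k => (v k i + if k = 0 then ((m i : ℝ) : ℂ) else 0) * ee k x := by
      refine Summable.of_norm_bounded (hser i).1.norm fun k => ?_
      rw [norm_mul, ee_norm, mul_one]
    have s2 : Summable fun k => coef (fun x => u₀ x i) k * ee k x := by
      refine Summable.of_norm_bounded hus.norm fun k => ?_
      rw [norm_mul, ee_norm, mul_one]
    have e3 : (((fld m v - u₀) x i : ℝ) : ℂ) = ((fld m v x i : ℝ) : ℂ) - ((u₀ x i : ℝ) : ℂ) := by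
      rw [Pi.sub_apply, Pi.sub_apply]; push_cast; rfl
    rw [e3, e1, e2, ← s1.tsum_sub s2]
    exact tsum_congr fun k => by ring
  set T : Md → V3 := fun k => if k ∈ F then 0 else uh u₀ k with hT
  have hDW : ∀ k, D k = W k - T k := by
    intro k
    funext i
    simp only [hD, hT, hv, hV, Pi.add_apply, Pi.sub_apply]
    by_cases h0 : k = 0
    · subst h0
      rw [if_neg (fun h => h.2 rfl), if_pos rfl, if_pos h0F, hm0]
      simp
    · rw [if_neg h0]
      by_cases hF : k ∈ F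
      · rw [if_pos ⟨hF, h0⟩, if_pos hF]; simp
      · rw [if_neg (fun h => hF h.1), if_neg hF]; simp
  have hT0 : T 0 = 0 := by simp [hT, h0F]
  have hTn : ∑' k, ‖(-T) k‖ₑ ≤ δ := by
    refine le_trans (le_of_eq ?_) hFt
    exact tsum_congr fun k => by rw [Pi.neg_apply, enorm_neg]
  have hTn0 : (-T) 0 = 0 := by rw [Pi.neg_apply, hT0, neg_zero]
  have hDe : D = W + (-T) := by
    funext k; rw [hDW k, Pi.add_apply, Pi.neg_apply, sub_eq_add_neg]
  have hbN : ∀ t, bN (fld m v - u₀) t ≤ HHe W t + HHe (-T) t := by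
    intro t
    refine (bN_le hcD t).trans ?_
    rw [hDe]; exact HHe_add_le _ _ _
  have hdatum : Datum (fld m v) := by
    refine ⟨fld_smooth hvf, fld_per m v, fun x => ?_⟩
    have h1 := hG.divfree x 0 le_rfl
    have h2 : ∀ y, _ = fld m v y := hG.initial
    refine Eq.trans (Finset.sum_congr rfl fun j _ => ?_) h1
    congr 1
    funext y
    rw [← h2 y]
  have hcoef : ∀ i k, coef (fun x => fld m v x i) k = v k i + if k = 0 then ((m i : ℝ) : ℂ) else 0 :=
    fun i k => coef_S (hser i).1 (hser i).2 k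
  have hmean : (fun i => ∫ y in Icc (0 : R3) 1, u₀ y i) = m := by
    funext i
    have h1 : uh u₀ 0 i = ((∫ y in Icc (0 : R3) 1, u₀ y i : ℝ) : ℂ) := by
      unfold uh coef
      rw [← integral_complex_ofReal]
      congr 1
      funext x
      simp
    have h2 : ((m i : ℝ) : ℂ) = ((∫ y in Icc (0 : R3) 1, u₀ y i : ℝ) : ℂ) := by rw [hm0 i, h1]
    exact (Complex.ofReal_injective h2).symm
  refine ⟨fld m v, hdatum, ?_, ?_, ?_, ?_, _, _, hG, ?_⟩
  · refine (hvf.union (finite_singleton (0 : Md))).subset ?_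
    rintro k ⟨i, hi⟩
    by_contra hk
    simp only [mem_union, Function.mem_support, mem_singleton_iff, not_or, not_not] at hk
    apply hi
    rw [hcoef, hk.1, if_neg hk.2]; simp
  · intro i k hk
    have hkF := hFN k hk
    have h1 : D k i = 0 := by rw [hDW k, hWl k hk, hT]; simp [hkF]
    rw [hcoef]
    exact sub_eq_zero.1 h1
  · intro t ht
    refine (hbN t).trans ?_
    calc HHe W t + HHe (-T) t ≤ ENNReal.ofReal (ε / 2) + ENNReal.ofReal (ε / 2) := by
          refine add_le_add ((hWsup t ht.le).trans (ENNReal.ofReal_le_ofReal (min_le_left _ _))) ?_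
          refine (HHe_tail hTn0 hTn ht.le).trans ?_
          calc _ ≤ 1 * δ := by
                gcongr
                rw [← ENNReal.ofReal_one]
                exact ENNReal.ofReal_le_ofReal (sqrt_exp_le ht.le)
            _ = _ := one_mul _
      _ = ENNReal.ofReal ε := by
          rw [← ENNReal.ofReal_add hε2.le hε2.le]; congr 1; ring
  · unfold besov
    have hq0 : 0 < q := by linarith
    have key : ∫⁻ t in Ioi (0:ℝ), bN (fld m v - u₀) t ^ q * ENNReal.ofReal (1 / t) ≤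
        ENNReal.ofReal ε ^ q := by
      calc ∫⁻ t in Ioi (0:ℝ), bN (fld m v - u₀) t ^ q * ENNReal.ofReal (1 / t)
          ≤ ∫⁻ t in Ioi (0:ℝ), 2 ^ (q - 1) * (HHe W t ^ q * ENNReal.ofReal (1 / t) +
              HHe (-T) t ^ q * ENNReal.ofReal (1 / t)) := by
            refine lintegral_mono fun t => ?_
            rw [← add_mul, ← mul_assoc]
            gcongr
            exact (ENNReal.rpow_le_rpow (hbN t) hq0.le).trans
              (ENNReal.rpow_add_le_mul_rpow_add_rpow _ _ (by linarith))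
        _ = 2 ^ (q - 1) * ∫⁻ t in Ioi (0:ℝ), (HHe W t ^ q * ENNReal.ofReal (1 / t) +
              HHe (-T) t ^ q * ENNReal.ofReal (1 / t)) :=
            lintegral_const_mul' _ _ (ENNReal.rpow_ne_top_of_nonneg (by linarith) (by norm_num))
        _ = 2 ^ (q - 1) * ((∫⁻ t in Ioi (0:ℝ), HHe W t ^ q * ENNReal.ofReal (1 / t)) +
              ∫⁻ t in Ioi (0:ℝ), HHe (-T) t ^ q * ENNReal.ofReal (1 / t)) := by
            have hmeas : Measurable fun t : ℝ => HHe W t ^ q * ENNReal.ofReal (1 / t) :=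
              ((HHe_measurable W).pow_const q).mul (by fun_prop)
            rw [lintegral_add_left hmeas]
        _ ≤ 2 ^ (q - 1) * (ENNReal.ofReal ((ε / 2) ^ q) + ENNReal.ofReal ((ε / 2) ^ q)) := by
            gcongr
            · exact hWint.trans (ENNReal.ofReal_le_ofReal (min_le_right _ _))
            · refine (tail_int hTn0 ENNReal.ofReal_ne_top hTn (by linarith)).trans ?_
              rw [ENNReal.ofReal_rpow_of_nonneg hε2.le hq0.le]
        _ = ENNReal.ofReal ε ^ q := by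
            have h2 : (2:ℝ≥0∞) ^ (q - 1) = ENNReal.ofReal ((2:ℝ) ^ (q - 1)) := by
              rw [← ENNReal.ofReal_rpow_of_nonneg (by norm_num) (by linarith)]
              norm_num
            have hp : 0 ≤ (ε / 2) ^ q := Real.rpow_nonneg hε2.le q
            rw [h2, ← ENNReal.ofReal_add hp hp, ← ENNReal.ofReal_mul (by positivity),
              ENNReal.ofReal_rpow_of_nonneg hε.le hq0.le]
            congr 1
            rw [Real.div_rpow hε.le (by norm_num), Real.rpow_sub (by norm_num), Real.rpow_one]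
            have : (2:ℝ) ^ q ≠ 0 := (Real.rpow_pos_of_pos (by norm_num) q).ne'
            field_simp
            ring
    calc (∫⁻ t in Ioi (0:ℝ), bN (fld m v - u₀) t ^ q * ENNReal.ofReal (1 / t)) ^ (1 / q)
        ≤ (ENNReal.ofReal ε ^ q) ^ (1 / q) := ENNReal.rpow_le_rpow key (by positivity)
      _ = ENNReal.ofReal ε := by
          rw [← ENNReal.rpow_mul, mul_one_div_cancel hq0.ne', ENNReal.rpow_one]
  · intro x t ht
    rw [hmean]
    obtain ⟨hsm1, hsm2⟩ := small_after hc hsol hv0 one_pos hC hη0 hηK ht1 hTN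
      (t := t) (by linarith)
    rw [pi_norm_le_iff_of_nonneg hε.le]
    intro i
    rw [Pi.sub_apply, add_sub_cancel_left, Real.norm_eq_abs]
    refine (Fs_le (f := osc m fun k t => ub c v u k t i) (w := ub c v u) hsm1 (fun k => ?_) x).trans ?_
    · rw [osc, norm_mul, oe_norm, one_mul]
      exact norm_le_pi_norm (ub c v u k t) i
    · have : η ≤ ε / 2 := min_le_left _ _
      linarith

end H754R3.NSD
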